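import Mathlib

set_option autoImplicit false

namespace H75R3

open Finset Filter Topology

section abs

variable {E : Type*} [NormedAddCommGroup E] [NormedSpace ℂ E]

theorem coord_fin (e : ℕ → E) (φ : ℕ → E →L[ℂ] ℂ)
    (hbi : ∀ m k, φ m (e k) = if m = k then 1 else 0) (s : Finset ℕ) (a : ℕ → ℂ) (m : ℕ) :
    φ m (∑ k ∈ s, a k • e k) = if m ∈ s then a m else 0 := by
  rw [map_sum]
  simp only [map_smul, hbi, smul_eq_mul, mul_ite, mul_one, mul_zero]
  rw [Finset.sum_ite_eq]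

theorem mem_span_fin (e : ℕ → E) (x : E) (hx : x ∈ Submodule.span ℂ (Set.range e)) :
    ∃ (s : Finset ℕ) (a : ℕ → ℂ), x = ∑ m ∈ s, a m • e m := by
  rw [Finsupp.mem_span_range_iff_exists_finsupp] at hx
  obtain ⟨c, rfl⟩ := hx
  exact ⟨c.support, c, rfl⟩

theorem proj_bound (e : ℕ → E) (φ : ℕ → E →L[ℂ] ℂ) (C : ℝ)
    (hbi : ∀ m k, φ m (e k) = if m = k then 1 else 0)
    (hdense : Dense (Submodule.span ℂ (Set.range e) : Set E))
    (hfin : ∀ (t s : Finset ℕ) (a : ℕ → ℂ), t ⊆ s →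
      ‖∑ m ∈ t, a m • e m‖ ≤ C * ‖∑ m ∈ s, a m • e m‖) (t : Finset ℕ) (x : E) :
    ‖∑ m ∈ t, φ m x • e m‖ ≤ C * ‖x‖ := by
  have hcl : IsClosed {x : E | ‖∑ m ∈ t, φ m x • e m‖ ≤ C * ‖x‖} := by
    apply isClosed_le
    · apply Continuous.norm
      apply continuous_finsetSum
      intro m _
      exact ((φ m).continuous).smul continuous_const
    · exact continuous_const.mul continuous_norm
  have hsub : (Submodule.span ℂ (Set.range e) : Set E) ⊆
      {x : E | ‖∑ m ∈ t, φ m x • e m‖ ≤ C * ‖x‖} := by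
    intro y hy
    obtain ⟨s, a, rfl⟩ := mem_span_fin e y hy
    show ‖∑ m ∈ t, φ m (∑ m ∈ s, a m • e m) • e m‖ ≤ C * ‖∑ m ∈ s, a m • e m‖
    have h1 : ∑ m ∈ t, φ m (∑ m ∈ s, a m • e m) • e m = ∑ m ∈ t ∩ s, a m • e m := by
      rw [← Finset.filter_mem_eq_inter, Finset.sum_filter]
      refine Finset.sum_congr rfl fun m _ => ?_
      rw [coord_fin e φ hbi]
      split_ifs <;> simp
    rw [h1]
    exact hfin _ _ _ Finset.inter_subset_right
  have := closure_minimal hsub hcl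
  exact this (hdense x)

theorem hasSum_expansion (e : ℕ → E) (φ : ℕ → E →L[ℂ] ℂ) (C : ℝ)
    (hbi : ∀ m k, φ m (e k) = if m = k then 1 else 0)
    (hdense : Dense (Submodule.span ℂ (Set.range e) : Set E))
    (hfin : ∀ (t s : Finset ℕ) (a : ℕ → ℂ), t ⊆ s →
      ‖∑ m ∈ t, a m • e m‖ ≤ C * ‖∑ m ∈ s, a m • e m‖) (x : E) :
    HasSum (fun m => φ m x • e m) x := by
  have hb := proj_bound e φ C hbi hdense hfin
  rw [HasSum, SummationFilter.unconditional_filter, Metric.tendsto_atTop]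
  intro ε hε
  have hC1 : 0 < |C| + 2 := by positivity
  obtain ⟨y, hy, hxy⟩ := Metric.mem_closure_iff.mp (hdense x) (ε / (|C| + 2)) (by positivity)
  obtain ⟨s, a, rfl⟩ := mem_span_fin e y hy
  refine ⟨s, fun t ht => ?_⟩
  set y := ∑ m ∈ s, a m • e m with hyd
  have h1 : ∑ m ∈ t, φ m y • e m = y := by
    have h2 : ∑ m ∈ t, φ m y • e m = ∑ m ∈ s, φ m y • e m := by
      symm
      apply Finset.sum_subset ht
      intro m _ hm
      rw [hyd, coord_fin e φ hbi, if_neg hm, zero_smul]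
    rw [h2, hyd]
    refine Finset.sum_congr rfl fun m hm => ?_
    rw [coord_fin e φ hbi, if_pos hm]
  rw [dist_eq_norm] at hxy ⊢
  have h3 : ∑ m ∈ t, φ m x • e m - x = ∑ m ∈ t, φ m (x - y) • e m - (x - y) := by
    have : ∑ m ∈ t, φ m (x - y) • e m = ∑ m ∈ t, φ m x • e m - ∑ m ∈ t, φ m y • e m := by
      rw [← Finset.sum_sub_distrib]
      refine Finset.sum_congr rfl fun m _ => ?_
      rw [map_sub, sub_smul]
    rw [this, h1]
    abel
  rw [h3]
  calc ‖∑ m ∈ t, φ m (x - y) • e m - (x - y)‖ ≤ ‖∑ m ∈ t, φ m (x - y) • e m‖ + ‖x - y‖ :=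
        norm_sub_le _ _
    _ ≤ C * ‖x - y‖ + ‖x - y‖ := by linarith [hb t (x - y)]
    _ ≤ (|C| + 2) * ‖x - y‖ := by
        nlinarith [le_abs_self C, norm_nonneg (x - y)]
    _ < (|C| + 2) * (ε / (|C| + 2)) := by
        exact mul_lt_mul_of_pos_left hxy hC1
    _ = ε := by field_simp

theorem unique_expansion (e : ℕ → E) (φ : ℕ → E →L[ℂ] ℂ)
    (hbi : ∀ m k, φ m (e k) = if m = k then 1 else 0) (x : E) (a : ℕ → ℂ)
    (h : HasSum (fun m => a m • e m) x) (k : ℕ) : a k = φ k x := by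
  have h1 := (φ k).hasSum h
  have h2 : (fun m => φ k (a m • e m)) = fun m => if m = k then a m else 0 := by
    funext m
    rw [map_smul, hbi, smul_eq_mul]
    rcases eq_or_ne m k with h | h
    · simp [h]
    · rw [if_neg (Ne.symm h), if_neg h, mul_zero]
  have h3 : HasSum (fun m => if m = k then a m else 0) (a k) := by
    have := hasSum_single (f := fun m => if m = k then a m else 0) k (by
      intro m hm; rw [if_neg hm])
    simpa using this
  have h4 : HasSum (fun m => if m = k then a m else 0) (φ k x) := by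
    rw [← h2]; exact h1
  exact h3.unique h4

variable {E' : Type*} [NormedAddCommGroup E'] [NormedSpace ℂ E'] [CompleteSpace E']

theorem exists_op [CompleteSpace E] (e : ℕ → E) (φ : ℕ → E →L[ℂ] ℂ)
    (hbi : ∀ m k, φ m (e k) = if m = k then 1 else 0)
    (hsum : ∀ x, HasSum (fun m => φ m x • e m) x) (v : ℕ → E') (C : ℝ) (hC : 0 ≤ C)
    (hv : ∀ (t : Finset ℕ) (a : ℕ → ℂ), ‖∑ m ∈ t, a m • v m‖ ≤ C * ‖∑ m ∈ t, a m • e m‖) :
    ∃ A : E →L[ℂ] E', (∀ m, A (e m) = v m) ∧ ‖A‖ ≤ C := by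
  have hs : ∀ x, Summable (fun m => φ m x • v m) := by
    intro x
    rw [summable_iff_vanishing_norm]
    intro ε hε
    have h1 := (summable_iff_vanishing_norm.mp (hsum x).summable) (ε / (C + 1)) (by positivity)
    obtain ⟨s, hs⟩ := h1
    refine ⟨s, fun t ht => ?_⟩
    have h2 := hs t ht
    have h3 := hv t (fun m => φ m x)
    calc ‖∑ m ∈ t, φ m x • v m‖ ≤ C * ‖∑ m ∈ t, φ m x • e m‖ := h3
      _ ≤ (C + 1) * ‖∑ m ∈ t, φ m x • e m‖ := by nlinarith [norm_nonneg (∑ m ∈ t, φ m x • e m)]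
      _ < (C + 1) * (ε / (C + 1)) := mul_lt_mul_of_pos_left h2 (by positivity)
      _ = ε := by field_simp
  let A : E →ₗ[ℂ] E' :=
    { toFun := fun x => ∑' m, φ m x • v m
      map_add' := by
        intro x y
        rw [← (hs x).tsum_add (hs y)]
        refine tsum_congr fun m => ?_
        rw [map_add, add_smul]
      map_smul' := by
        intro c x
        rw [RingHom.id_apply, ← (hs x).tsum_const_smul c]
        refine tsum_congr fun m => ?_
        rw [map_smul, smul_smul, smul_eq_mul] }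
  have hA : ∀ x, ‖A x‖ ≤ C * ‖x‖ := by
    intro x
    have h1 : Tendsto (fun t : Finset ℕ => ‖∑ m ∈ t, φ m x • v m‖) atTop (𝓝 ‖A x‖) := by
      apply Tendsto.norm
      have := (hs x).hasSum
      rwa [HasSum, SummationFilter.unconditional_filter] at this
    have h2 : Tendsto (fun t : Finset ℕ => C * ‖∑ m ∈ t, φ m x • e m‖) atTop (𝓝 (C * ‖x‖)) := by
      apply Tendsto.const_mul
      apply Tendsto.norm
      have := hsum x
      rwa [HasSum, SummationFilter.unconditional_filter] at this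
    exact le_of_tendsto_of_tendsto' h1 h2 (fun t => hv t _)
  refine ⟨A.mkContinuous C hA, ?_, LinearMap.mkContinuous_norm_le _ hC _⟩
  intro k
  rw [LinearMap.mkContinuous_apply]
  show ∑' m, φ m (e k) • v m = v k
  rw [tsum_eq_single k]
  · rw [hbi, if_pos rfl, one_smul]
  · intro m hm
    rw [hbi, if_neg hm, zero_smul]

/-- two bounded operators which agree on the basis are equal -/
theorem ext_basis (e : ℕ → E) (φ : ℕ → E →L[ℂ] ℂ)
    (hsum : ∀ x, HasSum (fun m => φ m x • e m) x) {E' : Type*} [NormedAddCommGroup E']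
    [NormedSpace ℂ E'] (A B : E →L[ℂ] E') (h : ∀ m, A (e m) = B (e m)) : A = B := by
  ext x
  have h1 := A.hasSum (hsum x)
  have h2 := B.hasSum (hsum x)
  have h3 : (fun m => A (φ m x • e m)) = fun m => B (φ m x • e m) := by
    funext m
    rw [map_smul, map_smul, h]
  rw [h3] at h1
  exact h1.unique h2

/-- reduction of bounds to initial segments -/
theorem fin_reduce (e : ℕ → E) {E' : Type*} [NormedAddCommGroup E']
    [NormedSpace ℂ E'] (v : ℕ → E') (C : ℝ)
    (h : ∀ (n : ℕ) (a : ℕ → ℂ), (∀ m, 2 ^ n ≤ m → a m = 0) →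
      ‖∑ m ∈ range (2 ^ n), a m • v m‖ ≤ C * ‖∑ m ∈ range (2 ^ n), a m • e m‖)
    (t : Finset ℕ) (a : ℕ → ℂ) : ‖∑ m ∈ t, a m • v m‖ ≤ C * ‖∑ m ∈ t, a m • e m‖ := by
  obtain ⟨n, hn⟩ : ∃ n, t ⊆ range (2 ^ n) := by
    refine ⟨t.sup id + 1, fun m hm => ?_⟩
    rw [Finset.mem_range]
    have h1 : m ≤ t.sup id := Finset.le_sup (f := id) hm
    have h2 : t.sup id + 1 < 2 ^ (t.sup id + 1) := Nat.lt_two_pow_self
    omega
  have h1 := h n (fun m => if m ∈ t then a m else 0) (by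
    intro m hm
    show (if m ∈ t then a m else 0) = 0
    rw [if_neg]
    intro hmt
    have := Finset.mem_range.mp (hn hmt)
    omega)
  simp only [ite_smul, zero_smul] at h1
  rw [← Finset.sum_filter, ← Finset.sum_filter, Finset.filter_mem_eq_inter,
    Finset.inter_eq_right.mpr hn] at h1
  exact h1

end abs

end H75R3
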