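import Mathlib

set_option autoImplicit false

namespace H75R3

open Finset MeasureTheory intervalIntegral Filter Topology

/-- supergradient property along subordinate directions -/
def SGP (β : ℝ → ℝ → ℝ) : Prop :=
  (∀ x y, |y| ≤ |x| → β x y ≤ 0) ∧
  ∀ x y, ∃ φ ψ : ℝ, ∀ h k : ℝ, |k| ≤ |h| → β (x + h) (y + k) ≤ β x y + φ * h + ψ * k

noncomputable def bt1 (t x y : ℝ) : ℝ := if |x| + |y| ≤ t then 0 else (|y| - t) ^ 2 - x ^ 2

noncomputable def ct1 (t x y : ℝ) : ℝ := if |x| + |y| ≤ t then y ^ 2 - x ^ 2 else t ^ 2 - 2 * t * |x|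

theorem exists_sign (y : ℝ) : ∃ ε : ℝ, (ε = 1 ∨ ε = -1) ∧ ε * y = |y| := by
  rcases le_total 0 y with h | h
  · exact ⟨1, Or.inl rfl, by rw [one_mul, abs_of_nonneg h]⟩
  · exact ⟨-1, Or.inr rfl, by rw [abs_of_nonpos h]; ring⟩

theorem sign_le {ε : ℝ} (hε : ε = 1 ∨ ε = -1) (z : ℝ) : ε * z ≤ |z| := by
  rcases hε with rfl | rfl
  · rw [one_mul]; exact le_abs_self z
  · rw [neg_one_mul]; exact neg_le_abs z

theorem sign_sq {ε : ℝ} (hε : ε = 1 ∨ ε = -1) : ε * ε = 1 := by
  rcases hε with rfl | rfl <;> norm_num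

theorem sq_le_of_abs {a b : ℝ} (h : |a| ≤ |b|) : a ^ 2 ≤ b ^ 2 := sq_le_sq.mpr h

theorem bt1_nonpos (t x y : ℝ) (ht : 0 < t) (h : |y| ≤ |x|) : bt1 t x y ≤ 0 := by
  unfold bt1
  split_ifs with hc
  · exact le_rfl
  · rw [not_le] at hc
    have h1 : (|y| - t) ^ 2 ≤ x ^ 2 := by
      apply sq_le_sq.mpr
      rw [abs_le]
      constructor <;> linarith [abs_nonneg y, abs_nonneg x]
    linarith

theorem bt1_sgp (t : ℝ) (ht : 0 < t) : SGP (bt1 t) := by
  refine ⟨fun x y h => bt1_nonpos t x y ht h, fun x y => ?_⟩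
  by_cases hin : |x| + |y| ≤ t
  · refine ⟨0, 0, fun h k hk => ?_⟩
    have e0 : bt1 t x y = 0 := by unfold bt1; rw [if_pos hin]
    rw [e0]
    simp only [zero_mul, add_zero]
    unfold bt1
    split_ifs with hc
    · exact le_rfl
    · rw [not_le] at hc
      have h1 : (|y + k| - t) ^ 2 ≤ (x + h) ^ 2 := by
        apply sq_le_sq.mpr
        rw [abs_le]
        constructor
        · linarith
        · have h2 : |y + k| ≤ |y| + |k| := abs_add_le _ _
          have h3 : |h| ≤ |x + h| + |x| := by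
            have : h = (x + h) - x := by ring
            calc |h| = |(x + h) - x| := by rw [← this]
              _ ≤ |x + h| + |x| := abs_sub _ _
          linarith
      linarith
  · obtain ⟨ε, hε, hεy⟩ := exists_sign y
    refine ⟨-2 * x, 2 * ε * (|y| - t), fun h k hk => ?_⟩
    have e0 : bt1 t x y = (|y| - t) ^ 2 - x ^ 2 := by unfold bt1; rw [if_neg hin]
    rw [e0]
    have hkk : k ^ 2 ≤ h ^ 2 := sq_le_of_abs hk
    have hee := sign_sq hε
    have expand : (|y| - t) ^ 2 - x ^ 2 + -2 * x * h + 2 * ε * (|y| - t) * k =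
        (ε * (y + k) - t) ^ 2 - (x + h) ^ 2 + (h ^ 2 - k ^ 2) := by
      have : ε * (y + k) = |y| + ε * k := by rw [mul_add, hεy]
      rw [this]
      have h4 : (ε * k) ^ 2 = k ^ 2 := by
        rw [mul_pow, sq ε, hee, one_mul]
      nlinarith [h4]
    rw [expand]
    unfold bt1
    split_ifs with hc
    · have h5 : ε * (y + k) ≤ |y + k| := sign_le hε _
      have h6 : (x + h) ^ 2 ≤ (ε * (y + k) - t) ^ 2 := by
        apply sq_le_sq.mpr
        rw [abs_of_nonpos (by linarith [abs_nonneg (x + h)] : ε * (y + k) - t ≤ 0)]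
        linarith
      linarith
    · have h5 : ε * (y + k) ≤ |y + k| := sign_le hε _
      have h7 : (|y + k| - t) ^ 2 ≤ (ε * (y + k) - t) ^ 2 := by
        have h8 : (ε * (y + k)) ^ 2 = (y + k) ^ 2 := by
          rw [mul_pow, sq ε, hee, one_mul]
        have h9 : |y + k| ^ 2 = (y + k) ^ 2 := sq_abs _
        nlinarith
      linarith

theorem ct1_nonpos (t x y : ℝ) (ht : 0 < t) (h : |y| ≤ |x|) : ct1 t x y ≤ 0 := by
  unfold ct1
  split_ifs with hc
  · have := sq_le_of_abs h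
    linarith
  · rw [not_le] at hc
    have : t ≤ 2 * |x| := by linarith
    nlinarith

theorem ct1_sgp (t : ℝ) (ht : 0 < t) : SGP (ct1 t) := by
  refine ⟨fun x y h => ct1_nonpos t x y ht h, fun x y => ?_⟩
  by_cases hin : |x| + |y| ≤ t
  · refine ⟨-2 * x, 2 * y, fun h k hk => ?_⟩
    have e0 : ct1 t x y = y ^ 2 - x ^ 2 := by unfold ct1; rw [if_pos hin]
    rw [e0]
    have hkk : k ^ 2 ≤ h ^ 2 := sq_le_of_abs hk
    unfold ct1
    split_ifs with hc
    · nlinarith
    · rw [not_le] at hc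
      have key : (t - |x + h|) ^ 2 ≤ (y + k) ^ 2 + h ^ 2 - k ^ 2 := by
        rcases le_total (|x + h|) t with hx | hx
        · have : (t - |x + h|) ^ 2 ≤ (y + k) ^ 2 := by
            apply sq_le_sq.mpr
            rw [abs_of_nonneg (by linarith)]
            linarith
          linarith
        · have h1 : |x + h| ≤ |x| + |h| := abs_add_le _ _
          have h2 : |x + h| - t ≤ |h| - |y| := by linarith
          have h3 : (t - |x + h|) ^ 2 ≤ (|h| - |y|) ^ 2 := by
            apply sq_le_sq.mpr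
            have e1 : |t - (|x + h|)| = |x + h| - t := by
              rw [abs_sub_comm]; exact abs_of_nonneg (by linarith)
            rw [e1, abs_of_nonneg (by linarith : 0 ≤ abs h - abs y)]
            exact h2
          have h4 : -(|y| * |h|) ≤ y * k := by
            have : |y * k| ≤ |y| * |h| := by
              rw [abs_mul]; exact mul_le_mul_of_nonneg_left hk (abs_nonneg _)
            linarith [neg_abs_le (y * k)]
          have h5 : |h| ^ 2 = h ^ 2 := sq_abs _
          have h6 : |y| ^ 2 = y ^ 2 := sq_abs _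
          nlinarith
      have h7 : |x + h| ^ 2 = (x + h) ^ 2 := sq_abs _
      nlinarith
  · obtain ⟨δ, hδ, hδx⟩ := exists_sign x
    refine ⟨-2 * t * δ, 0, fun h k hk => ?_⟩
    have e0 : ct1 t x y = t ^ 2 - 2 * t * |x| := by unfold ct1; rw [if_neg hin]
    rw [e0]
    have hee := sign_sq hδ
    have h5 : δ * (x + h) ≤ |x + h| := sign_le hδ _
    have h8 : (δ * (x + h)) ^ 2 = (x + h) ^ 2 := by
      rw [mul_pow, sq δ, hee, one_mul]
    have expand : t ^ 2 - 2 * t * |x| + -2 * t * δ * h + 0 * k = t ^ 2 - 2 * t * (δ * (x + h)) := by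
      rw [mul_add δ, hδx]; ring
    rw [expand]
    unfold ct1
    split_ifs with hc
    · have h6 : (y + k) ^ 2 ≤ (t - δ * (x + h)) ^ 2 := by
        apply sq_le_sq.mpr
        rw [abs_of_nonneg (by linarith [abs_nonneg (y + k)] : 0 ≤ t - δ * (x + h))]
        linarith
      nlinarith
    · nlinarith

/-- final comparison -/
theorem final_lower (p κ : ℝ) (hp : 1 < p) (hκ : 0 < κ) (x y : ℝ) :
    (1 / 2) * |y| ^ p - (κ * (1 + 2 * κ) ^ (p - 1) + (1 / 2) * (2 * κ) ^ p) * |x| ^ p ≤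
      (|y| - κ * |x|) * (|x| + |y|) ^ (p - 1) := by
  have hx := abs_nonneg x
  have hy := abs_nonneg y
  set X := |x|
  set Y := |y|
  have hp1 : 0 < p - 1 := by linarith
  have hpow : ∀ z : ℝ, 0 ≤ z → z * z ^ (p - 1) = z ^ p := by
    intro z hz
    rcases eq_or_lt_of_le hz with h | h
    · rw [← h, Real.zero_rpow (by linarith : p ≠ 0), zero_mul]
    · have : z ^ p = z ^ (1 + (p - 1)) := by congr 1; ring
      rw [this, Real.rpow_add h, Real.rpow_one]
  rcases le_total (2 * κ * X) Y with h | h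
  · have h1 : (1 / 2) * Y ≤ Y - κ * X := by linarith
    have h2 : Y ^ (p - 1) ≤ (X + Y) ^ (p - 1) := Real.rpow_le_rpow hy (by linarith) hp1.le
    have h3 : (1 / 2) * Y ^ p ≤ (Y - κ * X) * (X + Y) ^ (p - 1) := by
      calc (1 / 2) * Y ^ p = ((1 / 2) * Y) * Y ^ (p - 1) := by rw [← hpow Y hy]; ring
        _ ≤ (Y - κ * X) * (X + Y) ^ (p - 1) :=
          mul_le_mul h1 h2 (Real.rpow_nonneg hy _) (by linarith)
    have h4 : 0 ≤ (κ * (1 + 2 * κ) ^ (p - 1) + (1 / 2) * (2 * κ) ^ p) * X ^ p := by positivity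
    linarith
  · have h1 : (X + Y) ^ (p - 1) ≤ ((1 + 2 * κ) * X) ^ (p - 1) :=
      Real.rpow_le_rpow (by positivity) (by linarith) hp1.le
    rw [Real.mul_rpow (by positivity) hx] at h1
    have h2 : -(κ * (1 + 2 * κ) ^ (p - 1) * X ^ p) ≤ (Y - κ * X) * (X + Y) ^ (p - 1) := by
      have h5 : κ * X * (X + Y) ^ (p - 1) ≤ κ * X * ((1 + 2 * κ) ^ (p - 1) * X ^ (p - 1)) :=
        mul_le_mul_of_nonneg_left h1 (by positivity)
      have h6 : κ * X * ((1 + 2 * κ) ^ (p - 1) * X ^ (p - 1)) =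
          κ * (1 + 2 * κ) ^ (p - 1) * X ^ p := by
        rw [← hpow X hx]; ring
      have h7 : 0 ≤ Y * (X + Y) ^ (p - 1) := by positivity
      nlinarith
    have h3 : Y ^ p ≤ (2 * κ) ^ p * X ^ p := by
      rw [← Real.mul_rpow (by positivity) hx]
      exact Real.rpow_le_rpow hy h (by linarith)
    linarith

end H75R3
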