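import Pool.Agent.H75R3.Burk

set_option autoImplicit false

namespace H75R3

open Finset MeasureTheory intervalIntegral Filter Topology

theorem rpow_mul_pos {t : ℝ} (ht : 0 < t) (p : ℝ) :
    t ^ (p - 3) * t ^ 2 = t ^ (p - 1) ∧ t ^ (p - 3) * t = t ^ (p - 2) := by
  constructor
  · rw [← Real.rpow_two, ← Real.rpow_add ht]; congr 1; ring
  · calc t ^ (p - 3) * t = t ^ (p - 3) * t ^ (1 : ℝ) := by rw [Real.rpow_one]
      _ = t ^ (p - 2) := by rw [← Real.rpow_add ht]; congr 1; ring

theorem bt1_int (p : ℝ) (hp : 2 < p) (x y T : ℝ) (hT0 : 0 < T) (hT : |x| + |y| ≤ T) :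
    IntervalIntegrable (fun t => t ^ (p - 3) * bt1 t x y) volume 0 T ∧
    ∫ t in (0:ℝ)..T, t ^ (p - 3) * bt1 t x y =
      (2 / (p * (p - 1) * (p - 2))) * ((|y| - (p - 1) * |x|) * (|x| + |y|) ^ (p - 1)) := by
  set m := |x| + |y| with hm
  have hm0 : 0 ≤ m := by positivity
  set g : ℝ → ℝ := fun t => t ^ (p - 1) - (2 * |y|) * t ^ (p - 2) + (y ^ 2 - x ^ 2) * t ^ (p - 3)
    with hg
  have i1 : IntervalIntegrable (fun t : ℝ => t ^ (p - 1)) volume 0 m :=
    intervalIntegrable_rpow' (by linarith)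
  have i2 : IntervalIntegrable (fun t : ℝ => t ^ (p - 2)) volume 0 m :=
    intervalIntegrable_rpow' (by linarith)
  have i3 : IntervalIntegrable (fun t : ℝ => t ^ (p - 3)) volume 0 m :=
    intervalIntegrable_rpow' (by linarith)
  have hgi : IntervalIntegrable g volume 0 m :=
    (i1.sub (i2.const_mul _)).add (i3.const_mul _)
  have heq : ∀ t ∈ Set.Ioc 0 m, g t = t ^ (p - 3) * bt1 t x y := by
    intro t ht
    obtain ⟨h1, h2⟩ := rpow_mul_pos ht.1 p
    have hb : bt1 t x y = (|y| - t) ^ 2 - x ^ 2 := by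
      unfold bt1
      split_ifs with hc
      · have : t = m := le_antisymm ht.2 hc
        rw [this, hm]
        have : |y| - (|x| + |y|) = -|x| := by ring
        rw [this, neg_sq, sq_abs]; ring
      · rfl
    rw [hb, hg]
    simp only
    rw [← h1, ← h2]
    have h3 : |y| ^ 2 = y ^ 2 := sq_abs y
    rw [← h3]
    ring
  have hz : ∀ t ∈ Set.Ioc m T, (0 : ℝ) = t ^ (p - 3) * bt1 t x y := by
    intro t ht
    have hb : bt1 t x y = 0 := by
      unfold bt1
      rw [if_pos ht.1.le]
    rw [hb, mul_zero]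
  have j1 : IntervalIntegrable (fun t => t ^ (p - 3) * bt1 t x y) volume 0 m := by
    refine hgi.congr_ae ?_
    rw [Filter.EventuallyEq, ae_restrict_iff' measurableSet_uIoc]
    refine Eventually.of_forall fun t ht => ?_
    rw [Set.uIoc_of_le hm0] at ht
    exact heq t ht
  have j2 : IntervalIntegrable (fun t => t ^ (p - 3) * bt1 t x y) volume m T := by
    have h0 : IntervalIntegrable (fun _ : ℝ => (0:ℝ)) volume m T := intervalIntegrable_const
    refine h0.congr_ae ?_
    rw [Filter.EventuallyEq, ae_restrict_iff' measurableSet_uIoc]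
    refine Eventually.of_forall fun t ht => ?_
    rw [Set.uIoc_of_le hT] at ht
    exact hz t ht
  refine ⟨j1.trans j2, ?_⟩
  rw [← integral_add_adjacent_intervals j1 j2]
  have k1 : ∫ t in (0:ℝ)..m, t ^ (p - 3) * bt1 t x y = ∫ t in (0:ℝ)..m, g t := by
    apply intervalIntegral.integral_congr_ae
    refine Eventually.of_forall fun t ht => ?_
    rw [Set.uIoc_of_le hm0] at ht
    exact (heq t ht).symm
  have k2 : ∫ t in m..T, t ^ (p - 3) * bt1 t x y = 0 := by
    have : ∫ t in m..T, t ^ (p - 3) * bt1 t x y = ∫ t in m..T, (0:ℝ) := by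
      apply intervalIntegral.integral_congr_ae
      refine Eventually.of_forall fun t ht => ?_
      rw [Set.uIoc_of_le hT] at ht
      exact (hz t ht).symm
    rw [this, intervalIntegral.integral_zero]
  rw [k1, k2, add_zero, hg]
  rw [intervalIntegral.integral_add (i1.sub (i2.const_mul _)) (i3.const_mul _),
    intervalIntegral.integral_sub i1 (i2.const_mul _), intervalIntegral.integral_const_mul,
    intervalIntegral.integral_const_mul, integral_rpow (Or.inl (by linarith)),
    integral_rpow (Or.inl (by linarith)), integral_rpow (Or.inl (by linarith))]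
  have e1 : p - 1 + 1 = p := by ring
  have e2 : p - 2 + 1 = p - 1 := by ring
  have e3 : p - 3 + 1 = p - 2 := by ring
  rw [e1, e2, e3, Real.zero_rpow (by linarith), Real.zero_rpow (by linarith),
    Real.zero_rpow (by linarith), sub_zero, sub_zero, sub_zero]
  have hp0 : p ≠ 0 := by linarith
  have hp1 : p - 1 ≠ 0 := by linarith
  have hp2 : p - 2 ≠ 0 := by linarith
  rcases eq_or_lt_of_le hm0 with h0 | h0
  · rw [← h0, Real.zero_rpow hp0, Real.zero_rpow hp1, Real.zero_rpow hp2]
    ring
  · have e4 : m ^ p = m ^ 2 * m ^ (p - 2) := by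
      rw [← Real.rpow_two, ← Real.rpow_add h0]; congr 1; ring
    have e5 : m ^ (p - 1) = m * m ^ (p - 2) := by
      calc m ^ (p - 1) = m ^ (1 + (p - 2)) := by congr 1; ring
        _ = m * m ^ (p - 2) := by rw [Real.rpow_add h0, Real.rpow_one]
    rw [e4, e5, ← sq_abs x, ← sq_abs y, hm]
    field_simp
    ring

theorem ct1_int (p : ℝ) (hp : 1 < p) (hp2 : p < 2) (x y T : ℝ) (hT0 : 0 < T) (hT : |x| + |y| ≤ T) :
    IntervalIntegrable (fun t => t ^ (p - 3) * ct1 t x y) volume 0 T ∧
    ∫ t in (0:ℝ)..T, t ^ (p - 3) * ct1 t x y =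
      (2 / (p * (2 - p))) * ((|y| - (1 / (p - 1)) * |x|) * (|x| + |y|) ^ (p - 1)) -
        (y ^ 2 - x ^ 2) * (T ^ (p - 2) / (2 - p)) := by
  set m := |x| + |y| with hm
  have hm0 : 0 ≤ m := by positivity
  have hp0 : p ≠ 0 := by linarith
  have hp1 : p - 1 ≠ 0 := by linarith
  have hp2' : 2 - p ≠ 0 := by linarith
  have hp2'' : p - 2 ≠ 0 := by linarith
  rcases eq_or_lt_of_le hm0 with h0 | h0
  · have hx : |x| = 0 := by linarith [abs_nonneg x, abs_nonneg y]
    have hy : |y| = 0 := by linarith [abs_nonneg x, abs_nonneg y]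
    have hx' : x = 0 := abs_eq_zero.mp hx
    have hy' : y = 0 := abs_eq_zero.mp hy
    have hz : ∀ t ∈ Set.Ioc 0 T, (0 : ℝ) = t ^ (p - 3) * ct1 t x y := by
      intro t ht
      have hb : ct1 t x y = 0 := by
        unfold ct1
        rw [if_pos (by rw [hx, hy]; linarith [ht.1]), hx', hy']; ring
      rw [hb, mul_zero]
    constructor
    · have h0 : IntervalIntegrable (fun _ : ℝ => (0:ℝ)) volume 0 T := intervalIntegrable_const
      refine h0.congr_ae ?_
      rw [Filter.EventuallyEq, ae_restrict_iff' measurableSet_uIoc]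
      refine Eventually.of_forall fun t ht => ?_
      rw [Set.uIoc_of_le hT0.le] at ht
      exact hz t ht
    · have : ∫ t in (0:ℝ)..T, t ^ (p - 3) * ct1 t x y = ∫ t in (0:ℝ)..T, (0:ℝ) := by
        apply intervalIntegral.integral_congr_ae
        refine Eventually.of_forall fun t ht => ?_
        rw [Set.uIoc_of_le hT0.le] at ht
        exact (hz t ht).symm
      rw [this, intervalIntegral.integral_zero, ← h0, Real.zero_rpow hp1, hx', hy']
      ring
  set g : ℝ → ℝ := fun t => t ^ (p - 1) - (2 * |x|) * t ^ (p - 2) with hg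
  have i1 : IntervalIntegrable (fun t : ℝ => t ^ (p - 1)) volume 0 m :=
    intervalIntegrable_rpow' (by linarith)
  have i2 : IntervalIntegrable (fun t : ℝ => t ^ (p - 2)) volume 0 m :=
    intervalIntegrable_rpow' (by linarith)
  have hgi : IntervalIntegrable g volume 0 m := i1.sub (i2.const_mul _)
  have heq : ∀ t ∈ Set.Ioc 0 m, g t = t ^ (p - 3) * ct1 t x y := by
    intro t ht
    obtain ⟨h1, h2⟩ := rpow_mul_pos ht.1 p
    have hb : ct1 t x y = t ^ 2 - 2 * t * |x| := by
      unfold ct1
      split_ifs with hc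
      · have : t = m := le_antisymm ht.2 hc
        rw [this, hm, ← sq_abs x, ← sq_abs y]
        ring
      · rfl
    rw [hb, hg]
    simp only
    rw [← h1, ← h2]
    ring
  have i3 : IntervalIntegrable (fun t : ℝ => t ^ (p - 3)) volume m T := by
    apply intervalIntegrable_rpow
    right
    rw [Set.uIcc_of_le hT]
    intro h
    linarith [h.1]
  have hz : ∀ t ∈ Set.Ioc m T, (y ^ 2 - x ^ 2) * t ^ (p - 3) = t ^ (p - 3) * ct1 t x y := by
    intro t ht
    have hb : ct1 t x y = y ^ 2 - x ^ 2 := by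
      unfold ct1
      rw [if_pos ht.1.le]
    rw [hb, mul_comm]
  have j1 : IntervalIntegrable (fun t => t ^ (p - 3) * ct1 t x y) volume 0 m := by
    refine hgi.congr_ae ?_
    rw [Filter.EventuallyEq, ae_restrict_iff' measurableSet_uIoc]
    refine Eventually.of_forall fun t ht => ?_
    rw [Set.uIoc_of_le hm0] at ht
    exact heq t ht
  have j2 : IntervalIntegrable (fun t => t ^ (p - 3) * ct1 t x y) volume m T := by
    refine (i3.const_mul (y ^ 2 - x ^ 2)).congr_ae ?_
    rw [Filter.EventuallyEq, ae_restrict_iff' measurableSet_uIoc]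
    refine Eventually.of_forall fun t ht => ?_
    rw [Set.uIoc_of_le hT] at ht
    exact hz t ht
  refine ⟨j1.trans j2, ?_⟩
  rw [← integral_add_adjacent_intervals j1 j2]
  have k1 : ∫ t in (0:ℝ)..m, t ^ (p - 3) * ct1 t x y = ∫ t in (0:ℝ)..m, g t := by
    apply intervalIntegral.integral_congr_ae
    refine Eventually.of_forall fun t ht => ?_
    rw [Set.uIoc_of_le hm0] at ht
    exact (heq t ht).symm
  have k2 : ∫ t in m..T, t ^ (p - 3) * ct1 t x y = ∫ t in m..T, (y ^ 2 - x ^ 2) * t ^ (p - 3) := by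
    apply intervalIntegral.integral_congr_ae
    refine Eventually.of_forall fun t ht => ?_
    rw [Set.uIoc_of_le hT] at ht
    exact (hz t ht).symm
  rw [k1, k2, hg]
  rw [intervalIntegral.integral_sub i1 (i2.const_mul _), intervalIntegral.integral_const_mul,
    intervalIntegral.integral_const_mul, integral_rpow (Or.inl (by linarith)),
    integral_rpow (Or.inl (by linarith)), integral_rpow (Or.inr ⟨by linarith, by
      rw [Set.uIcc_of_le hT]
      intro h
      linarith [h.1]⟩)]
  have e1 : p - 1 + 1 = p := by ring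
  have e2 : p - 2 + 1 = p - 1 := by ring
  have e3 : p - 3 + 1 = p - 2 := by ring
  rw [e1, e2, e3, Real.zero_rpow (by linarith), Real.zero_rpow (by linarith), sub_zero, sub_zero]
  have e4 : m ^ p = m ^ 2 * m ^ (p - 2) := by
    rw [← Real.rpow_two, ← Real.rpow_add h0]; congr 1; ring
  have e5 : m ^ (p - 1) = m * m ^ (p - 2) := by
    calc m ^ (p - 1) = m ^ (1 + (p - 2)) := by congr 1; ring
      _ = m * m ^ (p - 2) := by rw [Real.rpow_add h0, Real.rpow_one]
  have e6 : (T ^ (p - 2) - m ^ (p - 2)) / (p - 2) = (m ^ (p - 2) - T ^ (p - 2)) / (2 - p) := by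
    rw [← neg_sub (m ^ (p - 2)), ← neg_sub 2 p, neg_div_neg_eq]
  rw [e6, e4, e5, ← sq_abs x, ← sq_abs y, hm]
  field_simp
  ring

end H75R3
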