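import Pool.Agent.H75R3.HaarBasis

set_option autoImplicit false
set_option linter.unusedSectionVars false

namespace H75R3

open Finset MeasureTheory Filter Topology
open scoped ENNReal

variable {X : Type*} [MeasurableSpace X] {μ : Measure X} [IsProbabilityMeasure μ]
  {g : X → ℝ} {p : ℝ≥0∞} [hp1 : Fact (1 ≤ p)]

theorem Qop_compact (hg : MeasurePreserving g μ (volume.restrict (Set.Ico (0:ℝ) 1))) (n : ℕ) :
    IsCompactOperator (Qop (p := p) hg n) := by
  have h1 : Qop (p := p) hg n ∈ compactOperator (RingHom.id ℂ) (Lp ℂ p μ) (Lp ℂ p μ) := by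
    unfold Qop
    apply Submodule.sum_mem
    intro m _
    have h2 : IsCompactOperator (ph μ p hg.measurable m) := isCompactOperator_of_locallyCompactSpace_dom _
    have h3 := h2.clm_comp ((ContinuousLinearMap.id ℂ ℂ).smulRight (eh μ p hg.measurable m))
    exact h3
  exact h1

theorem HB.compact {hg : MeasurePreserving g μ (volume.restrict (Set.Ico (0:ℝ) 1))} {C : ℝ}
    (H : HB (p := p) (μ := μ) hg C)
    (T : Lp ℂ p μ →L[ℂ] Lp ℂ p μ) (A : ℝ) (hA : 0 ≤ A)
    (hT : ∀ (k : ℕ) (a : ℕ → ℂ), ‖T (∑ m ∈ L k, a m • eh μ p hg.measurable m)‖ ≤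
      (A * (1 / 2) ^ k) * ‖∑ m ∈ L k, a m • eh μ p hg.measurable m‖) : IsCompactOperator T := by
  have hlim : Tendsto (fun n => T.comp (Qop hg n)) atTop (𝓝 T) := by
    rw [tendsto_iff_norm_sub_tendsto_zero]
    have h1 : Tendsto (fun n : ℕ => 2 * A * C * (1 / 2 : ℝ) ^ n) atTop (𝓝 0) := by
      rw [← mul_zero (2 * A * C)]
      apply Tendsto.const_mul
      exact tendsto_pow_atTop_nhds_zero_of_lt_one (by norm_num) (by norm_num)
    refine squeeze_zero (fun n => norm_nonneg _) (fun n => ?_) h1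
    rw [norm_sub_rev]
    exact H.tail T A hA hT n
  apply isCompactOperator_of_tendsto hlim
  exact Eventually.of_forall fun n => (Qop_compact hg n).clm_comp T

/-- left endpoint of the dyadic interval -/
noncomputable def le0 (m : ℕ) : ℝ := if m = 0 then 0 else ((m : ℝ) - 2 ^ (Nat.log 2 m)) / 2 ^ (Nat.log 2 m)

theorem le0_L {n m : ℕ} (hm : m ∈ L n) : le0 m = ((m : ℝ) - 2 ^ n) / 2 ^ n := by
  unfold le0
  have := L_pos hm
  rw [if_neg (by omega), log_L hm]

theorem le0_bound (m : ℕ) : |le0 m| ≤ 1 := by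
  rcases Nat.eq_zero_or_pos m with h | h
  · rw [h]; simp [le0]
  · obtain ⟨n, hn⟩ : ∃ n, m ∈ L n := by
      refine ⟨Nat.log 2 m, mem_L.mpr ⟨Nat.pow_log_le_self 2 (by omega), ?_⟩⟩
      exact Nat.lt_pow_succ_log_self (by norm_num) m
    rw [le0_L hn]
    obtain ⟨h1, h2⟩ := mem_L.mp hn
    have e : 2 ^ (n + 1) = 2 * 2 ^ n := by ring
    rw [e] at h2
    have h3 : (2:ℝ) ^ n ≤ m := by exact_mod_cast h1
    have h4 : (m:ℝ) < 2 * 2 ^ n := by exact_mod_cast h2
    have hN : (0:ℝ) < 2 ^ n := by positivity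
    rw [abs_of_nonneg (div_nonneg (by linarith) hN.le), div_le_one hN]
    linarith

theorem le0_half {n m : ℕ} (hm : m ∈ L n) : |le0 (m / 2) - le0 m| ≤ (1 / 2) ^ n := by
  rcases n with _ | n
  · rw [L_zero, Finset.mem_singleton] at hm
    subst hm
    simp [le0]
  · have hp := L_parent hm
    rw [le0_L hm, le0_L hp]
    have hN : (0:ℝ) < 2 ^ n := by positivity
    have h1 : m = 2 * (m / 2) ∨ m = 2 * (m / 2) + 1 := by omega
    rcases h1 with h | h
    · have h2 : (m:ℝ) = 2 * ((m / 2 : ℕ) : ℝ) := by exact_mod_cast h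
      have e : (((m / 2 : ℕ) : ℝ) - 2 ^ n) / 2 ^ n - ((m : ℝ) - 2 ^ (n + 1)) / 2 ^ (n + 1) = 0 := by
        rw [h2]
        field_simp
        ring
      rw [e, abs_zero]
      positivity
    · have h2 : (m:ℝ) = 2 * ((m / 2 : ℕ) : ℝ) + 1 := by exact_mod_cast h
      have e : (((m / 2 : ℕ) : ℝ) - 2 ^ n) / 2 ^ n - ((m : ℝ) - 2 ^ (n + 1)) / 2 ^ (n + 1) =
          -((1 / 2) ^ (n + 1)) := by
        rw [h2]
        rw [div_pow, one_pow]
        field_simp
        ring
      rw [e, abs_neg, abs_of_nonneg (by positivity)]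

end H75R3
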