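import Pool.Agent.H75R3.OneSum
import Pool.Agent.H75R3.CompactHaar

set_option autoImplicit false
set_option linter.unusedSectionVars false

namespace H75R3

open Finset MeasureTheory Filter Topology
open scoped ENNReal Real

/-- bounded multiplication operators -/
theorem exists_mulop {X : Type*} [MeasurableSpace X] (μ : Measure X) (p : ℝ≥0∞)
    [hp1 : Fact (1 ≤ p)] (z : X → ℂ) (hz : AEStronglyMeasurable z μ)
    (hb : ∀ x, ‖z x‖ ≤ 1) : ∃ M : Lp ℂ p μ →L[ℂ] Lp ℂ p μ, ∀ f : Lp ℂ p μ,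
      ∀ᵐ x ∂μ, (M f) x = z x * f x := by
  have hbd : ∀ (f : Lp ℂ p μ) (x : X), ‖z x * f x‖ ≤ 1 * ‖f x‖ := by
    intro f x
    rw [norm_mul]
    exact mul_le_mul_of_nonneg_right (hb x) (norm_nonneg _)
  have hmem : ∀ f : Lp ℂ p μ, MemLp (fun x => z x * f x) p μ := fun f =>
    MemLp.of_le_mul (c := 1) (Lp.memLp f) (hz.mul (Lp.aestronglyMeasurable f))
      (Eventually.of_forall (hbd f))
  let M : Lp ℂ p μ →ₗ[ℂ] Lp ℂ p μ :=
    { toFun := fun f => (hmem f).toLp _
      map_add' := by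
        intro f f'
        apply Lp.ext
        filter_upwards [(hmem (f + f')).coeFn_toLp, (hmem f).coeFn_toLp, (hmem f').coeFn_toLp,
          Lp.coeFn_add ((hmem f).toLp _) ((hmem f').toLp _), Lp.coeFn_add f f'] with x h1 h2 h3 h4 h5
        rw [h1, h4, Pi.add_apply, h2, h3, h5, Pi.add_apply, mul_add]
      map_smul' := by
        intro c f
        apply Lp.ext
        filter_upwards [(hmem (c • f)).coeFn_toLp, (hmem f).coeFn_toLp,
          Lp.coeFn_smul c ((hmem f).toLp _), Lp.coeFn_smul c f] with x h1 h2 h3 h4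
        rw [h1, RingHom.id_apply, h3, Pi.smul_apply, h2, h4, Pi.smul_apply, smul_eq_mul,
          smul_eq_mul]
        ring }
  refine ⟨M.mkContinuous 1 ?_, fun f => ?_⟩
  · intro f
    apply Lp.norm_le_mul_norm_of_ae_le_mul
    filter_upwards [(hmem f).coeFn_toLp] with x hx
    show ‖((hmem f).toLp _) x‖ ≤ _
    rw [hx]
    exact hbd f x
  · exact (hmem f).coeFn_toLp

section circle

variable [hT : Fact ((0:ℝ) < 1)]

/-- parameter in `(0,1]` of a point of the circle -/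
noncomputable def gc (t : AddCircle (1:ℝ)) : ℝ := (AddCircle.equivIoc (1:ℝ) 0 t : ℝ)

theorem gc_mp : MeasurePreserving gc (volume : Measure (AddCircle (1:ℝ)))
    (volume.restrict (Set.Ico (0:ℝ) 1)) := by
  have h1 := AddCircle.measurePreserving_equivIoc (1:ℝ) (a := 0)
  have h2 : MeasurePreserving (Subtype.val : Set.Ioc (0:ℝ) (0 + 1) → ℝ)
      (Measure.comap Subtype.val volume) (volume.restrict (Set.Ico (0:ℝ) 1)) := by
    refine ⟨measurable_subtype_coe, ?_⟩
    rw [map_comap_subtype_coe measurableSet_Ioc, zero_add]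
    exact Measure.restrict_congr_set (Ioc_ae_eq_Icc.trans Ico_ae_eq_Icc.symm)
  exact h2.comp h1

theorem gc_coe (t : AddCircle (1:ℝ)) : ((gc t : ℝ) : AddCircle (1:ℝ)) = t := by
  unfold gc
  exact (AddCircle.equivIoc (1:ℝ) 0).symm_apply_apply t

theorem fract_coe (y : ℝ) : ((Int.fract y : ℝ) : AddCircle (1:ℝ)) = (y : AddCircle (1:ℝ)) := by
  have h1 : ((⌊y⌋ : ℝ) : AddCircle (1:ℝ)) = 0 := by
    rw [AddCircle.coe_eq_zero_iff]
    exact ⟨⌊y⌋, by simp⟩
  rw [Int.fract, AddCircle.coe_sub, h1, sub_zero]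

theorem fourier_gc (t : AddCircle (1:ℝ)) : (fourier 1 t : ℂ) =
    Complex.exp (Complex.I * ((2 * π * Int.fract (gc t) : ℝ) : ℂ)) := by
  conv_lhs => rw [← gc_coe t, ← fract_coe]
  rw [fourier_coe_apply]
  congr 1
  push_cast
  ring

theorem exp_lip (a b : ℝ) : ‖Complex.exp (Complex.I * (a : ℂ)) - Complex.exp (Complex.I * (b : ℂ))‖ ≤
    |a - b| := by
  have h1 : Complex.exp (Complex.I * (a : ℂ)) - Complex.exp (Complex.I * (b : ℂ)) =
      Complex.exp (Complex.I * (b : ℂ)) * (Complex.exp (Complex.I * ((a - b : ℝ) : ℂ)) - 1) := by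
    rw [mul_sub, mul_one, ← Complex.exp_add]
    congr 2
    push_cast
    ring
  rw [h1, norm_mul, mul_comm Complex.I (b : ℂ), Complex.norm_exp_ofReal_mul_I, one_mul]
  exact Real.norm_exp_I_mul_ofReal_sub_one_le

theorem circle_main (p : ℝ≥0∞) [Fact (1 ≤ p)] (h1 : 1 < p) (hpt : p ≠ ∞) (h2 : p ≠ 2) :
    ∃ (D K : Lp ℂ p (volume : Measure (AddCircle (1:ℝ))) →L[ℂ]
                Lp ℂ p (volume : Measure (AddCircle (1:ℝ)))),
        (∃ e : ℕ → Lp ℂ p (volume : Measure (AddCircle (1:ℝ))),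
            (∀ f : Lp ℂ p (volume : Measure (AddCircle (1:ℝ))),
                ∃! a : ℕ → ℂ, HasSum (fun n => a n • e n) f) ∧
            ∃ c : ℕ → ℂ, ∀ n, D (e n) = c n • e n) ∧
        (∃ C : ℝ, ∀ (n : ℕ) (x : Fin n → Lp ℂ p (volume : Measure (AddCircle (1:ℝ)))) (B : ℝ),
            (∀ φ : Lp ℂ p (volume : Measure (AddCircle (1:ℝ))) →L[ℂ] ℂ,
                ‖φ‖ ≤ 1 → ∑ i, ‖φ (x i)‖ ≤ B) →
            ∑ i, ‖K (x i)‖ ≤ C * B) ∧
        ∀ f : Lp ℂ p (volume : Measure (AddCircle (1:ℝ))),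
          ∀ᵐ t ∂(volume : Measure (AddCircle (1:ℝ))),
            fourier (1:ℤ) t * f t = D f t + K f t := by
  have hprob : IsProbabilityMeasure (volume : Measure (AddCircle (1:ℝ))) :=
    ⟨by rw [AddCircle.measure_univ]; simp⟩
  have hd := eh_dense (p := p) gc_mp hpt (fun x : ℝ => (x : AddCircle (1:ℝ)))
    (AddCircle.continuous_mk' (1:ℝ)) (by
      apply Eventually.of_forall
      intro t
      show ((Int.fract (gc t) : ℝ) : AddCircle (1:ℝ)) = t
      rw [fract_coe, gc_coe])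
  obtain ⟨C, H⟩ := exists_HB gc_mp h1 hpt h2 hd
  have hzn : ∀ t : AddCircle (1:ℝ), ‖(fourier 1 t : ℂ)‖ ≤ 1 := by
    intro t
    rw [fourier_gc, mul_comm, Complex.norm_exp_ofReal_mul_I]
  obtain ⟨M, hM⟩ := exists_mulop (volume : Measure (AddCircle (1:ℝ))) p (fun t => (fourier 1 t : ℂ))
    (fourier 1).continuous.aestronglyMeasurable hzn
  set c : ℕ → ℂ := fun m => Complex.exp (Complex.I * ((2 * π * le0 m : ℝ) : ℂ)) with hc
  obtain ⟨D, hD, _⟩ := H.exists_diag c 1 zero_le_one (fun m => by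
    simp only [hc]
    rw [mul_comm, Complex.norm_exp_ofReal_mul_I])
  have hz : ∀ k, ∀ᵐ t ∂(volume : Measure (AddCircle (1:ℝ))),
      ‖(fourier 1 t : ℂ) - c (nd k (gc t))‖ ≤ (2 * π) * (1 / 2) ^ k := by
    intro k
    apply Eventually.of_forall
    intro t
    rw [fourier_gc]
    simp only [hc]
    refine (exp_lip _ _).trans ?_
    rw [le0_L (nd_mem k (gc t)), ← mul_sub, abs_mul, abs_of_pos (by positivity : 0 < 2 * π)]
    apply mul_le_mul_of_nonneg_left _ (by positivity)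
    rw [abs_sub_comm]
    exact nd_approx k (gc t)
  obtain ⟨C', hC'⟩ := H.one_summing h1 hpt (M - D) (2 * π) (by positivity) (fun k a =>
    layer_small gc_mp M D _ c k _ hM hD (hz k) a)
  refine ⟨D, M - D, ⟨eh volume p gc_mp.measurable, ?_, c, hD⟩, ⟨C', hC'⟩, ?_⟩
  · intro f
    refine ⟨fun m => ph volume p gc_mp.measurable m f, H.expand f, ?_⟩
    intro a ha
    funext k
    exact unique_expansion _ _ (ph_eh gc_mp) f a ha k
  · intro f
    filter_upwards [hM f, Lp.coeFn_sub (M f) (D f)] with t h3 h4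
    rw [_root_.sub_apply, h4, Pi.sub_apply, h3]
    ring

end circle

end H75R3
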