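import Mathlib

set_option autoImplicit false

namespace H75R3

open Finset

/-- exponential terms -/
noncomputable def eb (R : ℝ) (k : ℕ) : ℝ := R ^ k / (Nat.factorial k : ℝ)

theorem eb_nonneg {R : ℝ} (hR : 0 ≤ R) (k : ℕ) : 0 ≤ eb R k := by
  unfold eb; positivity

theorem eb_succ (R : ℝ) (k : ℕ) : eb R (k + 1) * ((k : ℝ) + 1) = R * eb R k := by
  unfold eb
  rw [Nat.factorial_succ]
  push_cast
  have : ((Nat.factorial k : ℕ) : ℝ) ≠ 0 := by positivity
  field_simp
  ring

theorem eb_down {R : ℝ} (hR : 0 ≤ R) (k : ℕ) (hk : 1 ≤ k) (hRk : R ≤ k) (t : ℕ) (ht : t ≤ k) :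
    eb R k * (1 - (t : ℝ) ^ 2 / k) ≤ eb R (k - t) := by
  have hk0 : (0 : ℝ) < k := by exact_mod_cast hk
  induction t with
  | zero => simp
  | succ t ih =>
    have ih' := ih (by omega)
    obtain ⟨j, hj⟩ : ∃ j, k - t = j + 1 := ⟨k - t - 1, by omega⟩
    have hj2 : k - (t + 1) = j := by omega
    rw [hj2]
    rw [hj] at ih'
    have h1 := eb_succ R j
    have hjr : (j : ℝ) + 1 = k - t := by
      have : ((k - t : ℕ) : ℝ) = ((j + 1 : ℕ) : ℝ) := by rw [hj]
      rw [Nat.cast_sub (by omega)] at this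
      push_cast at this
      linarith
    have h2 : eb R (j + 1) * ((k : ℝ) - t) ≤ k * eb R j := by
      rw [← hjr, h1]
      exact mul_le_mul_of_nonneg_right hRk (eb_nonneg hR j)
    have h3 : eb R (j + 1) * (1 - (t : ℝ) / k) ≤ eb R j := by
      have e : eb R (j + 1) * (1 - (t : ℝ) / k) = (eb R (j + 1) * ((k : ℝ) - t)) / k := by
        field_simp
      rw [e, div_le_iff₀ hk0]
      linarith
    by_cases hc : 1 - ((t : ℝ)) ^ 2 / k ≤ 0
    · refine le_trans ?_ (eb_nonneg hR j)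
      apply mul_nonpos_of_nonneg_of_nonpos (eb_nonneg hR k)
      have : ((t : ℝ)) ^ 2 / k ≤ (((t + 1 : ℕ) : ℝ)) ^ 2 / k := by
        gcongr
        linarith
      linarith
    · rw [not_le] at hc
      have ht0 : (0 : ℝ) ≤ 1 - (t : ℝ) / k := by
        rw [sub_nonneg, div_le_one hk0]
        have : t ≤ k := by omega
        exact_mod_cast this
      calc eb R k * (1 - (((t + 1 : ℕ) : ℝ)) ^ 2 / k)
          ≤ eb R k * ((1 - (t : ℝ) ^ 2 / k) * (1 - (t : ℝ) / k)) := by
            apply mul_le_mul_of_nonneg_left _ (eb_nonneg hR k)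
            push_cast
            have h5 : (0:ℝ) ≤ (t : ℝ) := by positivity
            have h6 : (1 - (t : ℝ) ^ 2 / k) * (1 - (t : ℝ) / k) - (1 - ((t : ℝ) + 1) ^ 2 / k) =
              (t + 1) / k + ((t : ℝ) ^ 2 / k) * ((t : ℝ) / k) := by
              field_simp; ring
            have h7 : 0 ≤ ((t : ℝ) + 1) / k + ((t : ℝ) ^ 2 / k) * ((t : ℝ) / k) := by positivity
            linarith
        _ = (eb R k * (1 - (t : ℝ) ^ 2 / k)) * (1 - (t : ℝ) / k) := by ring
        _ ≤ eb R (j + 1) * (1 - (t : ℝ) / k) := mul_le_mul_of_nonneg_right ih' ht0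
        _ ≤ eb R j := h3

theorem eb_up {R : ℝ} (hR : 0 ≤ R) (k : ℕ) (hk : 1 ≤ k) (hRk : (k : ℝ) ≤ R) (t : ℕ) :
    eb R k * (1 - (t : ℝ) ^ 2 / k) ≤ eb R (k + t) := by
  have hk0 : (0 : ℝ) < k := by exact_mod_cast hk
  induction t with
  | zero => simp
  | succ t ih =>
    have h1 := eb_succ R (k + t)
    push_cast at h1
    by_cases hc : 1 - (((t + 1 : ℕ) : ℝ)) ^ 2 / k ≤ 0
    · exact le_trans (mul_nonpos_of_nonneg_of_nonpos (eb_nonneg hR k) hc) (eb_nonneg hR _)
    · rw [not_le] at hc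
      push_cast at hc
      have h5 : (0:ℝ) ≤ (t : ℝ) := by positivity
      have ht : 0 ≤ 1 - ((t : ℝ) + 1) / k := by
        have : ((t : ℝ) + 1) / k ≤ ((t : ℝ) + 1) ^ 2 / k := by
          gcongr
          nlinarith
        linarith
      have ht1 : 0 < 1 - (t : ℝ) ^ 2 / k := by
        have : (t : ℝ) ^ 2 / k ≤ ((t : ℝ) + 1) ^ 2 / k := by
          gcongr
          linarith
        linarith
      have h3 : eb R (k + t) * (1 - ((t : ℝ) + 1) / k) ≤ eb R (k + t + 1) := by
        have h4 : (1 - ((t : ℝ) + 1) / k) * ((k : ℝ) + t + 1) ≤ R := by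
          have : (1 - ((t : ℝ) + 1) / k) * ((k : ℝ) + t + 1) = k - (t + 1) ^ 2 / k := by
            field_simp; ring
          rw [this]
          have : 0 ≤ ((t : ℝ) + 1) ^ 2 / k := by positivity
          linarith
        have h6 : (0 : ℝ) < (k : ℝ) + t + 1 := by positivity
        have h7 : (eb R (k + t) * (1 - ((t : ℝ) + 1) / k)) * ((k : ℝ) + t + 1) ≤
            eb R (k + t + 1) * ((k : ℝ) + t + 1) := by
          rw [h1]
          calc (eb R (k + t) * (1 - ((t : ℝ) + 1) / k)) * ((k : ℝ) + t + 1)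
              = eb R (k + t) * ((1 - ((t : ℝ) + 1) / k) * ((k : ℝ) + t + 1)) := by ring
            _ ≤ eb R (k + t) * R := mul_le_mul_of_nonneg_left h4 (eb_nonneg hR _)
            _ = R * eb R (k + t) := by ring
        exact le_of_mul_le_mul_right h7 h6
      calc eb R k * (1 - (((t + 1 : ℕ) : ℝ)) ^ 2 / k)
          ≤ eb R k * ((1 - (t : ℝ) ^ 2 / k) * (1 - ((t : ℝ) + 1) / k)) := by
            apply mul_le_mul_of_nonneg_left _ (eb_nonneg hR k)
            push_cast
            have h6 : (1 - (t : ℝ) ^ 2 / k) * (1 - ((t : ℝ) + 1) / k) - (1 - ((t : ℝ) + 1) ^ 2 / k) =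
              t / k + ((t : ℝ) ^ 2 / k) * (((t : ℝ) + 1) / k) := by
              field_simp; ring
            have h7 : 0 ≤ (t : ℝ) / k + ((t : ℝ) ^ 2 / k) * (((t : ℝ) + 1) / k) := by positivity
            linarith
        _ = (eb R k * (1 - (t : ℝ) ^ 2 / k)) * (1 - ((t : ℝ) + 1) / k) := by ring
        _ ≤ eb R (k + t) * (1 - ((t : ℝ) + 1) / k) := mul_le_mul_of_nonneg_right ih ht
        _ ≤ eb R (k + t + 1) := h3

theorem sum_sq_le_cube (W : ℕ) : ∑ t ∈ range W, (t : ℝ) ^ 2 ≤ (W : ℝ) ^ 3 / 3 := by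
  induction W with
  | zero => simp
  | succ W ih =>
    rw [Finset.sum_range_succ]
    push_cast
    have : (0 : ℝ) ≤ W := by positivity
    nlinarith

theorem weight_sum (k W : ℕ) (hk : 1 ≤ k) (hW : W ^ 2 ≤ k) :
    (2 / 3) * (W : ℝ) ≤ ∑ t ∈ range W, (1 - (t : ℝ) ^ 2 / k) := by
  have hk0 : (0 : ℝ) < k := by exact_mod_cast hk
  rw [Finset.sum_sub_distrib, ← Finset.sum_div]
  simp only [Finset.sum_const, Finset.card_range, nsmul_eq_mul, mul_one]
  have h1 := sum_sq_le_cube W
  have hW' : (W : ℝ) ^ 2 ≤ k := by exact_mod_cast hW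
  have hW0 : (0 : ℝ) ≤ W := by positivity
  have h2 : (∑ t ∈ range W, (t : ℝ) ^ 2) / k ≤ W / 3 := by
    rw [div_le_iff₀ hk0]
    calc ∑ t ∈ range W, (t : ℝ) ^ 2 ≤ (W : ℝ) ^ 3 / 3 := h1
      _ = W * W ^ 2 / 3 := by ring
      _ ≤ W * k / 3 := by gcongr
      _ = W / 3 * k := by ring
  linarith

theorem weight_term {R : ℝ} (hR : 0 ≤ R) (k W : ℕ) (hk : 1 ≤ k) (hW : W ^ 2 ≤ k) (hWk : W ≤ k) :
    (W : ℝ) * eb R k ≤ (3 / 2) * (∑ t ∈ range W, eb R (k - t) + ∑ t ∈ range W, eb R (k + t)) := by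
  have hws := weight_sum k W hk hW
  have hb := eb_nonneg hR k
  have hdn : 0 ≤ ∑ t ∈ range W, eb R (k - t) := Finset.sum_nonneg fun t _ => eb_nonneg hR _
  have hup : 0 ≤ ∑ t ∈ range W, eb R (k + t) := Finset.sum_nonneg fun t _ => eb_nonneg hR _
  have key : (2 / 3) * (W : ℝ) * eb R k ≤ eb R k * ∑ t ∈ range W, (1 - (t : ℝ) ^ 2 / k) := by
    rw [mul_comm (eb R k)]
    exact mul_le_mul_of_nonneg_right hws hb
  rcases le_total R k with h | h
  · have h1 : eb R k * ∑ t ∈ range W, (1 - (t : ℝ) ^ 2 / k) ≤ ∑ t ∈ range W, eb R (k - t) := by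
      rw [Finset.mul_sum]
      exact Finset.sum_le_sum fun t ht =>
        eb_down hR k hk h t (le_trans (Finset.mem_range.mp ht).le hWk)
    linarith
  · have h1 : eb R k * ∑ t ∈ range W, (1 - (t : ℝ) ^ 2 / k) ≤ ∑ t ∈ range W, eb R (k + t) := by
      rw [Finset.mul_sum]
      exact Finset.sum_le_sum fun t _ => eb_up hR k hk h t
    linarith

theorem block_sum (g : ℕ → ℝ) (m L : ℕ) :
    ∑ l ∈ range L, ∑ t ∈ range m, g (m * l + t) = ∑ j ∈ range (m * L), g j := by
  induction L with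
  | zero => simp
  | succ L ih =>
    rw [Finset.sum_range_succ, ih, Nat.mul_succ, Finset.sum_range_add]

theorem sum_eb_le {R : ℝ} (hR : 0 ≤ R) (n : ℕ) : ∑ j ∈ range n, eb R j ≤ Real.exp R :=
  Real.sum_le_exp_of_nonneg hR n

theorem weighted_sum_blocks {R : ℝ} (hR : 0 ≤ R) (m : ℕ) (hm : 1 ≤ m) (L : ℕ) :
    ∑ l ∈ range L, ((min l m : ℕ) : ℝ) * eb R (m * l) ≤ 3 * Real.exp R := by
  have h1 : ∀ l ∈ range L, ((min l m : ℕ) : ℝ) * eb R (m * l) ≤
      (3 / 2) * (∑ t ∈ range m, (if l = 0 then 0 else eb R (m * l - t)) +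
        ∑ t ∈ range m, eb R (m * l + t)) := by
    intro l _
    rcases Nat.eq_zero_or_pos l with h0 | h0
    · subst h0
      simp only [Nat.zero_min, Nat.cast_zero, zero_mul, if_true, Finset.sum_const_zero, zero_add]
      exact mul_nonneg (by norm_num) (Finset.sum_nonneg fun t _ => eb_nonneg hR _)
    · have hW1 : min l m ≤ m := min_le_right _ _
      have hW2 : min l m ≤ l := min_le_left _ _
      have hk : 1 ≤ m * l := Nat.mul_pos hm h0
      have hWsq : (min l m) ^ 2 ≤ m * l := by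
        rw [sq]; exact Nat.mul_le_mul hW1 hW2
      have hWk : min l m ≤ m * l := le_trans hW2 (Nat.le_mul_of_pos_left l hm)
      refine (weight_term hR (m * l) (min l m) hk hWsq hWk).trans ?_
      have hl0 : l ≠ 0 := by omega
      simp only [hl0, if_false]
      apply mul_le_mul_of_nonneg_left _ (by norm_num)
      apply add_le_add
      · exact Finset.sum_le_sum_of_subset_of_nonneg (Finset.range_mono hW1)
          (fun t _ _ => eb_nonneg hR _)
      · exact Finset.sum_le_sum_of_subset_of_nonneg (Finset.range_mono hW1)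
          (fun t _ _ => eb_nonneg hR _)
  refine (Finset.sum_le_sum h1).trans ?_
  rw [← Finset.mul_sum, Finset.sum_add_distrib, block_sum (eb R) m L]
  have h2 : ∑ l ∈ range L, ∑ t ∈ range m, (if l = 0 then 0 else eb R (m * l - t)) ≤
      Real.exp R := by
    rcases L with _ | L
    · simp; positivity
    · rw [Finset.sum_range_succ']
      simp only [if_true, Finset.sum_const_zero, add_zero, Nat.succ_ne_zero, if_false]
      have h3 : ∀ l ∈ range L, ∑ t ∈ range m, eb R (m * (l + 1) - t) =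
          ∑ t ∈ range m, (fun j => eb R (j + 1)) (m * l + t) := by
        intro l _
        rw [← Finset.sum_range_reflect]
        refine Finset.sum_congr rfl fun t ht => ?_
        have := Finset.mem_range.mp ht
        have e : m * (l + 1) - (m - 1 - t) = m * l + t + 1 := by
          rw [Nat.mul_succ]; omega
        rw [e]
      rw [Finset.sum_congr rfl h3, block_sum (fun j => eb R (j + 1)) m L]
      refine le_trans ?_ (sum_eb_le hR (m * L + 1))
      rw [Finset.sum_range_succ']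
      have := eb_nonneg hR 0
      linarith
  have h4 := sum_eb_le hR (m * L)
  linarith

/-- the weights, extended by zero off the multiples of `m` -/
noncomputable def Wt (m k : ℕ) : ℝ := if m ∣ k then ((min (k / m) m : ℕ) : ℝ) else 0

theorem Wt_nonneg (m k : ℕ) : 0 ≤ Wt m k := by
  unfold Wt; split_ifs <;> positivity

theorem weighted_sum {R : ℝ} (hR : 0 ≤ R) (m : ℕ) (hm : 1 ≤ m) (n : ℕ) :
    ∑ k ∈ range n, Wt m k * eb R k ≤ 3 * Real.exp R := by
  have h1 : ∑ k ∈ range n, Wt m k * eb R k ≤ ∑ k ∈ range (m * n), Wt m k * eb R k := by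
    apply Finset.sum_le_sum_of_subset_of_nonneg
    · exact Finset.range_mono (Nat.le_mul_of_pos_left n hm)
    · intro k _ _; exact mul_nonneg (Wt_nonneg m k) (eb_nonneg hR k)
  refine h1.trans ?_
  rw [← block_sum (fun k => Wt m k * eb R k) m n]
  refine le_trans (le_of_eq ?_) (weighted_sum_blocks hR m hm n)
  refine Finset.sum_congr rfl fun l _ => ?_
  rw [Finset.sum_eq_single 0]
  · simp only [add_zero]
    unfold Wt
    rw [if_pos (Dvd.intro l rfl), Nat.mul_div_cancel_left l hm]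
  · intro t ht ht0
    have htm := Finset.mem_range.mp ht
    have : ¬ m ∣ (m * l + t) := by
      intro h
      have h2 := (Nat.dvd_add_right (Dvd.intro l rfl)).mp h
      have := Nat.le_of_dvd (Nat.pos_of_ne_zero ht0) h2
      omega
    simp only [Wt, if_neg this, zero_mul]
  · intro h; exact absurd (Finset.mem_range.mpr hm) h

end H75R3
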