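import Pool.Agent.H75R3.ExpSpace
import Pool.Agent.H75R3.ExpSum

set_option autoImplicit false

namespace H75R3

open Finset Filter Topology

noncomputable def zt (m : ℕ) : ℂ := Complex.exp (2 * Real.pi * Complex.I / m)

noncomputable def et (m : ℕ) : ℂ := Complex.exp (Complex.I * ((Real.pi / (m : ℝ) ^ 2 : ℝ) : ℂ))

theorem zt_prim (m : ℕ) (hm : m ≠ 0) : IsPrimitiveRoot (zt m) m :=
  Complex.isPrimitiveRoot_exp m hm

theorem et_pow (m k : ℕ) :
    et m ^ k = Complex.exp (Complex.I * ((Real.pi * k / (m : ℝ) ^ 2 : ℝ) : ℂ)) := by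
  rw [et, ← Complex.exp_nat_mul]
  congr 1
  push_cast
  ring

theorem et_norm (m : ℕ) : ‖et m‖ = 1 := by
  rw [et, mul_comm]; exact Complex.norm_exp_ofReal_mul_I _

theorem et_pow_sq (m : ℕ) (hm : m ≠ 0) : et m ^ (m ^ 2) = -1 := by
  rw [et_pow]
  have : (Real.pi * ((m ^ 2 : ℕ) : ℝ) / (m : ℝ) ^ 2) = Real.pi := by
    have : (m : ℝ) ≠ 0 := by exact_mod_cast hm
    push_cast
    field_simp
  rw [this, mul_comm, Complex.exp_pi_mul_I]

/-- The frequencies: all `m`-th roots of unity and their slight rotations. -/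
noncomputable def fq (m : ℕ) (hm : m ≠ 0) : Freq (Fin m × Bool) where
  mu := fun i => zt m ^ (i.1 : ℕ) * (if i.2 then et m else 1)
  inj := by
    rintro ⟨j, b⟩ ⟨j', b'⟩ h
    simp only at h
    have hz := zt_prim m hm
    have he0 : et m ≠ 0 := Complex.exp_ne_zero _
    have hpow : ∀ l : ℕ, (zt m ^ l) ^ (m ^ 2) = 1 := by
      intro l
      rw [← pow_mul, mul_comm, pow_mul, sq, pow_mul, hz.pow_eq_one, one_pow, one_pow]
    rcases b with _ | _ <;> rcases b' with _ | _
    · simp only [Bool.false_eq_true, if_false, mul_one] at h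
      have := hz.pow_inj j.2 j'.2 h
      rw [Fin.ext this]
    · exfalso
      simp only [Bool.false_eq_true, if_false, if_true, mul_one] at h
      have h1 := congrArg (fun x => x ^ (m ^ 2)) h
      simp only [mul_pow, hpow, et_pow_sq m hm] at h1
      norm_num at h1
    · exfalso
      simp only [Bool.false_eq_true, if_false, if_true, mul_one] at h
      have h1 := congrArg (fun x => x ^ (m ^ 2)) h
      simp only [mul_pow, hpow, et_pow_sq m hm] at h1
      norm_num at h1
    · simp only [if_true] at h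
      have h2 := mul_right_cancel₀ he0 h
      have := hz.pow_inj j.2 j'.2 h2
      rw [Fin.ext this]
  le := by
    intro i
    have h1 : ‖zt m‖ = 1 := (zt_prim m hm).norm'_eq_one hm
    rw [norm_mul, norm_pow, h1, one_pow, one_mul]
    split_ifs
    · rw [et_norm]
    · simp

/-- The coefficient vector. -/
noncomputable def cv (m : ℕ) (hm : m ≠ 0) : ES (fq m hm) :=
  (fun i => if i.2 then -1 else 1 : Fin m × Bool → ℂ)

theorem moment_bound (m : ℕ) (hm : m ≠ 0) (k : ℕ) :
    ‖∑ i : Fin m × Bool, (if i.2 then (-1 : ℂ) else 1) * (fq m hm).mu i ^ k‖ ≤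
      Real.pi * Wt m k := by
  have hz := zt_prim m hm
  have e1 : ∑ i : Fin m × Bool, (if i.2 then (-1 : ℂ) else 1) * (fq m hm).mu i ^ k =
      (1 - et m ^ k) * ∑ j ∈ range m, (zt m ^ k) ^ j := by
    rw [Fintype.sum_prod_type, ← Fin.sum_univ_eq_sum_range (fun j => (zt m ^ k) ^ j), Finset.mul_sum]
    refine Finset.sum_congr rfl fun j _ => ?_
    rw [Fintype.sum_bool]
    simp only [fq, if_true, Bool.false_eq_true, if_false, mul_one, one_mul, mul_pow]
    rw [← pow_mul, ← pow_mul, mul_comm k]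
    ring
  rw [e1]
  by_cases hk : m ∣ k
  · obtain ⟨l, rfl⟩ := hk
    have h1 : zt m ^ (m * l) = 1 := by rw [pow_mul, hz.pow_eq_one, one_pow]
    rw [h1]
    simp only [one_pow, Finset.sum_const, Finset.card_range, nsmul_eq_mul, mul_one]
    have hmp : 0 < m := Nat.pos_of_ne_zero hm
    have hmR : (0 : ℝ) < m := by exact_mod_cast hmp
    have hW : Wt m (m * l) = ((min l m : ℕ) : ℝ) := by
      unfold Wt
      rw [if_pos (Dvd.intro l rfl), Nat.mul_div_cancel_left l hmp]
    rw [hW, norm_mul, Complex.norm_natCast]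
    have h2 : ‖1 - et m ^ (m * l)‖ ≤ Real.pi * l / m := by
      rw [norm_sub_rev, et_pow]
      refine (Real.norm_exp_I_mul_ofReal_sub_one_le).trans ?_
      rw [Real.norm_eq_abs, abs_of_nonneg (by positivity)]
      apply le_of_eq
      push_cast
      field_simp
    have h3 : ‖1 - et m ^ (m * l)‖ ≤ 2 := by
      refine (norm_sub_le _ _).trans ?_
      rw [norm_one, norm_pow, et_norm, one_pow]
      norm_num
    have hpi := Real.pi_gt_three
    rcases le_total l m with h | h
    · rw [min_eq_left h]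
      calc ‖1 - et m ^ (m * l)‖ * m ≤ (Real.pi * l / m) * m := by gcongr
        _ = Real.pi * l := by field_simp
    · rw [min_eq_right h]
      calc ‖1 - et m ^ (m * l)‖ * m ≤ 2 * m := by gcongr
        _ ≤ Real.pi * m := by gcongr; linarith
  · have hx1 : zt m ^ k ≠ 1 := by
      intro h
      exact hk (hz.dvd_of_pow_eq_one k h)
    have hxm : (zt m ^ k) ^ m = 1 := by
      rw [← pow_mul, mul_comm, pow_mul, hz.pow_eq_one, one_pow]
    have h4 : (∑ j ∈ range m, (zt m ^ k) ^ j) * (zt m ^ k - 1) = 0 := by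
      rw [geom_sum_mul, hxm, sub_self]
    have h5 : ∑ j ∈ range m, (zt m ^ k) ^ j = 0 := by
      rcases mul_eq_zero.mp h4 with h | h
      · exact h
      · exact absurd (sub_eq_zero.mp h) hx1
    rw [h5, mul_zero, norm_zero]
    exact mul_nonneg Real.pi_pos.le (Wt_nonneg m k)

theorem cv_norm_le (m : ℕ) (hm : m ≠ 0) : ‖cv m hm‖ ≤ 3 * Real.pi := by
  apply norm_le_of _ _ _ (by positivity)
  intro w
  have hs : HasSum (fun k : ℕ => ∑ i : Fin m × Bool, (if i.2 then (-1 : ℂ) else 1) *
      (((fq m hm).mu i * w) ^ k / (Nat.factorial k : ℂ))) (ev (fq m hm) (cv m hm) w) := by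
    apply hasSum_sum
    intro i _
    apply HasSum.mul_left
    rw [Complex.exp_eq_exp_ℂ]
    exact NormedSpace.expSeries_div_hasSum_exp _
  have hb : ∀ n, ‖∑ k ∈ range n, ∑ i : Fin m × Bool, (if i.2 then (-1 : ℂ) else 1) *
      (((fq m hm).mu i * w) ^ k / (Nat.factorial k : ℂ))‖ ≤ 3 * Real.pi * Real.exp ‖w‖ := by
    intro n
    refine (norm_sum_le _ _).trans ?_
    have h1 : ∀ k ∈ range n, ‖∑ i : Fin m × Bool, (if i.2 then (-1 : ℂ) else 1) *
        (((fq m hm).mu i * w) ^ k / (Nat.factorial k : ℂ))‖ ≤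
        Real.pi * (Wt m k * eb ‖w‖ k) := by
      intro k _
      have e1 : ∑ i : Fin m × Bool, (if i.2 then (-1 : ℂ) else 1) *
          (((fq m hm).mu i * w) ^ k / (Nat.factorial k : ℂ)) =
          (∑ i : Fin m × Bool, (if i.2 then (-1 : ℂ) else 1) * (fq m hm).mu i ^ k) *
            (w ^ k / (Nat.factorial k : ℂ)) := by
        rw [Finset.sum_mul]
        refine Finset.sum_congr rfl fun i _ => ?_
        rw [mul_pow]; ring
      rw [e1, norm_mul]
      have e2 : ‖w ^ k / (Nat.factorial k : ℂ)‖ = eb ‖w‖ k := by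
        rw [norm_div, norm_pow, Complex.norm_natCast]; rfl
      rw [e2]
      calc _ ≤ (Real.pi * Wt m k) * eb ‖w‖ k :=
            mul_le_mul_of_nonneg_right (moment_bound m hm k) (eb_nonneg (norm_nonneg w) k)
        _ = _ := by ring
    refine (Finset.sum_le_sum h1).trans ?_
    rw [← Finset.mul_sum]
    have h2 := weighted_sum (norm_nonneg w) m (Nat.pos_of_ne_zero hm) n
    calc Real.pi * ∑ k ∈ range n, Wt m k * eb ‖w‖ k ≤ Real.pi * (3 * Real.exp ‖w‖) :=
          mul_le_mul_of_nonneg_left h2 Real.pi_pos.le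
      _ = _ := by ring
  exact le_of_tendsto (hs.tendsto_sum_nat.norm) (Eventually.of_forall hb)

theorem lower_example (m : ℕ) (hm : m ≠ 0) :
    2 * (m : ℝ) / (3 * Real.pi) ≤ ‖TT (fq m hm) ^ (m ^ 2)‖ := by
  have h1 := (TT (fq m hm) ^ (m ^ 2)).le_opNorm (cv m hm)
  have h2 : 2 * (m : ℝ) ≤ ‖(TT (fq m hm) ^ (m ^ 2)) (cv m hm)‖ := by
    have h3 := ev_le (fq m hm) ((TT (fq m hm) ^ (m ^ 2)) (cv m hm)) 0
    rw [norm_zero, Real.exp_zero, mul_one] at h3
    refine le_trans (le_of_eq ?_) h3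
    have h4 : ev (fq m hm) ((TT (fq m hm) ^ (m ^ 2)) (cv m hm)) 0 = ((2 * m : ℝ) : ℂ) := by
      rw [ev, TT, dg_pow]
      simp only [mul_zero, Complex.exp_zero, mul_one]
      have h5 : ∀ i ∈ (Finset.univ : Finset (Fin m × Bool)),
          ((dg (fq m hm) (fun i => (fq m hm).mu i ^ (m ^ 2)) (cv m hm) : Fin m × Bool → ℂ) i) = 1 := by
        rintro ⟨j, b⟩ _
        rw [dg_apply]
        have hz := zt_prim m hm
        have hpow : (zt m ^ (j : ℕ)) ^ (m ^ 2) = 1 := by
          rw [← pow_mul, mul_comm, pow_mul, sq, pow_mul, hz.pow_eq_one, one_pow, one_pow]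
        rcases b with _ | _
        · simp only [fq, cv, Bool.false_eq_true, if_false, mul_one]
          exact hpow
        · simp only [fq, cv, if_true, mul_pow, hpow, et_pow_sq m hm]
          norm_num
      rw [Finset.sum_congr rfl h5]
      simp only [Finset.sum_const, Finset.card_univ, Fintype.card_prod, Fintype.card_fin,
        Fintype.card_bool, nsmul_eq_mul, mul_one]
      push_cast
      ring
    rw [h4, Complex.norm_real, Real.norm_eq_abs, abs_of_nonneg (by positivity)]
  have h6 := cv_norm_le m hm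
  rw [div_le_iff₀ (by positivity)]
  calc 2 * (m : ℝ) ≤ ‖TT (fq m hm) ^ (m ^ 2)‖ * ‖cv m hm‖ := h2.trans h1
    _ ≤ _ := mul_le_mul_of_nonneg_left h6 (norm_nonneg _)

theorem finrank_ES (m : ℕ) (hm : m ≠ 0) : Module.finrank ℂ (ES (fq m hm)) = 2 * m := by
  have : Module.finrank ℂ (Fin m × Bool → ℂ) = 2 * m := by
    rw [Module.finrank_fintype_fun_eq_card, Fintype.card_prod, Fintype.card_fin, Fintype.card_bool,
      mul_comm]
  exact this

end H75R3
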