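import Mathlib

set_option autoImplicit false

namespace H75R3

open Finset BoundedContinuousFunction

/-- A finite family of distinct frequencies in the closed unit disc. -/
structure Freq (ι : Type) where
  mu : ι → ℂ
  inj : Function.Injective mu
  le : ∀ i, ‖mu i‖ ≤ 1

variable {ι : Type} [Fintype ι]

theorem norm_exp_le (a w : ℂ) (ha : ‖a‖ ≤ 1) : ‖Complex.exp (a * w)‖ ≤ Real.exp ‖w‖ := by
  rw [Complex.norm_exp]
  apply Real.exp_le_exp.mpr
  refine (Complex.re_le_norm _).trans ?_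
  rw [norm_mul]
  calc ‖a‖ * ‖w‖ ≤ 1 * ‖w‖ := mul_le_mul_of_nonneg_right ha (norm_nonneg _)
    _ = ‖w‖ := one_mul _

/-- the weighted exponential as a bounded continuous function on the plane -/
noncomputable def gfun (f : Freq ι) (i : ι) : ℂ →ᵇ ℂ :=
  BoundedContinuousFunction.ofNormedAddCommGroup
    (fun w => Complex.exp (f.mu i * w) * ((Real.exp (-‖w‖) : ℝ) : ℂ))
    (by fun_prop) 1 (by
      intro w
      rw [norm_mul, Complex.norm_real, Real.norm_eq_abs, abs_of_pos (Real.exp_pos _)]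
      calc ‖Complex.exp (f.mu i * w)‖ * Real.exp (-‖w‖)
          ≤ Real.exp ‖w‖ * Real.exp (-‖w‖) :=
            mul_le_mul_of_nonneg_right (norm_exp_le _ _ (f.le i)) (Real.exp_pos _).le
        _ = 1 := by rw [← Real.exp_add]; simp)

/-- The space of exponential sums with the given frequencies, described by coefficients. -/
def ES (_f : Freq ι) : Type := ι → ℂ

instance (f : Freq ι) : AddCommGroup (ES f) := inferInstanceAs (AddCommGroup (ι → ℂ))
instance (f : Freq ι) : Module ℂ (ES f) := inferInstanceAs (Module ℂ (ι → ℂ))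
instance (f : Freq ι) : FiniteDimensional ℂ (ES f) := inferInstanceAs (FiniteDimensional ℂ (ι → ℂ))

noncomputable def Phi (f : Freq ι) : ES f →ₗ[ℂ] (ℂ →ᵇ ℂ) where
  toFun := fun c => ∑ i, (c : ι → ℂ) i • gfun f i
  map_add' := by
    intro a b
    rw [← Finset.sum_add_distrib]
    refine Finset.sum_congr rfl fun i _ => ?_
    rw [← add_smul]; rfl
  map_smul' := by
    intro a b
    rw [RingHom.id_apply, Finset.smul_sum]
    refine Finset.sum_congr rfl fun i _ => ?_
    rw [smul_smul]; rfl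

/-- the exponential sum itself -/
noncomputable def ev (f : Freq ι) (c : ES f) (w : ℂ) : ℂ :=
  ∑ i, (c : ι → ℂ) i * Complex.exp (f.mu i * w)

theorem Phi_apply (f : Freq ι) (c : ES f) (w : ℂ) :
    Phi f c w = ev f c w * ((Real.exp (-‖w‖) : ℝ) : ℂ) := by
  show (∑ i, (c : ι → ℂ) i • gfun f i) w = _
  rw [BoundedContinuousFunction.coe_sum, Finset.sum_apply, ev, Finset.sum_mul]
  refine Finset.sum_congr rfl fun i _ => ?_
  show (c : ι → ℂ) i * (Complex.exp (f.mu i * w) * ((Real.exp (-‖w‖) : ℝ) : ℂ)) = _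
  rw [mul_assoc]

/-- exponentials with distinct frequencies are linearly independent -/
theorem Phi_injective (f : Freq ι) : Function.Injective (Phi f) := by
  rw [← LinearMap.ker_eq_bot, LinearMap.ker_eq_bot']
  intro c hc
  have h0 : ∀ w, ev f c w = 0 := by
    intro w
    have h1 : Phi f c w = 0 := by rw [hc]; rfl
    rw [Phi_apply] at h1
    rcases mul_eq_zero.mp h1 with h | h
    · exact h
    · exfalso
      have : (Real.exp (-‖w‖) : ℝ) = 0 := by exact_mod_cast h
      exact (Real.exp_pos _).ne' this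
  let hom : ι → (Multiplicative ℂ →* ℂ) := fun i =>
    { toFun := fun w => Complex.exp (f.mu i * Multiplicative.toAdd w)
      map_one' := by simp
      map_mul' := by
        intro a b
        rw [toAdd_mul, mul_add, Complex.exp_add] }
  have hinj : Function.Injective hom := by
    intro i j hij
    by_contra hne
    have hmu : f.mu i ≠ f.mu j := fun h => hne (f.inj h)
    have hd : f.mu i - f.mu j ≠ 0 := sub_ne_zero.mpr hmu
    have h1 : hom i (Multiplicative.ofAdd (1 / (f.mu i - f.mu j))) =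
        hom j (Multiplicative.ofAdd (1 / (f.mu i - f.mu j))) := by rw [hij]
    have h2 : Complex.exp (f.mu i * (1 / (f.mu i - f.mu j))) =
        Complex.exp (f.mu j * (1 / (f.mu i - f.mu j))) := h1
    have h3 : Complex.exp (f.mu i * (1 / (f.mu i - f.mu j)) -
        f.mu j * (1 / (f.mu i - f.mu j))) = 1 := by
      rw [Complex.exp_sub, h2, div_self (Complex.exp_ne_zero _)]
    rw [← sub_mul, mul_one_div, div_self hd] at h3
    have h4 : Real.exp 1 = 1 := by
      have h5 : ((Real.exp 1 : ℝ) : ℂ) = 1 := by rw [← h3]; simp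
      exact_mod_cast h5
    have h6 := Real.add_one_lt_exp (one_ne_zero (α := ℝ))
    rw [h4] at h6
    norm_num at h6
  have hli := (linearIndependent_monoidHom (Multiplicative ℂ) ℂ).comp hom hinj
  rw [Fintype.linearIndependent_iff] at hli
  funext i
  apply hli (fun i => (c : ι → ℂ) i)
  funext w
  have := h0 (Multiplicative.toAdd w)
  rw [ev] at this
  rw [Finset.sum_apply]
  exact this

noncomputable instance (f : Freq ι) : NormedAddCommGroup (ES f) :=
  NormedAddCommGroup.induced (ES f) (ℂ →ᵇ ℂ) (Phi f) (Phi_injective f)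

noncomputable instance (f : Freq ι) : NormedSpace ℂ (ES f) :=
  NormedSpace.induced ℂ (ES f) (ℂ →ᵇ ℂ) (Phi f)

theorem norm_def (f : Freq ι) (c : ES f) : ‖c‖ = ‖Phi f c‖ := rfl

theorem ev_le (f : Freq ι) (c : ES f) (w : ℂ) : ‖ev f c w‖ ≤ ‖c‖ * Real.exp ‖w‖ := by
  have h := (Phi f c).norm_coe_le_norm w
  rw [Phi_apply, norm_mul, Complex.norm_real, Real.norm_eq_abs, abs_of_pos (Real.exp_pos _),
    ← norm_def] at h
  calc ‖ev f c w‖ = (‖ev f c w‖ * Real.exp (-‖w‖)) * Real.exp ‖w‖ := by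
        rw [mul_assoc, ← Real.exp_add]; simp
    _ ≤ ‖c‖ * Real.exp ‖w‖ := mul_le_mul_of_nonneg_right h (Real.exp_pos _).le

theorem norm_le_of (f : Freq ι) (c : ES f) (C : ℝ) (hC : 0 ≤ C)
    (h : ∀ w, ‖ev f c w‖ ≤ C * Real.exp ‖w‖) : ‖c‖ ≤ C := by
  rw [norm_def, BoundedContinuousFunction.norm_le hC]
  intro w
  rw [Phi_apply, norm_mul, Complex.norm_real, Real.norm_eq_abs, abs_of_pos (Real.exp_pos _)]
  calc ‖ev f c w‖ * Real.exp (-‖w‖) ≤ (C * Real.exp ‖w‖) * Real.exp (-‖w‖) :=
        mul_le_mul_of_nonneg_right (h w) (Real.exp_pos _).le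
    _ = C := by rw [mul_assoc, ← Real.exp_add]; simp

/-- diagonal operators -/
noncomputable def dg (f : Freq ι) (a : ι → ℂ) : ES f →L[ℂ] ES f :=
  LinearMap.toContinuousLinearMap
    { toFun := fun c => (fun i => a i * (c : ι → ℂ) i : ι → ℂ)
      map_add' := by intro c d; funext i; exact mul_add _ _ _
      map_smul' := by intro r c; funext i; exact mul_left_comm _ _ _ }

theorem dg_apply (f : Freq ι) (a : ι → ℂ) (c : ES f) (i : ι) :
    (dg f a c : ι → ℂ) i = a i * (c : ι → ℂ) i := rfl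

theorem dg_mul (f : Freq ι) (a b : ι → ℂ) : dg f a * dg f b = dg f (fun i => a i * b i) := by
  ext c
  funext i
  show a i * (b i * (c : ι → ℂ) i) = a i * b i * (c : ι → ℂ) i
  ring

theorem dg_one (f : Freq ι) : dg f (fun _ => 1) = 1 := by
  ext c
  funext i
  show 1 * (c : ι → ℂ) i = (c : ι → ℂ) i
  ring

theorem dg_sub (f : Freq ι) (a b : ι → ℂ) : dg f a - dg f b = dg f (fun i => a i - b i) := by
  ext c
  funext i
  show a i * (c : ι → ℂ) i - b i * (c : ι → ℂ) i = (a i - b i) * (c : ι → ℂ) i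
  ring

theorem dg_const (f : Freq ι) (z : ℂ) : algebraMap ℂ (ES f →L[ℂ] ES f) z = dg f (fun _ => z) := by
  ext c
  rfl

theorem dg_pow (f : Freq ι) (a : ι → ℂ) (n : ℕ) : dg f a ^ n = dg f (fun i => a i ^ n) := by
  induction n with
  | zero => simp only [pow_zero]; exact (dg_one f).symm
  | succ n ih => rw [pow_succ, ih, dg_mul]; rfl

/-- the operator: differentiation of exponential sums -/
noncomputable def TT (f : Freq ι) : ES f →L[ℂ] ES f := dg f f.mu

theorem norm_le_sum (f : Freq ι) (c : ES f) : ‖c‖ ≤ ∑ i, ‖(c : ι → ℂ) i‖ := by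
  apply norm_le_of f c _ (Finset.sum_nonneg fun _ _ => norm_nonneg _)
  intro w
  rw [ev, Finset.sum_mul]
  refine (norm_sum_le _ _).trans (Finset.sum_le_sum fun i _ => ?_)
  rw [norm_mul]
  exact mul_le_mul_of_nonneg_left (norm_exp_le _ _ (f.le i)) (norm_nonneg _)

/-- Lower bound for `z - T` : the numerical-range estimate. -/
theorem key_lower (f : Freq ι) (c : ES f) (z : ℂ) (hz : z ≠ 0) :
    (‖z‖ - 1) * ‖c‖ ≤ ‖dg f (fun i => z - f.mu i) c‖ := by
  have hzn : 0 < ‖z‖ := norm_pos_iff.mpr hz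
  set u : ℂ := (‖z‖ : ℂ) / z with hu
  have hun : ‖u‖ = 1 := by
    rw [hu, norm_div, Complex.norm_real, Real.norm_eq_abs, abs_of_pos hzn, div_self hzn.ne']
  set S : ℝ := ∑ i, ‖(c : ι → ℂ) i‖ with hS
  have hS0 : 0 ≤ S := Finset.sum_nonneg fun _ _ => norm_nonneg _
  have key : ∀ t : ℝ, 0 < t → t ≤ 1 →
      (‖z‖ - 1) * ‖c‖ ≤ ‖dg f (fun i => z - f.mu i) c‖ + t * (S + ‖c‖) := by
    intro t ht ht1
    -- E_t
    set Et : ES f := dg f (fun i => Complex.exp (t * (u * f.mu i))) c with hEt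
    have h1 : ‖Et‖ ≤ Real.exp t * ‖c‖ := by
      apply norm_le_of f Et _ (by positivity)
      intro w
      have e1 : ev f Et w = ev f c (w + t * u) := by
        rw [ev, ev]
        refine Finset.sum_congr rfl fun i _ => ?_
        rw [hEt, dg_apply, mul_comm (Complex.exp _) _, mul_assoc, ← Complex.exp_add]
        congr 2
        ring
      rw [e1]
      refine (ev_le f c _).trans ?_
      have e2 : ‖w + t * u‖ ≤ ‖w‖ + t := by
        refine (norm_add_le _ _).trans ?_
        rw [norm_mul, hun, Complex.norm_real, Real.norm_eq_abs, abs_of_pos ht, mul_one]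
      calc ‖c‖ * Real.exp ‖w + t * u‖ ≤ ‖c‖ * Real.exp (‖w‖ + t) := by
            apply mul_le_mul_of_nonneg_left (Real.exp_le_exp.mpr e2) (norm_nonneg _)
        _ = Real.exp t * ‖c‖ * Real.exp ‖w‖ := by rw [Real.exp_add]; ring
    have h2 : ‖dg f (fun i => Complex.exp (t * (u * f.mu i)) - 1 - t * (u * f.mu i)) c‖ ≤
        t ^ 2 * S := by
      refine (norm_le_sum f _).trans ?_
      rw [hS, Finset.mul_sum]
      refine Finset.sum_le_sum fun i _ => ?_
      rw [dg_apply, norm_mul]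
      apply mul_le_mul_of_nonneg_right _ (norm_nonneg _)
      have e3 : ‖(t : ℂ) * (u * f.mu i)‖ ≤ t := by
        rw [norm_mul, norm_mul, hun, Complex.norm_real, Real.norm_eq_abs, abs_of_pos ht, one_mul]
        calc t * ‖f.mu i‖ ≤ t * 1 := mul_le_mul_of_nonneg_left (f.le i) ht.le
          _ = t := mul_one t
      refine (Complex.norm_exp_sub_one_sub_id_le (e3.trans ht1)).trans ?_
      exact pow_le_pow_left₀ (norm_nonneg _) e3 2
    have h3 : ((1 + t * ‖z‖ : ℝ) : ℂ) • c = Et -
        dg f (fun i => Complex.exp (t * (u * f.mu i)) - 1 - t * (u * f.mu i)) c +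
        ((t : ℂ) * u) • dg f (fun i => z - f.mu i) c := by
      funext i
      show ((1 + t * ‖z‖ : ℝ) : ℂ) * (c : ι → ℂ) i = Complex.exp (t * (u * f.mu i)) * (c : ι → ℂ) i -
        (Complex.exp (t * (u * f.mu i)) - 1 - t * (u * f.mu i)) * (c : ι → ℂ) i +
        ((t : ℂ) * u) * ((z - f.mu i) * (c : ι → ℂ) i)
      have e4 : u * z = ‖z‖ := by rw [hu]; field_simp
      push_cast
      calc (1 + (t : ℂ) * ‖z‖) * (c : ι → ℂ) i = (1 + t * (u * z)) * (c : ι → ℂ) i := by rw [e4]
        _ = _ := by ring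
    have h4 : (1 + t * ‖z‖) * ‖c‖ ≤ Real.exp t * ‖c‖ + t ^ 2 * S +
        t * ‖dg f (fun i => z - f.mu i) c‖ := by
      have e5 : ‖((1 + t * ‖z‖ : ℝ) : ℂ) • c‖ = (1 + t * ‖z‖) * ‖c‖ := by
        rw [norm_smul, Complex.norm_real, Real.norm_eq_abs, abs_of_pos (by positivity)]
      rw [← e5, h3]
      refine (norm_add_le _ _).trans ?_
      apply add_le_add
      · refine (norm_sub_le _ _).trans (add_le_add h1 h2)
      · rw [norm_smul, norm_mul, hun, Complex.norm_real, Real.norm_eq_abs, abs_of_pos ht, mul_one]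
    have h5 : Real.exp t ≤ 1 + t + t ^ 2 := by
      have := Real.abs_exp_sub_one_sub_id_le (x := t) (by rw [abs_of_pos ht]; exact ht1)
      have := (abs_le.mp this).2
      linarith
    have h6 : (1 + t * ‖z‖) * ‖c‖ ≤ (1 + t + t ^ 2) * ‖c‖ + t ^ 2 * S +
        t * ‖dg f (fun i => z - f.mu i) c‖ := by
      have := mul_le_mul_of_nonneg_right h5 (norm_nonneg c)
      linarith
    have h7 : t * ((‖z‖ - 1) * ‖c‖) ≤ t * (‖dg f (fun i => z - f.mu i) c‖ + t * (S + ‖c‖)) := by
      nlinarith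
    exact le_of_mul_le_mul_left h7 ht
  by_contra hcon
  rw [not_le] at hcon
  set D := (‖z‖ - 1) * ‖c‖ - ‖dg f (fun i => z - f.mu i) c‖ with hD
  have hD0 : 0 < D := by rw [hD]; linarith
  have hSc : 0 ≤ S + ‖c‖ := by positivity
  have ht0 : 0 < min 1 (D / (2 * (S + ‖c‖ + 1))) := by
    apply lt_min one_pos
    positivity
  have h8 := key _ ht0 (min_le_left _ _)
  have h9 : min 1 (D / (2 * (S + ‖c‖ + 1))) * (S + ‖c‖) ≤ D / 2 := by
    calc min 1 (D / (2 * (S + ‖c‖ + 1))) * (S + ‖c‖)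
        ≤ (D / (2 * (S + ‖c‖ + 1))) * (S + ‖c‖) :=
          mul_le_mul_of_nonneg_right (min_le_right _ _) hSc
      _ ≤ (D / (2 * (S + ‖c‖ + 1))) * (S + ‖c‖ + 1) := by
          apply mul_le_mul_of_nonneg_left (by linarith)
          positivity
      _ = D / 2 := by field_simp
  linarith

theorem resolvent_facts (f : Freq ι) (z : ℂ) (hz : 1 < ‖z‖) :
    z ∉ spectrum ℂ (TT f) ∧ ‖resolvent (TT f) z‖ ≤ 1 / (‖z‖ - 1) := by
  have hz0 : z ≠ 0 := by intro h; rw [h, norm_zero] at hz; linarith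
  have hne : ∀ i, z - f.mu i ≠ 0 := by
    intro i h
    have h1 : z = f.mu i := sub_eq_zero.mp h
    have := f.le i
    rw [← h1] at this
    linarith
  have e1 : algebraMap ℂ (ES f →L[ℂ] ES f) z - TT f = dg f (fun i => z - f.mu i) := by
    rw [dg_const, TT, dg_sub]
  let U : (ES f →L[ℂ] ES f)ˣ :=
    { val := dg f (fun i => z - f.mu i)
      inv := dg f (fun i => (z - f.mu i)⁻¹)
      val_inv := by
        rw [dg_mul, ← dg_one]
        congr 1
        funext i
        exact mul_inv_cancel₀ (hne i)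
      inv_val := by
        rw [dg_mul, ← dg_one]
        congr 1
        funext i
        exact inv_mul_cancel₀ (hne i) }
  have hU : algebraMap ℂ (ES f →L[ℂ] ES f) z - TT f = (U : ES f →L[ℂ] ES f) := e1
  constructor
  · rw [spectrum.mem_iff, not_not, hU]
    exact U.isUnit
  · have hres : resolvent (TT f) z = dg f (fun i => (z - f.mu i)⁻¹) := by
      unfold resolvent
      rw [hU, Ring.inverse_unit]
      rfl
    rw [hres]
    have hz1 : 0 < ‖z‖ - 1 := by linarith
    refine ContinuousLinearMap.opNorm_le_bound _ (by positivity) fun y => ?_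
    have h1 := key_lower f (dg f (fun i => (z - f.mu i)⁻¹) y) z hz0
    have h2 : dg f (fun i => z - f.mu i) (dg f (fun i => (z - f.mu i)⁻¹) y) = y := by
      have := congrArg (fun A : ES f →L[ℂ] ES f => A y) U.val_inv
      exact this
    rw [h2] at h1
    rw [div_mul_eq_mul_div, one_mul, le_div_iff₀ hz1]
    linarith

end H75R3
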