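import Pool.Agent.H75R3.HaarDense

set_option autoImplicit false
set_option linter.unusedSectionVars false

namespace H75R3

open Finset MeasureTheory Filter Topology
open scoped ENNReal

theorem P_gt (p : ℝ≥0∞) (h1 : 1 < p) (hpt : p ≠ ∞) : 1 < p.toReal := by
  have := (ENNReal.toReal_lt_toReal ENNReal.one_ne_top hpt).mpr h1
  simpa using this

theorem P_ne (p : ℝ≥0∞) (hpt : p ≠ ∞) (h2 : p ≠ 2) : p.toReal ≠ 2 := by
  intro h
  apply h2
  rw [← ENNReal.ofReal_toReal hpt, h]
  simp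

variable {X : Type*} [MeasurableSpace X] {μ : Measure X} [IsProbabilityMeasure μ]
  {g : X → ℝ} {p : ℝ≥0∞} [hp1 : Fact (1 ≤ p)]

/-- multiplier bound with complex multipliers -/
theorem mult_bound (hg : MeasurePreserving g μ (volume.restrict (Set.Ico (0:ℝ) 1)))
    (h1 : 1 < p) (hpt : p ≠ ∞) (h2 : p ≠ 2) : ∃ C : ℝ, 0 < C ∧
    ∀ (t : Finset ℕ) (a θ : ℕ → ℂ) (R : ℝ), 0 ≤ R → (∀ m ∈ t, ‖θ m‖ ≤ R) →
      ‖∑ m ∈ t, a m • (θ m • eh μ p hg.measurable m)‖ ≤
        (C * R) * ‖∑ m ∈ t, a m • eh μ p hg.measurable m‖ := by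
  have hP1 := P_gt p h1 hpt
  obtain ⟨C, hC, hA⟩ := theoremA p.toReal hP1 (P_ne p hpt h2)
  set K := C ^ (1 / p.toReal) with hK
  have hK0 : 0 < K := by positivity
  have hreal : ∀ (t : Finset ℕ) (a : ℕ → ℂ) (θ : ℕ → ℝ), (∀ m, |θ m| ≤ 1) →
      ‖∑ m ∈ t, a m • ((θ m : ℂ) • eh μ p hg.measurable m)‖ ≤
        K * ‖∑ m ∈ t, a m • eh μ p hg.measurable m‖ := by
    intro t a θ hθ
    apply fin_reduce (eh μ p hg.measurable) (fun m => (θ m : ℂ) • eh μ p hg.measurable m) K
    intro n a _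
    have h3 := norm_fin_le (μ := μ) (p := p) hg hpt n n a (fun m => (θ m : ℂ) * a m) C hC.le
      (hA n a θ hθ)
    have h4 : ∑ m ∈ range (2 ^ n), a m • ((θ m : ℂ) • eh μ p hg.measurable m) =
        ∑ m ∈ range (2 ^ n), ((θ m : ℂ) * a m) • eh μ p hg.measurable m := by
      refine Finset.sum_congr rfl fun m _ => ?_
      rw [smul_smul, mul_comm]
    rw [h4]
    exact h3
  refine ⟨2 * K, by positivity, fun t a θ R hR hθ => ?_⟩
  rcases eq_or_lt_of_le hR with h0 | h0
  · have h3 : ∑ m ∈ t, a m • (θ m • eh μ p hg.measurable m) = 0 := by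
      apply Finset.sum_eq_zero
      intro m hm
      have h4 : θ m = 0 := by
        have := hθ m hm
        rw [← h0] at this
        exact norm_le_zero_iff.mp this
      rw [h4, zero_smul, smul_zero]
    rw [h3, norm_zero]
    positivity
  · set ρ : ℕ → ℝ := fun m => if m ∈ t then (θ m).re / R else 0 with hρ
    set σ : ℕ → ℝ := fun m => if m ∈ t then (θ m).im / R else 0 with hσ
    have hρ1 : ∀ m, |ρ m| ≤ 1 := by
      intro m
      simp only [hρ]
      split_ifs with h
      · rw [abs_div, abs_of_pos h0, div_le_one h0]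
        exact (Complex.abs_re_le_norm _).trans (hθ m h)
      · simp
    have hσ1 : ∀ m, |σ m| ≤ 1 := by
      intro m
      simp only [hσ]
      split_ifs with h
      · rw [abs_div, abs_of_pos h0, div_le_one h0]
        exact (Complex.abs_im_le_norm _).trans (hθ m h)
      · simp
    have h3 : ∑ m ∈ t, a m • (θ m • eh μ p hg.measurable m) =
        (R : ℂ) • (∑ m ∈ t, a m • ((ρ m : ℂ) • eh μ p hg.measurable m)) +
        ((R : ℂ) * Complex.I) • (∑ m ∈ t, a m • ((σ m : ℂ) • eh μ p hg.measurable m)) := by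
      rw [Finset.smul_sum, Finset.smul_sum, ← Finset.sum_add_distrib]
      refine Finset.sum_congr rfl fun m hm => ?_
      simp only [hρ, hσ, if_pos hm, smul_smul]
      rw [← add_smul]
      congr 1
      have hRC : (R : ℂ) ≠ 0 := by exact_mod_cast h0.ne'
      push_cast
      field_simp
      conv_lhs => rw [← Complex.re_add_im (θ m)]
      ring
    rw [h3]
    refine (norm_add_le _ _).trans ?_
    rw [norm_smul, norm_smul, norm_mul, Complex.norm_I, mul_one, Complex.norm_real,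
      Real.norm_of_nonneg h0.le]
    have h4 := hreal t a ρ hρ1
    have h5 := hreal t a σ hσ1
    have h6 := mul_le_mul_of_nonneg_left h4 h0.le
    have h7 := mul_le_mul_of_nonneg_left h5 h0.le
    nlinarith

theorem proj_fin (hg : MeasurePreserving g μ (volume.restrict (Set.Ico (0:ℝ) 1)))
    (h1 : 1 < p) (hpt : p ≠ ∞) (h2 : p ≠ 2) : ∃ C : ℝ, 0 < C ∧
    ∀ (t s : Finset ℕ) (a : ℕ → ℂ), t ⊆ s →
      ‖∑ m ∈ t, a m • eh μ p hg.measurable m‖ ≤ C * ‖∑ m ∈ s, a m • eh μ p hg.measurable m‖ := by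
  obtain ⟨C, hC, h⟩ := mult_bound (μ := μ) hg h1 hpt h2
  refine ⟨C, hC, fun t s a hts => ?_⟩
  have h3 := h s a (fun m => if m ∈ t then 1 else 0) 1 zero_le_one (by
    intro m _
    split_ifs <;> simp)
  rw [mul_one] at h3
  have h4 : ∑ m ∈ s, a m • ((if m ∈ t then (1:ℂ) else 0) • eh μ p hg.measurable m) =
      ∑ m ∈ t, a m • eh μ p hg.measurable m := by
    have h5 : ∀ m, a m • ((if m ∈ t then (1:ℂ) else 0) • eh μ p hg.measurable m) =
        if m ∈ t then a m • eh μ p hg.measurable m else 0 := by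
      intro m
      split_ifs
      · rw [one_smul]
      · rw [zero_smul, smul_zero]
    rw [Finset.sum_congr rfl (fun m _ => h5 m), ← Finset.sum_filter, Finset.filter_mem_eq_inter,
      Finset.inter_eq_right.mpr hts]
  rw [h4] at h3
  exact h3

/-- everything we need about the Haar basis -/
structure HB (hg : MeasurePreserving g μ (volume.restrict (Set.Ico (0:ℝ) 1))) (C : ℝ) : Prop where
  pos : 0 < C
  expand : ∀ x : Lp ℂ p μ, HasSum (fun m => ph μ p hg.measurable m x • eh μ p hg.measurable m) x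
  proj : ∀ (t : Finset ℕ) (x : Lp ℂ p μ),
    ‖∑ m ∈ t, ph μ p hg.measurable m x • eh μ p hg.measurable m‖ ≤ C * ‖x‖
  mult : ∀ (t : Finset ℕ) (a θ : ℕ → ℂ) (R : ℝ), 0 ≤ R → (∀ m ∈ t, ‖θ m‖ ≤ R) →
      ‖∑ m ∈ t, a m • (θ m • eh μ p hg.measurable m)‖ ≤
        (C * R) * ‖∑ m ∈ t, a m • eh μ p hg.measurable m‖

theorem exists_HB (hg : MeasurePreserving g μ (volume.restrict (Set.Ico (0:ℝ) 1)))
    (h1 : 1 < p) (hpt : p ≠ ∞) (h2 : p ≠ 2)
    (hdense : Dense (Submodule.span ℂ (Set.range (eh μ p hg.measurable)) : Set (Lp ℂ p μ))) :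
    ∃ C, HB (p := p) (μ := μ) hg C := by
  obtain ⟨C1, hC1, hm⟩ := mult_bound (μ := μ) hg h1 hpt h2
  obtain ⟨C2, hC2, hf⟩ := proj_fin (μ := μ) hg h1 hpt h2
  refine ⟨C1 + C2, by positivity, ?_, ?_, ?_⟩
  · exact hasSum_expansion _ _ C2 (ph_eh hg) hdense hf
  · intro t x
    have h3 := proj_bound _ _ C2 (ph_eh hg) hdense hf t x
    refine h3.trans ?_
    nlinarith [norm_nonneg x]
  · intro t a θ R hR hθ
    refine (hm t a θ R hR hθ).trans ?_
    apply mul_le_mul_of_nonneg_right _ (norm_nonneg _)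
    apply mul_le_mul_of_nonneg_right _ hR
    linarith

/-- bounded diagonal operators -/
theorem HB.exists_diag {hg : MeasurePreserving g μ (volume.restrict (Set.Ico (0:ℝ) 1))} {C : ℝ}
    (H : HB (p := p) (μ := μ) hg C) (θ : ℕ → ℂ) (R : ℝ) (hR : 0 ≤ R) (hθ : ∀ m, ‖θ m‖ ≤ R) :
    ∃ D : Lp ℂ p μ →L[ℂ] Lp ℂ p μ, (∀ m, D (eh μ p hg.measurable m) =
      θ m • eh μ p hg.measurable m) ∧ ‖D‖ ≤ C * R :=
  exists_op _ _ (ph_eh hg) H.expand _ (C * R) (mul_nonneg H.pos.le hR)
    (fun t a => H.mult t a θ R hR (fun m _ => hθ m))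

/-- interleaving operators -/
theorem HB.exists_A {hg : MeasurePreserving g μ (volume.restrict (Set.Ico (0:ℝ) 1))} {C : ℝ}
    (H : HB (p := p) (μ := μ) hg C) (h1 : 1 < p) (hpt : p ≠ ∞) (h2 : p ≠ 2) (r : ℕ) (hr : r < 2) :
    ∃ A : Lp ℂ p μ →L[ℂ] Lp ℂ p μ, ∀ m, A (eh μ p hg.measurable m) =
      eh μ p hg.measurable (2 * m + r) := by
  have hP1 := P_gt p h1 hpt
  obtain ⟨CV, hCV, hV⟩ := theoremV p.toReal hP1 (P_ne p hpt h2)
  obtain ⟨A, hA, _⟩ := exists_op _ _ (ph_eh (p := p) (μ := μ) hg) H.expand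
    (fun m => eh μ p hg.measurable (2 * m + r)) (CV ^ (1 / p.toReal)) (by positivity) (by
      apply fin_reduce
      intro n a ha
      have h3 := norm_fin_le (μ := μ) (p := p) hg hpt n (n + 1) a (Vop r a) CV hCV.le
        (hV n a r hr ha)
      have h4 : ∑ m ∈ range (2 ^ n), a m • eh μ p hg.measurable (2 * m + r) =
          ∑ m ∈ range (2 ^ (n + 1)), Vop r a m • eh μ p hg.measurable m := by
        have e : 2 ^ (n + 1) = 2 * 2 ^ n := by ring
        rw [e, sum_range_two_mul]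
        refine Finset.sum_congr rfl fun m _ => ?_
        have e1 : 2 * m % 2 = 0 := by omega
        have e2 : 2 * m / 2 = m := by omega
        have e3 : (2 * m + 1) % 2 = 1 := by omega
        have e4 : (2 * m + 1) / 2 = m := by omega
        unfold Vop
        rw [e1, e2, e3, e4]
        interval_cases r
        · simp
        · simp
      rw [h4]
      exact h3)
  exact ⟨A, hA⟩

theorem HB.exists_B {hg : MeasurePreserving g μ (volume.restrict (Set.Ico (0:ℝ) 1))} {C : ℝ}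
    (H : HB (p := p) (μ := μ) hg C) (h1 : 1 < p) (hpt : p ≠ ∞) (h2 : p ≠ 2) (r : ℕ) (hr : r < 2) :
    ∃ A : Lp ℂ p μ →L[ℂ] Lp ℂ p μ, ∀ m, A (eh μ p hg.measurable m) =
      if m % 2 = r then eh μ p hg.measurable (m / 2) else 0 := by
  have hP1 := P_gt p h1 hpt
  obtain ⟨CU, hCU, hU⟩ := theoremU p.toReal hP1 (P_ne p hpt h2)
  obtain ⟨A, hA, _⟩ := exists_op _ _ (ph_eh (p := p) (μ := μ) hg) H.expand
    (fun m => if m % 2 = r then eh μ p hg.measurable (m / 2) else 0) (CU ^ (1 / p.toReal))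
    (by positivity) (by
      apply fin_reduce
      intro n b hb
      have h3 := norm_fin_le (μ := μ) (p := p) hg hpt (n + 1) n b (Uop r b) CU hCU.le
        (hU n b r hr)
      have h4 : ∑ m ∈ range (2 ^ n), b m • (if m % 2 = r then eh μ p hg.measurable (m / 2) else 0) =
          ∑ m ∈ range (2 ^ n), Uop r b m • eh μ p hg.measurable m := by
        have e : 2 ^ (n + 1) = 2 * 2 ^ n := by ring
        have h5 : ∑ m ∈ range (2 ^ n), b m •
            (if m % 2 = r then eh μ p hg.measurable (m / 2) else 0) =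
            ∑ m ∈ range (2 ^ (n + 1)), b m •
            (if m % 2 = r then eh μ p hg.measurable (m / 2) else 0) := by
          rw [sum_range_two_pow_succ]
          rw [Finset.sum_eq_zero (s := L n), add_zero]
          intro m hm
          rw [hb m (mem_L.mp hm).1, zero_smul]
        rw [h5, e, sum_range_two_mul]
        refine Finset.sum_congr rfl fun m _ => ?_
        have e1 : 2 * m % 2 = 0 := by omega
        have e2 : 2 * m / 2 = m := by omega
        have e3 : (2 * m + 1) % 2 = 1 := by omega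
        have e4 : (2 * m + 1) / 2 = m := by omega
        unfold Uop
        rw [e1, e2, e3, e4]
        interval_cases r
        · simp
        · simp
      have h6 : ∑ m ∈ range (2 ^ n), b m • eh μ p hg.measurable m =
          ∑ m ∈ range (2 ^ (n + 1)), b m • eh μ p hg.measurable m := by
        rw [sum_range_two_pow_succ]
        rw [Finset.sum_eq_zero (s := L n), add_zero]
        intro m hm
        rw [hb m (mem_L.mp hm).1, zero_smul]
      rw [h4, h6]
      exact h3)
  exact ⟨A, hA⟩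

/-- multiplication minus diagonal is small on the layers -/
theorem layer_small (hg : MeasurePreserving g μ (volume.restrict (Set.Ico (0:ℝ) 1)))
    (M D : Lp ℂ p μ →L[ℂ] Lp ℂ p μ) (z : X → ℂ) (c : ℕ → ℂ) (k : ℕ) (δ : ℝ)
    (hM : ∀ f : Lp ℂ p μ, ∀ᵐ x ∂μ, (M f) x = z x * f x)
    (hD : ∀ m, D (eh μ p hg.measurable m) = c m • eh μ p hg.measurable m)
    (hz : ∀ᵐ x ∂μ, ‖z x - c (nd k (g x))‖ ≤ δ) (a : ℕ → ℂ) :
    ‖(M - D) (∑ m ∈ L k, a m • eh μ p hg.measurable m)‖ ≤
      δ * ‖∑ m ∈ L k, a m • eh μ p hg.measurable m‖ := by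
  have hD1 : D (∑ m ∈ L k, a m • eh μ p hg.measurable m) =
      ∑ m ∈ L k, (a m * c m) • eh μ p hg.measurable m := by
    rw [map_sum]
    refine Finset.sum_congr rfl fun m _ => ?_
    rw [map_smul, hD, smul_smul]
  apply Lp.norm_le_mul_norm_of_ae_le_mul
  rw [_root_.sub_apply, hD1]
  filter_upwards [Lp.coeFn_sub (M (∑ m ∈ L k, a m • eh μ p hg.measurable m))
    (∑ m ∈ L k, (a m * c m) • eh μ p hg.measurable m), hM (∑ m ∈ L k, a m • eh μ p hg.measurable m),
    sum_eh_coe (μ := μ) (p := p) hg.measurable (L k) a,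
    sum_eh_coe (μ := μ) (p := p) hg.measurable (L k) (fun m => a m * c m), hz] with x h1 h2 h3 h4 h5
  rw [h1, Pi.sub_apply, h2, h4, h3, sum_L_hr, sum_L_hr]
  have e : z x * (a (nd k (g x)) * hr (nd k (g x)) (g x)) -
      a (nd k (g x)) * c (nd k (g x)) * hr (nd k (g x)) (g x) =
      (z x - c (nd k (g x))) * (a (nd k (g x)) * hr (nd k (g x)) (g x)) := by ring
  rw [e, norm_mul]
  exact mul_le_mul_of_nonneg_right h5 (norm_nonneg _)

/-- partial sum operators -/
noncomputable def Qop (hg : MeasurePreserving g μ (volume.restrict (Set.Ico (0:ℝ) 1))) (n : ℕ) :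
    Lp ℂ p μ →L[ℂ] Lp ℂ p μ :=
  ∑ m ∈ range (2 ^ n), (ph μ p hg.measurable m).smulRight (eh μ p hg.measurable m)

theorem Qop_apply (hg : MeasurePreserving g μ (volume.restrict (Set.Ico (0:ℝ) 1))) (n : ℕ)
    (x : Lp ℂ p μ) : Qop hg n x =
      ∑ m ∈ range (2 ^ n), ph μ p hg.measurable m x • eh μ p hg.measurable m := by
  unfold Qop
  rw [_root_.sum_apply]
  rfl

theorem HB.Q_tendsto {hg : MeasurePreserving g μ (volume.restrict (Set.Ico (0:ℝ) 1))} {C : ℝ}
    (H : HB (p := p) (μ := μ) hg C) (x : Lp ℂ p μ) :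
    Tendsto (fun n => Qop hg n x) atTop (𝓝 x) := by
  have h1 := (H.expand x).tendsto_sum_nat
  have h2 : Tendsto (fun n : ℕ => 2 ^ n) atTop atTop := by
    exact tendsto_pow_atTop_atTop_of_one_lt (by norm_num)
  have h3 := h1.comp h2
  refine h3.congr fun n => ?_
  rw [Function.comp_apply, Qop_apply]

/-- tail estimate -/
theorem HB.tail {hg : MeasurePreserving g μ (volume.restrict (Set.Ico (0:ℝ) 1))} {C : ℝ}
    (H : HB (p := p) (μ := μ) hg C) {F : Type*} [NormedAddCommGroup F] [NormedSpace ℂ F]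
    (T : Lp ℂ p μ →L[ℂ] F) (A : ℝ) (hA : 0 ≤ A)
    (hT : ∀ (k : ℕ) (a : ℕ → ℂ), ‖T (∑ m ∈ L k, a m • eh μ p hg.measurable m)‖ ≤
      (A * (1 / 2) ^ k) * ‖∑ m ∈ L k, a m • eh μ p hg.measurable m‖) (n : ℕ) :
    ‖T - T.comp (Qop hg n)‖ ≤ 2 * A * C * (1 / 2) ^ n := by
  have hC := H.pos
  apply ContinuousLinearMap.opNorm_le_bound _ (by positivity)
  intro x
  have key : ∀ N, ‖T (Qop hg (n + N) x) - T (Qop hg n x)‖ ≤
      A * C * (2 * (1 / 2) ^ n - 2 * (1 / 2) ^ (n + N)) * ‖x‖ := by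
    intro N
    induction N with
    | zero => simp
    | succ N ih =>
      have h1 : Qop hg (n + (N + 1)) x = Qop hg (n + N) x +
          ∑ m ∈ L (n + N), ph μ p hg.measurable m x • eh μ p hg.measurable m := by
        rw [Qop_apply, Qop_apply, ← add_assoc, sum_range_two_pow_succ]
      have h2 : ‖T (∑ m ∈ L (n + N), ph μ p hg.measurable m x • eh μ p hg.measurable m)‖ ≤
          A * (1 / 2) ^ (n + N) * (C * ‖x‖) :=
        (hT (n + N) _).trans (mul_le_mul_of_nonneg_left (H.proj _ x) (by positivity))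
      have h3 : T (Qop hg (n + (N + 1)) x) - T (Qop hg n x) =
          (T (Qop hg (n + N) x) - T (Qop hg n x)) +
          T (∑ m ∈ L (n + N), ph μ p hg.measurable m x • eh μ p hg.measurable m) := by
        rw [h1, map_add]; abel
      rw [h3]
      refine (norm_add_le _ _).trans ((add_le_add ih h2).trans (le_of_eq ?_))
      rw [← add_assoc n N 1, pow_succ]
      ring
  have hlim : Tendsto (fun N => ‖T (Qop hg (n + N) x) - T (Qop hg n x)‖) atTop
      (𝓝 ‖T x - T (Qop hg n x)‖) := by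
    apply Tendsto.norm
    apply Tendsto.sub_const
    have h1 := H.Q_tendsto x
    have h2 : Tendsto (fun N => n + N) atTop atTop := tendsto_atTop_mono (fun N => Nat.le_add_left N n) tendsto_id
    exact (T.continuous.tendsto x).comp (h1.comp h2)
  refine le_of_tendsto hlim (Eventually.of_forall fun N => (key N).trans ?_)
  have h4 : 0 ≤ A * C * (2 * (1 / 2) ^ (n + N)) * ‖x‖ := by positivity
  nlinarith

end H75R3
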