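import Pool.Agent.H75R3.HaarLp

set_option autoImplicit false
set_option linter.unusedSectionVars false

namespace H75R3

open Finset MeasureTheory Filter Topology
open scoped ENNReal

theorem nd_approx (n : ℕ) (y : ℝ) :
    |((nd n y : ℝ) - 2 ^ n) / 2 ^ n - Int.fract y| ≤ (1 / 2) ^ n := by
  have hN : (0:ℝ) < 2 ^ n := by positivity
  unfold nd
  have h0 : 0 ≤ (2:ℝ) ^ n * Int.fract y := mul_nonneg hN.le (Int.fract_nonneg y)
  have h1 := Nat.floor_le h0
  have h2 := Nat.lt_floor_add_one ((2:ℝ) ^ n * Int.fract y)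
  have e : (((2 ^ n + ⌊(2:ℝ) ^ n * Int.fract y⌋₊ : ℕ) : ℝ) - 2 ^ n) / 2 ^ n - Int.fract y =
      -(((2:ℝ) ^ n * Int.fract y - ⌊(2:ℝ) ^ n * Int.fract y⌋₊) / 2 ^ n) := by
    push_cast
    field_simp
    ring
  rw [e, abs_neg, abs_of_nonneg (by apply div_nonneg _ hN.le; linarith), one_div, inv_pow,
    div_le_iff₀ hN, inv_mul_cancel₀ hN.ne']
  linarith

theorem nd_tendsto (y : ℝ) :
    Tendsto (fun n => ((nd n y : ℝ) - 2 ^ n) / 2 ^ n) atTop (𝓝 (Int.fract y)) := by
  rw [tendsto_iff_norm_sub_tendsto_zero]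
  refine squeeze_zero (fun n => norm_nonneg _) (fun n => nd_approx n y) ?_
  exact tendsto_pow_atTop_nhds_zero_of_lt_one (by norm_num) (by norm_num)

variable {X : Type*} [TopologicalSpace X] [NormalSpace X] [MeasurableSpace X] [BorelSpace X]
  [SecondCountableTopologyEither X ℂ]
  {μ : Measure X} [IsProbabilityMeasure μ] [μ.WeaklyRegular]
  {g : X → ℝ} {p : ℝ≥0∞} [hp1 : Fact (1 ≤ p)]

theorem eh_dense (hg : MeasurePreserving g μ (volume.restrict (Set.Ico (0:ℝ) 1))) (hpt : p ≠ ∞)
    (h : ℝ → X) (hc : Continuous h) (hh : ∀ᵐ x ∂μ, h (Int.fract (g x)) = x) :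
    Dense (Submodule.span ℂ (Set.range (eh μ p hg.measurable)) : Set (Lp ℂ p μ)) := by
  have hP : 0 < p.toReal := by
    apply ENNReal.toReal_pos _ hpt
    intro h0
    have := hp1.out
    rw [h0] at this
    simp at this
  set W : Set (Lp ℂ p μ) := closure
    (Submodule.span ℂ (Set.range (eh μ p hg.measurable)) : Set (Lp ℂ p μ)) with hW
  have hsub : Set.range (BoundedContinuousFunction.toLp p μ ℂ : (BoundedContinuousFunction X ℂ) →L[ℂ] Lp ℂ p μ) ⊆ W := by
    rintro _ ⟨f, rfl⟩
    choose c hc0 hc1 using fun n => exists_tree n (fun j => f (h (((j:ℝ) - 2 ^ n) / 2 ^ n)))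
    set S : ℕ → Lp ℂ p μ := fun n => ∑ m ∈ range (2 ^ n), c n m • eh μ p hg.measurable m with hS
    have hmem : ∀ n, S n ∈ (Submodule.span ℂ (Set.range (eh μ p hg.measurable)) :
        Set (Lp ℂ p μ)) := by
      intro n
      apply Submodule.sum_mem
      intro m _
      apply Submodule.smul_mem
      exact Submodule.subset_span ⟨m, rfl⟩
    have hScoe : ∀ n, ∀ᵐ x ∂μ, (S n - BoundedContinuousFunction.toLp p μ ℂ f) x =
        f (h (((nd n (g x) : ℝ) - 2 ^ n) / 2 ^ n)) - f x := by
      intro n
      filter_upwards [Lp.coeFn_sub (S n) (BoundedContinuousFunction.toLp p μ ℂ f),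
        BoundedContinuousFunction.coeFn_toLp (p := p) (μ := μ) (𝕜 := ℂ) f,
        fin_coe (μ := μ) (p := p) hg.measurable n (c n)] with x h1 h2 h3
      rw [h1, Pi.sub_apply, h2, h3, hc1 n _ (nd_mem n (g x))]
    have hlim : Tendsto (fun n => ‖S n - BoundedContinuousFunction.toLp p μ ℂ f‖) atTop (𝓝 0) := by
      have e : ∀ n, ‖S n - BoundedContinuousFunction.toLp p μ ℂ f‖ =
          (∫ x, ‖f (h (((nd n (g x) : ℝ) - 2 ^ n) / 2 ^ n)) - f x‖ ^ p.toReal ∂μ) ^
            (1 / p.toReal) := fun n => norm_Lp_eq hpt _ _ (hScoe n)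
      have h1 : Tendsto (fun n => ∫ x, ‖f (h (((nd n (g x) : ℝ) - 2 ^ n) / 2 ^ n)) - f x‖ ^
          p.toReal ∂μ) atTop (𝓝 (∫ x, (0:ℝ) ∂μ)) := by
        apply tendsto_integral_of_dominated_convergence (fun _ => (2 * ‖f‖) ^ p.toReal)
        · intro n
          apply AEMeasurable.aestronglyMeasurable
          apply AEMeasurable.pow_const
          apply AEMeasurable.norm
          apply AEMeasurable.sub
          · apply Measurable.aemeasurable
            apply f.continuous.measurable.comp
            apply hc.measurable.comp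
            apply Measurable.div_const
            apply Measurable.sub_const
            exact (measurable_from_top (f := fun n : ℕ => (n:ℝ))).comp (nd_g_meas hg n)
          · exact f.continuous.measurable.aemeasurable
        · exact integrable_const _
        · intro n
          apply Eventually.of_forall
          intro x
          rw [Real.norm_of_nonneg (Real.rpow_nonneg (norm_nonneg _) _)]
          apply Real.rpow_le_rpow (norm_nonneg _) _ hP.le
          calc ‖f (h (((nd n (g x) : ℝ) - 2 ^ n) / 2 ^ n)) - f x‖ ≤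
              ‖f (h (((nd n (g x) : ℝ) - 2 ^ n) / 2 ^ n))‖ + ‖f x‖ := norm_sub_le _ _
            _ ≤ ‖f‖ + ‖f‖ := add_le_add (f.norm_coe_le_norm _) (f.norm_coe_le_norm _)
            _ = 2 * ‖f‖ := by ring
        · filter_upwards [hh] with x hx
          have h2 : Tendsto (fun n => f (h (((nd n (g x) : ℝ) - 2 ^ n) / 2 ^ n)) - f x) atTop
              (𝓝 (f (h (Int.fract (g x))) - f x)) := by
            apply Tendsto.sub_const
            exact ((f.continuous.comp hc).tendsto _).comp (nd_tendsto (g x))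
          rw [hx, sub_self] at h2
          have h3 := (h2.norm).rpow_const (p := p.toReal) (Or.inr hP.le)
          rw [norm_zero, Real.zero_rpow hP.ne'] at h3
          exact h3
      rw [integral_zero] at h1
      have h2 := h1.rpow_const (p := 1 / p.toReal) (Or.inr (by positivity))
      rw [Real.zero_rpow (by positivity)] at h2
      exact h2.congr (fun n => (e n).symm)
    have hlim2 : Tendsto S atTop (𝓝 (BoundedContinuousFunction.toLp p μ ℂ f)) := by
      rw [tendsto_iff_norm_sub_tendsto_zero]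
      exact hlim
    exact mem_closure_of_tendsto hlim2 (Eventually.of_forall hmem)
  intro x
  have h1 := BoundedContinuousFunction.toLp_denseRange (p := p) ℂ (μ := μ) (E := ℂ) hpt x
  exact closure_minimal hsub isClosed_closure h1

end H75R3
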