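import Pool.Agent.H75R3.TreeDual

set_option autoImplicit false

namespace H75R3

open Finset MeasureTheory Filter Topology

/-- node of depth `n` containing the fractional part of `t` -/
noncomputable def nd (n : ℕ) (t : ℝ) : ℕ := 2 ^ n + ⌊(2:ℝ) ^ n * Int.fract t⌋₊

theorem nd_mem (n : ℕ) (t : ℝ) : nd n t ∈ L n := by
  rw [mem_L]
  unfold nd
  refine ⟨Nat.le_add_right _ _, ?_⟩
  have h1 : ⌊(2:ℝ) ^ n * Int.fract t⌋₊ < 2 ^ n := by
    rw [Nat.floor_lt (mul_nonneg (by positivity) (Int.fract_nonneg t))]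
    push_cast
    have := Int.fract_lt_one t
    have h2 : (0:ℝ) < 2 ^ n := by positivity
    nlinarith
  have : 2 ^ (n + 1) = 2 * 2 ^ n := by ring
  omega

theorem nd_zero (t : ℝ) : nd 0 t = 1 := by
  have := nd_mem 0 t
  rw [L_zero] at this
  simpa using this

theorem nd_half (n : ℕ) (t : ℝ) : nd (n + 1) t / 2 = nd n t := by
  unfold nd
  have h0 : 0 ≤ (2:ℝ) ^ n * Int.fract t := mul_nonneg (by positivity) (Int.fract_nonneg t)
  set y := (2:ℝ) ^ n * Int.fract t with hy
  have e1 : (2:ℝ) ^ (n + 1) * Int.fract t = 2 * y := by rw [hy]; ring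
  rw [e1]
  have h1 := Nat.floor_le h0
  have h2 := Nat.lt_floor_add_one y
  have h3 : 2 * ⌊y⌋₊ ≤ ⌊2 * y⌋₊ := by
    rw [Nat.le_floor_iff (by linarith)]
    push_cast
    linarith
  have h4 : ⌊2 * y⌋₊ < 2 * ⌊y⌋₊ + 2 := by
    rw [Nat.floor_lt (by linarith)]
    push_cast
    linarith
  have e2 : 2 ^ (n + 1) = 2 * 2 ^ n := by ring
  omega

theorem nd_meas (n : ℕ) : Measurable (nd n) := by
  unfold nd
  apply Measurable.const_add
  apply Nat.measurable_floor.comp
  exact (measurable_fract).const_mul _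

/-- Haar functions on the line (periodic) -/
noncomputable def hr (m : ℕ) (t : ℝ) : ℂ :=
  if m = 0 then 1 else if nd (Nat.log 2 m) t = m then
    (if nd (Nat.log 2 m + 1) t = 2 * m then 1 else -1) else 0

theorem hr_zero (t : ℝ) : hr 0 t = 1 := by simp [hr]

theorem hr_L {n m : ℕ} (hm : m ∈ L n) (t : ℝ) :
    hr m t = if nd n t = m then (if nd (n + 1) t = 2 * m then 1 else -1) else 0 := by
  unfold hr
  have := L_pos hm
  rw [if_neg (by omega), log_L hm]

theorem range_two_pow_succ (n : ℕ) : range (2 ^ (n + 1)) = range (2 ^ n) ∪ L n := by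
  ext j
  simp only [Finset.mem_union, Finset.mem_range, mem_L]
  have : 2 ^ (n + 1) = 2 * 2 ^ n := by ring
  omega

theorem disj_range_L (n : ℕ) : Disjoint (range (2 ^ n)) (L n) := by
  rw [Finset.disjoint_left]
  intro j h1 h2
  rw [Finset.mem_range] at h1
  have := (mem_L.mp h2).1
  omega

theorem sum_range_two_pow_succ {A : Type*} [AddCommMonoid A] (f : ℕ → A) (n : ℕ) :
    ∑ m ∈ range (2 ^ (n + 1)), f m = ∑ m ∈ range (2 ^ n), f m + ∑ m ∈ L n, f m := by
  rw [range_two_pow_succ, Finset.sum_union (disj_range_L n)]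

theorem sum_L_hr (n : ℕ) (a : ℕ → ℂ) (t : ℝ) :
    ∑ m ∈ L n, a m * hr m t = a (nd n t) * hr (nd n t) t := by
  rw [Finset.sum_eq_single (nd n t)]
  · intro m hm hne
    rw [hr_L hm, if_neg (Ne.symm hne), mul_zero]
  · intro h
    exact absurd (nd_mem n t) h

theorem hr_nd (n : ℕ) (t : ℝ) : hr (nd n t) t = if nd (n + 1) t = 2 * nd n t then 1 else -1 := by
  rw [hr_L (nd_mem n t), if_pos rfl]

theorem norm_hr_nd (n : ℕ) (t : ℝ) : ‖hr (nd n t) t‖ = 1 := by
  rw [hr_nd]
  split_ifs <;> simp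

theorem norm_hr_le (m : ℕ) (t : ℝ) : ‖hr m t‖ ≤ 1 := by
  unfold hr
  split_ifs <;> simp

theorem sum_hr (n : ℕ) (a : ℕ → ℂ) (t : ℝ) :
    ∑ m ∈ range (2 ^ n), a m * hr m t = tree a (nd n t) := by
  induction n with
  | zero =>
    rw [nd_zero, tree_one, pow_zero, Finset.sum_range_one, hr_zero, mul_one]
  | succ n ih =>
    rw [sum_range_two_pow_succ, ih, sum_L_hr, hr_nd]
    have h1 := nd_half n t
    have h2 := L_pos (nd_mem n t)
    rcases Nat.mod_two_eq_zero_or_one (nd (n + 1) t) with h | h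
    · have e : nd (n + 1) t = 2 * nd n t := by omega
      rw [if_pos e, e, tree_even _ _ h2, mul_one]
    · have e : nd (n + 1) t = 2 * nd n t + 1 := by omega
      rw [if_neg (by omega), e, tree_odd _ _ h2]
      ring

theorem hr_meas (m : ℕ) : Measurable (hr m) := by
  unfold hr
  split_ifs with h
  · exact measurable_const
  · apply Measurable.ite
    · exact nd_meas _ (measurableSet_singleton m)
    · apply Measurable.ite
      · exact nd_meas _ (measurableSet_singleton (2 * m))
      · exact measurable_const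
      · exact measurable_const
    · exact measurable_const

theorem vol_nd (n m : ℕ) (hm : m ∈ L n) :
    (volume.restrict (Set.Ico (0:ℝ) 1)) {t | nd n t = m} = ENNReal.ofReal ((2 ^ n)⁻¹) := by
  have hmeas : MeasurableSet {t | nd n t = m} := nd_meas n (measurableSet_singleton m)
  rw [Measure.restrict_apply hmeas]
  obtain ⟨h1, h2⟩ := mem_L.mp hm
  obtain ⟨j, rfl⟩ : ∃ j, m = 2 ^ n + j := ⟨m - 2 ^ n, by omega⟩
  have e2 : 2 ^ (n + 1) = 2 * 2 ^ n := by ring
  have hj : j < 2 ^ n := by omega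
  have hN : (0:ℝ) < 2 ^ n := by positivity
  have hset : {t | nd n t = 2 ^ n + j} ∩ Set.Ico (0:ℝ) 1 =
      Set.Ico ((j:ℝ) / 2 ^ n) (((j:ℝ) + 1) / 2 ^ n) := by
    ext t
    simp only [Set.mem_inter_iff, Set.mem_ofPred_eq, Set.mem_Ico]
    constructor
    · rintro ⟨h3, h4, h5⟩
      unfold nd at h3
      rw [Int.fract_eq_self.mpr ⟨h4, h5⟩] at h3
      have h6 : ⌊(2:ℝ) ^ n * t⌋₊ = j := by omega
      have h7 := Nat.floor_le (mul_nonneg hN.le h4)
      have h8 := Nat.lt_floor_add_one ((2:ℝ) ^ n * t)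
      rw [h6] at h7 h8
      constructor
      · rw [div_le_iff₀ hN]; linarith
      · rw [lt_div_iff₀ hN]; linarith
    · rintro ⟨h3, h4⟩
      rw [div_le_iff₀ hN] at h3
      rw [lt_div_iff₀ hN] at h4
      have ht0 : 0 ≤ t := by
        by_contra hcon
        rw [not_le] at hcon
        have : t * 2 ^ n < 0 := mul_neg_of_neg_of_pos hcon hN
        have : (0:ℝ) ≤ j := Nat.cast_nonneg j
        linarith
      have ht1 : t < 1 := by
        by_contra hcon
        rw [not_lt] at hcon
        have h9 : (2:ℝ) ^ n ≤ t * 2 ^ n := by nlinarith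
        have h10 : ((j:ℝ) + 1) ≤ 2 ^ n := by exact_mod_cast hj
        linarith
      refine ⟨?_, ht0, ht1⟩
      unfold nd
      rw [Int.fract_eq_self.mpr ⟨ht0, ht1⟩]
      congr 1
      rw [Nat.floor_eq_iff (mul_nonneg hN.le ht0)]
      constructor <;> linarith
  rw [hset, Real.volume_Ico]
  congr 1
  field_simp
  ring

section space

variable {X : Type*} [MeasurableSpace X] {μ : Measure X} [IsProbabilityMeasure μ]
  {g : X → ℝ} (hg : MeasurePreserving g μ (volume.restrict (Set.Ico (0:ℝ) 1)))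

include hg

theorem meas_nd (n m : ℕ) (hm : m ∈ L n) : μ.real {x | nd n (g x) = m} = (2 ^ n)⁻¹ := by
  have h1 : {x | nd n (g x) = m} = g ⁻¹' {t | nd n t = m} := rfl
  have h2 : MeasurableSet {t | nd n t = m} := nd_meas n (measurableSet_singleton m)
  rw [h1, Measure.real, hg.measure_preimage h2.nullMeasurableSet,
    vol_nd n m hm, ENNReal.toReal_ofReal (by positivity)]

omit [IsProbabilityMeasure μ] in
theorem nd_g_meas (n : ℕ) : Measurable (fun x => nd n (g x)) := (nd_meas n).comp hg.measurable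

theorem integral_nd {E : Type*} [NormedAddCommGroup E] [NormedSpace ℝ E] [CompleteSpace E]
    (n : ℕ) (F : ℕ → E) :
    ∫ x, F (nd n (g x)) ∂μ = ((2:ℝ) ^ n)⁻¹ • ∑ m ∈ L n, F m := by
  have h1 : (fun x => F (nd n (g x))) =
      fun x => ∑ m ∈ L n, Set.indicator {x | nd n (g x) = m} (fun _ => F m) x := by
    funext x
    rw [Finset.sum_eq_single (nd n (g x))]
    · rw [Set.indicator_of_mem]
      rfl
    · intro m _ hne
      rw [Set.indicator_of_notMem]
      exact Ne.symm hne
    · intro h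
      exact absurd (nd_mem n (g x)) h
  have hms : ∀ m, MeasurableSet {x | nd n (g x) = m} := fun m =>
    nd_g_meas hg n (measurableSet_singleton m)
  rw [h1, MeasureTheory.integral_finsetSum]
  · rw [Finset.smul_sum]
    refine Finset.sum_congr rfl fun m hm => ?_
    rw [MeasureTheory.integral_indicator_const _ (hms m), meas_nd hg n m hm]
  · intro m _
    exact (integrable_const (F m)).indicator (hms m)

end space

end H75R3
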