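import Pool.Agent.H75R3.HaarFn
import Pool.Agent.H75R3.BasisAbs

set_option autoImplicit false

namespace H75R3

open Finset MeasureTheory Filter Topology
open scoped ENNReal

set_option linter.unusedSectionVars false

section space

variable {X : Type*} [MeasurableSpace X] {μ : Measure X} [IsProbabilityMeasure μ]
  {g : X → ℝ} {p : ℝ≥0∞} [hp1 : Fact (1 ≤ p)]

/-- norm of an element of `L^p` represented by `f` -/
theorem norm_Lp_eq (hpt : p ≠ ∞) (h : Lp ℂ p μ) (f : X → ℂ) (hh : ∀ᵐ x ∂μ, h x = f x) :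
    ‖h‖ = (∫ x, ‖f x‖ ^ p.toReal ∂μ) ^ (1 / p.toReal) := by
  have hp0 : p ≠ 0 := by
    intro h0
    have := hp1.out
    rw [h0] at this
    simp at this
  have hm : MemLp f p μ := (memLp_congr_ae hh).mp (Lp.memLp h)
  rw [Lp.norm_def, eLpNorm_congr_ae hh, hm.eLpNorm_eq_integral_rpow_norm hp0 hpt,
    ENNReal.toReal_ofReal, one_div]
  apply Real.rpow_nonneg
  apply integral_nonneg
  intro x
  exact Real.rpow_nonneg (norm_nonneg _) _

theorem norm_nd (hg : MeasurePreserving g μ (volume.restrict (Set.Ico (0:ℝ) 1))) (hpt : p ≠ ∞)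
    (h : Lp ℂ p μ) (n : ℕ) (F : ℕ → ℂ) (hh : ∀ᵐ x ∂μ, h x = F (nd n (g x))) :
    ‖h‖ = ((∑ m ∈ L n, ‖F m‖ ^ p.toReal) / 2 ^ n) ^ (1 / p.toReal) := by
  rw [norm_Lp_eq hpt h _ hh]
  congr 1
  have := integral_nd hg n (fun m => ‖F m‖ ^ p.toReal)
  rw [this, smul_eq_mul]
  ring

theorem hr_memLp (hgm : Measurable g) (m : ℕ) : MemLp (fun x => hr m (g x)) p μ :=
  MemLp.of_bound ((hr_meas m).comp hgm).aestronglyMeasurable 1
    (Eventually.of_forall fun x => norm_hr_le m (g x))

/-- Haar functions in `L^p` -/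
noncomputable def eh (μ : Measure X) [IsProbabilityMeasure μ] (p : ℝ≥0∞) [hp1 : Fact (1 ≤ p)]
    (hgm : Measurable g) (m : ℕ) : Lp ℂ p μ :=
  (hr_memLp (μ := μ) (p := p) hgm m).toLp (fun x => hr m (g x))

theorem eh_coe (hgm : Measurable g) (m : ℕ) :
    ∀ᵐ x ∂μ, (eh μ p hgm m) x = hr m (g x) := MemLp.coeFn_toLp _

theorem sum_eh_coe (hgm : Measurable g) (t : Finset ℕ) (a : ℕ → ℂ) :
    ∀ᵐ x ∂μ, (∑ m ∈ t, a m • eh μ p hgm m) x = ∑ m ∈ t, a m * hr m (g x) := by
  induction t using Finset.induction_on with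
  | empty =>
    simp only [Finset.sum_empty]
    exact Lp.coeFn_zero ℂ p μ
  | insert k t hk ih =>
    rw [Finset.sum_insert hk]
    filter_upwards [Lp.coeFn_add (a k • eh μ p hgm k) (∑ m ∈ t, a m • eh μ p hgm m),
      Lp.coeFn_smul (a k) (eh μ p hgm k), ih, eh_coe (μ := μ) (p := p) hgm k] with x h1 h2 h3 h4
    rw [h1, Pi.add_apply, h2, Pi.smul_apply, h3, h4, Finset.sum_insert hk, smul_eq_mul]

theorem fin_coe (hgm : Measurable g) (n : ℕ) (a : ℕ → ℂ) :
    ∀ᵐ x ∂μ, (∑ m ∈ range (2 ^ n), a m • eh μ p hgm m) x = tree a (nd n (g x)) := by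
  filter_upwards [sum_eh_coe (μ := μ) (p := p) hgm (range (2 ^ n)) a] with x hx
  rw [hx, sum_hr]

theorem norm_fin (hg : MeasurePreserving g μ (volume.restrict (Set.Ico (0:ℝ) 1))) (hpt : p ≠ ∞)
    (n : ℕ) (a : ℕ → ℂ) :
    ‖∑ m ∈ range (2 ^ n), a m • eh μ p hg.measurable m‖ = (NP p.toReal n a) ^ (1 / p.toReal) :=
  norm_nd hg hpt _ n (tree a) (fin_coe hg.measurable n a)

theorem norm_fin_le (hg : MeasurePreserving g μ (volume.restrict (Set.Ico (0:ℝ) 1))) (hpt : p ≠ ∞)
    (n n' : ℕ) (a b : ℕ → ℂ) (C : ℝ) (hC : 0 ≤ C)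
    (h : NP p.toReal n' b ≤ C * NP p.toReal n a) :
    ‖∑ m ∈ range (2 ^ n'), b m • eh μ p hg.measurable m‖ ≤
      C ^ (1 / p.toReal) * ‖∑ m ∈ range (2 ^ n), a m • eh μ p hg.measurable m‖ := by
  rw [norm_fin hg hpt, norm_fin hg hpt, ← Real.mul_rpow hC (NP_nonneg _ _ _)]
  apply Real.rpow_le_rpow (NP_nonneg _ _ _) h
  positivity

theorem integrable_mul_bdd (f : Lp ℂ p μ) (h : X → ℂ) (hm : AEStronglyMeasurable h μ)
    (hb : ∀ x, ‖h x‖ ≤ 1) : Integrable (fun x => f x * h x) μ :=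
  ((Lp.memLp f).integrable hp1.out).mul_bdd hm (Eventually.of_forall hb)

/-- integration against a function bounded by one -/
noncomputable def psi (μ : Measure X) [IsProbabilityMeasure μ] (p : ℝ≥0∞) [hp1 : Fact (1 ≤ p)]
    (h : X → ℂ) (hm : AEStronglyMeasurable h μ)
    (hb : ∀ x, ‖h x‖ ≤ 1) : Lp ℂ p μ →L[ℂ] ℂ :=
  LinearMap.mkContinuous
    { toFun := fun f => ∫ x, f x * h x ∂μ
      map_add' := by
        intro f f'
        rw [← integral_add (integrable_mul_bdd f h hm hb) (integrable_mul_bdd f' h hm hb)]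
        apply integral_congr_ae
        filter_upwards [Lp.coeFn_add f f'] with x hx
        rw [hx, Pi.add_apply, add_mul]
      map_smul' := by
        intro c f
        rw [RingHom.id_apply, smul_eq_mul, ← integral_const_mul]
        apply integral_congr_ae
        filter_upwards [Lp.coeFn_smul c f] with x hx
        rw [hx, Pi.smul_apply, smul_eq_mul, mul_assoc] } 1 (by
    intro f
    rw [one_mul]
    have hint : Integrable (fun x => f x) μ := (Lp.memLp f).integrable hp1.out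
    have h1 : ‖∫ x, f x * h x ∂μ‖ ≤ ∫ x, ‖f x‖ ∂μ := by
      refine (norm_integral_le_integral_norm _).trans ?_
      apply integral_mono (integrable_mul_bdd f h hm hb).norm hint.norm
      intro x
      show ‖f x * h x‖ ≤ ‖f x‖
      rw [norm_mul]
      calc ‖f x‖ * ‖h x‖ ≤ ‖f x‖ * 1 := mul_le_mul_of_nonneg_left (hb x) (norm_nonneg _)
        _ = ‖f x‖ := mul_one _
    refine h1.trans ?_
    rw [integral_norm_eq_lintegral_enorm hint.aestronglyMeasurable, Lp.norm_def]
    rw [← eLpNorm_one_eq_lintegral_enorm]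
    apply ENNReal.toReal_mono (Lp.eLpNorm_ne_top f)
    exact eLpNorm_le_eLpNorm_of_exponent_le hp1.out hint.aestronglyMeasurable)

theorem psi_apply (h : X → ℂ) (hm : AEStronglyMeasurable h μ)
    (hb : ∀ x, ‖h x‖ ≤ 1) (f : Lp ℂ p μ) : psi μ p h hm hb f = ∫ x, f x * h x ∂μ := rfl

theorem psi_norm (h : X → ℂ) (hm : AEStronglyMeasurable h μ)
    (hb : ∀ x, ‖h x‖ ≤ 1) : ‖psi μ p h hm hb‖ ≤ 1 :=
  LinearMap.mkContinuous_norm_le _ zero_le_one _

/-- weight -/
noncomputable def wt (m : ℕ) : ℝ := if m = 0 then 1 else 2 ^ (Nat.log 2 m)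

/-- Haar coefficients -/
noncomputable def ph (μ : Measure X) [IsProbabilityMeasure μ] (p : ℝ≥0∞) [hp1 : Fact (1 ≤ p)]
    (hgm : Measurable g) (m : ℕ) : Lp ℂ p μ →L[ℂ] ℂ :=
  (wt m : ℂ) • psi μ p (fun x => hr m (g x)) ((hr_meas m).comp hgm).aestronglyMeasurable
    (fun x => norm_hr_le m (g x))

theorem ph_apply (hgm : Measurable g) (m : ℕ) (f : Lp ℂ p μ) :
    ph μ p hgm m f = (wt m : ℂ) * ∫ x, f x * hr m (g x) ∂μ := rfl

theorem PR_disjoint (n : ℕ) (a b : ℕ → ℂ) (h : ∀ m, m < 2 ^ n → a m * b m = 0) :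
    PR n a b = 0 := by
  induction n with
  | zero => rw [PR_zero, h 0 (by norm_num)]
  | succ n ih =>
    have e0 : 2 ^ (n + 1) = 2 * 2 ^ n := by ring
    rw [PR_succ, ih (fun m hm => h m (by omega)), Finset.sum_eq_zero, zero_div, add_zero]
    intro m hm
    exact h m (mem_L.mp hm).2

theorem PR_self (n m : ℕ) (hm : m < 2 ^ n) :
    (wt m : ℂ) * PR n (fun i => if i = m then 1 else 0) (fun i => if i = m then 1 else 0) = 1 := by
  induction n with
  | zero =>
    have : m = 0 := by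
      have h1 : 2 ^ 0 = 1 := rfl
      omega
    subst this
    rw [PR_zero]
    simp [wt]
  | succ n ih =>
    rw [PR_succ]
    rcases lt_or_ge m (2 ^ n) with h | h
    · rw [Finset.sum_eq_zero, zero_div, add_zero, ih h]
      intro i hi
      have h3 := (mem_L.mp hi).1
      rw [if_neg (by omega), zero_mul]
    · have hmL : m ∈ L n := mem_L.mpr ⟨h, hm⟩
      rw [PR_disjoint n, zero_add]
      · rw [Finset.sum_eq_single m]
        · have := L_pos hmL
          unfold wt
          rw [if_neg (by omega), log_L hmL]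
          simp
        · intro i _ hi
          rw [if_neg hi, zero_mul]
        · intro h3
          exact absurd hmL h3
      · intro i hi
        rw [if_neg (by omega), zero_mul]

theorem ph_eh (hg : MeasurePreserving g μ (volume.restrict (Set.Ico (0:ℝ) 1))) (m k : ℕ) :
    ph μ p hg.measurable m (eh μ p hg.measurable k) = if m = k then 1 else 0 := by
  rw [ph_apply]
  have h1 : ∫ x, (eh μ p hg.measurable k) x * hr m (g x) ∂μ = ∫ x, hr k (g x) * hr m (g x) ∂μ := by
    apply integral_congr_ae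
    filter_upwards [eh_coe (μ := μ) (p := p) hg.measurable k] with x hx
    rw [hx]
  rw [h1]
  obtain ⟨n, hn1, hn2⟩ : ∃ n, m < 2 ^ n ∧ k < 2 ^ n := by
    refine ⟨m + k, ?_, ?_⟩
    · exact lt_of_lt_of_le Nat.lt_two_pow_self (Nat.pow_le_pow_right (by norm_num) (by omega))
    · exact lt_of_lt_of_le Nat.lt_two_pow_self (Nat.pow_le_pow_right (by norm_num) (by omega))
  have htr : ∀ j, j < 2 ^ n → ∀ x, hr j (g x) =
      tree (fun i => if i = j then (1:ℂ) else 0) (nd n (g x)) := by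
    intro j hj x
    rw [← sum_hr, Finset.sum_eq_single j]
    · rw [if_pos rfl, one_mul]
    · intro i _ hi
      rw [if_neg hi, zero_mul]
    · intro h3
      exact absurd (Finset.mem_range.mpr hj) h3
  have h2 : ∫ x, hr k (g x) * hr m (g x) ∂μ =
      PR n (fun i => if i = k then 1 else 0) (fun i => if i = m then 1 else 0) := by
    have h3 := integral_nd hg n (fun j => tree (fun i => if i = k then (1:ℂ) else 0) j *
      tree (fun i => if i = m then (1:ℂ) else 0) j)
    have h4 : ∫ x, hr k (g x) * hr m (g x) ∂μ = ∫ x, (fun j =>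
      tree (fun i => if i = k then (1:ℂ) else 0) j *
      tree (fun i => if i = m then (1:ℂ) else 0) j) (nd n (g x)) ∂μ := by
      congr 1
      funext x
      rw [htr k hn2, htr m hn1]
    rw [h4, h3]
    unfold PR
    rw [Complex.real_smul]
    push_cast
    ring
  rw [h2]
  split_ifs with hmk
  · subst hmk
    exact PR_self n m hn1
  · rw [PR_disjoint, mul_zero]
    intro i _
    by_cases hi : i = k
    · rw [if_neg (fun h5 : i = m => hmk (by omega)), mul_zero]
    · rw [if_neg hi, zero_mul]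

end space

end H75R3
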