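import Pool.Agent.H75R3.TraceBound

set_option autoImplicit false
set_option linter.unusedSectionVars false

namespace H75R3

open Finset Filter Topology

variable {X : Type*} [NormedAddCommGroup X] [NormedSpace ℂ X] [FiniteDimensional ℂ X]

/-- truncated Neumann sums at the roots of unity -/
noncomputable def SN (B : X →L[ℂ] X) (ζ : ℂ) (N r : ℕ) : X →L[ℂ] X :=
  ∑ l ∈ range N, (ζ⁻¹ ^ (r * l)) • B ^ l

theorem SN_mul (B : X →L[ℂ] X) (ζ : ℂ) (N r : ℕ) (hζ : IsPrimitiveRoot ζ N) :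
    (1 - (ζ⁻¹ ^ r) • B) * SN B ζ N r = 1 - B ^ N := by
  have h1 : SN B ζ N r = ∑ l ∈ range N, ((ζ⁻¹ ^ r) • B) ^ l := by
    unfold SN
    refine Finset.sum_congr rfl fun l _ => ?_
    rw [smul_pow, ← pow_mul]
  rw [h1, mul_neg_geom_sum, smul_pow, ← pow_mul, mul_comm r N, pow_mul, inv_pow, hζ.pow_eq_one]
  simp

theorem SN_inv (B : X →L[ℂ] X) (ζ : ℂ) (N m : ℕ) (hζ : IsPrimitiveRoot ζ N) (hm : m < N) :
    ((N : ℂ)⁻¹) • ∑ r ∈ range N, (ζ ^ (r * m)) • SN B ζ N r = B ^ m := by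
  have hN0 : N ≠ 0 := by omega
  have hζ0 : ζ ≠ 0 := hζ.ne_zero hN0
  unfold SN
  simp_rw [Finset.smul_sum, smul_smul]
  rw [Finset.sum_comm, Finset.sum_eq_single m]
  · rw [← Finset.sum_smul]
    have : ∀ r ∈ range N, (N : ℂ)⁻¹ * (ζ ^ (r * m) * ζ⁻¹ ^ (r * m)) = (N : ℂ)⁻¹ := by
      intro r _
      rw [← mul_pow, mul_inv_cancel₀ hζ0, one_pow, mul_one]
    rw [Finset.sum_congr rfl this, Finset.sum_const, Finset.card_range, nsmul_eq_mul,
      mul_inv_cancel₀ (by exact_mod_cast hN0), one_smul]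
  · intro l hl hlm
    rw [← Finset.sum_smul]
    set x : ℂ := ζ ^ m * ζ⁻¹ ^ l with hx
    have e2 : ∀ r ∈ range N, (N : ℂ)⁻¹ * (ζ ^ (r * m) * ζ⁻¹ ^ (r * l)) = (N : ℂ)⁻¹ * x ^ r := by
      intro r _
      rw [hx, mul_pow, ← pow_mul, ← pow_mul, mul_comm m r, mul_comm l r]
    rw [Finset.sum_congr rfl e2, ← Finset.mul_sum]
    have hxN : x ^ N = 1 := by
      rw [hx, mul_pow, ← pow_mul, ← pow_mul, mul_comm m N, mul_comm l N, pow_mul, pow_mul,
        inv_pow, hζ.pow_eq_one]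
      simp
    have hx1 : x ≠ 1 := by
      intro h
      have h3 : ζ ^ m = ζ ^ l := by
        calc ζ ^ m = x * ζ ^ l := by
              rw [hx, mul_assoc, ← mul_pow, inv_mul_cancel₀ hζ0, one_pow, mul_one]
          _ = ζ ^ l := by rw [h, one_mul]
      have := hζ.pow_inj hm (Finset.mem_range.mp hl) h3
      exact hlm this.symm
    have h4 : (∑ r ∈ range N, x ^ r) * (x - 1) = 0 := by
      rw [geom_sum_mul, hxN, sub_self]
    have h5 : ∑ r ∈ range N, x ^ r = 0 := by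
      rcases mul_eq_zero.mp h4 with h | h
      · exact h
      · exact absurd (sub_eq_zero.mp h) hx1
    rw [h5, mul_zero, zero_smul]
  · intro h; exact absurd (Finset.mem_range.mpr hm) h

theorem exists_pow_small (B : X →L[ℂ] X) (q : ℝ) (hq : q < 1)
    (hB : ∀ z ∈ spectrum ℂ B, ‖z‖ ≤ q)
    (n : ℕ) : ∃ N, n < N ∧ ‖B ^ N‖ ≤ 1 := by
  have : CompleteSpace X := FiniteDimensional.complete ℂ X
  have h1 := spectrum.pow_nnnorm_pow_one_div_tendsto_nhds_spectralRadius B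
  have h2 : spectralRadius ℂ B < 1 := by
    have : spectralRadius ℂ B ≤ ENNReal.ofReal q := by
      unfold spectralRadius
      refine iSup₂_le fun z hz => ?_
      rw [← norm_toNNReal]
      exact ENNReal.ofReal_le_ofReal (hB z hz)
    refine lt_of_le_of_lt this ?_
    rw [← ENNReal.ofReal_one]
    exact (ENNReal.ofReal_lt_ofReal_iff one_pos).mpr hq
  have h3 := (h1.eventually (gt_mem_nhds h2)).and (eventually_gt_atTop n)
  obtain ⟨N, hN, hNn⟩ := h3.exists
  refine ⟨N, hNn, ?_⟩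
  have hN0 : 0 < N := by omega
  by_contra hcon
  rw [not_le] at hcon
  have h4 : (1 : ENNReal) ≤ (‖B ^ N‖₊ : ENNReal) := by
    rw [← ENNReal.coe_one, ENNReal.coe_le_coe]
    exact hcon.le
  have h5 : (1 : ENNReal) ≤ (‖B ^ N‖₊ : ENNReal) ^ (1 / N : ℝ) :=
    ENNReal.one_le_rpow h4 (by positivity)
  exact absurd hN (not_lt.mpr h5)

/-- Key estimate: rank times norm bound for the Hankel form. -/
theorem hankel_key (B : X →L[ℂ] X) (φ : X →L[ℂ] ℂ) (x : X) (n N : ℕ) (hN : 2 * n < N) (ζ : ℂ)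
    (hζ : IsPrimitiveRoot ζ N) (L : ℝ) (hL : 0 ≤ L)
    (hS : ∀ r ∈ range N, ‖φ (SN B ζ N r x)‖ ≤ L) :
    ((n : ℝ) + 1) * ‖φ ((B ^ n) x)‖ ≤ Module.finrank ℂ X * L := by
  classical
  set E := EuclideanSpace ℂ (Fin (n + 1)) with hE
  have hN0 : 0 < N := by omega
  have hNR : (0 : ℝ) < N := by exact_mod_cast hN0
  let Q : E →ₗ[ℂ] X :=
    { toFun := fun v => ∑ k : Fin (n + 1), v k • (B ^ (n - (k : ℕ))) x
      map_add' := by
        intro u v
        rw [← Finset.sum_add_distrib]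
        exact Finset.sum_congr rfl fun k _ => by rw [PiLp.add_apply, add_smul]
      map_smul' := by
        intro c v
        rw [Finset.smul_sum]
        exact Finset.sum_congr rfl fun k _ => by
          rw [PiLp.smul_apply, smul_eq_mul, mul_smul, RingHom.id_apply] }
  let P : X →ₗ[ℂ] E :=
    { toFun := fun y => WithLp.toLp 2 (fun j : Fin (n + 1) => φ ((B ^ (j : ℕ)) y))
      map_add' := by
        intro u v
        ext j
        show φ ((B ^ (j : ℕ)) (u + v)) = φ ((B ^ (j : ℕ)) u) + φ ((B ^ (j : ℕ)) v)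
        rw [map_add, map_add]
      map_smul' := by
        intro c v
        ext j
        show φ ((B ^ (j : ℕ)) (c • v)) = c • φ ((B ^ (j : ℕ)) v)
        rw [map_smul, map_smul] }
  have hPQ : ∀ v j, (P (Q v)) j = ∑ k : Fin (n + 1), v k * φ ((B ^ ((j : ℕ) + (n - (k : ℕ)))) x) := by
    intro v j
    show φ ((B ^ (j : ℕ)) (∑ k : Fin (n + 1), v k • (B ^ (n - (k : ℕ))) x)) = _
    rw [map_sum, map_sum]
    refine Finset.sum_congr rfl fun k _ => ?_
    rw [map_smul, map_smul, smul_eq_mul, pow_add]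
    rfl
  -- trace
  have htr : LinearMap.trace ℂ E (P ∘ₗ Q) = ((n : ℂ) + 1) * φ ((B ^ n) x) := by
    rw [LinearMap.trace_eq_sum_inner _ (EuclideanSpace.basisFun (Fin (n + 1)) ℂ)]
    have : ∀ j ∈ (Finset.univ : Finset (Fin (n + 1))),
        inner ℂ ((EuclideanSpace.basisFun (Fin (n + 1)) ℂ) j)
          ((P ∘ₗ Q) ((EuclideanSpace.basisFun (Fin (n + 1)) ℂ) j)) = φ ((B ^ n) x) := by
      intro j _
      rw [EuclideanSpace.basisFun_apply, EuclideanSpace.inner_single_left]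
      rw [LinearMap.comp_apply, hPQ]
      have hj := j.2
      rw [Finset.sum_eq_single j]
      · simp only [map_one, one_mul, PiLp.single_apply, if_true]
        congr 3
        omega
      · intro k _ hk
        simp [hk]
      · intro h; exact absurd (Finset.mem_univ _) h
    rw [Finset.sum_congr rfl this, Finset.sum_const, Finset.card_univ, Fintype.card_fin,
      nsmul_eq_mul]
    push_cast
    ring
  -- norm bound
  have hnorm : ∀ v : E, ‖(P ∘ₗ Q) v‖ ≤ L * ‖v‖ := by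
    intro v
    set a := (P ∘ₗ Q) v with ha
    set Vr : ℕ → ℂ := fun r => ∑ k : Fin (n + 1), v k * ζ ^ (r * (n - (k : ℕ))) with hVr
    set Ar : ℕ → ℂ := fun r => ∑ j : Fin (n + 1), (starRingEnd ℂ) (a j) * ζ ^ (r * (j : ℕ)) with hAr
    have haj : ∀ j, a j = (N : ℂ)⁻¹ * ∑ r ∈ range N, φ (SN B ζ N r x) * Vr r * ζ ^ (r * (j : ℕ)) := by
      intro j
      rw [ha, LinearMap.comp_apply, hPQ]
      have e1 : ∀ k : Fin (n + 1), φ ((B ^ ((j : ℕ) + (n - (k : ℕ)))) x) =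
          (N : ℂ)⁻¹ * ∑ r ∈ range N, ζ ^ (r * ((j : ℕ) + (n - (k : ℕ)))) * φ (SN B ζ N r x) := by
        intro k
        have hj := j.2
        rw [← SN_inv B ζ N ((j : ℕ) + (n - (k : ℕ))) hζ (by omega)]
        rw [smul_apply, map_smul, smul_eq_mul, _root_.sum_apply,
          map_sum]
        congr 1
        refine Finset.sum_congr rfl fun r _ => ?_
        rw [smul_apply, map_smul, smul_eq_mul]
      simp_rw [e1]
      have e2 : ∀ k : Fin (n + 1), v k * ((N : ℂ)⁻¹ * ∑ r ∈ range N,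
          ζ ^ (r * ((j : ℕ) + (n - (k : ℕ)))) * φ (SN B ζ N r x)) =
          (N : ℂ)⁻¹ * ∑ r ∈ range N, (φ (SN B ζ N r x) * (v k * ζ ^ (r * (n - (k : ℕ)))) *
            ζ ^ (r * (j : ℕ))) := by
        intro k
        rw [mul_left_comm, Finset.mul_sum]
        congr 1
        refine Finset.sum_congr rfl fun r _ => ?_
        rw [mul_add, pow_add]
        ring
      simp_rw [e2]
      rw [← Finset.mul_sum, Finset.sum_comm]
      congr 1
      refine Finset.sum_congr rfl fun r _ => ?_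
      rw [hVr]
      simp only
      rw [Finset.mul_sum, Finset.sum_mul]
    have hPV : ∑ r ∈ range N, ‖Vr r‖ ^ 2 = N * ‖v‖ ^ 2 := by
      have h := parseval_roots N n (by omega) ζ hζ (fun k => v (Fin.rev k))
      have e3 : ∀ r, ∑ j : Fin (n + 1), v (Fin.rev j) * ζ ^ (r * (j : ℕ)) = Vr r := by
        intro r
        rw [hVr, ← Equiv.sum_comp Fin.revPerm]
        refine Finset.sum_congr rfl fun k _ => ?_
        rw [Fin.revPerm_apply, Fin.rev_rev, Fin.val_rev]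
        congr 3
        omega
      simp only [e3] at h
      rw [h, EuclideanSpace.norm_sq_eq, ← Equiv.sum_comp Fin.revPerm (fun k => ‖v k‖ ^ 2)]
      rfl
    have hPA : ∑ r ∈ range N, ‖Ar r‖ ^ 2 = N * ‖a‖ ^ 2 := by
      have h := parseval_roots N n (by omega) ζ hζ (fun j => (starRingEnd ℂ) (a j))
      simp only [RCLike.norm_conj] at h
      rw [EuclideanSpace.norm_sq_eq]
      exact h
    have hmain : ((‖a‖ ^ 2 : ℝ) : ℂ) =
        (N : ℂ)⁻¹ * ∑ r ∈ range N, φ (SN B ζ N r x) * Vr r * Ar r := by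
      rw [EuclideanSpace.norm_sq_eq]
      push_cast
      have e4 : ∀ j ∈ (Finset.univ : Finset (Fin (n + 1))), ((‖a j‖ : ℂ)) ^ 2 =
          (N : ℂ)⁻¹ * ∑ r ∈ range N, φ (SN B ζ N r x) * Vr r *
            ((starRingEnd ℂ) (a j) * ζ ^ (r * (j : ℕ))) := by
        intro j _
        have e5 : ((‖a j‖ : ℂ)) ^ 2 = (starRingEnd ℂ) (a j) * a j := by
          rw [mul_comm, Complex.mul_conj, Complex.normSq_eq_norm_sq]; push_cast; rfl
        rw [e5]
        conv_lhs => rw [haj j]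
        rw [mul_left_comm, Finset.mul_sum]
        congr 1
        refine Finset.sum_congr rfl fun r _ => ?_
        rw [← haj j]
        ring
      rw [Finset.sum_congr rfl e4, ← Finset.mul_sum, Finset.sum_comm]
      congr 1
      refine Finset.sum_congr rfl fun r _ => ?_
      rw [← Finset.mul_sum]
    have hle : ‖a‖ ^ 2 ≤ (N : ℝ)⁻¹ * ∑ r ∈ range N, L * (‖Vr r‖ * ‖Ar r‖) := by
      have h6 : ‖((‖a‖ ^ 2 : ℝ) : ℂ)‖ = ‖a‖ ^ 2 := by
        rw [Complex.norm_real, Real.norm_eq_abs, abs_of_nonneg (sq_nonneg _)]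
      rw [← h6, hmain, norm_mul]
      have h7 : ‖(N : ℂ)⁻¹‖ = (N : ℝ)⁻¹ := by
        rw [norm_inv, Complex.norm_natCast]
      rw [h7]
      apply mul_le_mul_of_nonneg_left _ (by positivity)
      refine (norm_sum_le _ _).trans (Finset.sum_le_sum fun r hr => ?_)
      rw [norm_mul, norm_mul, mul_assoc]
      exact mul_le_mul_of_nonneg_right (hS r hr) (by positivity)
    have hcs : ∑ r ∈ range N, ‖Vr r‖ * ‖Ar r‖ ≤ N * (‖v‖ * ‖a‖) := by
      have h8 := Finset.sum_mul_sq_le_sq_mul_sq (range N) (fun r => ‖Vr r‖) (fun r => ‖Ar r‖)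
      rw [hPV, hPA] at h8
      have h9 : (N * ‖v‖ ^ 2) * (N * ‖a‖ ^ 2) = ((N : ℝ) * (‖v‖ * ‖a‖)) ^ 2 := by ring
      rw [h9] at h8
      exact (abs_le_of_sq_le_sq' h8 (by positivity)).2
    have hfin : ‖a‖ ^ 2 ≤ L * ‖v‖ * ‖a‖ := by
      refine hle.trans ?_
      rw [← Finset.mul_sum]
      calc (N : ℝ)⁻¹ * (L * ∑ r ∈ range N, ‖Vr r‖ * ‖Ar r‖)
          ≤ (N : ℝ)⁻¹ * (L * (N * (‖v‖ * ‖a‖))) := by gcongr
        _ = L * ‖v‖ * ‖a‖ := by field_simp
    rcases eq_or_lt_of_le (norm_nonneg a) with h0 | h0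
    · rw [← h0]; positivity
    · rw [sq] at hfin
      exact le_of_mul_le_mul_right hfin h0
  have hfinal := norm_trace_le (P ∘ₗ Q) L hnorm
  rw [htr, norm_mul] at hfinal
  have h10 : ‖((n : ℂ) + 1)‖ = (n : ℝ) + 1 := by
    have : ((n : ℂ) + 1) = (((n : ℝ) + 1 : ℝ) : ℂ) := by push_cast; rfl
    rw [this, Complex.norm_real, Real.norm_eq_abs, abs_of_pos (by positivity)]
  rw [h10] at hfinal
  refine hfinal.trans (mul_le_mul_of_nonneg_right ?_ hL)
  have h11 : Module.finrank ℂ (LinearMap.range (P ∘ₗ Q)) ≤ Module.finrank ℂ X :=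
    (Submodule.finrank_mono (LinearMap.range_comp_le_range Q P)).trans
      (LinearMap.finrank_range_le P)
  exact_mod_cast h11

/-- Linear-in-dimension Kreiss bound. -/
theorem kreiss_linear (T : X →L[ℂ] X) (M : ℝ) (hM : 0 ≤ M)
    (hspec : ∀ z ∈ spectrum ℂ T, ‖z‖ ≤ 1)
    (hres : ∀ z : ℂ, 1 < ‖z‖ → ‖resolvent T z‖ ≤ M / (‖z‖ - 1)) (n : ℕ) (hn : 1 ≤ n) :
    ‖T ^ n‖ ≤ 2 * Real.exp 1 * M * Module.finrank ℂ X := by
  have hn0 : (0 : ℝ) < n := by exact_mod_cast hn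
  set ρ : ℝ := 1 + 1 / n with hρ
  have hρ1 : 1 < ρ := by rw [hρ]; have : (0:ℝ) < 1 / n := by positivity
                         linarith
  have hρ0 : 0 < ρ := by linarith
  have hρC : (ρ : ℂ) ≠ 0 := by exact_mod_cast hρ0.ne'
  set B : X →L[ℂ] X := ((ρ : ℂ)⁻¹) • T with hB
  have hBspec : ∀ z ∈ spectrum ℂ B, ‖z‖ ≤ ρ⁻¹ := by
    intro z hz
    have h1 : (ρ : ℂ) * z ∈ spectrum ℂ T := by
      have hu : (Units.mk0 (ρ : ℂ) hρC) • B = T := by
        rw [hB, Units.smul_def, Units.val_mk0, smul_smul, mul_inv_cancel₀ hρC, one_smul]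
      have h2 := (spectrum.smul_mem_smul_iff (r := Units.mk0 (ρ : ℂ) hρC)).mpr hz
      rw [hu] at h2
      exact h2
    have h2 := hspec _ h1
    rw [norm_mul, Complex.norm_real, Real.norm_eq_abs, abs_of_pos hρ0] at h2
    rw [← one_div, le_div_iff₀ hρ0]
    linarith
  obtain ⟨N, hN, hBN⟩ := exists_pow_small B ρ⁻¹ (inv_lt_one_of_one_lt₀ hρ1)
    hBspec (2 * n)
  have hN0 : N ≠ 0 := by omega
  have hζ := Complex.isPrimitiveRoot_exp N hN0
  set ζ := Complex.exp (2 * Real.pi * Complex.I / N) with hζdef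
  have hζn : ‖ζ‖ = 1 := hζ.norm'_eq_one hN0
  have hζ0 : ζ ≠ 0 := hζ.ne_zero hN0
  have hSN : ∀ r, ‖SN B ζ N r‖ ≤ 2 * ρ * M * n := by
    intro r
    set w : ℂ := ζ⁻¹ ^ r with hw
    have hw1 : ‖w‖ = 1 := by rw [hw, norm_pow, norm_inv, hζn]; simp
    have hw0 : w ≠ 0 := by intro h; rw [h, norm_zero] at hw1; exact zero_ne_one hw1
    set z : ℂ := ρ * w⁻¹ with hz
    have hz1 : ‖z‖ = ρ := by
      rw [hz, norm_mul, norm_inv, hw1, Complex.norm_real, Real.norm_eq_abs, abs_of_pos hρ0]; simp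
    have hmem : z ∉ spectrum ℂ T := by
      intro h
      have := hspec z h
      rw [hz1] at this
      linarith
    have hunit : IsUnit (algebraMap ℂ (X →L[ℂ] X) z - T) := by
      rw [spectrum.mem_iff, not_not] at hmem
      exact hmem
    have hRmul : resolvent T z * (algebraMap ℂ (X →L[ℂ] X) z - T) = 1 :=
      Ring.inverse_mul_cancel _ hunit
    have e1 : algebraMap ℂ (X →L[ℂ] X) z - T = z • ((1 : X →L[ℂ] X) - w • B) := by
      rw [smul_sub, Algebra.algebraMap_eq_smul_one, smul_smul, hB, smul_smul]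
      congr 1
      have : z * w * (ρ : ℂ)⁻¹ = 1 := by
        rw [hz]; field_simp
      rw [this, one_smul]
    have e2 : SN B ζ N r = z • (resolvent T z * (1 - B ^ N)) := by
      calc SN B ζ N r = (resolvent T z * (algebraMap ℂ (X →L[ℂ] X) z - T)) * SN B ζ N r := by
            rw [hRmul, one_mul]
        _ = z • (resolvent T z * (((1 : X →L[ℂ] X) - w • B) * SN B ζ N r)) := by
            rw [e1, mul_smul_comm, smul_mul_assoc, mul_assoc]
        _ = _ := by rw [hw, SN_mul B ζ N r hζ]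
    rw [e2, norm_smul, hz1]
    have h3 : ‖resolvent T z‖ ≤ M * n := by
      have := hres z (by rw [hz1]; exact hρ1)
      rw [hz1] at this
      refine this.trans (le_of_eq ?_)
      rw [hρ]
      field_simp
      ring
    have h4 : ‖(1 : X →L[ℂ] X) - B ^ N‖ ≤ 2 := by
      refine (norm_sub_le _ _).trans ?_
      have h5 : ‖(1 : X →L[ℂ] X)‖ ≤ 1 := ContinuousLinearMap.norm_id_le
      linarith
    calc ρ * ‖resolvent T z * (1 - B ^ N)‖ ≤ ρ * ((M * n) * 2) := by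
          apply mul_le_mul_of_nonneg_left _ hρ0.le
          exact (norm_mul_le _ _).trans (mul_le_mul h3 h4 (norm_nonneg _) (by positivity))
      _ = 2 * ρ * M * n := by ring
  refine ContinuousLinearMap.opNorm_le_bound _ (by positivity) fun x => ?_
  obtain ⟨φ, hφ1, hφ2⟩ := exists_dual_vector'' ℂ ((T ^ n) x)
  have hkey := hankel_key B φ x n N hN ζ hζ (2 * ρ * M * n * ‖x‖) (by positivity) (by
    intro r _
    calc ‖φ (SN B ζ N r x)‖ ≤ ‖φ‖ * ‖SN B ζ N r x‖ := φ.le_opNorm _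
      _ ≤ 1 * (‖SN B ζ N r‖ * ‖x‖) := by
          apply mul_le_mul hφ1 ((SN B ζ N r).le_opNorm x) (norm_nonneg _) zero_le_one
      _ ≤ 1 * ((2 * ρ * M * n) * ‖x‖) := by
          gcongr
          exact hSN r
      _ = _ := by ring)
  have hBn : (B ^ n) x = ((ρ : ℂ)⁻¹ ^ n) • (T ^ n) x := by
    rw [hB, smul_pow]; rfl
  rw [hBn, map_smul, hφ2, smul_eq_mul, norm_mul, norm_pow, norm_inv, Complex.norm_real,
    Real.norm_eq_abs, abs_of_pos hρ0] at hkey
  have h6 : ‖((‖(T ^ n) x‖ : ℝ) : ℂ)‖ = ‖(T ^ n) x‖ := by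
    rw [Complex.norm_real, Real.norm_eq_abs, abs_of_nonneg (norm_nonneg _)]
  have h6' : ‖((RCLike.ofReal ‖(T ^ n) x‖ : ℂ))‖ = ‖(T ^ n) x‖ := h6
  rw [h6'] at hkey
  have hexp : ρ ^ n ≤ Real.exp 1 := by
    have h7 : ρ ≤ Real.exp (1 / n) := by
      rw [hρ]
      have := Real.add_one_le_exp (1 / (n : ℝ))
      linarith
    calc ρ ^ n ≤ (Real.exp (1 / n)) ^ n := by gcongr
      _ = Real.exp 1 := by
        rw [← Real.exp_nat_mul]
        congr 1
        field_simp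
  set D : ℝ := (Module.finrank ℂ X : ℝ) with hD
  have hD0 : 0 ≤ D := by positivity
  have hpow : 0 < ρ ^ n := by positivity
  have h8 : ((n : ℝ) + 1) * ‖(T ^ n) x‖ ≤ ρ ^ n * (D * (2 * ρ * M * n * ‖x‖)) := by
    calc ((n : ℝ) + 1) * ‖(T ^ n) x‖ = ρ ^ n * (((n : ℝ) + 1) * (ρ⁻¹ ^ n * ‖(T ^ n) x‖)) := by
          rw [inv_pow]; field_simp
      _ ≤ _ := mul_le_mul_of_nonneg_left hkey hpow.le
  have h9 : ρ ^ n * (D * (2 * ρ * M * n * ‖x‖)) =
      ((n : ℝ) + 1) * (ρ ^ n * (2 * M * D * ‖x‖)) := by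
    have : ρ * n = n + 1 := by rw [hρ]; field_simp
    calc ρ ^ n * (D * (2 * ρ * M * n * ‖x‖)) = (ρ * n) * (ρ ^ n * (2 * M * D * ‖x‖)) := by ring
      _ = _ := by rw [this]
  rw [h9] at h8
  have h10 := le_of_mul_le_mul_left h8 (by positivity)
  calc ‖(T ^ n) x‖ ≤ ρ ^ n * (2 * M * D * ‖x‖) := h10
    _ ≤ Real.exp 1 * (2 * M * D * ‖x‖) := by gcongr
    _ = _ := by ring

end H75R3
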