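import Pool.Agent.H75R3.Tree

/-!
Non-negative Schauder basis of `L_p(ℝ)`: combinatorial part, constants and the tree system.
-/

set_option autoImplicit false
set_option linter.ambiguousOpen false

open _root_.H75R3 (L mem_L L_pos L_child L_parent L_zero sum_L_succ card_L)

namespace Pool.Agent.H75R3.NN

open Finset

/-- `lam P = 2 ^ ((1 - P) / (2 P))`. -/
noncomputable def lam (P : ℝ) : ℝ := (2:ℝ) ^ ((1 - P) / (2 * P))

/-- `eta P = 2 ^ (-1 / P)`. -/
noncomputable def eta (P : ℝ) : ℝ := (2:ℝ) ^ (-1 / P)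

variable {P : ℝ}

lemma lam_pos (P : ℝ) : 0 < lam P := Real.rpow_pos_of_pos (by norm_num) _

lemma eta_pos (P : ℝ) : 0 < eta P := Real.rpow_pos_of_pos (by norm_num) _

lemma lam_lt_one (hP : 1 < P) : lam P < 1 := by
  apply Real.rpow_lt_one_of_one_lt_of_neg (by norm_num)
  apply div_neg_of_neg_of_pos <;> linarith

lemma eta_le_one (hP : 1 < P) : eta P ≤ 1 := by
  apply Real.rpow_le_one_of_one_le_of_nonpos (by norm_num)
  apply div_nonpos_of_nonpos_of_nonneg <;> linarith

lemma two_lam_eta (hP : 1 < P) : 2 * (lam P * lam P) * eta P = 1 := by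
  unfold lam eta
  have h : (2:ℝ) = (2:ℝ) ^ (1:ℝ) := by rw [Real.rpow_one]
  nth_rewrite 1 [h]
  rw [← Real.rpow_add (by norm_num), ← Real.rpow_add (by norm_num), ← Real.rpow_add (by norm_num)]
  have : 1 + ((1 - P) / (2 * P) + (1 - P) / (2 * P)) + -1 / P = 0 := by
    field_simp
    ring
  rw [this, Real.rpow_zero]

lemma eta_rpow (hP : 1 < P) : (eta P) ^ P = 1 / 2 := by
  unfold eta
  rw [← Real.rpow_mul (by norm_num)]
  have : -1 / P * P = -1 := by field_simp
  rw [this, Real.rpow_neg_one]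
  norm_num

lemma lam_sq_rpow (hP : 1 < P) : (lam P * lam P) ^ P = (2:ℝ) ^ (1 - P) := by
  unfold lam
  rw [← Real.rpow_add (by norm_num), ← Real.rpow_mul (by norm_num)]
  congr 1
  field_simp
  ring

lemma cvx (hP : 1 < P) {a b x y : ℝ} (ha : 0 ≤ a) (hb : 0 ≤ b) (hab : a + b = 1) (hx : 0 ≤ x)
    (hy : 0 ≤ y) : (a * x + b * y) ^ P ≤ a * x ^ P + b * y ^ P := by
  have := (convexOn_rpow hP.le).2 (Set.mem_Ici.2 hx) (Set.mem_Ici.2 hy) ha hb hab
  simpa using this

/-- The `P`-th power of the absolute value. -/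
noncomputable def pw (P x : ℝ) : ℝ := |x| ^ P

lemma pw_nonneg (P x : ℝ) : 0 ≤ pw P x := Real.rpow_nonneg (abs_nonneg _) _

lemma pw_zero (hP : 1 < P) : pw P 0 = 0 := by
  unfold pw
  rw [abs_zero, Real.zero_rpow (by linarith)]

lemma pw_mul (P c x : ℝ) : pw P (c * x) = |c| ^ P * pw P x := by
  unfold pw
  rw [abs_mul, Real.mul_rpow (abs_nonneg _) (abs_nonneg _)]

lemma pw_neg (P x : ℝ) : pw P (-x) = pw P x := by
  unfold pw
  rw [abs_neg]

lemma pw_mono (hP : 1 < P) {x y : ℝ} (h : |x| ≤ |y|) : pw P x ≤ pw P y :=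
  Real.rpow_le_rpow (abs_nonneg _) h (by linarith)

lemma pw_mul_le (hP : 1 < P) {c : ℝ} (hc : |c| ≤ 1) (x : ℝ) : pw P (c * x) ≤ pw P x := by
  apply pw_mono hP
  rw [abs_mul]
  nlinarith [abs_nonneg x]

/-- the constant `2 ^ (P - 1)` -/
noncomputable def c2 (P : ℝ) : ℝ := (2:ℝ) ^ (P - 1)

lemma c2_pos (P : ℝ) : 0 < c2 P := Real.rpow_pos_of_pos (by norm_num) _

lemma one_le_c2 (hP : 1 < P) : 1 ≤ c2 P := Real.one_le_rpow (by norm_num) (by linarith)

lemma two_rpow_half : ((1:ℝ)/2) * 2 ^ P = c2 P := by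
  unfold c2
  rw [Real.rpow_sub (by norm_num), Real.rpow_one]
  ring

lemma pw_add (hP : 1 < P) (x y : ℝ) : pw P (x + y) ≤ c2 P * (pw P x + pw P y) := by
  have h1 : pw P (x + y) ≤ (|x| + |y|) ^ P :=
    Real.rpow_le_rpow (abs_nonneg _) (abs_add_le _ _) (by linarith)
  have h2 := cvx hP (a := 1/2) (b := 1/2) (x := 2 * |x|) (y := 2 * |y|) (by norm_num) (by norm_num)
    (by norm_num) (by positivity) (by positivity)
  have e1 : (1/2) * (2 * |x|) + (1/2) * (2 * |y|) = |x| + |y| := by ring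
  rw [e1, Real.mul_rpow (by norm_num) (abs_nonneg _), Real.mul_rpow (by norm_num) (abs_nonneg _)]
    at h2
  have e2 : 1 / 2 * ((2:ℝ) ^ P * |x| ^ P) + 1 / 2 * ((2:ℝ) ^ P * |y| ^ P)
      = (1 / 2 * (2:ℝ) ^ P) * (|x| ^ P + |y| ^ P) := by ring
  rw [e2, two_rpow_half] at h2
  exact h1.trans h2

lemma pw_sub (hP : 1 < P) (x y : ℝ) : pw P (x - y) ≤ c2 P * (pw P x + pw P y) := by
  rw [sub_eq_add_neg, ← pw_neg P y]
  exact pw_add hP _ _

/-- the constant in the contraction inequality -/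
noncomputable def cl (P : ℝ) : ℝ := (1 - lam P) * (lam P / (1 - lam P)) ^ P

lemma cl_nonneg (hP : 1 < P) : 0 ≤ cl P := by
  have := lam_lt_one hP
  have h1 := lam_pos P
  unfold cl
  apply mul_nonneg (by linarith)
  apply Real.rpow_nonneg
  apply div_nonneg <;> linarith

lemma pw_lam (hP : 1 < P) (u v : ℝ) :
    pw P (lam P * (u + v)) ≤ lam P * pw P u + cl P * pw P v := by
  have h1 := lam_pos P
  have h2 := lam_lt_one hP
  set l := lam P with hl
  have h3 : 0 < 1 - l := by linarith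
  have h4 := cvx hP (a := l) (b := 1 - l) (x := |u|) (y := l / (1 - l) * |v|) h1.le h3.le
    (by ring) (abs_nonneg _) (by positivity)
  have e1 : l * |u| + (1 - l) * (l / (1 - l) * |v|) = l * (|u| + |v|) := by
    field_simp
  rw [e1, Real.mul_rpow (by positivity) (abs_nonneg _)] at h4
  have h5 : pw P (l * (u + v)) ≤ (l * (|u| + |v|)) ^ P := by
    apply Real.rpow_le_rpow (abs_nonneg _) _ (by linarith)
    rw [abs_mul, abs_of_pos h1]
    exact mul_le_mul_of_nonneg_left (abs_add_le _ _) h1.le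
  refine h5.trans (h4.trans_eq ?_)
  unfold cl pw
  rw [← hl]
  ring

lemma pw_lam' (hP : 1 < P) (u : ℝ) : pw P (lam P * u) ≤ lam P * pw P u := by
  have := pw_lam hP u 0
  rw [pw_zero hP, mul_zero, add_zero, add_zero] at this
  exact this

lemma pw_mu (hP : 1 < P) (x y : ℝ) : pw P (lam P * lam P * (x + y)) ≤ pw P x + pw P y := by
  rw [pw_mul]
  have h0 : 0 < lam P * lam P := mul_pos (lam_pos P) (lam_pos P)
  rw [abs_of_pos h0, lam_sq_rpow hP]
  have h := pw_add hP x y
  have h1 : (2:ℝ) ^ (1 - P) * c2 P = 1 := by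
    unfold c2
    rw [← Real.rpow_add (by norm_num)]
    have : 1 - P + (P - 1) = 0 := by ring
    rw [this, Real.rpow_zero]
  have h2 : 0 ≤ (2:ℝ) ^ (1 - P) := Real.rpow_nonneg (by norm_num) _
  calc (2:ℝ) ^ (1 - P) * pw P (x + y) ≤ (2:ℝ) ^ (1 - P) * (c2 P * (pw P x + pw P y)) :=
        mul_le_mul_of_nonneg_left h h2
    _ = pw P x + pw P y := by rw [← mul_assoc, h1, one_mul]

lemma pw_div (hP : 1 < P) (x : ℝ) : 2 * pw P (x / (2 * lam P)) = pw P (lam P * x) := by
  have h0 := lam_pos P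
  have e : x / (2 * lam P) = (1 / (2 * lam P)) * x := by ring
  rw [e, pw_mul, pw_mul, ← mul_assoc]
  congr 1
  rw [abs_of_pos (by positivity), abs_of_pos h0]
  have h1 : (1 / (2 * lam P)) = (lam P * (1 / (2 * (lam P * lam P)))) := by
    field_simp
  rw [h1, Real.mul_rpow h0.le (by positivity)]
  have h2 : 1 / (2 * (lam P * lam P)) = eta P := by
    have := two_lam_eta hP
    rw [one_div, inv_eq_of_mul_eq_one_right this]
  rw [h2, eta_rpow hP]
  ring

lemma pw_eta (hP : 1 < P) (x : ℝ) : 2 * pw P (eta P * x) = pw P x := by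
  rw [pw_mul, abs_of_pos (eta_pos P), eta_rpow hP]
  ring

/-! ### the tree functions -/

/-- The analysis side of the vectors `d_k`. -/
noncomputable def Am (P : ℝ) (a : ℕ → ℝ) : ℕ → ℕ → ℝ
  | 0, i => a i
  | h + 1, i => lam P * (Am P a h (2 * i) + Am P a h (2 * i + 1))

/-- The part coming from the vectors `u_ν`. -/
noncomputable def Bm (P : ℝ) (b : ℕ → ℕ → ℝ) (i h : ℕ) : ℝ :=
  if hi : i ≤ 1 then 0 else (Bm P b (i / 2) (h + 1) + b (i / 2) h) / (2 * lam P)
termination_by i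
decreasing_by omega

lemma Bm_one (b : ℕ → ℕ → ℝ) {i : ℕ} (hi : i ≤ 1) (h : ℕ) : Bm P b i h = 0 := by
  rw [Bm, dif_pos hi]

lemma Bm_even (b : ℕ → ℕ → ℝ) {i : ℕ} (hi : 1 ≤ i) (h : ℕ) :
    Bm P b (2 * i) h = (Bm P b i (h + 1) + b i h) / (2 * lam P) := by
  rw [Bm, dif_neg (by omega)]
  have : 2 * i / 2 = i := by omega
  rw [this]

lemma Bm_odd (b : ℕ → ℕ → ℝ) {i : ℕ} (hi : 1 ≤ i) (h : ℕ) :
    Bm P b (2 * i + 1) h = (Bm P b i (h + 1) + b i h) / (2 * lam P) := by
  rw [Bm, dif_neg (by omega)]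
  have : (2 * i + 1) / 2 = i := by omega
  rw [this]

/-- total vector -/
noncomputable def ym (P : ℝ) (a : ℕ → ℝ) (b : ℕ → ℕ → ℝ) (i h : ℕ) : ℝ := Am P a h i + Bm P b i h

lemma ym_rel (a : ℕ → ℝ) (b : ℕ → ℕ → ℝ) {i : ℕ} (hi : 1 ≤ i) (h : ℕ) :
    b i h = lam P * (ym P a b (2 * i) h + ym P a b (2 * i + 1) h) - ym P a b i (h + 1) := by
  have h0 := lam_pos P
  unfold ym
  rw [Bm_even b hi, Bm_odd b hi, Am]
  field_simp
  ring

/-! ### prefix inequality -/

/-- Sum over a subtree. -/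
noncomputable def W (P : ℝ) (a : ℕ → ℝ) : ℕ → ℕ → ℝ
  | 0, i => pw P (a i)
  | h + 1, i => pw P (Am P a (h + 1) i) + W P a h (2 * i) + W P a h (2 * i + 1)

lemma W_nonneg (a : ℕ → ℝ) (h i : ℕ) : 0 ≤ W P a h i := by
  induction h generalizing i with
  | zero => exact pw_nonneg _ _
  | succ h ih =>
    rw [W]
    exact add_nonneg (add_nonneg (pw_nonneg _ _) (ih _)) (ih _)

lemma Am_le_W (a : ℕ → ℝ) (h i : ℕ) : pw P (Am P a h i) ≤ W P a h i := by
  cases h with
  | zero => rw [W, Am]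
  | succ h =>
    rw [W]
    have := W_nonneg (P := P) a h (2 * i)
    have := W_nonneg (P := P) a h (2 * i + 1)
    linarith

lemma Am_congr (a a' : ℕ → ℝ) (h i : ℕ) (hh : ∀ k, i * 2 ^ h ≤ k → k < (i + 1) * 2 ^ h → a k = a' k) :
    Am P a h i = Am P a' h i := by
  induction h generalizing i with
  | zero =>
    rw [Am, Am]
    exact hh i (by simp) (by simp)
  | succ h ih =>
    rw [Am, Am]
    have e1 : i * 2 ^ (h + 1) = 2 * i * 2 ^ h := by ring
    have e2 : (i + 1) * 2 ^ (h + 1) = (2 * i + 1 + 1) * 2 ^ h := by ring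
    have e3 : (2 * i + 1) * 2 ^ h = 2 * i * 2 ^ h + 2 ^ h := by ring
    have e4 : (2 * i + 1 + 1) * 2 ^ h = 2 * i * 2 ^ h + 2 ^ h + 2 ^ h := by ring
    have hp : 0 < 2 ^ h := by positivity
    rw [ih (2 * i), ih (2 * i + 1)]
    · intro k h1 h2
      exact hh k (by omega) (by omega)
    · intro k h1 h2
      exact hh k (by omega) (by omega)

lemma Am_zero (a : ℕ → ℝ) (h i : ℕ) (hh : ∀ k, i * 2 ^ h ≤ k → k < (i + 1) * 2 ^ h → a k = 0) :
    Am P a h i = 0 := by
  rw [Am_congr a 0 h i hh]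
  clear hh
  induction h generalizing i with
  | zero => rfl
  | succ h ih => rw [Am, ih, ih]; ring

lemma W_congr (a a' : ℕ → ℝ) (h i : ℕ) (hh : ∀ k, i * 2 ^ h ≤ k → k < (i + 1) * 2 ^ h → a k = a' k) :
    W P a h i = W P a' h i := by
  induction h generalizing i with
  | zero =>
    rw [W, W, hh i (by simp) (by simp)]
  | succ h ih =>
    have hA := Am_congr (P := P) a a' (h + 1) i hh
    rw [W, W, hA]
    have e1 : i * 2 ^ (h + 1) = 2 * i * 2 ^ h := by ring
    have e2 : (i + 1) * 2 ^ (h + 1) = (2 * i + 1 + 1) * 2 ^ h := by ring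
    have e3 : (2 * i + 1) * 2 ^ h = 2 * i * 2 ^ h + 2 ^ h := by ring
    have e4 : (2 * i + 1 + 1) * 2 ^ h = 2 * i * 2 ^ h + 2 ^ h + 2 ^ h := by ring
    have hp : 0 < 2 ^ h := by positivity
    rw [ih (2 * i), ih (2 * i + 1)]
    · intro k h1 h2
      exact hh k (by omega) (by omega)
    · intro k h1 h2
      exact hh k (by omega) (by omega)

lemma W_zero (hP : 1 < P) (a : ℕ → ℝ) (h i : ℕ)
    (hh : ∀ k, i * 2 ^ h ≤ k → k < (i + 1) * 2 ^ h → a k = 0) : W P a h i = 0 := by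
  rw [W_congr a 0 h i hh]
  clear hh
  induction h generalizing i with
  | zero => rw [W]; exact pw_zero hP
  | succ h ih =>
    rw [W, ih, ih, Am_zero]
    · rw [pw_zero hP]; ring
    · intro k _ _; rfl

/-- the prefix of a sequence -/
def cut (κ : ℕ) (a : ℕ → ℝ) : ℕ → ℝ := fun k => if k < κ then a k else 0

/-- the constant in the prefix inequality -/
noncomputable def cW (P : ℝ) : ℝ := 1 + 1 / (1 - lam P) + (1 / (1 - lam P)) * cl P

lemma one_le_cW (hP : 1 < P) : 1 ≤ cW P := by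
  have h2 := lam_lt_one hP
  have h3 : 0 < 1 - lam P := by linarith
  have h4 := cl_nonneg hP
  unfold cW
  have : 0 ≤ 1 / (1 - lam P) := by positivity
  have : 0 ≤ (1 / (1 - lam P)) * cl P := by positivity
  linarith

lemma prefix_ineq (hP : 1 < P) (κ : ℕ) (a : ℕ → ℝ) (h i : ℕ) :
    W P (cut κ a) h i + lam P / (1 - lam P) * pw P (Am P (cut κ a) h i) ≤ cW P * W P a h i := by
  have h1 := lam_pos P
  have h2 := lam_lt_one hP
  have h3 : 0 < 1 - lam P := by linarith
  have h4 := cl_nonneg hP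
  have hcl2 : 0 ≤ (1 / (1 - lam P)) * cl P := by positivity
  set D := lam P / (1 - lam P) with hD
  have hD0 : 0 < D := by positivity
  have hD1 : (1 + D) * lam P = D := by rw [hD]; field_simp; ring
  have hD2 : 1 + D = 1 / (1 - lam P) := by rw [hD]; field_simp; ring
  have hC1 : 1 + D ≤ cW P := by
    unfold cW; rw [← hD2]; rw [← hD2] at hcl2; linarith
  have hC2 : 1 + (1 + D) * cl P ≤ cW P := by
    unfold cW; rw [← hD2]; linarith
  induction h generalizing i with
  | zero =>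
    rw [W, W, Am]
    have h5 : pw P (cut κ a i) ≤ pw P (a i) := by
      unfold cut
      split_ifs
      · exact le_rfl
      · rw [pw_zero hP]; exact pw_nonneg _ _
    have h6 := pw_nonneg P (a i)
    have h7 := pw_nonneg P (cut κ a i)
    nlinarith
  | succ h ih =>
    have e1 : i * 2 ^ (h + 1) = 2 * i * 2 ^ h := by ring
    have e2 : (i + 1) * 2 ^ (h + 1) = (2 * i + 1 + 1) * 2 ^ h := by ring
    have e3 : (2 * i + 1) * 2 ^ h = 2 * i * 2 ^ h + 2 ^ h := by ring
    have e4 : (2 * i + 1 + 1) * 2 ^ h = 2 * i * 2 ^ h + 2 ^ h + 2 ^ h := by ring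
    have hp : 0 < 2 ^ h := by positivity
    have ihL := ih (2 * i)
    have ihR := ih (2 * i + 1)
    have hWA := pw_nonneg P (Am P a (h + 1) i)
    have hWL := W_nonneg (P := P) a h (2 * i)
    have hWR := W_nonneg (P := P) a h (2 * i + 1)
    have hc := one_le_cW hP
    rw [W, W]
    rcases le_total κ ((2 * i + 1) * 2 ^ h) with hκ | hκ
    · have hz : ∀ k, (2 * i + 1) * 2 ^ h ≤ k → k < (2 * i + 1 + 1) * 2 ^ h → cut κ a k = 0 := by
        intro k hk _
        unfold cut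
        rw [if_neg (by omega)]
      rw [W_zero hP (cut κ a) h (2 * i + 1) hz, Am, Am_zero (cut κ a) h (2 * i + 1) hz, add_zero,
        add_zero]
      have h5 := pw_lam' hP (Am P (cut κ a) h (2 * i))
      have h6 := pw_nonneg P (Am P (cut κ a) h (2 * i))
      have h7 : (1 + D) * pw P (lam P * Am P (cut κ a) h (2 * i))
          ≤ D * pw P (Am P (cut κ a) h (2 * i)) := by
        calc (1 + D) * pw P (lam P * Am P (cut κ a) h (2 * i))
            ≤ (1 + D) * (lam P * pw P (Am P (cut κ a) h (2 * i))) :=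
              mul_le_mul_of_nonneg_left h5 (by linarith)
          _ = _ := by rw [← mul_assoc, hD1]
      nlinarith
    · have hz : ∀ k, 2 * i * 2 ^ h ≤ k → k < (2 * i + 1) * 2 ^ h → cut κ a k = a k := by
        intro k _ hk
        unfold cut
        rw [if_pos (by omega)]
      rw [W_congr (cut κ a) a h (2 * i) hz, Am, Am_congr (cut κ a) a h (2 * i) hz]
      have h5 := pw_lam hP (Am P (cut κ a) h (2 * i + 1)) (Am P a h (2 * i))
      rw [add_comm (Am P (cut κ a) h (2 * i + 1)) (Am P a h (2 * i))] at h5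
      have h6 := Am_le_W (P := P) a h (2 * i)
      have h7 : (1 + D) * pw P (lam P * (Am P a h (2 * i) + Am P (cut κ a) h (2 * i + 1)))
          ≤ D * pw P (Am P (cut κ a) h (2 * i + 1)) + (1 + D) * cl P * W P a h (2 * i) := by
        calc (1 + D) * pw P (lam P * (Am P a h (2 * i) + Am P (cut κ a) h (2 * i + 1)))
            ≤ (1 + D) * (lam P * pw P (Am P (cut κ a) h (2 * i + 1))
                + cl P * pw P (Am P a h (2 * i))) :=
              mul_le_mul_of_nonneg_left h5 (by linarith)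
          _ = (1 + D) * lam P * pw P (Am P (cut κ a) h (2 * i + 1))
                + (1 + D) * cl P * pw P (Am P a h (2 * i)) := by ring
          _ ≤ _ := by
            rw [hD1]
            have : (1 + D) * cl P * pw P (Am P a h (2 * i)) ≤ (1 + D) * cl P * W P a h (2 * i) :=
              mul_le_mul_of_nonneg_left h6 (by positivity)
            linarith
      nlinarith

end Pool.Agent.H75R3.NN
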