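import Pool.Agent.H75R3.NN9
import Pool.Agent.H75R3.HaarDense

set_option autoImplicit false
set_option linter.ambiguousOpen false
set_option linter.unusedSectionVars false

open _root_.H75R3 (L mem_L L_pos L_child L_parent L_zero sum_L_succ card_L nd nd_mem nd_half nd_meas
  vol_nd nd_zero nd_approx)

namespace Pool.Agent.H75R3.NN

open Finset MeasureTheory
open scoped ENNReal

section Lp

variable {p : ℝ≥0∞} [hp1 : Fact (1 ≤ p)]

/-- values of step functions -/
lemma step_coe (g : ℕ → ℕ → ℝ) (m J : ℕ) (hg : ∀ q i, m ≤ q → g q i = 0) :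
    ∀ᵐ x, (∑ q ∈ range m, ∑ i ∈ L J, g q i • DL p q J i : Lp ℝ p (volume : Measure ℝ)) x
      = g (Qx x) (nd J x) := by
  have h1 : ∀ᵐ x, (∑ q ∈ range m, ∑ i ∈ L J, g q i • DL p q J i : Lp ℝ p (volume : Measure ℝ)) x
      = ∑ q ∈ range m, ∑ i ∈ L J, g q i * (if Qx x = q ∧ nd J x = i then 1 else 0) := by
    apply coe_sum_Lp
    intro q _
    apply coe_sum_Lp
    intro i _
    filter_upwards [Lp.coeFn_smul (g q i) (DL p q J i), DL_coe (p := p) q J i] with x h2 h3
    rw [h2, Pi.smul_apply, h3, smul_eq_mul]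
  filter_upwards [h1] with x h3
  rw [h3]
  by_cases hq : Qx x < m
  · rw [sum_eq_single_of_mem (Qx x) (mem_range.2 hq), sum_eq_single_of_mem (nd J x) (nd_mem J x)]
    · simp
    · intro i _ hi
      rw [if_neg (fun h => hi h.2.symm), mul_zero]
    · intro q _ hne
      apply sum_eq_zero
      intro i _
      rw [if_neg (fun h => hne h.1.symm), mul_zero]
  · rw [hg _ _ (not_lt.1 hq)]
    apply sum_eq_zero
    intro q hq'
    apply sum_eq_zero
    intro i _
    rw [if_neg, mul_zero]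
    rintro ⟨h, _⟩
    rw [h] at hq
    exact hq (mem_range.1 hq')

lemma vol_Q_lt (m : ℕ) : volume {x : ℝ | Qx x < m} ≠ ∞ := by
  have h1 : {x : ℝ | Qx x < m} ⊆ ⋃ q ∈ range m, {x : ℝ | Qx x = q ∧ nd 0 x = 1} := by
    intro x hx
    simp only [Set.mem_iUnion]
    exact ⟨Qx x, mem_range.2 hx, rfl, nd_zero x⟩
  refine ne_top_of_le_ne_top ?_ (measure_mono h1)
  refine ne_top_of_le_ne_top ?_ (measure_biUnion_finset_le _ _)
  rw [ENNReal.sum_ne_top]
  intro q _
  exact cell_fin 0 q 1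

lemma phi_zero_of_DL (ht : p ≠ ∞) (φ : StrongDual ℝ (Lp ℝ p (volume : Measure ℝ)))
    (hD : ∀ q J i, i ∈ L J → φ (DL p q J i) = 0) : φ = 0 := by
  ext f
  rw [_root_.zero_apply]
  by_contra hne
  set δ : ℝ := |φ f| with hδ
  have hδ0 : 0 < δ := abs_pos.2 hne
  set K : ℝ := ‖φ‖ + 1 with hK
  have hK0 : 0 < K := by positivity
  obtain ⟨g, hgs, hg1, hgc, hgm⟩ := (Lp.memLp f).exists_hasCompactSupport_eLpNorm_sub_le ht
    (ε := ENNReal.ofReal (δ / (4 * K))) (by
      rw [ne_eq, ENNReal.ofReal_eq_zero, not_le]; positivity)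
  -- bound of the support
  obtain ⟨R, hR⟩ : ∃ R : ℝ, ∀ x, g x ≠ 0 → |x| ≤ R := by
    obtain ⟨R, hR⟩ := hgs.isCompact.isBounded.exists_norm_le
    exact ⟨R, fun x hx => hR x (subset_tsupport g hx)⟩
  obtain ⟨m, hm⟩ : ∃ m : ℕ, ∀ x, g x ≠ 0 → Qx x < m := by
    set I : Finset ℤ := Finset.Icc (⌊-R⌋) (⌊R⌋) with hI
    refine ⟨(I.image Equiv.intEquivNat).sup id + 1, fun x hx => ?_⟩
    have h1 := abs_le.1 (hR x hx)
    have h2 : ⌊x⌋ ∈ I := by
      rw [hI, Finset.mem_Icc]
      exact ⟨Int.floor_mono h1.1, Int.floor_mono h1.2⟩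
    have h3 := Finset.le_sup (f := id) (mem_image_of_mem Equiv.intEquivNat h2)
    simp only [id] at h3
    unfold Qx
    omega
  set V : ℝ≥0∞ := volume {x : ℝ | Qx x < m} with hV
  have hVt := vol_Q_lt m
  rw [← hV] at hVt
  have hP0 : 0 ≤ p.toReal⁻¹ := by positivity
  have hVp : V ^ p.toReal⁻¹ ≠ ∞ := ENNReal.rpow_ne_top_of_nonneg hP0 hVt
  set v : ℝ := (V ^ p.toReal⁻¹).toReal with hv
  have hv0 : 0 ≤ v := ENNReal.toReal_nonneg
  set ω : ℝ := δ / (4 * K) / (v + 1) with hω
  have hω0 : 0 < ω := by positivity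
  obtain ⟨r, hr, hr1⟩ := Metric.uniformContinuous_iff.1 (hgs.uniformContinuous_of_continuous hgc) ω hω0
  obtain ⟨J, hJ⟩ := exists_pow_lt_of_lt_one hr (show (1/2:ℝ) < 1 by norm_num)
  set gg : ℕ → ℕ → ℝ := fun q i => if q < m then
    g (((Equiv.intEquivNat.symm q : ℤ) : ℝ) + ((i:ℝ) - 2 ^ J) / 2 ^ J) else 0 with hgg
  set S : Lp ℝ p (volume : Measure ℝ) := ∑ q ∈ range m, ∑ i ∈ L J, gg q i • DL p q J i with hS
  have hScoe := step_coe (p := p) gg m J (fun q i hq => by
    rw [hgg]; dsimp only; rw [if_neg (by omega)])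
  rw [← hS] at hScoe
  have hφS : φ S = 0 := by
    rw [hS, map_sum]
    apply sum_eq_zero
    intro q _
    rw [map_sum]
    apply sum_eq_zero
    intro i hi
    rw [map_smul, hD q J i hi, smul_zero]
  have hdiff : ∀ x, |g x - gg (Qx x) (nd J x)| ≤ ω ∧ (¬ Qx x < m → g x - gg (Qx x) (nd J x) = 0) := by
    intro x
    rw [hgg]
    dsimp only
    by_cases hq : Qx x < m
    · rw [if_pos hq]
      refine ⟨?_, fun h => absurd hq h⟩
      have h1 : (Equiv.intEquivNat.symm (Qx x) : ℤ) = ⌊x⌋ := by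
        unfold Qx
        rw [Equiv.symm_apply_apply]
      rw [h1]
      have h2 := nd_approx J x
      have h3 := Int.floor_add_fract x
      have h4 : dist x ((⌊x⌋:ℝ) + ((nd J x : ℝ) - 2 ^ J) / 2 ^ J) < r := by
        rw [dist_comm, Real.dist_eq]
        refine lt_of_le_of_lt (le_trans (le_of_eq ?_) h2) hJ
        congr 1
        linarith
      have h5 := hr1 h4
      rw [Real.dist_eq] at h5
      exact h5.le
    · rw [if_neg hq]
      have h1 : g x = 0 := by
        by_contra h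
        exact hq (hm x h)
      rw [h1, sub_zero, abs_zero]
      exact ⟨hω0.le, fun _ => rfl⟩
  have hnorm2 : eLpNorm (fun x => g x - gg (Qx x) (nd J x)) p volume ≤ ENNReal.ofReal (δ / (4 * K)) := by
    have hsupp : Function.support (fun x => g x - gg (Qx x) (nd J x)) ⊆ {x : ℝ | Qx x < m} := by
      intro x hx
      by_contra h
      exact hx ((hdiff x).2 h)
    rw [← eLpNorm_restrict_eq_of_support_subset hsupp]
    refine (eLpNorm_le_of_ae_bound (C := ω) (Filter.Eventually.of_forall fun x => ?_)).trans ?_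
    · rw [Real.norm_eq_abs]
      exact (hdiff x).1
    · rw [Measure.restrict_apply_univ, ← hV, ← ENNReal.ofReal_toReal hVp, ← hv,
        ← ENNReal.ofReal_mul hv0]
      apply ENNReal.ofReal_le_ofReal
      rw [hω, mul_div_assoc', div_le_iff₀ (by positivity)]
      have : 0 < δ / (4 * K) := by positivity
      nlinarith
  have hfS : ‖f - S‖ ≤ δ / (4 * K) + δ / (4 * K) := by
    rw [Lp.norm_def]
    have h1 : eLpNorm (f - S : Lp ℝ p (volume : Measure ℝ)) p volume ≤
        ENNReal.ofReal (δ / (4 * K)) + ENNReal.ofReal (δ / (4 * K)) := by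
      have h2 : eLpNorm (f - S : Lp ℝ p (volume : Measure ℝ)) p volume =
          eLpNorm ((⇑f - g) + (fun x => g x - gg (Qx x) (nd J x))) p volume := by
        apply eLpNorm_congr_ae
        filter_upwards [Lp.coeFn_sub f S, hScoe] with x h3 h4
        rw [h3, Pi.sub_apply, h4, Pi.add_apply, Pi.sub_apply]
        ring
      rw [h2]
      refine (eLpNorm_add_le ?_ ?_ hp1.out).trans (add_le_add hg1 hnorm2)
      · exact (Lp.aestronglyMeasurable f).sub hgm.1
      · apply AEStronglyMeasurable.sub hgm.1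
        have hφ : Measurable (fun y : ℕ × ℕ => gg y.1 y.2) := measurable_of_countable _
        exact (hφ.comp (Qx_meas.prodMk (nd_meas J))).aestronglyMeasurable
    have h3 := ENNReal.toReal_mono (by
      rw [← ENNReal.ofReal_add (by positivity) (by positivity)]; exact ENNReal.ofReal_ne_top) h1
    rw [← ENNReal.ofReal_add (by positivity) (by positivity),
      ENNReal.toReal_ofReal (by positivity)] at h3
    exact h3
  have hfinal : δ ≤ δ / 2 := by
    calc δ = ‖φ (f - S)‖ := by rw [map_sub, hφS, sub_zero, hδ, Real.norm_eq_abs]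
      _ ≤ ‖φ‖ * ‖f - S‖ := φ.le_opNorm _
      _ ≤ K * (δ / (4 * K) + δ / (4 * K)) := by
        apply mul_le_mul _ hfS (norm_nonneg _) hK0.le
        rw [hK]; linarith
      _ = δ / 2 := by field_simp; ring
  linarith

end Lp

end Pool.Agent.H75R3.NN
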