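import Pool.Agent.H75R3.NN5
import Pool.Agent.H75R3.NN10

set_option autoImplicit false
set_option linter.ambiguousOpen false
set_option linter.unusedSectionVars false

open _root_.H75R3 (L mem_L L_pos L_child L_parent L_zero sum_L_succ card_L nd nd_mem nd_half nd_meas
  vol_nd nd_zero nd_approx)

namespace Pool.Agent.H75R3.NN

open Finset MeasureTheory
open scoped ENNReal

variable {P ε : ℝ}

lemma Bm_zero (i : ℕ) : ∀ h, Bm P (fun _ _ => 0) i h = 0 := by
  induction i using Nat.strong_induction_on with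
  | _ i ih =>
    intro h
    by_cases hi : i ≤ 1
    · exact Bm_one _ hi h
    · rw [Bm_step _ hi, ih (i / 2) (by omega)]
      simp

lemma ym_zero (i h : ℕ) : ym P (fun _ => 0) (fun _ _ => 0) i h = 0 := by
  unfold ym
  rw [Am_zero _ _ _ (fun _ _ _ => rfl), Bm_zero, add_zero]

section Lp

variable {p : ℝ≥0∞} [hp1 : Fact (1 ≤ p)] (h1 : 1 < p) (ht : p ≠ ∞)

lemma phi_pair (ε : ℝ) (hε : ε ≠ 0) (φ : StrongDual ℝ (Lp ℝ p (volume : Measure ℝ)))
    (hφ : ∀ n, φ (eL h1 ht ε n) = 0) (q J i : ℕ) (hi : i ∈ L J) :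
    φ (DL p q (J + 1) (2 * i)) = φ (DL p q (J + 1) (2 * i + 1)) := by
  set P := p.toReal with hP
  set α : ℕ → ℕ → ℝ := fun q' k => if q' = q then (if k = 2 * i then 1 else if k = 2 * i + 1 then -1
    else 0) else 0 with hα
  have hi1 := L_pos hi
  have hi2 := (mem_L.1 hi).2
  have hi3 := (mem_L.1 hi).1
  have e2 : 2 ^ (J + 1 + 1) = 2 * 2 ^ (J + 1) := by ring
  have e3 : 2 ^ (J + 1) = 2 * 2 ^ J := by ring
  have hpr : ∀ q', pr (α q') = fun _ => 0 := by
    intro q'
    funext k
    unfold pr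
    rw [hα]
    dsimp only
    by_cases hq : q' = q
    · rw [if_pos hq, if_pos hq]
      by_cases hk : k = i
      · rw [if_pos (by omega), if_neg (by omega), if_pos (by omega)]; ring
      · rw [if_neg (by omega), if_neg (by omega), if_neg (by omega), if_neg (by omega)]; ring
    · rw [if_neg hq, if_neg hq]; ring
  have hY : ∀ n, Yv P sg α (fun _ _ _ => 0) n = 0 := by
    intro n
    unfold Yv
    rw [hpr]
    exact ym_zero _ _
  have hfd : ∀ x, fd P ε sg α (fun _ _ _ => 0) (J + 1) x =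
      (eta P ^ (J + 1))⁻¹ * ε * α (Qx x) (nd (J + 1) x) := by
    intro x
    rw [fd_split, hY, zero_add]
    have hm := nd_mem (J + 1) x
    have hm1 := (mem_L.1 hm).1
    have hm2 := (mem_L.1 hm).2
    have hp : 1 ≤ 2 ^ J := Nat.one_le_two_pow
    rw [Hm_step _ _ (by omega), Hm_low]
    · ring
    · intro i' hi'
      rw [hα]
      dsimp only
      split_ifs
      · omega
      · omega
      · rfl
      · rfl
  set m := q + 2 * i + J + 3 with hm
  have hge : ∀ x, fd P ε sg α (fun _ _ _ => 0) (J + 1 + m) x =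
      fd P ε sg α (fun _ _ _ => 0) (J + 1) x := by
    intro x
    apply fd_ge
    intro q' i' hi'
    rw [hα]
    dsimp only
    split_ifs
    · omega
    · omega
    · rfl
    · rfl
  have hmain := phi_data h1 ht ε φ hφ α (fun _ _ _ => 0) m (J + 1 + m)
    (by
      intro q' i' hh
      rw [hα]
      dsimp only
      split_ifs
      · omega
      · omega
      · rfl
      · rfl)
    (fun _ _ _ _ => rfl)
    (by
      intro q' i' hh
      rw [hα]
      dsimp only
      split_ifs
      · omega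
      · omega
      · rfl
      · rfl)
    (fun _ _ => rfl) (by omega)
    (((eta P ^ (J + 1))⁻¹ * ε) • (DL p q (J + 1) (2 * i) - DL p q (J + 1) (2 * i + 1)))
    (by
      filter_upwards [DL_coe (p := p) q (J + 1) (2 * i), DL_coe (p := p) q (J + 1) (2 * i + 1),
        Lp.coeFn_sub (DL p q (J + 1) (2 * i)) (DL p q (J + 1) (2 * i + 1)),
        Lp.coeFn_smul ((eta P ^ (J + 1))⁻¹ * ε) (DL p q (J + 1) (2 * i) - DL p q (J + 1) (2 * i + 1))]
        with x g1 g2 g3 g4
      rw [g4, Pi.smul_apply, g3, Pi.sub_apply, g1, g2, hge, hfd, smul_eq_mul]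
      congr 1
      rw [hα]
      dsimp only
      by_cases hq : Qx x = q
      · by_cases hk : nd (J + 1) x = 2 * i
        · rw [if_pos ⟨hq, hk⟩, if_neg (by omega), if_pos hq, if_pos hk]; ring
        · by_cases hk2 : nd (J + 1) x = 2 * i + 1
          · rw [if_neg (by omega), if_pos ⟨hq, hk2⟩, if_pos hq, if_neg hk, if_pos hk2]; ring
          · rw [if_neg (fun h => hk h.2), if_neg (fun h => hk2 h.2), if_pos hq, if_neg hk,
              if_neg hk2]; ring
      · rw [if_neg (fun h => hq h.1), if_neg (fun h => hq h.1), if_neg hq]; ring)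
  rw [map_smul, smul_eq_mul, map_sub] at hmain
  have heta := eta_pos P
  rcases mul_eq_zero.1 hmain with h | h
  · exfalso
    rcases mul_eq_zero.1 h with h | h
    · have : 0 < (eta P ^ (J + 1))⁻¹ := by positivity
      linarith
    · exact hε h
  · linarith

lemma phi_level (ε : ℝ) (hε : ε ≠ 0) (φ : StrongDual ℝ (Lp ℝ p (volume : Measure ℝ)))
    (hφ : ∀ n, φ (eL h1 ht ε n) = 0) (q J : ℕ) : ∀ i ∈ L J,
    φ (DL p q J i) = (2 ^ J)⁻¹ * φ (DL p q 0 1) := by
  induction J with
  | zero =>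
    intro i hi
    rw [L_zero, mem_singleton] at hi
    rw [hi]
    simp
  | succ J ih =>
    intro i hi
    have hp := L_parent hi
    have h2 := ih _ hp
    have h3 := phi_pair h1 ht ε hε φ hφ q J _ hp
    rw [DL_split q J hp, map_add] at h2
    have h4 : φ (DL p q (J + 1) i) = φ (DL p q (J + 1) (2 * (i / 2))) := by
      have : i = 2 * (i / 2) ∨ i = 2 * (i / 2) + 1 := by omega
      rcases this with h | h
      · rw [← h]
      · rw [h3, ← h]
    rw [h4, pow_succ, mul_inv]
    rw [← h3] at h2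
    linarith

lemma psi_key (ε : ℝ) (hε0 : ε ≠ 0)
    (hε : c2 p.toReal * |ε| ^ p.toReal * cl p.toReal * c4 p.toReal ≤ 1 / 2)
    (φ : StrongDual ℝ (Lp ℝ p (volume : Measure ℝ)))
    (hφ : ∀ n, φ (eL h1 ht ε n) = 0) (n : ℕ) :
    |φ (DL p n 0 1)| ≤ eta p.toReal * |φ (DL p (sg.symm n).1 0 1)| := by
  have hP1 := toReal_gt h1 ht
  set P := p.toReal with hP
  set q0 := (sg.symm n).1 with hq0
  set i0 := (sg.symm n).2.1 with hi0
  set h0 := (sg.symm n).2.2 with hh0
  have hn : sg (q0, i0, h0) = n := by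
    rw [hq0, hi0, hh0]; exact sg.apply_symm_apply n
  set y : ℕ → ℕ → ℝ := fun i h => if i = i0 + 1 ∧ h = h0 then 1 else 0 with hy
  obtain ⟨a, b, M, ha, hb, ha2, hb0, hyab⟩ := exists_data' (P := P) y (i0 + h0 + 2) (by
    intro i h hh
    rw [hy]
    dsimp only
    rw [if_neg (by omega)])
  set α : ℕ → ℕ → ℝ := fun q i => if q = q0 then a i else 0 with hα
  set β : ℕ → ℕ → ℕ → ℝ := fun q i h => if q = q0 then b i h else 0 with hβ
  have hY : ∀ k, Yv P sg α β k = if k = n then 1 else 0 := by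
    intro k
    unfold Yv
    by_cases hk : (sg.symm k).1 = q0
    · have e1 : α (sg.symm k).1 = a := by
        funext i; rw [hα]; dsimp only; rw [if_pos hk]
      have e2 : β (sg.symm k).1 = b := by
        funext i h; rw [hβ]; dsimp only; rw [if_pos hk]
      rw [e1, e2, hyab _ _ (by omega), hy]
      dsimp only
      by_cases hkn : k = n
      · rw [if_pos hkn, if_pos]
        rw [hkn]
        exact ⟨rfl, rfl⟩
      · rw [if_neg hkn, if_neg]
        rintro ⟨e3, e4⟩
        apply hkn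
        apply sg.symm.injective
        have e5 : (sg.symm k).2.1 = (sg.symm n).2.1 := by omega
        exact Prod.ext hk (Prod.ext e5 e4)
    · have e1 : pr (α (sg.symm k).1) = fun _ => 0 := by
        funext i; unfold pr; rw [hα]; dsimp only; rw [if_neg hk, if_neg hk, add_zero]
      have e2 : β (sg.symm k).1 = fun _ _ => 0 := by
        funext i h; rw [hβ]; dsimp only; rw [if_neg hk]
      rw [e1, e2, ym_zero, if_neg]
      rintro rfl
      exact hk rfl
  set m := M + q0 + n + 1 with hm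
  set F : Lp ℝ p (volume : Measure ℝ) := DL p n 0 1 +
    ∑ i ∈ L m, ((eta P ^ m)⁻¹ * Hm P ε 0 a i) • DL p q0 m i with hF
  have hsum : ∀ᵐ x, (∑ i ∈ L m, ((eta P ^ m)⁻¹ * Hm P ε 0 a i) • DL p q0 m i :
      Lp ℝ p (volume : Measure ℝ)) x = ∑ i ∈ L m, ((eta P ^ m)⁻¹ * Hm P ε 0 a i) *
        (if Qx x = q0 ∧ nd m x = i then 1 else 0) := by
    apply coe_sum_Lp
    intro i _
    filter_upwards [Lp.coeFn_smul ((eta P ^ m)⁻¹ * Hm P ε 0 a i) (DL p q0 m i),
      DL_coe (p := p) q0 m i] with x h2 h3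
    rw [h2, Pi.smul_apply, h3, smul_eq_mul]
  have hmain := phi_data h1 ht ε φ hφ α β m m
    (by
      intro q i hh
      rw [hα]
      dsimp only
      split_ifs with hq
      · exact ha i (by omega)
      · rfl)
    (by
      intro q i h hh
      rw [hβ]
      dsimp only
      split_ifs with hq
      · exact hb i h (by omega)
      · rfl)
    (by
      intro q i hh
      rw [hα]
      dsimp only
      split_ifs with hq
      · exact ha2 i hh
      · rfl)
    (by
      intro q h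
      rw [hβ]
      dsimp only
      split_ifs with hq
      · exact hb0 h
      · rfl) le_rfl F
    (by
      filter_upwards [hsum, DL_coe (p := p) n 0 1, Lp.coeFn_add (DL p n 0 1)
        (∑ i ∈ L m, ((eta P ^ m)⁻¹ * Hm P ε 0 a i) • DL p q0 m i)] with x g1 g2 g3
      rw [hF, g3, Pi.add_apply, g1, g2, fd_split, hY]
      congr 1
      · rw [nd_zero]; simp
      · by_cases hq : Qx x = q0
        · rw [sum_eq_single_of_mem (nd m x) (nd_mem m x)]
          · rw [if_pos ⟨hq, rfl⟩, mul_one]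
            have : α (Qx x) = a := by
              funext i; rw [hα]; dsimp only; rw [if_pos hq]
            rw [this]
          · intro i _ hi
            rw [if_neg (fun h => hi h.2.symm), mul_zero]
        · rw [sum_eq_zero (fun i _ => by rw [if_neg (fun h => hq h.1), mul_zero])]
          have : α (Qx x) = fun _ => 0 := by
            funext i; rw [hα]; dsimp only; rw [if_neg hq]
          rw [this, Hm_low _ _ (fun _ _ => rfl), mul_zero])
  rw [hF, map_add, map_sum] at hmain
  have hsum2 : ∑ i ∈ L m, φ (((eta P ^ m)⁻¹ * Hm P ε 0 a i) • DL p q0 m i) =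
      (ε * Rr P (pr a) m 1) * φ (DL p q0 0 1) := by
    have e1 : ∀ i ∈ L m, φ (((eta P ^ m)⁻¹ * Hm P ε 0 a i) • DL p q0 m i) =
        ((eta P ^ m)⁻¹ * (2 ^ m)⁻¹ * φ (DL p q0 0 1)) * Hm P ε 0 a i := by
      intro i hi
      rw [map_smul, smul_eq_mul, phi_level h1 ht ε hε0 φ hφ q0 m i hi]
      ring
    rw [sum_congr rfl e1, ← mul_sum]
    have e2 := sum_Dn (P := P) (Hm P ε 0 a) m 0
    rw [L_zero, sum_singleton, zero_add, Dn_eq hP1 0 a m le_rfl, Hm_one _ _ le_rfl, zero_add] at e2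
    rw [e2]
    have e3 : (eta P ^ m)⁻¹ * (2 ^ m)⁻¹ = (lam P * lam P) ^ m := by
      have e4 := two_lam_eta hP1
      have e5 : (lam P * lam P) ^ m * (2 ^ m * eta P ^ m) = 1 := by
        rw [← mul_pow, ← mul_pow]
        have : lam P * lam P * (2 * eta P) = 1 := by linarith
        rw [this, one_pow]
      have e6 := eta_pos P
      rw [← mul_inv]
      symm
      apply eq_inv_of_mul_eq_one_left
      rw [← e5]
      ring
    rw [e3]
    ring
  rw [hsum2] at hmain
  -- bound of the factor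
  have hTTy : TT P (ym P (pr a) b) = 1 := by
    rw [← TT_eq]
    rw [tsum_eq_single i0]
    · rw [tsum_eq_single h0]
      · rw [hyab _ _ (by omega), hy]
        dsimp only
        rw [if_pos ⟨rfl, rfl⟩]
        unfold ep pw
        simp
      · intro h hh
        rw [hyab _ _ (by omega), hy]
        dsimp only
        rw [if_neg (fun h' => hh h'.2)]
        unfold ep
        rw [pw_zero hP1, ENNReal.ofReal_zero]
    · intro i hi
      rw [ENNReal.tsum_eq_zero]
      intro h
      rw [hyab _ _ (by omega), hy]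
      dsimp only
      rw [if_neg (by omega)]
      unfold ep
      rw [pw_zero hP1, ENNReal.ofReal_zero]
  have hR : pw P (Rr P (pr a) m 1) ≤ cl P * c4 P := by
    have g1 := sum_Rr_le hP1 (pr a) m 0
    rw [L_zero, sum_singleton] at g1
    refine g1.trans (mul_le_mul_of_nonneg_left ?_ (cl_nonneg hP1))
    have g2 := lvsum_le (P := P) (Af P (pr a)) 0 m
    have g3 := TT_le (P := P) (Af P (pr a)) (ym P (pr a) b) (c4_nonneg hP1)
      (fun j => bsA_le hP1 (pr a) b j)
    rw [hTTy, mul_one] at g3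
    have g4 := g2.trans g3
    exact (ENNReal.ofReal_le_ofReal_iff (c4_nonneg hP1)).1 g4
  have hfac : |ε * Rr P (pr a) m 1| ≤ eta P := by
    have g1 : pw P (ε * Rr P (pr a) m 1) ≤ eta P ^ P := by
      rw [pw_mul, eta_rpow hP1]
      have g2 : 0 ≤ |ε| ^ P := Real.rpow_nonneg (abs_nonneg _) _
      have g3 := one_le_c2 hP1
      have g4 := cl_nonneg hP1
      have g5 := c4_nonneg hP1
      calc |ε| ^ P * pw P (Rr P (pr a) m 1) ≤ |ε| ^ P * (cl P * c4 P) :=
            mul_le_mul_of_nonneg_left hR g2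
        _ = 1 * (|ε| ^ P * cl P * c4 P) := by ring
        _ ≤ c2 P * (|ε| ^ P * cl P * c4 P) := mul_le_mul_of_nonneg_right g3 (by positivity)
        _ = c2 P * |ε| ^ P * cl P * c4 P := by ring
        _ ≤ 1 / 2 := hε
    unfold pw at g1
    exact (Real.rpow_le_rpow_iff (abs_nonneg _) (eta_pos P).le (by linarith)).1 g1
  have hval : φ (DL p n 0 1) = -((ε * Rr P (pr a) m 1) * φ (DL p q0 0 1)) := by linarith
  rw [hval, abs_neg, abs_mul]
  exact mul_le_mul_of_nonneg_right hfac (abs_nonneg _)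

lemma eta_lt_one {P : ℝ} (hP : 1 < P) : eta P < 1 := by
  unfold eta
  apply Real.rpow_lt_one_of_one_lt_of_neg (by norm_num)
  apply div_neg_of_neg_of_pos <;> linarith

lemma norm_DL (q : ℕ) : ‖DL p q 0 1‖ ≤ 1 := by
  unfold DL
  refine (norm_indicatorConstLp_le).trans ?_
  rw [norm_one, one_mul]
  have h2 : (1:ℕ) ∈ L 0 := by rw [L_zero]; simp
  rw [Measure.real, vol_cell 0 q h2]
  simp

lemma psi_zero (ε : ℝ) (hε0 : ε ≠ 0)
    (hε : c2 p.toReal * |ε| ^ p.toReal * cl p.toReal * c4 p.toReal ≤ 1 / 2)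
    (φ : StrongDual ℝ (Lp ℝ p (volume : Measure ℝ)))
    (hφ : ∀ n, φ (eL h1 ht ε n) = 0) (n : ℕ) : φ (DL p n 0 1) = 0 := by
  have hP1 := toReal_gt h1 ht
  have hbound : ∀ k n, |φ (DL p n 0 1)| ≤ eta p.toReal ^ k * ‖φ‖ := by
    intro k
    induction k with
    | zero =>
      intro n
      rw [pow_zero, one_mul, ← Real.norm_eq_abs]
      refine (φ.le_opNorm _).trans ?_
      have := norm_DL (p := p) n
      nlinarith [norm_nonneg φ]
    | succ k ih =>
      intro n
      refine (psi_key h1 ht ε hε0 hε φ hφ n).trans ?_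
      have := mul_le_mul_of_nonneg_left (ih (sg.symm n).1) (eta_pos p.toReal).le
      rw [pow_succ]
      linarith
  have hlim : Filter.Tendsto (fun k => eta p.toReal ^ k * ‖φ‖) Filter.atTop (nhds (0 * ‖φ‖)) :=
    (tendsto_pow_atTop_nhds_zero_of_lt_one (eta_pos _).le (eta_lt_one hP1)).mul_const _
  rw [zero_mul] at hlim
  have := ge_of_tendsto' hlim (fun k => hbound k n)
  exact abs_nonpos_iff.1 this

lemma dense_eL (ε : ℝ) (hε0 : ε ≠ 0)
    (hε : c2 p.toReal * |ε| ^ p.toReal * cl p.toReal * c4 p.toReal ≤ 1 / 2) :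
    Dense ((Submodule.span ℝ (Set.range (eL h1 ht ε)) : Submodule ℝ (Lp ℝ p (volume : Measure ℝ))) :
      Set (Lp ℝ p (volume : Measure ℝ))) := by
  apply dense_of_dual
  intro φ hφ
  have hφ' : ∀ n, φ (eL h1 ht ε n) = 0 := fun n => hφ _ (Submodule.subset_span ⟨n, rfl⟩)
  apply phi_zero_of_DL ht
  intro q J i hi
  rw [phi_level h1 ht ε hε0 φ hφ' q J i hi, psi_zero h1 ht ε hε0 hε φ hφ' q, mul_zero]

lemma eL_nonneg {ε : ℝ} (hε : 0 ≤ ε) (n : ℕ) : 0 ≤ eL h1 ht ε n := by
  rw [← Lp.coeFn_nonneg]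
  filter_upwards [eL_coe h1 ht ε n] with x hx
  rw [hx]
  unfold ef
  apply fd_nonneg hε
  · intro q i
    unfold ua
    split_ifs <;> norm_num
  · intro q i h
    unfold ub
    split_ifs <;> norm_num

lemma exists_eps {P : ℝ} (hP : 1 < P) : ∃ ε : ℝ, 0 < ε ∧ c2 P * |ε| ^ P * cl P * c4 P ≤ 1 / 2 := by
  set K := c2 P * cl P * c4 P with hK
  have h0 := c2_pos P
  have h2 := cl_nonneg hP
  have h3 := c4_nonneg hP
  have hK0 : 0 ≤ K := by positivity
  have h4 : 0 < 1 / (2 * (1 + K)) := by positivity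
  refine ⟨(1 / (2 * (1 + K))) ^ (1 / P), Real.rpow_pos_of_pos h4 _, ?_⟩
  rw [abs_of_pos (Real.rpow_pos_of_pos h4 _), ← Real.rpow_mul h4.le, one_div_mul_cancel (by linarith),
    Real.rpow_one]
  have e : c2 P * (1 / (2 * (1 + K))) * cl P * c4 P = K * (1 / (2 * (1 + K))) := by rw [hK]; ring
  rw [e, mul_one_div, div_le_div_iff₀ (by positivity) (by norm_num)]
  linarith

end Lp

/-- `L_p(ℝ)`, `1 < p < ∞`, has a Schauder basis consisting of nonnegative functions. -/
theorem main (p : ℝ≥0∞) [hp1 : Fact (1 ≤ p)] (h1 : 1 < p) (ht : p ≠ ∞) :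
    ∃ b : SchauderBasis ℝ (Lp ℝ p (volume : Measure ℝ)), ∀ n, 0 ≤ b n := by
  obtain ⟨ε, hε0, hε⟩ := exists_eps (toReal_gt h1 ht)
  obtain ⟨D, hD⟩ := main_coef h1 ht hε0 hε
  obtain ⟨E, hE⟩ := norm_eL_le h1 ht ε
  obtain ⟨b, hb⟩ := exists_schauder (eL h1 ht ε) (c6 p.toReal ^ (1 / p.toReal)) D E hE
    hD (fun t T c htT => main_ineq h1 ht hε t T c htT) (dense_eL h1 ht ε hε0.ne' hε)
  exact ⟨b, fun n => by rw [hb]; exact eL_nonneg h1 ht hε0.le n⟩

end Pool.Agent.H75R3.NN
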