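import Pool.Agent.H75R3.NN1

set_option autoImplicit false
set_option linter.ambiguousOpen false

open _root_.H75R3 (L mem_L L_pos L_child L_parent L_zero sum_L_succ card_L)

namespace Pool.Agent.H75R3.NN

open Finset

variable {P : ℝ}

/-- level sum -/
noncomputable def lv (P : ℝ) (g : ℕ → ℕ → ℝ) (l h : ℕ) : ℝ := ∑ i ∈ L l, pw P (g i h)

lemma lv_nonneg (g : ℕ → ℕ → ℝ) (l h : ℕ) : 0 ≤ lv P g l h :=
  sum_nonneg fun _ _ => pw_nonneg _ _

/-- block sum -/
noncomputable def bs (P : ℝ) (g : ℕ → ℕ → ℝ) (j : ℕ) : ℝ :=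
  ∑ l ∈ range (j + 1), lv P g l (j - l)

lemma bs_nonneg (g : ℕ → ℕ → ℝ) (j : ℕ) : 0 ≤ bs P g j :=
  sum_nonneg fun _ _ => lv_nonneg _ _ _

/-- The function `Am` with arguments swapped. -/
noncomputable def Af (P : ℝ) (a : ℕ → ℝ) (i h : ℕ) : ℝ := Am P a h i

lemma sum_W (a : ℕ → ℝ) (h l : ℕ) :
    ∑ i ∈ L l, W P a h i = ∑ s ∈ range (h + 1), lv P (Af P a) (l + s) (h - s) := by
  induction h generalizing l with
  | zero =>
    rw [sum_range_one]
    unfold lv Af
    apply sum_congr rfl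
    intro i _
    rw [W, Am]
  | succ h ih =>
    rw [sum_range_succ']
    have e : ∀ s, lv P (Af P a) (l + (s + 1)) (h + 1 - (s + 1)) = lv P (Af P a) (l + 1 + s) (h - s) := by
      intro s
      rw [Nat.add_sub_add_right, add_comm s 1, ← add_assoc]
    simp only [e]
    rw [← ih (l + 1), sum_L_succ]
    have e2 : lv P (Af P a) (l + 0) (h + 1 - 0) = ∑ i ∈ L l, pw P (Am P a (h + 1) i) := rfl
    rw [e2, ← sum_add_distrib]
    apply sum_congr rfl
    intro i _
    rw [W]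
    ring

lemma W_one (a : ℕ → ℝ) (j : ℕ) : W P a j 1 = bs P (Af P a) j := by
  have := sum_W (P := P) a j 0
  rw [L_zero, sum_singleton] at this
  rw [this]
  unfold bs
  simp only [zero_add]

lemma lvB_zero (hP : 1 < P) (b : ℕ → ℕ → ℝ) (h : ℕ) : lv P (Bm P b) 0 h = 0 := by
  unfold lv
  rw [L_zero, sum_singleton, Bm_one b le_rfl, pw_zero hP]

lemma lvB_succ (hP : 1 < P) (b : ℕ → ℕ → ℝ) (l h : ℕ) :
    lv P (Bm P b) (l + 1) h ≤ lam P * lv P (Bm P b) l (h + 1) + cl P * lv P b l h := by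
  unfold lv
  rw [sum_L_succ, mul_sum, mul_sum, ← sum_add_distrib]
  apply sum_le_sum
  intro i hi
  have hi1 := L_pos hi
  rw [Bm_even b hi1, Bm_odd b hi1, ← two_mul, pw_div hP]
  exact pw_lam hP _ _

/-- block sum of the coefficients `b` -/
noncomputable def bsb (P : ℝ) (b : ℕ → ℕ → ℝ) (j : ℕ) : ℝ :=
  ∑ l ∈ range j, lv P b l (j - (l + 1))

lemma bsb_zero (b : ℕ → ℕ → ℝ) : bsb P b 0 = 0 := by unfold bsb; simp

lemma bsb_succ (b : ℕ → ℕ → ℝ) (j : ℕ) : bsb P b (j + 1) = bs P b j := by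
  unfold bsb bs
  apply sum_congr rfl
  intro l _
  rw [Nat.add_sub_add_right]

/-- constant -/
noncomputable def cB (P : ℝ) : ℝ := cl P / (1 - lam P)

lemma cB_nonneg (hP : 1 < P) : 0 ≤ cB P := by
  have h2 := lam_lt_one hP
  exact div_nonneg (cl_nonneg hP) (by linarith)

lemma bsB_le (hP : 1 < P) (b : ℕ → ℕ → ℝ) (j : ℕ) : bs P (Bm P b) j ≤ cB P * bsb P b j := by
  have h2 := lam_lt_one hP
  have h3 : 0 < 1 - lam P := by linarith
  have h1 : bs P (Bm P b) j ≤ lam P * bs P (Bm P b) j + cl P * bsb P b j := by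
    have e1 : bs P (Bm P b) j = ∑ l ∈ range j, lv P (Bm P b) (l + 1) (j - (l + 1)) := by
      unfold bs
      rw [sum_range_succ', lvB_zero hP, add_zero]
    have e2 : ∑ l ∈ range j, lv P (Bm P b) (l + 1) (j - (l + 1)) ≤
        ∑ l ∈ range j, (lam P * lv P (Bm P b) l (j - l) + cl P * lv P b l (j - (l + 1))) := by
      apply sum_le_sum
      intro l hl
      rw [mem_range] at hl
      have := lvB_succ hP b l (j - (l + 1))
      have e : j - (l + 1) + 1 = j - l := by omega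
      rw [e] at this
      exact this
    have e3 : ∑ l ∈ range j, lv P (Bm P b) l (j - l) ≤ bs P (Bm P b) j := by
      unfold bs
      rw [sum_range_succ]
      have := lv_nonneg (P := P) (Bm P b) j (j - j)
      linarith
    rw [sum_add_distrib, ← mul_sum, ← mul_sum] at e2
    rw [← e1] at e2
    have := mul_le_mul_of_nonneg_left e3 (lam_pos P).le
    unfold bsb
    linarith
  unfold cB
  rw [div_mul_eq_mul_div, le_div_iff₀ h3]
  linarith

/-- constant -/
noncomputable def c3 (P : ℝ) : ℝ := c2 P * (1 + cl P)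

lemma c3_nonneg (hP : 1 < P) : 0 ≤ c3 P :=
  mul_nonneg (c2_pos P).le (by have := cl_nonneg hP; linarith)

lemma lv_b_le (hP : 1 < P) (a : ℕ → ℝ) (b : ℕ → ℕ → ℝ) (l h : ℕ) :
    lv P b l h ≤ c3 P * (lv P (ym P a b) (l + 1) h + lv P (ym P a b) l (h + 1)) := by
  unfold lv
  rw [sum_L_succ, ← sum_add_distrib, mul_sum]
  apply sum_le_sum
  intro i hi
  have hi1 := L_pos hi
  have hcl := cl_nonneg hP
  have hc2 := c2_pos P
  have hlam := lam_lt_one hP
  have hlam0 := lam_pos P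
  set x := ym P a b (2 * i) h with hx
  set y := ym P a b (2 * i + 1) h with hy
  set z := ym P a b i (h + 1) with hz
  have hb := ym_rel (P := P) a b hi1 h
  rw [← hx, ← hy, ← hz] at hb
  have h1 := pw_sub hP (lam P * (x + y)) z
  have h2 := pw_lam hP x y
  have hx0 := pw_nonneg P x
  have hy0 := pw_nonneg P y
  have hz0 := pw_nonneg P z
  rw [← hb] at h1
  have h3 : pw P (lam P * (x + y)) + pw P z ≤ (1 + cl P) * (pw P x + pw P y + pw P z) := by
    nlinarith [mul_nonneg hcl hx0, mul_nonneg hcl hy0, mul_nonneg hcl hz0]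
  calc pw P (b i h) ≤ c2 P * (pw P (lam P * (x + y)) + pw P z) := h1
    _ ≤ c2 P * ((1 + cl P) * (pw P x + pw P y + pw P z)) := mul_le_mul_of_nonneg_left h3 hc2.le
    _ = c3 P * (pw P x + pw P y + pw P z) := by unfold c3; ring

lemma bsb_le (hP : 1 < P) (a : ℕ → ℝ) (b : ℕ → ℕ → ℝ) (j : ℕ) :
    bsb P b j ≤ 2 * c3 P * bs P (ym P a b) j := by
  have hc3 := c3_nonneg hP
  have h1 : bsb P b j ≤ ∑ l ∈ range j, c3 P * (lv P (ym P a b) (l + 1) (j - (l + 1))
      + lv P (ym P a b) l (j - l)) := by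
    unfold bsb
    apply sum_le_sum
    intro l hl
    rw [mem_range] at hl
    have := lv_b_le hP a b l (j - (l + 1))
    have e : j - (l + 1) + 1 = j - l := by omega
    rw [e] at this
    exact this
  rw [← mul_sum, sum_add_distrib] at h1
  have h2 : ∑ l ∈ range j, lv P (ym P a b) (l + 1) (j - (l + 1)) ≤ bs P (ym P a b) j := by
    unfold bs
    rw [sum_range_succ']
    have := lv_nonneg (P := P) (ym P a b) 0 (j - 0)
    linarith
  have h3 : ∑ l ∈ range j, lv P (ym P a b) l (j - l) ≤ bs P (ym P a b) j := by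
    unfold bs
    rw [sum_range_succ]
    have := lv_nonneg (P := P) (ym P a b) j (j - j)
    linarith
  nlinarith

lemma bs_add_le (hP : 1 < P) (g₁ g₂ g₃ : ℕ → ℕ → ℝ) (h : ∀ i h, g₁ i h = g₂ i h + g₃ i h) (j : ℕ) :
    bs P g₁ j ≤ c2 P * (bs P g₂ j + bs P g₃ j) := by
  unfold bs lv
  rw [← sum_add_distrib, mul_sum]
  apply sum_le_sum
  intro l _
  rw [← sum_add_distrib, mul_sum]
  apply sum_le_sum
  intro i _
  rw [h]
  exact pw_add hP _ _

lemma bs_neg (g : ℕ → ℕ → ℝ) (j : ℕ) : bs P (fun i h => - g i h) j = bs P g j := by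
  unfold bs lv
  simp only [pw_neg]

/-- constant -/
noncomputable def c4 (P : ℝ) : ℝ := c2 P * (1 + cB P * (2 * c3 P))

lemma c4_nonneg (hP : 1 < P) : 0 ≤ c4 P := by
  have := cB_nonneg hP
  have := c3_nonneg hP
  have := c2_pos P
  unfold c4
  positivity

lemma bsA_le (hP : 1 < P) (a : ℕ → ℝ) (b : ℕ → ℕ → ℝ) (j : ℕ) :
    bs P (Af P a) j ≤ c4 P * bs P (ym P a b) j := by
  have h1 := bs_add_le hP (Af P a) (ym P a b) (fun i h => - Bm P b i h)
    (fun i h => by unfold ym Af; ring) j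
  rw [bs_neg] at h1
  have h2 := bsB_le hP b j
  have h3 := bsb_le hP a b j
  have hcB := cB_nonneg hP
  have hc2 := c2_pos P
  have h4 : bs P (Bm P b) j ≤ cB P * (2 * c3 P) * bs P (ym P a b) j := by
    calc bs P (Bm P b) j ≤ cB P * bsb P b j := h2
      _ ≤ cB P * (2 * c3 P * bs P (ym P a b) j) := mul_le_mul_of_nonneg_left h3 hcB
      _ = _ := by ring
  calc bs P (Af P a) j ≤ c2 P * (bs P (ym P a b) j + bs P (Bm P b) j) := h1
    _ ≤ c2 P * (bs P (ym P a b) j + cB P * (2 * c3 P) * bs P (ym P a b) j) :=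
      mul_le_mul_of_nonneg_left (by linarith) hc2.le
    _ = _ := by unfold c4; ring

lemma bsy_le (hP : 1 < P) (a : ℕ → ℝ) (b : ℕ → ℕ → ℝ) (j : ℕ) :
    bs P (ym P a b) j ≤ c2 P * (bs P (Af P a) j + cB P * bsb P b j) := by
  have h1 := bs_add_le hP (ym P a b) (Af P a) (Bm P b) (fun i h => rfl) j
  have h2 := bsB_le hP b j
  exact h1.trans (mul_le_mul_of_nonneg_left (by linarith) (c2_pos P).le)

lemma bsA_cut_le (hP : 1 < P) (κ : ℕ) (a : ℕ → ℝ) (j : ℕ) :
    bs P (Af P (cut κ a)) j ≤ cW P * bs P (Af P a) j := by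
  rw [← W_one, ← W_one]
  have h := prefix_ineq hP κ a j 1
  have h1 := lam_pos P
  have h2 := lam_lt_one hP
  have h3 : 0 < 1 - lam P := by linarith
  have h4 : 0 ≤ lam P / (1 - lam P) * pw P (Am P (cut κ a) j 1) :=
    mul_nonneg (by positivity) (pw_nonneg _ _)
  linarith

/-! ### the function on the unit interval -/

/-- Normalised values of the function with mean part `Y` and increments `ε α`. -/
noncomputable def Hm (P ε Y : ℝ) (α : ℕ → ℝ) (i : ℕ) : ℝ :=
  if hi : i ≤ 1 then Y else eta P * Hm P ε Y α (i / 2) + ε * α i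
termination_by i
decreasing_by omega

variable {ε : ℝ}

lemma Hm_one (Y : ℝ) (α : ℕ → ℝ) {i : ℕ} (hi : i ≤ 1) : Hm P ε Y α i = Y := by
  rw [Hm, dif_pos hi]

lemma Hm_step (Y : ℝ) (α : ℕ → ℝ) {i : ℕ} (hi : 2 ≤ i) :
    Hm P ε Y α i = eta P * Hm P ε Y α (i / 2) + ε * α i := by
  rw [Hm, dif_neg (by omega)]

lemma Hm_even (Y : ℝ) (α : ℕ → ℝ) {i : ℕ} (hi : 1 ≤ i) :
    Hm P ε Y α (2 * i) = eta P * Hm P ε Y α i + ε * α (2 * i) := by
  rw [Hm_step Y α (by omega)]
  have : 2 * i / 2 = i := by omega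
  rw [this]

lemma Hm_odd (Y : ℝ) (α : ℕ → ℝ) {i : ℕ} (hi : 1 ≤ i) :
    Hm P ε Y α (2 * i + 1) = eta P * Hm P ε Y α i + ε * α (2 * i + 1) := by
  rw [Hm_step Y α (by omega)]
  have : (2 * i + 1) / 2 = i := by omega
  rw [this]

/-- averaging -/
noncomputable def Dn (P : ℝ) (H : ℕ → ℝ) : ℕ → ℕ → ℝ
  | 0, i => H i
  | n + 1, i => lam P * lam P * (Dn P H n (2 * i) + Dn P H n (2 * i + 1))

/-- correction -/
noncomputable def Rr (P : ℝ) (a : ℕ → ℝ) : ℕ → ℕ → ℝ
  | 0, _ => 0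
  | n + 1, i => lam P * lam P * (a i + (Rr P a n (2 * i) + Rr P a n (2 * i + 1)))

/-- pair sums -/
def pr (α : ℕ → ℝ) (k : ℕ) : ℝ := α (2 * k) + α (2 * k + 1)

lemma Dn_eq (hP : 1 < P) (Y : ℝ) (α : ℕ → ℝ) (n : ℕ) {i : ℕ} (hi : 1 ≤ i) :
    Dn P (Hm P ε Y α) n i = Hm P ε Y α i + ε * Rr P (pr α) n i := by
  induction n generalizing i with
  | zero => rw [Dn, Rr]; ring
  | succ n ih =>
    rw [Dn, Rr, ih (i := 2 * i) (by omega), ih (i := 2 * i + 1) (by omega), Hm_even Y α hi,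
      Hm_odd Y α hi]
    have h := two_lam_eta hP
    unfold pr
    linear_combination (Hm P ε Y α i) * h

lemma Rr_eq (a : ℕ → ℝ) (n i : ℕ) :
    Rr P a n i = ∑ s ∈ range n, lam P ^ (s + 2) * Am P a s i := by
  induction n generalizing i with
  | zero => rw [Rr]; simp
  | succ n ih =>
    rw [Rr, ih, ih, sum_range_succ', ← sum_add_distrib]
    have e : ∑ s ∈ range n, lam P ^ (s + 1 + 2) * Am P a (s + 1) i
        = lam P * lam P * ∑ s ∈ range n, (lam P ^ (s + 2) * Am P a s (2 * i) + lam P ^ (s + 2) *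
          Am P a s (2 * i + 1)) := by
      rw [mul_sum]
      apply sum_congr rfl
      intro s _
      rw [Am]
      ring
    rw [e, Am]
    ring

lemma pw_weighted (hP : 1 < P) (n : ℕ) : ∀ x : ℕ → ℝ,
    pw P (∑ s ∈ range n, lam P ^ (s + 2) * x s) ≤ cl P * ∑ s ∈ range n, pw P (x s) := by
  have h1 := lam_pos P
  have h2 := lam_lt_one hP
  have hcl := cl_nonneg hP
  induction n with
  | zero => intro x; simp [pw_zero hP]
  | succ n ih =>
    intro x
    rw [sum_range_succ', sum_range_succ']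
    have e : ∑ s ∈ range n, lam P ^ (s + 1 + 2) * x (s + 1) + lam P ^ (0 + 2) * x 0
        = lam P * ((∑ s ∈ range n, lam P ^ (s + 2) * x (s + 1)) + lam P * x 0) := by
      rw [mul_add, mul_sum]
      congr 1
      · apply sum_congr rfl
        intro s _
        ring
      · ring
    rw [e]
    have h3 := pw_lam hP (∑ s ∈ range n, lam P ^ (s + 2) * x (s + 1)) (lam P * x 0)
    have h4 := ih (fun s => x (s + 1))
    have h5 : pw P (lam P * x 0) ≤ pw P (x 0) := pw_mul_le hP (by rw [abs_of_pos h1]; exact h2.le) _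
    have h6 : 0 ≤ ∑ s ∈ range n, pw P (x (s + 1)) := sum_nonneg fun _ _ => pw_nonneg _ _
    have h7 := pw_nonneg P (∑ s ∈ range n, lam P ^ (s + 2) * x (s + 1))
    have h8 : lam P * pw P (∑ s ∈ range n, lam P ^ (s + 2) * x (s + 1))
        ≤ pw P (∑ s ∈ range n, lam P ^ (s + 2) * x (s + 1)) := by nlinarith
    have h9 := mul_le_mul_of_nonneg_left h5 hcl
    linarith

lemma sum_Rr_le (hP : 1 < P) (a : ℕ → ℝ) (n l : ℕ) :
    ∑ i ∈ L l, pw P (Rr P a n i) ≤ cl P * ∑ s ∈ range n, lv P (Af P a) l s := by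
  unfold lv
  rw [sum_comm, mul_sum]
  apply sum_le_sum
  intro i _
  rw [Rr_eq]
  exact pw_weighted hP n _

lemma sum_Dn_le (hP : 1 < P) (H : ℕ → ℝ) (n l : ℕ) :
    ∑ i ∈ L l, pw P (Dn P H n i) ≤ ∑ i ∈ L (l + n), pw P (H i) := by
  induction n generalizing l with
  | zero => rfl
  | succ n ih =>
    have h1 : ∑ i ∈ L l, pw P (Dn P H (n + 1) i) ≤ ∑ i ∈ L (l + 1), pw P (Dn P H n i) := by
      rw [sum_L_succ]
      apply sum_le_sum
      intro i _
      rw [Dn]
      exact pw_mu hP _ _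
    refine h1.trans ((ih (l + 1)).trans_eq ?_)
    rw [add_assoc, add_comm 1 n]

lemma level_le (hP : 1 < P) (Y : ℝ) (α : ℕ → ℝ) (n l : ℕ) :
    ∑ i ∈ L l, pw P (Hm P ε Y α i) ≤ c2 P * (∑ i ∈ L (l + n), pw P (Hm P ε Y α i)
      + |ε| ^ P * (cl P * ∑ s ∈ range n, lv P (Af P (pr α)) l s)) := by
  have h1 : ∑ i ∈ L l, pw P (Hm P ε Y α i) ≤
      ∑ i ∈ L l, c2 P * (pw P (Dn P (Hm P ε Y α) n i) + |ε| ^ P * pw P (Rr P (pr α) n i)) := by
    apply sum_le_sum
    intro i hi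
    have h := Dn_eq (ε := ε) hP Y α n (L_pos hi)
    have h2 : Hm P ε Y α i = Dn P (Hm P ε Y α) n i - ε * Rr P (pr α) n i := by rw [h]; ring
    rw [h2, ← pw_mul]
    have := pw_sub hP (Dn P (Hm P ε Y α) n i) (ε * Rr P (pr α) n i)
    exact this
  refine h1.trans ?_
  rw [← mul_sum, sum_add_distrib, ← mul_sum]
  apply mul_le_mul_of_nonneg_left _ (c2_pos P).le
  apply add_le_add (sum_Dn_le hP _ n l)
  exact mul_le_mul_of_nonneg_left (sum_Rr_le hP _ n l) (Real.rpow_nonneg (abs_nonneg _) _)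

lemma Hm_add (Y Y' : ℝ) (α α' : ℕ → ℝ) (i : ℕ) :
    Hm P ε (Y + Y') (fun k => α k + α' k) i = Hm P ε Y α i + Hm P ε Y' α' i := by
  induction i using Nat.strong_induction_on with
  | _ i ih =>
    by_cases hi : i ≤ 1
    · rw [Hm_one _ _ hi, Hm_one _ _ hi, Hm_one _ _ hi]
    · have h2 : 2 ≤ i := by omega
      rw [Hm_step _ _ h2, Hm_step _ _ h2, Hm_step _ _ h2, ih (i / 2) (by omega)]
      ring

lemma Hm_smul (c Y : ℝ) (α : ℕ → ℝ) (i : ℕ) :
    Hm P ε (c * Y) (fun k => c * α k) i = c * Hm P ε Y α i := by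
  induction i using Nat.strong_induction_on with
  | _ i ih =>
    by_cases hi : i ≤ 1
    · rw [Hm_one _ _ hi, Hm_one _ _ hi]
    · have h2 : 2 ≤ i := by omega
      rw [Hm_step _ _ h2, Hm_step _ _ h2, ih (i / 2) (by omega)]
      ring

lemma level_const (hP : 1 < P) (Y : ℝ) (α : ℕ → ℝ) (J : ℕ) (hα : ∀ i, 2 ^ (J + 1) ≤ i → α i = 0)
    (n : ℕ) : ∑ i ∈ L (J + n), pw P (Hm P ε Y α i) = ∑ i ∈ L J, pw P (Hm P ε Y α i) := by
  induction n with
  | zero => rfl
  | succ n ih =>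
    rw [← ih, ← add_assoc, sum_L_succ]
    apply sum_congr rfl
    intro i hi
    have hi1 := L_pos hi
    have h1 := (mem_L.1 hi).1
    have h2 : 2 ^ J ≤ 2 ^ (J + n) := Nat.pow_le_pow_right (by norm_num) (by omega)
    have h3 : 2 ^ (J + 1) = 2 * 2 ^ J := by ring
    rw [Hm_even _ _ hi1, Hm_odd _ _ hi1, hα (2 * i) (by omega), hα (2 * i + 1) (by omega), mul_zero,
      add_zero, ← two_mul, pw_eta hP]

lemma level_zero (hP : 1 < P) (Y : ℝ) (n : ℕ) :
    ∑ i ∈ L n, pw P (Hm P ε Y (fun _ => 0) i) = pw P Y := by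
  have := level_const (ε := ε) hP Y (fun _ => 0) 0 (fun _ _ => rfl) n
  rw [zero_add] at this
  rw [this, L_zero, sum_singleton, Hm_one _ _ le_rfl]

lemma Hm_cut_eq (K : ℕ) (α : ℕ → ℝ) {i : ℕ} (hi : i < K) :
    Hm P ε 0 (cut K α) i = Hm P ε 0 α i := by
  induction i using Nat.strong_induction_on with
  | _ i ih =>
    by_cases h1 : i ≤ 1
    · rw [Hm_one _ _ h1, Hm_one _ _ h1]
    · have h2 : 2 ≤ i := by omega
      rw [Hm_step _ _ h2, Hm_step _ _ h2, ih (i / 2) (by omega) (by omega)]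
      unfold cut
      rw [if_pos hi]

lemma cut_level (hP : 1 < P) (K : ℕ) (α : ℕ → ℝ) (J : ℕ) : ∃ l ≤ J, ∃ l' ≤ J,
    ∑ i ∈ L J, pw P (Hm P ε 0 (cut K α) i) ≤
      ∑ i ∈ L l, pw P (Hm P ε 0 α i) + ∑ i ∈ L l', pw P (Hm P ε 0 α i) := by
  induction J with
  | zero =>
    refine ⟨0, le_rfl, 0, le_rfl, ?_⟩
    rw [L_zero, sum_singleton, sum_singleton, Hm_one _ _ le_rfl, Hm_one _ _ le_rfl, pw_zero hP]
    simp
  | succ J ih =>
    rcases le_total K (2 ^ (J + 1)) with hK | hK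
    · obtain ⟨l, hl, l', hl', h⟩ := ih
      refine ⟨l, by omega, l', by omega, le_trans (le_of_eq ?_) h⟩
      rw [sum_L_succ]
      apply sum_congr rfl
      intro i hi
      have hi1 := L_pos hi
      have h1 := (mem_L.1 hi).1
      have h3 : 2 ^ (J + 1) = 2 * 2 ^ J := by ring
      rw [Hm_even _ _ hi1, Hm_odd _ _ hi1]
      unfold cut
      rw [if_neg (by omega), if_neg (by omega), mul_zero, add_zero, ← two_mul, pw_eta hP]
    · refine ⟨J + 1, le_rfl, J, by omega, ?_⟩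
      have h0 : ∑ i ∈ L J, pw P (Hm P ε 0 α i) = ∑ i ∈ L (J + 1), pw P (eta P * Hm P ε 0 α (i / 2)) := by
        rw [sum_L_succ]
        apply sum_congr rfl
        intro i hi
        have e1 : 2 * i / 2 = i := by omega
        have e2 : (2 * i + 1) / 2 = i := by omega
        rw [e1, e2, ← two_mul, pw_eta hP]
      rw [h0, ← sum_add_distrib]
      apply sum_le_sum
      intro i hi
      have hi1 := L_pos (L_parent hi)
      have h1 := (mem_L.1 (L_parent hi)).2
      by_cases hiK : i < K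
      · rw [Hm_cut_eq K α hiK]
        have := pw_nonneg P (eta P * Hm P ε 0 α (i / 2))
        linarith
      · rw [Hm_step _ _ (by omega), Hm_cut_eq K α (by omega)]
        unfold cut
        rw [if_neg hiK, mul_zero, add_zero]
        have := pw_nonneg P (Hm P ε 0 α i)
        linarith

end Pool.Agent.H75R3.NN
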