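import Pool.Agent.H75R3.NN2

set_option autoImplicit false
set_option linter.ambiguousOpen false

open _root_.H75R3 (L mem_L L_pos L_child L_parent L_zero sum_L_succ card_L)

namespace Pool.Agent.H75R3.NN

open Finset
open scoped ENNReal

variable {P : ℝ}

/-- extended-valued power -/
noncomputable def ep (P x : ℝ) : ℝ≥0∞ := ENNReal.ofReal (pw P x)

lemma sum_pow_range (F : ℕ → ℝ≥0∞) (n : ℕ) :
    ∑ i ∈ range (2 ^ n - 1), F (i + 1) = ∑ l ∈ range n, ∑ i ∈ L l, F i := by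
  induction n with
  | zero => simp
  | succ n ih =>
    rw [sum_range_succ, ← ih]
    have hp : 1 ≤ 2 ^ n := Nat.one_le_two_pow
    have e : 2 ^ (n + 1) - 1 = (2 ^ n - 1) + 2 ^ n := by
      have : 2 ^ (n + 1) = 2 * 2 ^ n := by ring
      omega
    rw [e, sum_range_add]
    congr 1
    unfold L
    rw [sum_Ico_eq_sum_range]
    have e2 : 2 ^ (n + 1) - 2 ^ n = 2 ^ n := by
      have : 2 ^ (n + 1) = 2 * 2 ^ n := by ring
      omega
    rw [e2]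
    apply sum_congr rfl
    intro i _
    congr 1
    omega

lemma tsum_levels (F : ℕ → ℝ≥0∞) : ∑' i, F (i + 1) = ∑' l, ∑ i ∈ L l, F i := by
  have h1 : Filter.Tendsto (fun n : ℕ => 2 ^ n - 1) Filter.atTop Filter.atTop := by
    apply Filter.tendsto_atTop_mono (f := fun n : ℕ => n) _ Filter.tendsto_id
    intro n
    have : n < 2 ^ n := Nat.lt_two_pow_self
    omega
  have h2 := (ENNReal.summable (f := fun i => F (i + 1))).hasSum.tendsto_sum_nat.comp h1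
  have h3 := (ENNReal.summable (f := fun l => ∑ i ∈ L l, F i)).hasSum.tendsto_sum_nat
  have h4 : ((fun n => ∑ i ∈ range n, F (i + 1)) ∘ fun n : ℕ => 2 ^ n - 1)
      = fun n => ∑ l ∈ range n, ∑ i ∈ L l, F i := by
    funext n
    exact sum_pow_range F n
  rw [h4] at h2
  exact tendsto_nhds_unique h2 h3

lemma tsum_anti (F : ℕ → ℕ → ℝ≥0∞) :
    ∑' l, ∑' h, F l h = ∑' j, ∑ l ∈ range (j + 1), F l (j - l) := by
  have h0 : ∑' l, ∑' h, F l h = ∑' p : ℕ × ℕ, F p.1 p.2 := (ENNReal.tsum_prod (f := F)).symm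
  have h1 := (Finset.HasAntidiagonal.sigmaAntidiagonalEquivProd (A := ℕ)).tsum_eq
    (fun p : ℕ × ℕ => F p.1 p.2)
  rw [h0, ← h1, ENNReal.tsum_sigma']
  congr 1
  funext j
  rw [tsum_fintype, ← Finset.Nat.sum_antidiagonal_eq_sum_range_succ (fun a b => F a b) j]
  exact Finset.sum_coe_sort (Finset.HasAntidiagonal.antidiagonal j) (fun x : ℕ × ℕ => F x.1 x.2)

/-- total over all nodes with positive heap index -/
noncomputable def TT (P : ℝ) (g : ℕ → ℕ → ℝ) : ℝ≥0∞ := ∑' j, ENNReal.ofReal (bs P g j)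

lemma TT_eq (g : ℕ → ℕ → ℝ) : ∑' i, ∑' h, ep P (g (i + 1) h) = TT P g := by
  rw [tsum_levels (fun i => ∑' h, ep P (g i h))]
  have h1 : ∀ l, ∑ i ∈ L l, ∑' h, ep P (g i h) = ∑' h, ENNReal.ofReal (lv P g l h) := by
    intro l
    rw [← Summable.tsum_finsetSum (fun i _ => ENNReal.summable)]
    congr 1
    funext h
    unfold lv ep
    rw [ENNReal.ofReal_sum_of_nonneg (fun _ _ => pw_nonneg _ _)]
  simp only [h1]
  rw [tsum_anti]
  unfold TT bs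
  congr 1
  funext j
  rw [ENNReal.ofReal_sum_of_nonneg (fun _ _ => lv_nonneg _ _ _)]

lemma ofReal_le_mul {x y c : ℝ} (hc : 0 ≤ c) (h : x ≤ c * y) :
    ENNReal.ofReal x ≤ ENNReal.ofReal c * ENNReal.ofReal y := by
  rw [← ENNReal.ofReal_mul hc]
  exact ENNReal.ofReal_le_ofReal h

lemma TT_le (g g' : ℕ → ℕ → ℝ) {c : ℝ} (hc : 0 ≤ c) (h : ∀ j, bs P g j ≤ c * bs P g' j) :
    TT P g ≤ ENNReal.ofReal c * TT P g' := by
  unfold TT
  rw [← ENNReal.tsum_mul_left]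
  exact ENNReal.tsum_le_tsum fun j => ofReal_le_mul hc (h j)

/-- the vector of means -/
noncomputable def Yv (P : ℝ) (σ : ℕ × ℕ × ℕ ≃ ℕ) (α : ℕ → ℕ → ℝ) (β : ℕ → ℕ → ℕ → ℝ) (n : ℕ) : ℝ :=
  ym P (pr (α (σ.symm n).1)) (β (σ.symm n).1) ((σ.symm n).2.1 + 1) (σ.symm n).2.2

/-- total power sum of the means -/
noncomputable def YS (P : ℝ) (σ : ℕ × ℕ × ℕ ≃ ℕ) (α : ℕ → ℕ → ℝ) (β : ℕ → ℕ → ℕ → ℝ) : ℝ≥0∞ :=
  ∑' n, ep P (Yv P σ α β n)

lemma YS_eq (σ : ℕ × ℕ × ℕ ≃ ℕ) (α : ℕ → ℕ → ℝ) (β : ℕ → ℕ → ℕ → ℝ) :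
    YS P σ α β = ∑' q, TT P (ym P (pr (α q)) (β q)) := by
  unfold YS
  rw [← σ.tsum_eq, ENNReal.tsum_prod']
  congr 1
  funext q
  rw [ENNReal.tsum_prod', ← TT_eq]
  congr 1
  funext i
  congr 1
  funext h
  unfold Yv
  rw [σ.symm_apply_apply]

/-- normalised values -/
noncomputable def Hv (P ε : ℝ) (σ : ℕ × ℕ × ℕ ≃ ℕ) (α : ℕ → ℕ → ℝ) (β : ℕ → ℕ → ℕ → ℝ) (q : ℕ)
    (i : ℕ) : ℝ := Hm P ε (Yv P σ α β q) (α q) i

/-- power sum on a level over a unit interval -/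
noncomputable def Nq (P ε : ℝ) (σ : ℕ × ℕ × ℕ ≃ ℕ) (α : ℕ → ℕ → ℝ) (β : ℕ → ℕ → ℕ → ℝ) (J q : ℕ) :
    ℝ≥0∞ := ENNReal.ofReal (∑ i ∈ L J, pw P (Hv P ε σ α β q i))

/-- power of the norm -/
noncomputable def NT (P ε : ℝ) (σ : ℕ × ℕ × ℕ ≃ ℕ) (α : ℕ → ℕ → ℝ) (β : ℕ → ℕ → ℕ → ℝ) (J : ℕ) :
    ℝ≥0∞ := ∑' q, Nq P ε σ α β J q

lemma lvsum_le (g : ℕ → ℕ → ℝ) (l n : ℕ) :
    ENNReal.ofReal (∑ s ∈ range n, lv P g l s) ≤ TT P g := by
  have h1 : ∑ s ∈ range n, lv P g l s ≤ ∑ j ∈ range (l + n), bs P g j := by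
    rw [sum_range_add]
    have h2 : ∑ s ∈ range n, lv P g l s ≤ ∑ s ∈ range n, bs P g (l + s) := by
      apply sum_le_sum
      intro s _
      unfold bs
      have h3 := single_le_sum (f := fun l' => lv P g l' (l + s - l'))
        (fun i _ => lv_nonneg _ _ _) (mem_range.2 (show l < l + s + 1 by omega))
      simp only [Nat.add_sub_cancel_left] at h3
      exact h3
    have h4 : 0 ≤ ∑ j ∈ range l, bs P g j := sum_nonneg fun _ _ => bs_nonneg _ _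
    linarith
  refine (ENNReal.ofReal_le_ofReal h1).trans ?_
  rw [ENNReal.ofReal_sum_of_nonneg (fun _ _ => bs_nonneg _ _)]
  exact ENNReal.sum_le_tsum _

variable {ε : ℝ}

lemma Nq_le (hP : 1 < P) (σ : ℕ × ℕ × ℕ ≃ ℕ) (α : ℕ → ℕ → ℝ) (β : ℕ → ℕ → ℕ → ℝ) {J l : ℕ}
    (hl : l ≤ J) (q : ℕ) :
    Nq P ε σ α β l q ≤ ENNReal.ofReal (c2 P) * Nq P ε σ α β J q +
      ENNReal.ofReal (c2 P * |ε| ^ P * cl P) * TT P (Af P (pr (α q))) := by
  have h1 := level_le (ε := ε) hP (Yv P σ α β q) (α q) (J - l) l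
  have h0 : 0 ≤ |ε| ^ P := Real.rpow_nonneg (abs_nonneg _) _
  have hcl := cl_nonneg hP
  have hc2 := (c2_pos P).le
  rw [Nat.add_sub_cancel' hl] at h1
  unfold Nq Hv
  refine (ENNReal.ofReal_le_ofReal h1).trans ?_
  rw [mul_add, ENNReal.ofReal_add, ENNReal.ofReal_mul hc2]
  · gcongr
    have e : c2 P * (|ε| ^ P * (cl P * ∑ s ∈ range (J - l), lv P (Af P (pr (α q))) l s))
        = (c2 P * |ε| ^ P * cl P) * ∑ s ∈ range (J - l), lv P (Af P (pr (α q))) l s := by ring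
    rw [e, ENNReal.ofReal_mul (by positivity)]
    gcongr
    exact lvsum_le _ _ _
  · exact mul_nonneg hc2 (sum_nonneg fun _ _ => pw_nonneg _ _)
  · have : 0 ≤ ∑ s ∈ range (J - l), lv P (Af P (pr (α q))) l s := sum_nonneg fun _ _ => lv_nonneg _ _ _
    positivity

lemma TTA_le (hP : 1 < P) (σ : ℕ × ℕ × ℕ ≃ ℕ) (α : ℕ → ℕ → ℝ) (β : ℕ → ℕ → ℕ → ℝ) :
    ∑' q, TT P (Af P (pr (α q))) ≤ ENNReal.ofReal (c4 P) * YS P σ α β := by
  rw [YS_eq, ← ENNReal.tsum_mul_left]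
  apply ENNReal.tsum_le_tsum
  intro q
  exact TT_le _ _ (c4_nonneg hP) (fun j => bsA_le hP _ _ j)

lemma sum_Nq_le (hP : 1 < P) (hε : c2 P * |ε| ^ P * cl P * c4 P ≤ 1 / 2)
    (σ : ℕ × ℕ × ℕ ≃ ℕ) (α : ℕ → ℕ → ℝ) (β : ℕ → ℕ → ℕ → ℝ) {J : ℕ}
    (l : ℕ → ℕ) (hl : ∀ q, l q ≤ J) :
    ∑' q, Nq P ε σ α β (l q) q ≤ ENNReal.ofReal (c2 P) * NT P ε σ α β J +
      ENNReal.ofReal (1 / 2) * YS P σ α β := by
  have h0 : 0 ≤ |ε| ^ P := Real.rpow_nonneg (abs_nonneg _) _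
  have hcl := cl_nonneg hP
  have hc2 := (c2_pos P).le
  calc ∑' q, Nq P ε σ α β (l q) q
      ≤ ∑' q, (ENNReal.ofReal (c2 P) * Nq P ε σ α β J q +
      ENNReal.ofReal (c2 P * |ε| ^ P * cl P) * TT P (Af P (pr (α q)))) :=
        ENNReal.tsum_le_tsum fun q => Nq_le hP σ α β (hl q) q
    _ = ENNReal.ofReal (c2 P) * NT P ε σ α β J +
      ENNReal.ofReal (c2 P * |ε| ^ P * cl P) * ∑' q, TT P (Af P (pr (α q))) := by
        rw [ENNReal.tsum_add, ENNReal.tsum_mul_left, ENNReal.tsum_mul_left]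
        rfl
    _ ≤ ENNReal.ofReal (c2 P) * NT P ε σ α β J +
      ENNReal.ofReal (c2 P * |ε| ^ P * cl P) * (ENNReal.ofReal (c4 P) * YS P σ α β) := by
        gcongr
        exact TTA_le hP σ α β
    _ ≤ _ := by
        refine add_le_add le_rfl ?_
        rw [← mul_assoc, ← ENNReal.ofReal_mul (by positivity)]
        exact mul_le_mul_left (ENNReal.ofReal_le_ofReal hε) _

lemma YS_le_NN (hP : 1 < P) (hε : c2 P * |ε| ^ P * cl P * c4 P ≤ 1 / 2)
    (σ : ℕ × ℕ × ℕ ≃ ℕ) (α : ℕ → ℕ → ℝ) (β : ℕ → ℕ → ℕ → ℝ) (J : ℕ) (hfin : YS P σ α β ≠ ∞) :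
    YS P σ α β ≤ ENNReal.ofReal (2 * c2 P) * NT P ε σ α β J := by
  have h1 := sum_Nq_le hP hε σ α β (J := J) (fun _ => 0) (fun _ => Nat.zero_le _)
  have h2 : ∑' q, Nq P ε σ α β 0 q = YS P σ α β := by
    unfold YS
    congr 1
    funext q
    unfold Nq Hv ep
    rw [L_zero, sum_singleton, Hm_one _ _ le_rfl]
  rw [h2] at h1
  by_cases hN : NT P ε σ α β J = ∞
  · rw [hN, ENNReal.mul_top]
    · exact le_top
    · have := c2_pos P
      rw [ne_eq, ENNReal.ofReal_eq_zero, not_le]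
      positivity
  · have h3 : (YS P σ α β).toReal ≤ c2 P * (NT P ε σ α β J).toReal + 1 / 2 * (YS P σ α β).toReal := by
      have h4 := ENNReal.toReal_mono (by
        apply ENNReal.add_ne_top.2
        exact ⟨ENNReal.mul_ne_top ENNReal.ofReal_ne_top hN, ENNReal.mul_ne_top ENNReal.ofReal_ne_top hfin⟩) h1
      rw [ENNReal.toReal_add (ENNReal.mul_ne_top ENNReal.ofReal_ne_top hN)
        (ENNReal.mul_ne_top ENNReal.ofReal_ne_top hfin), ENNReal.toReal_mul, ENNReal.toReal_mul,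
        ENNReal.toReal_ofReal (c2_pos P).le, ENNReal.toReal_ofReal (by norm_num)] at h4
      exact h4
    have h5 : (YS P σ α β).toReal ≤ 2 * c2 P * (NT P ε σ α β J).toReal := by linarith
    rw [← ENNReal.ofReal_toReal hfin, ← ENNReal.ofReal_toReal hN]
    exact ofReal_le_mul (mul_nonneg (by norm_num) (c2_pos P).le) h5

lemma sum_Nq_le' (hP : 1 < P) (hε : c2 P * |ε| ^ P * cl P * c4 P ≤ 1 / 2)
    (σ : ℕ × ℕ × ℕ ≃ ℕ) (α : ℕ → ℕ → ℝ) (β : ℕ → ℕ → ℕ → ℝ) {J : ℕ} (hfin : YS P σ α β ≠ ∞)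
    (l : ℕ → ℕ) (hl : ∀ q, l q ≤ J) :
    ∑' q, Nq P ε σ α β (l q) q ≤ ENNReal.ofReal (2 * c2 P) * NT P ε σ α β J := by
  have hc2 := c2_pos P
  refine (sum_Nq_le hP hε σ α β l hl).trans ?_
  have h1 := YS_le_NN hP hε σ α β J hfin
  calc ENNReal.ofReal (c2 P) * NT P ε σ α β J + ENNReal.ofReal (1 / 2) * YS P σ α β
      ≤ ENNReal.ofReal (c2 P) * NT P ε σ α β J + ENNReal.ofReal (1 / 2) *
        (ENNReal.ofReal (2 * c2 P) * NT P ε σ α β J) := by gcongr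
    _ = ENNReal.ofReal (2 * c2 P) * NT P ε σ α β J := by
        rw [← mul_assoc, ← ENNReal.ofReal_mul (by norm_num), ← add_mul,
          ← ENNReal.ofReal_add (by positivity) (by positivity)]
        congr 2
        ring

lemma pr_cut (κ : ℕ) (α : ℕ → ℝ) : pr (cut (2 * κ) α) = cut κ (pr α) := by
  funext k
  unfold pr cut
  by_cases hk : k < κ
  · rw [if_pos (by omega), if_pos (by omega), if_pos hk]
  · rw [if_neg (by omega), if_neg (by omega), if_neg hk, add_zero]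

/-- constant -/
noncomputable def c5 (P : ℝ) : ℝ := c2 P * (cW P * c4 P + cB P * (2 * c3 P))

lemma c5_nonneg (hP : 1 < P) : 0 ≤ c5 P := by
  have := cB_nonneg hP
  have := c3_nonneg hP
  have := c4_nonneg hP
  have := c2_pos P
  have := one_le_cW hP
  unfold c5
  positivity

lemma lv_mono (hP : 1 < P) (g g' : ℕ → ℕ → ℝ) (h : ∀ i h, g' i h = g i h ∨ g' i h = 0) (l m : ℕ) :
    lv P g' l m ≤ lv P g l m := by
  unfold lv
  apply sum_le_sum
  intro i _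
  rcases h i m with h | h
  · rw [h]
  · rw [h, pw_zero hP]; exact pw_nonneg _ _

lemma YS_cut_le (hP : 1 < P) (σ : ℕ × ℕ × ℕ ≃ ℕ) (α : ℕ → ℕ → ℝ) (β β' : ℕ → ℕ → ℕ → ℝ)
    (κ : ℕ → ℕ) (hβ : ∀ q i h, β' q i h = β q i h ∨ β' q i h = 0) :
    YS P σ (fun q => cut (2 * κ q) (α q)) β' ≤ ENNReal.ofReal (c5 P) * YS P σ α β := by
  rw [YS_eq, YS_eq, ← ENNReal.tsum_mul_left]
  apply ENNReal.tsum_le_tsum
  intro q
  apply TT_le _ _ (c5_nonneg hP)
  intro j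
  rw [pr_cut]
  have h1 := bsy_le hP (cut (κ q) (pr (α q))) (β' q) j
  have h2 := bsA_cut_le hP (κ q) (pr (α q)) j
  have h3 := bsA_le hP (pr (α q)) (β q) j
  have h4 : bsb P (β' q) j ≤ bsb P (β q) j := by
    unfold bsb
    exact sum_le_sum fun l _ => lv_mono hP _ _ (hβ q) _ _
  have h5 := bsb_le hP (pr (α q)) (β q) j
  have hcB := cB_nonneg hP
  have hcW : 0 ≤ cW P := by have := one_le_cW hP; linarith
  have hc2 := c2_pos P
  calc bs P (ym P (cut (κ q) (pr (α q))) (β' q)) j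
      ≤ c2 P * (bs P (Af P (cut (κ q) (pr (α q)))) j + cB P * bsb P (β' q) j) := h1
    _ ≤ c2 P * (cW P * (c4 P * bs P (ym P (pr (α q)) (β q)) j)
        + cB P * (2 * c3 P * bs P (ym P (pr (α q)) (β q)) j)) := by
        apply mul_le_mul_of_nonneg_left _ hc2.le
        apply add_le_add
        · exact h2.trans (mul_le_mul_of_nonneg_left h3 hcW)
        · exact mul_le_mul_of_nonneg_left (h4.trans h5) hcB
    _ = _ := by unfold c5; ring

lemma Hm_zero_level (hP : 1 < P) (Y : ℝ) (α : ℕ → ℝ) (l : ℕ) :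
    ∑ i ∈ L l, pw P (Hm P ε 0 α i) ≤ c2 P * (∑ i ∈ L l, pw P (Hm P ε Y α i) + pw P Y) := by
  have h1 : ∀ i, Hm P ε 0 α i = Hm P ε Y α i - Hm P ε Y (fun _ => 0) i := by
    intro i
    have h := Hm_add (P := P) (ε := ε) 0 Y α (fun _ => 0) i
    simp only [zero_add, add_zero] at h
    rw [show (fun k => α k) = α from rfl] at h
    rw [h]; ring
  have h2 := level_zero (ε := ε) hP Y l
  rw [← h2, ← sum_add_distrib, mul_sum]
  apply sum_le_sum
  intro i _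
  rw [h1]
  exact pw_sub hP _ _

lemma cut_q_le (hP : 1 < P) (σ : ℕ × ℕ × ℕ ≃ ℕ) (α : ℕ → ℕ → ℝ) (β β' : ℕ → ℕ → ℕ → ℝ)
    (κ : ℕ → ℕ) (J q : ℕ) : ∃ l ≤ J, ∃ l' ≤ J,
    Nq P ε σ (fun q => cut (2 * κ q) (α q)) β' J q ≤
      ENNReal.ofReal (c2 P) * (ep P (Yv P σ (fun q => cut (2 * κ q) (α q)) β' q) +
        ENNReal.ofReal (c2 P) * (Nq P ε σ α β l q + Nq P ε σ α β l' q
          + 2 * ep P (Yv P σ α β q))) := by
  obtain ⟨l, hl, l', hl', h⟩ := cut_level (ε := ε) hP (2 * κ q) (α q) J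
  refine ⟨l, hl, l', hl', ?_⟩
  set Y' := Yv P σ (fun q => cut (2 * κ q) (α q)) β' q with hY'
  set Y := Yv P σ α β q with hY
  have hc2 := c2_pos P
  have h1 : ∑ i ∈ L J, pw P (Hm P ε Y' (cut (2 * κ q) (α q)) i) ≤
      c2 P * (pw P Y' + ∑ i ∈ L J, pw P (Hm P ε 0 (cut (2 * κ q) (α q)) i)) := by
    have h2 := level_zero (ε := ε) hP Y' J
    rw [← h2, ← sum_add_distrib, mul_sum]
    apply sum_le_sum
    intro i _
    have h3 := Hm_add (P := P) (ε := ε) Y' 0 (fun _ => 0) (cut (2 * κ q) (α q)) i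
    simp only [zero_add, add_zero] at h3
    rw [show (fun k => cut (2 * κ q) (α q) k) = cut (2 * κ q) (α q) from rfl] at h3
    rw [h3]
    exact pw_add hP _ _
  have h4 := Hm_zero_level (ε := ε) hP Y (α q) l
  have h5 := Hm_zero_level (ε := ε) hP Y (α q) l'
  set N1 := ∑ i ∈ L l, pw P (Hm P ε Y (α q) i) with hN1
  set N2 := ∑ i ∈ L l', pw P (Hm P ε Y (α q) i) with hN2
  have hN1' : 0 ≤ N1 := sum_nonneg fun _ _ => pw_nonneg _ _
  have hN2' : 0 ≤ N2 := sum_nonneg fun _ _ => pw_nonneg _ _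
  have hY0 := pw_nonneg P Y
  have hY0' := pw_nonneg P Y'
  have h6 : ∑ i ∈ L J, pw P (Hm P ε Y' (cut (2 * κ q) (α q)) i) ≤
      c2 P * (pw P Y' + c2 P * (N1 + N2 + 2 * pw P Y)) := by
    refine h1.trans (mul_le_mul_of_nonneg_left ?_ hc2.le)
    linarith
  unfold Nq Hv ep
  refine (ENNReal.ofReal_le_ofReal h6).trans (le_of_eq ?_)
  rw [ENNReal.ofReal_mul hc2.le, ENNReal.ofReal_add hY0' (by positivity), ENNReal.ofReal_mul hc2.le,
    ENNReal.ofReal_add (by positivity) (by positivity), ENNReal.ofReal_add hN1' hN2',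
    ENNReal.ofReal_mul (by norm_num)]
  norm_num
  rfl

/-- constant -/
noncomputable def c6 (P : ℝ) : ℝ :=
  c2 P * (c5 P * (2 * c2 P) + c2 P * (2 * c2 P + 2 * c2 P + 2 * (2 * c2 P)))

lemma c6_nonneg (hP : 1 < P) : 0 ≤ c6 P := by
  have := c5_nonneg hP
  have := c2_pos P
  unfold c6
  positivity

lemma NN_cut_le (hP : 1 < P) (hε : c2 P * |ε| ^ P * cl P * c4 P ≤ 1 / 2)
    (σ : ℕ × ℕ × ℕ ≃ ℕ) (α : ℕ → ℕ → ℝ) (β β' : ℕ → ℕ → ℕ → ℝ) {J : ℕ} (hfin : YS P σ α β ≠ ∞)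
    (κ : ℕ → ℕ) (hβ : ∀ q i h, β' q i h = β q i h ∨ β' q i h = 0) :
    NT P ε σ (fun q => cut (2 * κ q) (α q)) β' J ≤ ENNReal.ofReal (c6 P) * NT P ε σ α β J := by
  have hc2 := c2_pos P
  have hc5 := c5_nonneg hP
  choose l hl l' hl' h using fun q => cut_q_le (ε := ε) hP σ α β β' κ J q
  set N := NT P ε σ α β J with hN
  have h1 := sum_Nq_le' hP hε σ α β hfin l hl
  have h2 := sum_Nq_le' hP hε σ α β hfin l' hl'
  have h3 := YS_le_NN hP hε σ α β J hfin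
  have h4 := YS_cut_le hP σ α β β' κ hβ
  calc NT P ε σ (fun q => cut (2 * κ q) (α q)) β' J
      ≤ ∑' q, (ENNReal.ofReal (c2 P) * (ep P (Yv P σ (fun q => cut (2 * κ q) (α q)) β' q) +
        ENNReal.ofReal (c2 P) * (Nq P ε σ α β (l q) q + Nq P ε σ α β (l' q) q
          + 2 * ep P (Yv P σ α β q)))) := ENNReal.tsum_le_tsum h
    _ = ENNReal.ofReal (c2 P) * (YS P σ (fun q => cut (2 * κ q) (α q)) β' +
        ENNReal.ofReal (c2 P) * (∑' q, Nq P ε σ α β (l q) q + ∑' q, Nq P ε σ α β (l' q) q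
          + 2 * YS P σ α β)) := by
        rw [ENNReal.tsum_mul_left, ENNReal.tsum_add, ENNReal.tsum_mul_left, ENNReal.tsum_add,
          ENNReal.tsum_add, ENNReal.tsum_mul_left]
        rfl
    _ ≤ ENNReal.ofReal (c2 P) * (ENNReal.ofReal (c5 P) * (ENNReal.ofReal (2 * c2 P) * N) +
        ENNReal.ofReal (c2 P) * (ENNReal.ofReal (2 * c2 P) * N + ENNReal.ofReal (2 * c2 P) * N
          + 2 * (ENNReal.ofReal (2 * c2 P) * N))) := by
        gcongr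
        exact h4.trans (mul_le_mul_right h3 _)
    _ = ENNReal.ofReal (c6 P) * N := by
        have e2 : (2 : ℝ≥0∞) = ENNReal.ofReal 2 := by norm_num
        rw [e2, ← mul_assoc, ← mul_assoc (ENNReal.ofReal 2), ← add_mul, ← add_mul, ← mul_assoc,
          ← add_mul, ← mul_assoc]
        congr 1
        unfold c6
        rw [ENNReal.ofReal_mul hc2.le, ENNReal.ofReal_add (by positivity) (by positivity),
          ENNReal.ofReal_mul hc5, ENNReal.ofReal_mul hc2.le,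
          ENNReal.ofReal_add (by positivity) (by positivity),
          ENNReal.ofReal_add (by positivity) (by positivity), ENNReal.ofReal_mul (by norm_num) (p := 2) (q := 2 * c2 P)]

end Pool.Agent.H75R3.NN
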