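import Pool.Agent.H75R3.NN3

set_option autoImplicit false
set_option linter.ambiguousOpen false

open _root_.H75R3 (L mem_L L_pos L_child L_parent L_zero sum_L_succ card_L)

namespace Pool.Agent.H75R3.NN

open Finset
open scoped ENNReal

variable {P ε : ℝ}

lemma mem_L_log {i : ℕ} (hi : 1 ≤ i) : i ∈ L (Nat.log 2 i) := by
  rw [mem_L]
  exact ⟨Nat.pow_log_le_self 2 (by omega), Nat.lt_pow_succ_log_self (by norm_num) i⟩

lemma level_single (σ : ℕ × ℕ × ℕ ≃ ℕ) (hP : 1 < P) (hε : c2 P * |ε| ^ P * cl P * c4 P ≤ 1 / 2)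
    (α : ℕ → ℕ → ℝ) (β : ℕ → ℕ → ℕ → ℝ) {J l : ℕ} (hfin : YS P σ α β ≠ ∞) (hl : l ≤ J) (q : ℕ) {i : ℕ}
    (hi : i ∈ L l) :
    ep P (Hv P ε σ α β q i) ≤ ENNReal.ofReal (2 * c2 P) * NT P ε σ α β J := by
  refine le_trans ?_ (sum_Nq_le' hP hε σ α β hfin (fun _ => l) (fun _ => hl))
  refine le_trans ?_ (ENNReal.le_tsum q)
  unfold Nq ep
  apply ENNReal.ofReal_le_ofReal
  exact single_le_sum (f := fun i => pw P (Hv P ε σ α β q i)) (fun _ _ => pw_nonneg _ _) hi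

/-- bound for the coefficients `α` -/
lemma coef_alpha (hP : 1 < P) (hε : c2 P * |ε| ^ P * cl P * c4 P ≤ 1 / 2)
    (σ : ℕ × ℕ × ℕ ≃ ℕ) (α : ℕ → ℕ → ℝ) (β : ℕ → ℕ → ℕ → ℝ) {J : ℕ} (hfin : YS P σ α β ≠ ∞)
    (hα : ∀ q i, 2 ^ (J + 1) ≤ i → α q i = 0) (q : ℕ) {i : ℕ} (hi : 2 ≤ i) :
    ep P (ε * α q i) ≤ ENNReal.ofReal (c2 P * (4 * c2 P)) * NT P ε σ α β J := by
  have hc2 := c2_pos P
  by_cases hJ : 2 ^ (J + 1) ≤ i
  · rw [hα q i hJ, mul_zero]
    unfold ep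
    rw [pw_zero hP, ENNReal.ofReal_zero]
    exact bot_le
  · rw [not_le] at hJ
    have h1 := mem_L_log (i := i) (by omega)
    have hl : Nat.log 2 i ≤ J := by
      have := Nat.log_lt_of_lt_pow (by omega) hJ
      omega
    have h2 := mem_L_log (i := i / 2) (by omega)
    have hl2 : Nat.log 2 (i / 2) ≤ J := le_trans (Nat.log_mono_right (Nat.div_le_self _ _)) hl
    have h3 := level_single σ hP hε α β hfin hl q h1
    have h4 := level_single σ hP hε α β hfin hl2 q h2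
    have h5 : ε * α q i = Hv P ε σ α β q i - eta P * Hv P ε σ α β q (i / 2) := by
      unfold Hv
      rw [Hm_step _ _ hi]
      ring
    have h6 : pw P (ε * α q i) ≤ c2 P * (pw P (Hv P ε σ α β q i) + pw P (Hv P ε σ α β q (i / 2))) := by
      rw [h5]
      refine (pw_sub hP _ _).trans (mul_le_mul_of_nonneg_left ?_ hc2.le)
      have := pw_mul_le hP (c := eta P) (by rw [abs_of_pos (eta_pos P)]; exact eta_le_one hP)
        (Hv P ε σ α β q (i / 2))
      linarith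
    calc ep P (ε * α q i) ≤ ENNReal.ofReal (c2 P) * (ep P (Hv P ε σ α β q i)
          + ep P (Hv P ε σ α β q (i / 2))) := by
          unfold ep
          rw [← ENNReal.ofReal_add (pw_nonneg _ _) (pw_nonneg _ _)]
          exact ofReal_le_mul hc2.le h6
      _ ≤ ENNReal.ofReal (c2 P) * (ENNReal.ofReal (2 * c2 P) * NT P ε σ α β J +
          ENNReal.ofReal (2 * c2 P) * NT P ε σ α β J) := by gcongr
      _ = _ := by
          rw [← add_mul, ← mul_assoc, ← ENNReal.ofReal_add (by positivity) (by positivity),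
            ← ENNReal.ofReal_mul hc2.le]
          congr 2
          ring

lemma lv_single (g : ℕ → ℕ → ℝ) {i : ℕ} (hi : 1 ≤ i) (h : ℕ) :
    pw P (g i h) ≤ lv P g (Nat.log 2 i) h :=
  single_le_sum (f := fun i => pw P (g i h)) (fun _ _ => pw_nonneg _ _) (mem_L_log hi)

lemma bs_single (g : ℕ → ℕ → ℝ) (l h : ℕ) : lv P g l h ≤ bs P g (l + h) := by
  unfold bs
  have := single_le_sum (f := fun l' => lv P g l' (l + h - l'))
    (fun i _ => lv_nonneg _ _ _) (mem_range.2 (show l < l + h + 1 by omega))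
  simp only [Nat.add_sub_cancel_left] at this
  exact this

/-- bound for the coefficients `β` -/
lemma coef_beta (hP : 1 < P) (hε : c2 P * |ε| ^ P * cl P * c4 P ≤ 1 / 2)
    (σ : ℕ × ℕ × ℕ ≃ ℕ) (α : ℕ → ℕ → ℝ) (β : ℕ → ℕ → ℕ → ℝ) {J : ℕ} (hfin : YS P σ α β ≠ ∞)
    (q : ℕ) {i : ℕ} (hi : 1 ≤ i) (h : ℕ) :
    ep P (β q i h) ≤ ENNReal.ofReal (2 * c3 P * (2 * c2 P)) * NT P ε σ α β J := by
  have hc2 := c2_pos P
  have hc3 := c3_nonneg hP
  have h1 : pw P (β q i h) ≤ 2 * c3 P * bs P (ym P (pr (α q)) (β q)) (Nat.log 2 i + h + 1) := by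
    refine (lv_single _ hi h).trans ((bs_single _ _ _).trans ?_)
    rw [← bsb_succ]
    exact bsb_le hP _ _ _
  calc ep P (β q i h) ≤ ENNReal.ofReal (2 * c3 P) *
        ENNReal.ofReal (bs P (ym P (pr (α q)) (β q)) (Nat.log 2 i + h + 1)) :=
        ofReal_le_mul (by positivity) h1
    _ ≤ ENNReal.ofReal (2 * c3 P) * YS P σ α β := by
        gcongr
        rw [YS_eq]
        refine le_trans ?_ (ENNReal.le_tsum q)
        unfold TT
        exact ENNReal.le_tsum (f := fun j => ENNReal.ofReal (bs P (ym P (pr (α q)) (β q)) j)) _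
    _ ≤ ENNReal.ofReal (2 * c3 P) * (ENNReal.ofReal (2 * c2 P) * NT P ε σ α β J) := by
        gcongr
        exact YS_le_NN hP hε σ α β J hfin
    _ = _ := by
        rw [← mul_assoc, ← ENNReal.ofReal_mul (by positivity)]

/-! ### finiteness -/

lemma Am_fin (a : ℕ → ℝ) (m : ℕ) (ha : ∀ k, m ≤ k → a k = 0) (h i : ℕ) (hi : m ≤ i * 2 ^ h) :
    Am P a h i = 0 := Am_zero a h i fun k hk _ => ha k (by omega)

lemma Bm_fin_h (b : ℕ → ℕ → ℝ) (m : ℕ) (hb : ∀ i h, m ≤ h → b i h = 0) (i : ℕ) :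
    ∀ h, m ≤ h → Bm P b i h = 0 := by
  induction i using Nat.strong_induction_on with
  | _ i ih =>
    intro h hh
    by_cases hi : i ≤ 1
    · exact Bm_one b hi h
    · rw [Bm, dif_neg hi, ih (i / 2) (by omega) (h + 1) (by omega), hb (i / 2) h hh]
      simp

lemma Bm_fin_i (b : ℕ → ℕ → ℝ) (m : ℕ) (hb : ∀ i h, m ≤ i ∨ m ≤ h → b i h = 0) (n : ℕ) :
    ∀ i h, m ≤ h + n → m * 2 ^ n ≤ i → Bm P b i h = 0 := by
  induction n with
  | zero =>
    intro i h hh _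
    exact Bm_fin_h b m (fun i h hh => hb i h (Or.inr hh)) i h (by omega)
  | succ n ih =>
    intro i h hh hi
    by_cases h1 : i ≤ 1
    · exact Bm_one b h1 h
    · have e : m * 2 ^ (n + 1) = 2 * (m * 2 ^ n) := by ring
      have h2 : m * 2 ^ n ≤ i / 2 := by omega
      have h3 : m ≤ m * 2 ^ n := Nat.le_mul_of_pos_right _ (by positivity)
      rw [Bm, dif_neg h1, ih (i / 2) (h + 1) (by omega) h2, hb (i / 2) h (Or.inl (by omega))]
      simp

lemma Yv_fin (σ : ℕ × ℕ × ℕ ≃ ℕ) (α : ℕ → ℕ → ℝ) (β : ℕ → ℕ → ℕ → ℝ) (m : ℕ)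
    (hα : ∀ q i, m ≤ q ∨ m ≤ i → α q i = 0) (hβ : ∀ q i h, m ≤ q ∨ m ≤ i ∨ m ≤ h → β q i h = 0)
    (c : ℕ × ℕ × ℕ) (hc : m ≤ c.1 ∨ m * 2 ^ m ≤ c.2.1 ∨ m ≤ c.2.2) : Yv P σ α β (σ c) = 0 := by
  unfold Yv ym
  rw [σ.symm_apply_apply]
  have hm : m ≤ m * 2 ^ m := Nat.le_mul_of_pos_right _ (by positivity)
  have ha : ∀ k, m ≤ k → pr (α c.1) k = 0 := by
    intro k hk
    unfold pr
    rw [hα _ _ (Or.inr (by omega)), hα _ _ (Or.inr (by omega)), add_zero]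
  rcases hc with hc | hc | hc
  · have e1 : pr (α c.1) = 0 := by
      funext k
      unfold pr
      rw [hα _ _ (Or.inl hc), hα _ _ (Or.inl hc), add_zero]
      rfl
    rw [Am_zero _ _ _ (fun k _ _ => by rw [e1]; rfl),
      Bm_fin_h _ 0 (fun i h _ => hβ _ _ _ (Or.inl hc)) _ _ (Nat.zero_le _), add_zero]
  · rw [Am_fin _ m ha, Bm_fin_i (β c.1) m (fun i h hh => hβ _ _ _ (Or.inr hh)) m _ _ (by omega) (by omega),
      add_zero]
    have : 1 ≤ 2 ^ c.2.2 := Nat.one_le_two_pow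
    nlinarith
  · rw [Am_fin _ m ha, Bm_fin_h (β c.1) m (fun i h hh => hβ _ _ _ (Or.inr (Or.inr hh))) _ _ hc,
      add_zero]
    have h1 : c.2.2 < 2 ^ c.2.2 := Nat.lt_two_pow_self
    nlinarith

lemma YS_fin (σ : ℕ × ℕ × ℕ ≃ ℕ) (hP : 1 < P) (α : ℕ → ℕ → ℝ) (β : ℕ → ℕ → ℕ → ℝ) (m : ℕ)
    (hα : ∀ q i, m ≤ q ∨ m ≤ i → α q i = 0) (hβ : ∀ q i h, m ≤ q ∨ m ≤ i ∨ m ≤ h → β q i h = 0) :
    YS P σ α β ≠ ∞ := by
  unfold YS
  rw [← σ.tsum_eq]
  rw [tsum_eq_sum (s := (range m) ×ˢ ((range (m * 2 ^ m)) ×ˢ (range m)))]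
  · rw [ENNReal.sum_ne_top]
    intro c _
    exact ENNReal.ofReal_ne_top
  · intro c hc
    rw [mem_product, mem_product, mem_range, mem_range, mem_range] at hc
    rw [Yv_fin σ α β m hα hβ c (by
      by_contra hcon
      push Not at hcon
      exact hc ⟨by omega, by omega, by omega⟩)]
    unfold ep
    rw [pw_zero hP, ENNReal.ofReal_zero]

lemma NT_fin (σ : ℕ × ℕ × ℕ ≃ ℕ) (hP : 1 < P) (α : ℕ → ℕ → ℝ) (β : ℕ → ℕ → ℕ → ℝ) (m J : ℕ)
    (hα : ∀ q i, m ≤ q ∨ m ≤ i → α q i = 0) (hβ : ∀ q i h, m ≤ q ∨ m ≤ i ∨ m ≤ h → β q i h = 0) :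
    NT P ε σ α β J ≠ ∞ := by
  have hc2 := c2_pos P
  have h1 : ∀ q, Nq P ε σ α β J q ≤ ENNReal.ofReal (c2 P) * (ep P (Yv P σ α β q) +
      ENNReal.ofReal (∑ i ∈ L J, pw P (Hm P ε 0 (α q) i))) := by
    intro q
    unfold Nq ep Hv
    rw [← ENNReal.ofReal_add (pw_nonneg _ _) (sum_nonneg fun _ _ => pw_nonneg _ _)]
    apply ofReal_le_mul hc2.le
    have h2 := level_zero (ε := ε) hP (Yv P σ α β q) J
    rw [← h2, ← sum_add_distrib, mul_sum]
    apply sum_le_sum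
    intro i _
    have h3 := Hm_add (P := P) (ε := ε) (Yv P σ α β q) 0 (fun _ => 0) (α q) i
    simp only [zero_add, add_zero] at h3
    rw [show (fun k => α q k) = α q from rfl] at h3
    rw [h3]
    exact pw_add hP _ _
  have h2 : NT P ε σ α β J ≤ ENNReal.ofReal (c2 P) * (YS P σ α β +
      ∑' q, ENNReal.ofReal (∑ i ∈ L J, pw P (Hm P ε 0 (α q) i))) := by
    unfold NT YS
    rw [← ENNReal.tsum_add, ← ENNReal.tsum_mul_left]
    exact ENNReal.tsum_le_tsum h1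
  refine ne_top_of_le_ne_top ?_ h2
  apply ENNReal.mul_ne_top ENNReal.ofReal_ne_top
  apply ENNReal.add_ne_top.2
  refine ⟨YS_fin σ hP α β m hα hβ, ?_⟩
  rw [tsum_eq_sum (s := range m)]
  · rw [ENNReal.sum_ne_top]
    intro c _
    exact ENNReal.ofReal_ne_top
  · intro q hq
    rw [mem_range, not_lt] at hq
    have e : α q = fun _ => 0 := by
      funext i
      exact hα q i (Or.inl hq)
    rw [e, level_zero hP, pw_zero hP, ENNReal.ofReal_zero]

/-! ### prescribing the means -/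

lemma exists_data (y : ℕ → ℕ → ℝ) (m : ℕ) (hy : ∀ i h, m ≤ i ∨ m ≤ h → y i h = 0) :
    ∃ (a : ℕ → ℝ) (b : ℕ → ℕ → ℝ) (M : ℕ), (∀ k, M ≤ k → a k = 0) ∧
      (∀ i h, M ≤ i ∨ M ≤ h → b i h = 0) ∧ ∀ i h, 1 ≤ i → ym P a b i h = y i h := by
  set b : ℕ → ℕ → ℝ := fun i h => lam P * (y (2 * i) h + y (2 * i + 1) h) - y i (h + 1) with hb
  set a : ℕ → ℝ := fun k => y k 0 - Bm P b k 0 with ha
  have hb0 : ∀ i h, m ≤ i ∨ m ≤ h → b i h = 0 := by
    intro i h hh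
    rw [hb]
    dsimp only
    rw [hy (2 * i) h (by omega), hy (2 * i + 1) h (by omega), hy i (h + 1) (by omega)]
    ring
  have hm : m ≤ m * 2 ^ m := Nat.le_mul_of_pos_right _ (by positivity)
  refine ⟨a, b, m * 2 ^ m, ?_, ?_, ?_⟩
  · intro k hk
    rw [ha]
    dsimp only
    rw [hy k 0 (by omega), Bm_fin_i b m hb0 m k 0 (by omega) hk]
    ring
  · intro i h hh
    exact hb0 i h (by omega)
  · intro i h hi
    unfold ym
    induction h generalizing i with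
    | zero =>
      rw [Am, ha]
      ring
    | succ h ih =>
      have h1 := ih (2 * i) (by omega)
      have h2 := ih (2 * i + 1) (by omega)
      rw [Bm_even b hi] at h1
      rw [Bm_odd b hi] at h2
      rw [Am]
      have hl := lam_pos P
      have h3 : b i h = lam P * (y (2 * i) h + y (2 * i + 1) h) - y i (h + 1) := rfl
      have h4 : lam P * ((Bm P b i (h + 1) + b i h) / (2 * lam P)) = (Bm P b i (h + 1) + b i h) / 2 := by
        field_simp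
      rw [← h1, ← h2] at h3
      linear_combination (-1 : ℝ) * h3 - 2 * h4

end Pool.Agent.H75R3.NN
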