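import Mathlib

set_option autoImplicit false

namespace Pool.Agent.H75R3.NN

open Finset Filter Topology

variable {X : Type*} [NormedAddCommGroup X] [NormedSpace ℝ X]

/-- Coefficient functionals of a sequence satisfying coefficient bounds. -/
lemma exists_coord (e : ℕ → X) (D : ℝ)
    (hD : ∀ (N : ℕ) (c : ℕ → ℝ), ∀ n < N, |c n| ≤ D * ‖∑ k ∈ range N, c k • e k‖) :
    ∃ f : ℕ → StrongDual ℝ X, ∀ i j, f i (e j) = if i = j then 1 else 0 := by
  have hli : LinearIndependent ℝ e := by
    rw [linearIndependent_iff']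
    intro s g hg i hi
    obtain ⟨N, hN⟩ : ∃ N, s ⊆ range N := ⟨s.sup id + 1, fun j hj => by
      rw [mem_range]
      have := Finset.le_sup (f := id) hj
      simp only [id] at this
      omega⟩
    have h1 := hD N (fun k => if k ∈ s then g k else 0) i (mem_range.1 (hN hi))
    have h2 : ∑ k ∈ range N, (if k ∈ s then g k else 0) • e k = ∑ k ∈ s, g k • e k := by
      rw [← sum_subset hN]
      · apply sum_congr rfl
        intro k hk
        rw [if_pos hk]
      · intro k _ hk
        rw [if_neg hk, zero_smul]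
    rw [h2, hg, norm_zero, mul_zero] at h1
    simp only [if_pos hi] at h1
    exact abs_nonpos_iff.1 h1
  set B := Module.Basis.span hli with hB
  have hBe : ∀ n, ((B n : Submodule.span ℝ (Set.range e)) : X) = e n := fun n => by
    rw [hB, Module.Basis.span_apply hli n]
  have hfin : ∀ s : Submodule.span ℝ (Set.range e), ∃ N, ∀ n, N ≤ n → B.repr s n = 0 := by
    intro s
    refine ⟨(B.repr s).support.sup id + 1, fun n hn => ?_⟩
    by_contra h
    have := Finset.le_sup (f := id) (Finsupp.mem_support_iff.2 h)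
    simp only [id] at this
    omega
  have hsum : ∀ (s : Submodule.span ℝ (Set.range e)) (N : ℕ), (∀ n, N ≤ n → B.repr s n = 0) →
      (s : X) = ∑ k ∈ range N, B.repr s k • e k := by
    intro s N hN
    have h1 := B.linearCombination_repr s
    rw [Finsupp.linearCombination_apply, Finsupp.sum] at h1
    have h2 : (s : X) = ∑ k ∈ (B.repr s).support, B.repr s k • e k := by
      conv_lhs => rw [← h1]
      rw [Submodule.coe_sum]
      apply sum_congr rfl
      intro k _
      rw [Submodule.coe_smul, hBe]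
    rw [h2]
    apply sum_subset
    · intro k hk
      rw [mem_range]
      by_contra hcon
      exact (Finsupp.mem_support_iff.1 hk) (hN k (by omega))
    · intro k _ hk
      rw [Finsupp.notMem_support_iff.1 hk, zero_smul]
  have hbound : ∀ (n : ℕ) (s : Submodule.span ℝ (Set.range e)), ‖B.coord n s‖ ≤ D * ‖s‖ := by
    intro n s
    obtain ⟨N, hN⟩ := hfin s
    have hN' : ∀ k, max N (n+1) ≤ k → B.repr s k = 0 := fun k hk => hN k (le_trans (le_max_left _ _) hk)
    have h1 := hD (max N (n+1)) (fun k => B.repr s k) n (lt_of_lt_of_le (Nat.lt_succ_self n) (le_max_right _ _))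
    rw [← hsum s _ hN'] at h1
    exact h1
  have hext : ∀ n, ∃ g : StrongDual ℝ X, ∀ s : Submodule.span ℝ (Set.range e), g s = B.coord n s := by
    intro n
    obtain ⟨g, hg, _⟩ := _root_.exists_extension_norm_eq (Submodule.span ℝ (Set.range e))
      ((B.coord n).mkContinuous D (hbound n))
    exact ⟨g, fun s => by rw [hg s]; rfl⟩
  choose f hf using hext
  refine ⟨f, fun i j => ?_⟩
  rw [← hBe j, hf, Module.Basis.coord_apply, Module.Basis.repr_self, Finsupp.single_apply]
  by_cases h : i = j
  · rw [if_pos h, if_pos h.symm]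
  · rw [if_neg h, if_neg (fun h' => h h'.symm)]

/-- A criterion for Schauder bases. -/
lemma exists_schauder (e : ℕ → X) (C D E : ℝ) (hE : ∀ n, ‖e n‖ ≤ E)
    (hD : ∀ (N : ℕ) (c : ℕ → ℝ), ∀ n < N, |c n| ≤ D * ‖∑ k ∈ range N, c k • e k‖)
    (hC : ∀ (t T : ℕ) (c : ℕ → ℝ), t ≤ T →
      ‖∑ k ∈ range (3 * t), c k • e k‖ ≤ C * ‖∑ k ∈ range (3 * T), c k • e k‖)
    (hd : Dense ((Submodule.span ℝ (Set.range e) : Submodule ℝ X) : Set X)) :
    ∃ b : SchauderBasis ℝ X, ∀ n, b n = e n := by
  obtain ⟨f, hf⟩ := exists_coord e D hD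
  -- partial sums
  set S : ℕ → X →L[ℝ] X := fun n => ∑ k ∈ range n, (f k).smulRight (e k) with hS
  have hSa : ∀ n x, S n x = ∑ k ∈ range n, f k x • e k := by
    intro n x
    rw [hS]
    simp only [_root_.sum_apply]
    rfl
  have hE0 : 0 ≤ E := (norm_nonneg _).trans (hE 0)
  have hspan : ∀ x ∈ Submodule.span ℝ (Set.range e), ∃ N0, ∀ N, N0 ≤ N →
      x = ∑ k ∈ range N, f k x • e k := by
    intro x hx
    refine Submodule.span_induction ?_ ?_ ?_ ?_ hx
    · rintro _ ⟨j, rfl⟩
      refine ⟨j + 1, fun N hN => ?_⟩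
      simp only [hf, ite_smul, one_smul, zero_smul]
      rw [sum_ite_eq', if_pos (mem_range.2 (by omega))]
    · exact ⟨0, fun N _ => by simp⟩
    · rintro a b _ _ ⟨N1, h1⟩ ⟨N2, h2⟩
      refine ⟨max N1 N2, fun N hN => ?_⟩
      simp only [map_add, add_smul, sum_add_distrib]
      rw [← h1 N (le_trans (le_max_left _ _) hN), ← h2 N (le_trans (le_max_right _ _) hN)]
    · rintro r a _ ⟨N1, h1⟩
      refine ⟨N1, fun N hN => ?_⟩
      simp only [map_smul, smul_eq_mul, mul_smul]
      rw [← smul_sum, ← h1 N hN]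
  -- uniform bound on the span
  set M := |C| + 2 * (|D| * E) with hM
  have hM0 : 0 ≤ M := by positivity
  have hb1 : ∀ x ∈ Submodule.span ℝ (Set.range e), ∀ n, ‖S n x‖ ≤ M * ‖x‖ := by
    intro x hx n
    obtain ⟨N0, hN0⟩ := hspan x hx
    set T := max N0 (n + 1) with hT
    have hx1 : x = ∑ k ∈ range (3 * T), f k x • e k := hN0 _ (by
      have := le_max_left N0 (n+1); omega)
    have hcoef : ∀ k < 3 * T, |f k x| ≤ |D| * ‖x‖ := by
      intro k hk
      have h := hD (3 * T) (fun k => f k x) k hk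
      rw [← hx1] at h
      exact h.trans (mul_le_mul_of_nonneg_right (le_abs_self D) (norm_nonneg _))
    have ht : n / 3 ≤ T := by
      have := le_max_right N0 (n+1); omega
    have h1 := hC (n / 3) T (fun k => f k x) ht
    rw [← hx1] at h1
    have h1' : ‖∑ k ∈ range (3 * (n / 3)), f k x • e k‖ ≤ |C| * ‖x‖ :=
      h1.trans (mul_le_mul_of_nonneg_right (le_abs_self C) (norm_nonneg _))
    have hterm : ∀ k < 3 * T, ‖f k x • e k‖ ≤ |D| * E * ‖x‖ := by
      intro k hk
      rw [norm_smul, Real.norm_eq_abs]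
      calc |f k x| * ‖e k‖ ≤ (|D| * ‖x‖) * E :=
            mul_le_mul (hcoef k hk) (hE k) (norm_nonneg _) (by positivity)
        _ = _ := by ring
    have hlt : n < 3 * T := by
      have := le_max_right N0 (n+1); omega
    rw [hSa]
    have hn : n = 3 * (n / 3) ∨ n = 3 * (n / 3) + 1 ∨ n = 3 * (n / 3) + 1 + 1 := by omega
    have hnn : 0 ≤ |D| * E * ‖x‖ := by positivity
    rcases hn with hn | hn | hn
    · rw [hn]
      refine h1'.trans ?_
      rw [hM]
      nlinarith
    · rw [hn, sum_range_succ]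
      refine (norm_add_le _ _).trans ?_
      have := hterm (3 * (n / 3)) (by omega)
      rw [hM]
      nlinarith
    · rw [hn, sum_range_succ, sum_range_succ]
      refine (norm_add_le _ _).trans ?_
      have h2 := norm_add_le (∑ k ∈ range (3 * (n / 3)), f k x • e k)
        (f (3 * (n / 3)) x • e (3 * (n / 3)))
      have := hterm (3 * (n / 3)) (by omega)
      have := hterm (3 * (n / 3) + 1) (by omega)
      rw [hM]
      nlinarith
  have hb2 : ∀ x n, ‖S n x‖ ≤ M * ‖x‖ := by
    intro x n
    have hcl : IsClosed {x : X | ‖S n x‖ ≤ M * ‖x‖} :=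
      isClosed_le (S n).continuous.norm (continuous_const.mul continuous_norm)
    exact closure_minimal (fun x hx => hb1 x hx n) hcl (hd x)
  have hconv : ∀ x, Tendsto (fun n => ∑ k ∈ range n, f k x • e k) atTop (𝓝 x) := by
    intro x
    rw [Metric.tendsto_atTop]
    intro r hr
    obtain ⟨y, hy, hxy⟩ := Metric.mem_closure_iff.1 (hd x) (r / (M + 1)) (by positivity)
    obtain ⟨N0, hN0⟩ := hspan y hy
    refine ⟨N0, fun n hn => ?_⟩
    rw [← hSa]
    have h1 : S n x - x = S n (x - y) - (x - y) := by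
      rw [map_sub, hSa n y, ← hN0 n hn]; abel
    rw [dist_eq_norm, h1]
    rw [dist_eq_norm] at hxy
    have h2 := hb2 (x - y) n
    calc ‖S n (x - y) - (x - y)‖ ≤ ‖S n (x - y)‖ + ‖x - y‖ := norm_sub_le _ _
      _ ≤ (M + 1) * ‖x - y‖ := by linarith
      _ < (M + 1) * (r / (M + 1)) := mul_lt_mul_of_pos_left hxy (by positivity)
      _ = r := by field_simp
  refine ⟨{ basis := e, coord := f, ortho := ?_, expansion := ?_ }, fun n => rfl⟩
  · intro i j
    rw [hf]
    by_cases h : i = j
    · subst h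
      simp
    · rw [if_neg h]
      simp [Pi.single_apply, h]
  · intro x
    have := hconv x
    rw [HasSum, SummationFilter.conditional_filter_eq_map_range, tendsto_map'_iff]
    exact this

end Pool.Agent.H75R3.NN
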