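import Pool.Agent.H75R3.NN4
import Pool.Agent.H75R3.HaarFn

set_option autoImplicit false
set_option linter.ambiguousOpen false

open _root_.H75R3 (L mem_L L_pos L_child L_parent L_zero sum_L_succ card_L nd nd_mem nd_half nd_meas
  vol_nd)

namespace Pool.Agent.H75R3.NN

open Finset MeasureTheory
open scoped ENNReal

variable {P ε : ℝ}

/-- index of the unit interval containing `x` -/
noncomputable def Qx (x : ℝ) : ℕ := Equiv.intEquivNat ⌊x⌋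

lemma Qx_meas : Measurable Qx := measurable_from_top.comp Int.measurable_floor

lemma cell_meas (J q i : ℕ) : MeasurableSet {x : ℝ | Qx x = q ∧ nd J x = i} :=
  (Qx_meas (measurableSet_singleton q)).inter (nd_meas J (measurableSet_singleton i))

lemma nd_sub_int (J : ℕ) (x : ℝ) (z : ℤ) : nd J (x - z) = nd J x := by
  unfold _root_.H75R3.nd
  rw [Int.fract_sub_intCast]

lemma vol_cell (J q : ℕ) {i : ℕ} (hi : i ∈ L J) :
    volume {x : ℝ | Qx x = q ∧ nd J x = i} = ENNReal.ofReal ((2 ^ J)⁻¹) := by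
  set z : ℤ := Equiv.intEquivNat.symm q with hz
  have h1 : {x : ℝ | Qx x = q ∧ nd J x = i} =
      (fun x : ℝ => x - z) ⁻¹' ({t : ℝ | nd J t = i} ∩ Set.Ico (0:ℝ) 1) := by
    ext x
    simp only [Set.mem_ofPred_eq, Set.mem_preimage, Set.mem_inter_iff, Set.mem_Ico, nd_sub_int]
    unfold Qx
    rw [and_comm]
    have h2 : Equiv.intEquivNat ⌊x⌋ = q ↔ ⌊x⌋ = z := by
      rw [hz, Equiv.eq_symm_apply]
    rw [h2, Int.floor_eq_iff]
    constructor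
    · rintro ⟨h3, h4, h5⟩
      exact ⟨h3, by linarith, by linarith⟩
    · rintro ⟨h3, h4, h5⟩
      exact ⟨h3, by linarith, by linarith⟩
  have h4 := (measurePreserving_sub_right (volume : Measure ℝ) (z:ℝ)).measure_preimage
    (s := {t : ℝ | nd J t = i} ∩ Set.Ico (0:ℝ) 1)
    (((nd_meas J (measurableSet_singleton i)).inter measurableSet_Ico).nullMeasurableSet)
  rw [h1, h4]
  have h3 := vol_nd J i hi
  have h5 : MeasurableSet {t : ℝ | nd J t = i} := nd_meas J (measurableSet_singleton i)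
  rw [Measure.restrict_apply h5] at h3
  exact h3

lemma vol_cell_zero (J q : ℕ) {i : ℕ} (hi : i ∉ L J) :
    volume {x : ℝ | Qx x = q ∧ nd J x = i} = 0 := by
  have : {x : ℝ | Qx x = q ∧ nd J x = i} = ∅ := by
    ext x
    simp only [Set.mem_ofPred_eq, Set.mem_empty_iff_false, iff_false, not_and]
    intro _ h
    exact hi (h ▸ nd_mem J x)
  rw [this, measure_empty]

lemma lint_cells (J : ℕ) (g : ℕ → ℕ → ℝ≥0∞) :
    ∫⁻ x : ℝ, g (Qx x) (nd J x) = ∑' q, ∑ i ∈ L J, g q i * ENNReal.ofReal ((2 ^ J)⁻¹) := by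
  have hφ : Measurable (fun x : ℝ => (Qx x, nd J x)) := Qx_meas.prodMk (nd_meas J)
  have h1 : ∫⁻ x : ℝ, g (Qx x) (nd J x) =
      ∫⁻ y : ℕ × ℕ, g y.1 y.2 ∂(Measure.map (fun x : ℝ => (Qx x, nd J x)) volume) := by
    rw [lintegral_map (measurable_of_countable _) hφ]
  rw [h1, lintegral_countable', ENNReal.tsum_prod']
  congr 1
  funext q
  rw [tsum_eq_sum (s := L J)]
  · apply sum_congr rfl
    intro i hi
    rw [Measure.map_apply hφ (measurableSet_singleton _)]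
    have : (fun x : ℝ => (Qx x, nd J x)) ⁻¹' {(q, i)} = {x : ℝ | Qx x = q ∧ nd J x = i} := by
      ext x
      simp [Prod.ext_iff]
    rw [this, vol_cell J q hi]
  · intro i hi
    rw [Measure.map_apply hφ (measurableSet_singleton _)]
    have : (fun x : ℝ => (Qx x, nd J x)) ⁻¹' {(q, i)} = {x : ℝ | Qx x = q ∧ nd J x = i} := by
      ext x
      simp [Prod.ext_iff]
    rw [this, vol_cell_zero J q hi, mul_zero]

/-- the function associated with data -/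
noncomputable def fd (P ε : ℝ) (σ : ℕ × ℕ × ℕ ≃ ℕ) (α : ℕ → ℕ → ℝ) (β : ℕ → ℕ → ℕ → ℝ) (J : ℕ)
    (x : ℝ) : ℝ := (eta P ^ J)⁻¹ * Hv P ε σ α β (Qx x) (nd J x)

lemma ep_mul (P c x : ℝ) : ep P (c * x) = ENNReal.ofReal (|c| ^ P) * ep P x := by
  unfold ep
  rw [pw_mul, ENNReal.ofReal_mul (Real.rpow_nonneg (abs_nonneg _) _)]

lemma eta_inv_rpow (hP : 1 < P) (J : ℕ) : |(eta P ^ J)⁻¹| ^ P = 2 ^ J := by
  have h := eta_pos P
  rw [abs_of_pos (by positivity), Real.inv_rpow (by positivity), ← Real.rpow_natCast,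
    ← Real.rpow_mul h.le, mul_comm, Real.rpow_mul h.le, eta_rpow hP, Real.rpow_natCast]
  rw [← inv_pow]
  norm_num

lemma lint_fd (hP : 1 < P) (σ : ℕ × ℕ × ℕ ≃ ℕ) (α : ℕ → ℕ → ℝ) (β : ℕ → ℕ → ℕ → ℝ) (J : ℕ) :
    ∫⁻ x : ℝ, ep P (fd P ε σ α β J x) = NT P ε σ α β J := by
  unfold fd
  have h1 := lint_cells J (fun q i => ep P ((eta P ^ J)⁻¹ * Hv P ε σ α β q i))
  rw [h1]
  unfold NT Nq
  congr 1
  funext q
  rw [ENNReal.ofReal_sum_of_nonneg (fun _ _ => pw_nonneg _ _)]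
  apply sum_congr rfl
  intro i _
  rw [ep_mul, eta_inv_rpow hP, mul_right_comm, ← ENNReal.ofReal_mul (by positivity)]
  have : (2:ℝ) ^ J * (2 ^ J)⁻¹ = 1 := by
    apply mul_inv_cancel₀; positivity
  rw [this, ENNReal.ofReal_one, one_mul]
  rfl

lemma fd_meas (σ : ℕ × ℕ × ℕ ≃ ℕ) (α : ℕ → ℕ → ℝ) (β : ℕ → ℕ → ℕ → ℝ) (J : ℕ) :
    Measurable (fd P ε σ α β J) := by
  unfold fd
  apply Measurable.const_mul
  have h : Measurable (fun y : ℕ × ℕ => Hv P ε σ α β y.1 y.2) := measurable_of_countable _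
  exact h.comp (Qx_meas.prodMk (nd_meas J))

lemma eLp_eq {p : ℝ≥0∞} (h0 : p ≠ 0) (ht : p ≠ ∞) (F : ℝ → ℝ) :
    eLpNorm F p volume = (∫⁻ x, ep p.toReal (F x)) ^ (1 / p.toReal) := by
  rw [eLpNorm_eq_lintegral_rpow_enorm_toReal h0 ht]
  congr 2
  funext x
  unfold ep pw
  rw [← ENNReal.ofReal_rpow_of_nonneg (abs_nonneg _) ENNReal.toReal_nonneg]
  rw [← Real.enorm_eq_ofReal_abs]

lemma memLp_of {p : ℝ≥0∞} (h0 : p ≠ 0) (ht : p ≠ ∞) (F : ℝ → ℝ) (hF : Measurable F)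
    (h : ∫⁻ x, ep p.toReal (F x) ≠ ∞) : MemLp F p volume := by
  refine ⟨hF.aestronglyMeasurable, ?_⟩
  rw [eLp_eq h0 ht]
  exact ENNReal.rpow_lt_top_of_nonneg (by positivity) h

lemma norm_rpow_Lp {p : ℝ≥0∞} (h0 : p ≠ 0) (ht : p ≠ ∞) (f : Lp ℝ p (volume : Measure ℝ)) (F : ℝ → ℝ)
    (hF : ∀ᵐ x, f x = F x) : ENNReal.ofReal (‖f‖ ^ p.toReal) = ∫⁻ x, ep p.toReal (F x) := by
  have hp : 0 < p.toReal := ENNReal.toReal_pos h0 ht
  have h1 : eLpNorm f p volume = eLpNorm F p volume := eLpNorm_congr_ae hF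
  have h2 : ENNReal.ofReal ‖f‖ = eLpNorm f p volume := by
    rw [Lp.norm_def, ENNReal.ofReal_toReal (Lp.eLpNorm_ne_top f)]
  have h3 : 0 ≤ ‖f‖ := by rw [Lp.norm_def]; exact ENNReal.toReal_nonneg
  rw [← ENNReal.ofReal_rpow_of_nonneg h3 hp.le, h2, h1, eLp_eq h0 ht,
    ← ENNReal.rpow_mul, one_div, inv_mul_cancel₀ hp.ne', ENNReal.rpow_one]

/-! ### linearity -/

lemma Am_add (a a' : ℕ → ℝ) (h i : ℕ) :
    Am P (fun k => a k + a' k) h i = Am P a h i + Am P a' h i := by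
  induction h generalizing i with
  | zero => rfl
  | succ h ih => rw [Am, Am, Am, ih, ih]; ring

lemma Am_smul (c : ℝ) (a : ℕ → ℝ) (h i : ℕ) :
    Am P (fun k => c * a k) h i = c * Am P a h i := by
  induction h generalizing i with
  | zero => rfl
  | succ h ih => rw [Am, Am, ih, ih]; ring

lemma Bm_step (b : ℕ → ℕ → ℝ) {i : ℕ} (hi : ¬ i ≤ 1) (h : ℕ) :
    Bm P b i h = (Bm P b (i / 2) (h + 1) + b (i / 2) h) / (2 * lam P) := by
  rw [Bm, dif_neg hi]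

lemma Bm_add (b b' : ℕ → ℕ → ℝ) (i : ℕ) : ∀ h,
    Bm P (fun i h => b i h + b' i h) i h = Bm P b i h + Bm P b' i h := by
  induction i using Nat.strong_induction_on with
  | _ i ih =>
    intro h
    by_cases hi : i ≤ 1
    · rw [Bm_one _ hi, Bm_one _ hi, Bm_one _ hi, add_zero]
    · rw [Bm_step _ hi, Bm_step _ hi, Bm_step _ hi, ih (i / 2) (by omega)]
      ring

lemma Bm_smul (c : ℝ) (b : ℕ → ℕ → ℝ) (i : ℕ) : ∀ h,
    Bm P (fun i h => c * b i h) i h = c * Bm P b i h := by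
  induction i using Nat.strong_induction_on with
  | _ i ih =>
    intro h
    by_cases hi : i ≤ 1
    · rw [Bm_one _ hi, Bm_one _ hi, mul_zero]
    · rw [Bm_step _ hi, Bm_step _ hi, ih (i / 2) (by omega)]
      ring

lemma Yv_add (σ : ℕ × ℕ × ℕ ≃ ℕ) (α α' : ℕ → ℕ → ℝ) (β β' : ℕ → ℕ → ℕ → ℝ) (n : ℕ) :
    Yv P σ (fun q i => α q i + α' q i) (fun q i h => β q i h + β' q i h) n =
      Yv P σ α β n + Yv P σ α' β' n := by
  unfold Yv ym
  have h1 : ∀ q, pr (fun i => α q i + α' q i) = fun k => pr (α q) k + pr (α' q) k := by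
    intro q; funext k; unfold pr; ring
  rw [h1, Am_add, Bm_add]
  ring

lemma Yv_smul (σ : ℕ × ℕ × ℕ ≃ ℕ) (c : ℝ) (α : ℕ → ℕ → ℝ) (β : ℕ → ℕ → ℕ → ℝ) (n : ℕ) :
    Yv P σ (fun q i => c * α q i) (fun q i h => c * β q i h) n = c * Yv P σ α β n := by
  unfold Yv ym
  have h1 : ∀ q, pr (fun i => c * α q i) = fun k => c * pr (α q) k := by
    intro q; funext k; unfold pr; ring
  rw [h1, Am_smul, Bm_smul]
  ring

lemma fd_add (σ : ℕ × ℕ × ℕ ≃ ℕ) (α α' : ℕ → ℕ → ℝ) (β β' : ℕ → ℕ → ℕ → ℝ) (J : ℕ) (x : ℝ) :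
    fd P ε σ (fun q i => α q i + α' q i) (fun q i h => β q i h + β' q i h) J x =
      fd P ε σ α β J x + fd P ε σ α' β' J x := by
  unfold fd Hv
  rw [Yv_add, Hm_add]
  ring

lemma fd_smul (σ : ℕ × ℕ × ℕ ≃ ℕ) (c : ℝ) (α : ℕ → ℕ → ℝ) (β : ℕ → ℕ → ℕ → ℝ) (J : ℕ) (x : ℝ) :
    fd P ε σ (fun q i => c * α q i) (fun q i h => c * β q i h) J x = c * fd P ε σ α β J x := by
  unfold fd Hv
  rw [Yv_smul, Hm_smul]
  ring

lemma fd_step (σ : ℕ × ℕ × ℕ ≃ ℕ) (α : ℕ → ℕ → ℝ) (β : ℕ → ℕ → ℕ → ℝ) (J : ℕ)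
    (hα : ∀ q i, 2 ^ (J + 1) ≤ i → α q i = 0) (x : ℝ) :
    fd P ε σ α β (J + 1) x = fd P ε σ α β J x := by
  unfold fd Hv
  have h1 := nd_mem (J + 1) x
  have h2 := (mem_L.1 h1).1
  have h3 : 2 ≤ nd (J + 1) x := by
    have : 2 ^ (J + 1) = 2 * 2 ^ J := by ring
    have : 1 ≤ 2 ^ J := Nat.one_le_two_pow
    omega
  rw [Hm_step _ _ h3, nd_half, hα _ _ h2]
  have h := eta_pos P
  field_simp
  ring

lemma fd_ge (σ : ℕ × ℕ × ℕ ≃ ℕ) (α : ℕ → ℕ → ℝ) (β : ℕ → ℕ → ℕ → ℝ) (J n : ℕ)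
    (hα : ∀ q i, 2 ^ (J + 1) ≤ i → α q i = 0) (x : ℝ) :
    fd P ε σ α β (J + n) x = fd P ε σ α β J x := by
  induction n with
  | zero => rfl
  | succ n ih =>
    rw [← ih, ← add_assoc]
    apply fd_step
    intro q i hi
    apply hα
    have : 2 ^ (J + 1) ≤ 2 ^ (J + n + 1) := Nat.pow_le_pow_right (by norm_num) (by omega)
    omega

/-! ### positivity -/

lemma Am_nonneg (a : ℕ → ℝ) (ha : ∀ k, 0 ≤ a k) (h i : ℕ) : 0 ≤ Am P a h i := by
  induction h generalizing i with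
  | zero => exact ha i
  | succ h ih =>
    rw [Am]
    exact mul_nonneg (lam_pos P).le (add_nonneg (ih _) (ih _))

lemma Bm_nonneg (b : ℕ → ℕ → ℝ) (hb : ∀ i h, 0 ≤ b i h) (i : ℕ) : ∀ h, 0 ≤ Bm P b i h := by
  have hl := lam_pos P
  induction i using Nat.strong_induction_on with
  | _ i ih =>
    intro h
    by_cases hi : i ≤ 1
    · rw [Bm_one _ hi]
    · rw [Bm, dif_neg hi]
      exact div_nonneg (add_nonneg (ih (i / 2) (by omega) _) (hb _ _)) (by positivity)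

lemma Hm_nonneg (hε : 0 ≤ ε) {Y : ℝ} (hY : 0 ≤ Y) (α : ℕ → ℝ) (hα : ∀ i, 0 ≤ α i) (i : ℕ) :
    0 ≤ Hm P ε Y α i := by
  have hl := eta_pos P
  induction i using Nat.strong_induction_on with
  | _ i ih =>
    by_cases hi : i ≤ 1
    · rw [Hm_one _ _ hi]; exact hY
    · rw [Hm_step _ _ (by omega)]
      exact add_nonneg (mul_nonneg hl.le (ih (i / 2) (by omega))) (mul_nonneg hε (hα i))

lemma fd_nonneg (hε : 0 ≤ ε) (σ : ℕ × ℕ × ℕ ≃ ℕ) (α : ℕ → ℕ → ℝ) (β : ℕ → ℕ → ℕ → ℝ) (J : ℕ)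
    (hα : ∀ q i, 0 ≤ α q i) (hβ : ∀ q i h, 0 ≤ β q i h) (x : ℝ) : 0 ≤ fd P ε σ α β J x := by
  unfold fd Hv
  have h := eta_pos P
  apply mul_nonneg (by positivity)
  apply Hm_nonneg hε _ _ (hα _)
  unfold Yv ym
  apply add_nonneg
  · apply Am_nonneg
    intro k
    unfold pr
    exact add_nonneg (hα _ _) (hα _ _)
  · exact Bm_nonneg _ (hβ _) _ _

end Pool.Agent.H75R3.NN
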