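import Pool.Agent.H75R3.NN6

set_option autoImplicit false
set_option linter.ambiguousOpen false

open _root_.H75R3 (L mem_L L_pos L_child L_parent L_zero sum_L_succ card_L nd nd_mem nd_half nd_meas
  vol_nd)

namespace Pool.Agent.H75R3.NN

open Finset MeasureTheory
open scoped ENNReal

variable {P ε : ℝ}

/-- the coding of the coordinates -/
def sg : ℕ × ℕ × ℕ ≃ ℕ := ((Equiv.refl ℕ).prodCongr Nat.pairEquiv).trans Nat.pairEquiv

lemma sg_apply (q i h : ℕ) : sg (q, i, h) = Nat.pair q (Nat.pair i h) := rfl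

/-- position of the basis element attached to `(q, i)` -/
def idx (q i : ℕ) : ℕ := 3 * Nat.pair q (i / 2 - 1) + i % 2

/-- position of the basis element attached to the node `(q, i, h)` -/
def idb (q i h : ℕ) : ℕ := 3 * sg (q, i - 1, h) + 2

/-- unit data -/
noncomputable def ua (n q i : ℕ) : ℝ := if 2 ≤ i ∧ idx q i = n then 1 else 0

/-- unit data -/
noncomputable def ub (n q i h : ℕ) : ℝ := if 1 ≤ i ∧ idb q i h = n then 1 else 0

/-- data of a linear combination -/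
noncomputable def da (c : ℕ → ℝ) (N q i : ℕ) : ℝ := ∑ n ∈ range N, c n * ua n q i

/-- data of a linear combination -/
noncomputable def db (c : ℕ → ℝ) (N q i h : ℕ) : ℝ := ∑ n ∈ range N, c n * ub n q i h

lemma da_eq (c : ℕ → ℝ) (N q i : ℕ) :
    da c N q i = if 2 ≤ i ∧ idx q i < N then c (idx q i) else 0 := by
  unfold da ua
  by_cases hi : 2 ≤ i
  · simp only [hi, true_and, mul_ite, mul_one, mul_zero]
    rw [sum_ite_eq]
    simp only [mem_range]
  · simp [hi]

lemma db_eq (c : ℕ → ℝ) (N q i h : ℕ) :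
    db c N q i h = if 1 ≤ i ∧ idb q i h < N then c (idb q i h) else 0 := by
  unfold db ub
  by_cases hi : 1 ≤ i
  · simp only [hi, true_and, mul_ite, mul_one, mul_zero]
    rw [sum_ite_eq]
    simp only [mem_range]
  · simp [hi]

lemma idx_bound (q i : ℕ) : q ≤ idx q i ∧ i ≤ 2 * idx q i + 3 := by
  unfold idx
  have h1 := Nat.left_le_pair q (i / 2 - 1)
  have h2 := Nat.right_le_pair q (i / 2 - 1)
  omega

lemma idb_bound (q i h : ℕ) : q ≤ idb q i h ∧ i ≤ idb q i h ∧ h ≤ idb q i h := by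
  unfold idb
  rw [sg_apply]
  have h1 := Nat.left_le_pair q (Nat.pair (i - 1) h)
  have h2 := Nat.right_le_pair q (Nat.pair (i - 1) h)
  have h3 := Nat.left_le_pair (i - 1) h
  have h4 := Nat.right_le_pair (i - 1) h
  omega

lemma da_supp (c : ℕ → ℝ) (N : ℕ) (q i : ℕ) (h : 2 * N + 4 ≤ q ∨ 2 * N + 4 ≤ i) :
    da c N q i = 0 := by
  rw [da_eq, if_neg]
  rintro ⟨_, h2⟩
  have := idx_bound q i
  omega

lemma db_supp (c : ℕ → ℝ) (N : ℕ) (q i h : ℕ)
    (hh : 2 * N + 4 ≤ q ∨ 2 * N + 4 ≤ i ∨ 2 * N + 4 ≤ h) : db c N q i h = 0 := by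
  rw [db_eq, if_neg]
  rintro ⟨_, h2⟩
  have := idb_bound q i h
  omega

lemma ua_eq_da (n : ℕ) : ua n = da (Pi.single n 1) (n + 1) := by
  funext q i
  rw [da_eq]
  unfold ua
  by_cases h : 2 ≤ i ∧ idx q i = n
  · rw [if_pos h, if_pos ⟨h.1, by omega⟩, h.2, Pi.single_eq_same]
  · rw [if_neg h]
    split_ifs with h2
    · rw [Pi.single_eq_of_ne]
      intro h3
      exact h ⟨h2.1, h3⟩
    · rfl

lemma ub_eq_db (n : ℕ) : ub n = db (Pi.single n 1) (n + 1) := by
  funext q i h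
  rw [db_eq]
  unfold ub
  by_cases h' : 1 ≤ i ∧ idb q i h = n
  · rw [if_pos h', if_pos ⟨h'.1, by omega⟩, h'.2, Pi.single_eq_same]
  · rw [if_neg h']
    split_ifs with h2
    · rw [Pi.single_eq_of_ne]
      intro h3
      exact h' ⟨h2.1, h3⟩
    · rfl

lemma pow_big (m J : ℕ) (h : m ≤ J) : m ≤ 2 ^ (J + 1) := by
  have h1 : J + 1 < 2 ^ (J + 1) := Nat.lt_two_pow_self
  omega

/-- the basis functions -/
noncomputable def ef (P ε : ℝ) (n : ℕ) (x : ℝ) : ℝ := fd P ε sg (ua n) (ub n) (2 * n + 6) x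

lemma ef_ge (n J : ℕ) (hJ : 2 * n + 6 ≤ J) (x : ℝ) : fd P ε sg (ua n) (ub n) J x = ef P ε n x := by
  obtain ⟨k, rfl⟩ := Nat.exists_eq_add_of_le hJ
  apply fd_ge
  intro q i hi
  rw [ua_eq_da]
  apply da_supp
  right
  have := pow_big (2 * n + 6) (2 * n + 6) le_rfl
  omega

lemma fd_zero (σ : ℕ × ℕ × ℕ ≃ ℕ) (J : ℕ) (x : ℝ) :
    fd P ε σ (fun _ _ => 0) (fun _ _ _ => 0) J x = 0 := by
  have := fd_smul (P := P) (ε := ε) σ 0 (fun _ _ => 0) (fun _ _ _ => 0) J x
  simp only [zero_mul] at this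
  exact this

lemma sum_ef (c : ℕ → ℝ) (N J : ℕ) (hJ : 2 * N + 6 ≤ J) (x : ℝ) :
    ∑ n ∈ range N, c n * ef P ε n x = fd P ε sg (da c N) (db c N) J x := by
  induction N with
  | zero =>
    have h1 : da c 0 = fun _ _ => 0 := by funext q i; simp [da]
    have h2 : db c 0 = fun _ _ _ => 0 := by funext q i h; simp [db]
    rw [h1, h2, fd_zero]
    simp
  | succ N ih =>
    have h1 : da c (N + 1) = fun q i => da c N q i + c N * ua N q i := by
      funext q i; unfold da; rw [sum_range_succ]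
    have h2 : db c (N + 1) = fun q i h => db c N q i h + c N * ub N q i h := by
      funext q i h; unfold db; rw [sum_range_succ]
    rw [sum_range_succ, ih (by omega), h1, h2,
      fd_add sg (da c N) (fun q i => c N * ua N q i) (db c N) (fun q i h => c N * ub N q i h),
      fd_smul, ef_ge N J (by omega)]

section Lp

variable {p : ℝ≥0∞}

lemma toReal_gt (h1 : 1 < p) (ht : p ≠ ∞) : 1 < p.toReal := by
  have := (ENNReal.toReal_lt_toReal ENNReal.one_ne_top ht).2 h1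
  simpa using this

lemma ne_zero_of (h1 : 1 < p) : p ≠ 0 := by
  rintro rfl
  exact absurd h1 (by simp)

lemma memLp_fd (h1 : 1 < p) (ht : p ≠ ∞) (ε : ℝ) (c : ℕ → ℝ) (N J : ℕ) :
    MemLp (fd p.toReal ε sg (da c N) (db c N) J) p (volume : Measure ℝ) := by
  apply memLp_of (ne_zero_of h1) ht _ (fd_meas _ _ _ _)
  rw [lint_fd (toReal_gt h1 ht)]
  exact NT_fin sg (toReal_gt h1 ht) _ _ (2 * N + 4) J (da_supp c N) (db_supp c N)

lemma memLp_ef (h1 : 1 < p) (ht : p ≠ ∞) (ε : ℝ) (n : ℕ) :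
    MemLp (ef p.toReal ε n) p (volume : Measure ℝ) := by
  have := memLp_fd h1 ht ε (Pi.single n 1) (n + 1) (2 * n + 6)
  rw [← ua_eq_da, ← ub_eq_db] at this
  exact this

/-- the basis vectors -/
noncomputable def eL (h1 : 1 < p) (ht : p ≠ ∞) (ε : ℝ) (n : ℕ) : Lp ℝ p (volume : Measure ℝ) :=
  (memLp_ef h1 ht ε n).toLp _

lemma eL_coe (h1 : 1 < p) (ht : p ≠ ∞) (ε : ℝ) (n : ℕ) :
    ∀ᵐ x, eL h1 ht ε n x = ef p.toReal ε n x := MemLp.coeFn_toLp _

variable [hp1 : Fact (1 ≤ p)]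

lemma sum_coe (h1 : 1 < p) (ht : p ≠ ∞) (ε : ℝ) (c : ℕ → ℝ) (N J : ℕ) (hJ : 2 * N + 6 ≤ J) :
    ∀ᵐ x, (∑ n ∈ range N, c n • eL h1 ht ε n : Lp ℝ p (volume : Measure ℝ)) x =
      fd p.toReal ε sg (da c N) (db c N) J x := by
  have h : ∀ N, ∀ᵐ x, (∑ n ∈ range N, c n • eL h1 ht ε n : Lp ℝ p (volume : Measure ℝ)) x =
      ∑ n ∈ range N, c n * ef p.toReal ε n x := by
    intro N
    induction N with
    | zero =>
      simp only [range_zero, sum_empty]
      exact Lp.coeFn_zero _ _ _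
    | succ N ih =>
      rw [sum_range_succ]
      filter_upwards [ih, Lp.coeFn_add (∑ n ∈ range N, c n • eL h1 ht ε n) (c N • eL h1 ht ε N),
        Lp.coeFn_smul (c N) (eL h1 ht ε N), eL_coe h1 ht ε N] with x h2 h3 h4 h5
      rw [h3, Pi.add_apply, h2, h4, Pi.smul_apply, h5, sum_range_succ, smul_eq_mul]
  filter_upwards [h N] with x hx
  rw [hx, sum_ef c N J hJ]

lemma norm_sum (h1 : 1 < p) (ht : p ≠ ∞) (ε : ℝ) (c : ℕ → ℝ) (N J : ℕ) (hJ : 2 * N + 6 ≤ J) :
    ENNReal.ofReal (‖(∑ n ∈ range N, c n • eL h1 ht ε n : Lp ℝ p (volume : Measure ℝ))‖ ^ p.toReal) =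
      NT p.toReal ε sg (da c N) (db c N) J := by
  rw [norm_rpow_Lp (ne_zero_of h1) ht _ _ (sum_coe h1 ht ε c N J hJ), lint_fd (toReal_gt h1 ht)]

lemma rpow_cmp {P x y C : ℝ} (hP : 1 < P) (hx : 0 ≤ x) (hy : 0 ≤ y) (hC : 0 ≤ C)
    (h : ENNReal.ofReal (x ^ P) ≤ ENNReal.ofReal C * ENNReal.ofReal (y ^ P)) :
    x ≤ C ^ (1 / P) * y := by
  rw [← ENNReal.ofReal_mul hC, ENNReal.ofReal_le_ofReal_iff (by positivity)] at h
  have h2 := Real.rpow_le_rpow (by positivity) h (z := 1 / P) (by positivity)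
  rw [Real.mul_rpow hC (by positivity), ← Real.rpow_mul hx, ← Real.rpow_mul hy,
    mul_one_div_cancel (by linarith), Real.rpow_one, Real.rpow_one] at h2
  exact h2

/-- cut level -/
lemma exists_kappa (t q : ℕ) : ∃ κ, ∀ k, Nat.pair q k < t ↔ k < κ := by
  have hex : ∃ k, t ≤ Nat.pair q k := ⟨t, Nat.right_le_pair q t⟩
  classical
  refine ⟨Nat.find hex, fun k => ?_⟩
  constructor
  · intro h
    by_contra hcon
    rw [not_lt] at hcon
    have h2 := Nat.find_spec hex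
    rcases hcon.lt_or_eq with h3 | h3
    · have := Nat.pair_lt_pair_right q h3
      omega
    · rw [h3] at h2; omega
  · intro h
    have := Nat.find_min hex h
    omega

lemma main_ineq (h1 : 1 < p) (ht : p ≠ ∞) {ε : ℝ}
    (hε : c2 p.toReal * |ε| ^ p.toReal * cl p.toReal * c4 p.toReal ≤ 1 / 2)
    (t T : ℕ) (c : ℕ → ℝ) (htT : t ≤ T) :
    ‖(∑ n ∈ range (3 * t), c n • eL h1 ht ε n : Lp ℝ p (volume : Measure ℝ))‖ ≤
      c6 p.toReal ^ (1 / p.toReal) *
      ‖(∑ n ∈ range (3 * T), c n • eL h1 ht ε n : Lp ℝ p (volume : Measure ℝ))‖ := by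
  have hP := toReal_gt h1 ht
  apply rpow_cmp hP (norm_nonneg _) (norm_nonneg _) (c6_nonneg hP)
  rw [norm_sum h1 ht ε c (3 * t) (2 * (3 * T) + 6) (by omega),
    norm_sum h1 ht ε c (3 * T) (2 * (3 * T) + 6) le_rfl]
  choose κ hκ using exists_kappa t
  have hfin := YS_fin sg hP (da c (3 * T)) (db c (3 * T)) (2 * (3 * T) + 4) (da_supp c _) (db_supp c _)
  have h2 := NN_cut_le (J := 2 * (3 * T) + 6) hP hε sg (da c (3 * T)) (db c (3 * T)) (db c (3 * t)) hfin
    (fun q => κ q + 1) (by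
      intro q i h
      rw [db_eq, db_eq]
      by_cases h3 : 1 ≤ i ∧ idb q i h < 3 * t
      · left
        rw [if_pos h3, if_pos ⟨h3.1, by omega⟩]
      · right
        rw [if_neg h3])
  have h3 : da c (3 * t) = fun q => cut (2 * (κ q + 1)) (da c (3 * T) q) := by
    funext q i
    unfold cut
    rw [da_eq, da_eq]
    by_cases hi : 2 ≤ i
    · have h4 : idx q i < 3 * t ↔ i < 2 * (κ q + 1) := by
        have h5 := hκ q (i / 2 - 1)
        unfold idx
        constructor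
        · intro h6
          have h7 : Nat.pair q (i / 2 - 1) < t := by omega
          have := h5.1 h7
          omega
        · intro h6
          have := h5.2 (by omega)
          omega
      by_cases h6 : i < 2 * (κ q + 1)
      · rw [if_pos h6, if_pos ⟨hi, h4.2 h6⟩, if_pos ⟨hi, by have := h4.2 h6; omega⟩]
      · rw [if_neg h6, if_neg (fun h7 => h6 (h4.1 h7.2))]
    · simp [hi]
  rw [h3]
  exact h2

lemma main_coef (h1 : 1 < p) (ht : p ≠ ∞) {ε : ℝ} (hε0 : 0 < ε)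
    (hε : c2 p.toReal * |ε| ^ p.toReal * cl p.toReal * c4 p.toReal ≤ 1 / 2) :
    ∃ D : ℝ, ∀ (N : ℕ) (c : ℕ → ℝ), ∀ n < N, |c n| ≤ D *
      ‖(∑ n ∈ range N, c n • eL h1 ht ε n : Lp ℝ p (volume : Measure ℝ))‖ := by
  have hP := toReal_gt h1 ht
  set P := p.toReal with hPdef
  have hc2 := c2_pos P
  have hc3 := c3_nonneg hP
  set D1 : ℝ := (c2 P * (4 * c2 P)) ^ (1 / P) with hD1
  set D2 : ℝ := (2 * c3 P * (2 * c2 P)) ^ (1 / P) with hD2
  have hD1' : 0 ≤ D1 := by positivity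
  have hD2' : 0 ≤ D2 := by positivity
  refine ⟨D1 / ε + D2, fun N c n hn => ?_⟩
  set S := ‖(∑ n ∈ range N, c n • eL h1 ht ε n : Lp ℝ p (volume : Measure ℝ))‖ with hS
  have hS0 : 0 ≤ S := norm_nonneg _
  have hnorm := norm_sum h1 ht ε c N (2 * N + 6) le_rfl
  have hfin := YS_fin sg hP (da c N) (db c N) (2 * N + 4) (da_supp c _) (db_supp c _)
  by_cases hr : n % 3 = 2
  · -- a node coefficient
    set d := sg.symm (n / 3) with hd
    have h2 := coef_beta (J := 2 * N + 6) hP hε sg (da c N) (db c N) hfin d.1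
      (i := d.2.1 + 1) (by omega) d.2.2
    have h3 : idb d.1 (d.2.1 + 1) d.2.2 = n := by
      unfold idb
      rw [Nat.add_sub_cancel]
      have : sg (d.1, d.2.1, d.2.2) = n / 3 := by
        rw [hd]; exact sg.apply_symm_apply _
      rw [this]
      omega
    rw [db_eq, h3, if_pos ⟨by omega, hn⟩, ← hnorm] at h2
    have h4 : |c n| ≤ D2 * S := rpow_cmp hP (abs_nonneg _) hS0 (by positivity) h2
    have : 0 ≤ D1 / ε * S := by positivity
    linarith
  · set d := Nat.unpair (n / 3) with hd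
    set i := 2 * (d.2 + 1) + n % 3 with hi
    have h3 : idx d.1 i = n := by
      unfold idx
      have e1 : i / 2 - 1 = d.2 := by omega
      have e2 : i % 2 = n % 3 := by omega
      rw [e1, e2, hd, Nat.pair_unpair]
      omega
    have h2 := coef_alpha (J := 2 * N + 6) hP hε sg (da c N) (db c N) hfin
      (by
        intro q i hi
        apply da_supp
        right
        have := pow_big (2 * N + 6) (2 * N + 6) le_rfl
        omega) d.1 (i := i) (by omega)
    rw [da_eq, h3, if_pos ⟨by omega, hn⟩, ← hnorm] at h2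
    have h4 : |ε * c n| ≤ D1 * S := rpow_cmp hP (abs_nonneg _) hS0 (by positivity) h2
    rw [abs_mul, abs_of_pos hε0] at h4
    have h5 : |c n| ≤ D1 / ε * S := by
      rw [div_mul_eq_mul_div, le_div_iff₀ hε0]
      linarith
    have : 0 ≤ D2 * S := by positivity
    linarith

end Lp

end Pool.Agent.H75R3.NN
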