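import Pool.Agent.H75R3.NN7

set_option autoImplicit false
set_option linter.ambiguousOpen false

open _root_.H75R3 (L mem_L L_pos L_child L_parent L_zero sum_L_succ card_L nd nd_mem nd_half nd_meas
  vol_nd)

namespace Pool.Agent.H75R3.NN

open Finset MeasureTheory
open scoped ENNReal

variable {P ε : ℝ}

lemma single_W (hP : 1 < P) (a : ℕ → ℝ) (k : ℕ) (ha : ∀ k', k' ≠ k → a k' = 0) (h i : ℕ) :
    pw P (Am P a h i) ≤ lam P ^ h * pw P (a k) ∧
      W P a h i ≤ (∑ s ∈ range (h + 1), lam P ^ s) * pw P (a k) := by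
  have hl := lam_pos P
  have hk0 := pw_nonneg P (a k)
  induction h generalizing i with
  | zero =>
    rw [Am, W]
    have h1 : pw P (a i) ≤ pw P (a k) := by
      by_cases h : i = k
      · rw [h]
      · rw [ha i h, pw_zero hP]; exact hk0
    simp only [pow_zero, one_mul, zero_add, sum_range_one]
    exact ⟨h1, h1⟩
  | succ h ih =>
    have key : ∀ u : ℝ, ∀ w : ℝ, pw P u ≤ lam P ^ h * pw P (a k) →
        w ≤ (∑ s ∈ range (h + 1), lam P ^ s) * pw P (a k) →
        pw P (lam P * u) ≤ lam P ^ (h + 1) * pw P (a k) ∧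
        pw P (lam P * u) + w ≤ (∑ s ∈ range (h + 1 + 1), lam P ^ s) * pw P (a k) := by
      intro u w hu hw
      have h1 := pw_lam' hP u
      have h2 : lam P * pw P u ≤ lam P * (lam P ^ h * pw P (a k)) := mul_le_mul_of_nonneg_left hu hl.le
      have h3 : pw P (lam P * u) ≤ lam P ^ (h + 1) * pw P (a k) := by
        refine h1.trans (h2.trans_eq ?_)
        ring
      refine ⟨h3, ?_⟩
      rw [sum_range_succ _ (h + 1), add_mul]
      linarith
    have e3 : (2 * i + 1) * 2 ^ h = 2 * i * 2 ^ h + 2 ^ h := by ring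
    have e4 : (2 * i + 1 + 1) * 2 ^ h = 2 * i * 2 ^ h + 2 ^ h + 2 ^ h := by ring
    rw [Am, W, Am]
    rcases lt_or_ge k ((2 * i + 1) * 2 ^ h) with hk | hk
    · have hz : ∀ k', (2 * i + 1) * 2 ^ h ≤ k' → k' < (2 * i + 1 + 1) * 2 ^ h → a k' = 0 :=
        fun k' h1 _ => ha k' (by omega)
      rw [Am_zero a h (2 * i + 1) hz, W_zero hP a h (2 * i + 1) hz, add_zero, add_zero]
      exact key _ _ (ih (2 * i)).1 (ih (2 * i)).2
    · have hz : ∀ k', 2 * i * 2 ^ h ≤ k' → k' < (2 * i + 1) * 2 ^ h → a k' = 0 :=
        fun k' _ h1 => ha k' (by omega)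
      rw [Am_zero a h (2 * i) hz, W_zero hP a h (2 * i) hz, zero_add, add_zero]
      exact key _ _ (ih (2 * i + 1)).1 (ih (2 * i + 1)).2

lemma geom_le (hP : 1 < P) (n : ℕ) : ∑ s ∈ range n, lam P ^ s ≤ 1 / (1 - lam P) := by
  have h1 := lam_pos P
  have h2 := lam_lt_one hP
  have h3 : 0 < 1 - lam P := by linarith
  rw [le_div_iff₀ h3]
  have := geom_sum_mul_neg (lam P) n
  rw [this]
  have : 0 ≤ lam P ^ n := by positivity
  linarith

lemma TT_single (hP : 1 < P) (a : ℕ → ℝ) (k : ℕ) (ha : ∀ k', k' ≠ k → a k' = 0) (hk1 : 1 ≤ k)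
    (hk : |a k| ≤ 1) : TT P (Af P a) ≤ ENNReal.ofReal (1 / (1 - lam P)) := by
  unfold TT
  rw [tsum_eq_single (Nat.log 2 k)]
  · apply ENNReal.ofReal_le_ofReal
    rw [← W_one]
    refine (single_W hP a k ha _ _).2.trans ?_
    have h1 := geom_le hP (Nat.log 2 k + 1)
    have h2 : pw P (a k) ≤ 1 := by
      unfold pw
      exact Real.rpow_le_one (abs_nonneg _) hk (by linarith)
    have h3 := pw_nonneg P (a k)
    have h4 : 0 ≤ ∑ s ∈ range (Nat.log 2 k + 1), lam P ^ s := sum_nonneg fun s _ => by
      have := lam_pos P; positivity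
    nlinarith
  · intro j hj
    rw [← W_one, W_zero hP, ENNReal.ofReal_zero]
    intro k' h1 h2
    apply ha
    rintro rfl
    apply hj
    symm
    rw [Nat.log_eq_iff (Or.inr ⟨by norm_num, by omega⟩)]
    constructor
    · omega
    · have : 2 ^ (j + 1) = (1 + 1) * 2 ^ j := by ring
      omega

lemma tsum_bsb (b : ℕ → ℕ → ℝ) : ∑' j, ENNReal.ofReal (bsb P b j) = TT P b := by
  rw [tsum_eq_zero_add' ENNReal.summable, bsb_zero, ENNReal.ofReal_zero, zero_add]
  unfold TT
  congr 1
  funext j
  rw [bsb_succ]

lemma TT_ym (hP : 1 < P) (a : ℕ → ℝ) (b : ℕ → ℕ → ℝ) :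
    TT P (ym P a b) ≤ ENNReal.ofReal (c2 P) * (TT P (Af P a) + ENNReal.ofReal (cB P) * TT P b) := by
  rw [← tsum_bsb b]
  unfold TT
  rw [← ENNReal.tsum_mul_left, ← ENNReal.tsum_add, ← ENNReal.tsum_mul_left]
  apply ENNReal.tsum_le_tsum
  intro j
  have h := bsy_le hP a b j
  have hb : 0 ≤ bsb P b j := by unfold bsb; exact sum_nonneg fun _ _ => lv_nonneg _ _ _
  rw [← ENNReal.ofReal_mul (cB_nonneg hP), ← ENNReal.ofReal_add (bs_nonneg _ _)
    (mul_nonneg (cB_nonneg hP) hb)]
  exact ofReal_le_mul (c2_pos P).le h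

lemma TT_zero (hP : 1 < P) : TT P (fun _ _ => 0) = 0 := by
  unfold TT bs lv
  simp [pw_zero hP]

/-- Upper bound of the means of unit data. -/
lemma YS_unit (hP : 1 < P) (n : ℕ) : YS P sg (ua n) (ub n) ≤
    ENNReal.ofReal (c2 P) * (ENNReal.ofReal (1 / (1 - lam P)) + ENNReal.ofReal (cB P) * 1) := by
  rw [YS_eq]
  calc ∑' q, TT P (ym P (pr (ua n q)) (ub n q))
      ≤ ∑' q, ENNReal.ofReal (c2 P) * (TT P (Af P (pr (ua n q))) + ENNReal.ofReal (cB P) * TT P (ub n q)) :=
        ENNReal.tsum_le_tsum fun q => TT_ym hP _ _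
    _ = ENNReal.ofReal (c2 P) * (∑' q, TT P (Af P (pr (ua n q))) + ENNReal.ofReal (cB P) *
          ∑' q, TT P (ub n q)) := by
        rw [ENNReal.tsum_mul_left, ENNReal.tsum_add, ENNReal.tsum_mul_left]
    _ ≤ _ := by
        gcongr
        · -- α part
          set d := Nat.unpair (n / 3) with hd
          have hsupp : ∀ q i, ua n q i ≠ 0 → q = d.1 ∧ i = 2 * (d.2 + 1) + n % 3 := by
            intro q i h
            unfold ua at h
            have h1 : 2 ≤ i ∧ idx q i = n := by
              by_contra hcon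
              exact h (if_neg hcon)
            obtain ⟨h1, h2⟩ := h1
            unfold idx at h2
            have h3 : Nat.pair q (i / 2 - 1) = n / 3 := by omega
            have h4 : d = (q, i / 2 - 1) := by rw [hd, ← h3, Nat.unpair_pair]
            rw [h4]
            refine ⟨rfl, ?_⟩
            dsimp only
            omega
          rw [tsum_eq_single d.1]
          · apply TT_single hP _ (d.2 + 1) _ (by omega)
            · unfold pr ua
              split_ifs with h1 h2
              · exfalso
                unfold idx at h1 h2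
                omega
              · norm_num
              · norm_num
              · norm_num
            · intro k' hk'
              unfold pr
              have hz : ∀ i, i ≠ 2 * (d.2 + 1) + n % 3 → ua n d.1 i = 0 := by
                intro i hi
                by_contra hcon
                exact hi (hsupp _ _ hcon).2
              by_cases hr : n % 3 = 2
              · have hz' : ∀ i, ua n d.1 i = 0 := by
                  intro i
                  unfold ua
                  rw [if_neg]
                  rintro ⟨_, h⟩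
                  unfold idx at h
                  omega
                rw [hz', hz', add_zero]
              · rw [hz _ (by omega), hz _ (by omega), add_zero]
          · intro q hq
            have : pr (ua n q) = fun _ => 0 := by
              funext k
              unfold pr
              have hz : ∀ i, ua n q i = 0 := fun i => by
                by_contra hcon
                exact hq (hsupp _ _ hcon).1
              rw [hz, hz, add_zero]
            rw [this]
            have h2 : Af P (fun _ => 0) = fun _ _ => 0 := by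
              funext i h
              unfold Af
              exact Am_zero _ _ _ (fun _ _ _ => rfl)
            rw [h2, TT_zero hP]
        · -- β part
          set d := sg.symm (n / 3) with hd
          have hsupp : ∀ q i h, ub n q i h ≠ 0 → q = d.1 ∧ i = d.2.1 + 1 ∧ h = d.2.2 := by
            intro q i h hne
            unfold ub at hne
            have h1 : 1 ≤ i ∧ idb q i h = n := by
              by_contra hcon
              exact hne (if_neg hcon)
            obtain ⟨h1, h2⟩ := h1
            unfold idb at h2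
            have h3 : sg (q, i - 1, h) = n / 3 := by omega
            have h4 : d = (q, i - 1, h) := by rw [hd, ← h3, Equiv.symm_apply_apply]
            rw [h4]
            refine ⟨rfl, ?_, rfl⟩
            dsimp only
            omega
          rw [tsum_eq_single d.1]
          · rw [← TT_eq, tsum_eq_single d.2.1]
            · rw [tsum_eq_single d.2.2]
              · unfold ep ub
                split_ifs
                · unfold pw; simp
                · rw [pw_zero hP]; simp
              · intro h hh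
                by_cases hz : ub n d.1 (d.2.1 + 1) h = 0
                · unfold ep; rw [hz, pw_zero hP, ENNReal.ofReal_zero]
                · exact absurd (hsupp _ _ _ hz).2.2 hh
            · intro i hi
              rw [ENNReal.tsum_eq_zero]
              intro h
              by_cases hz : ub n d.1 (i + 1) h = 0
              · unfold ep; rw [hz, pw_zero hP, ENNReal.ofReal_zero]
              · exact absurd (hsupp _ _ _ hz).2.1 (by omega)
          · intro q hq
            have : ub n q = fun _ _ => 0 := by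
              funext i h
              by_contra hcon
              exact hq (hsupp _ _ _ hcon).1
            rw [this, TT_zero hP]

lemma Hm_unit_zero (α : ℕ → ℝ) (i0 : ℕ) (hα : ∀ i, i ≠ i0 → α i = 0) (i : ℕ) (hi : i < i0) :
    Hm P ε 0 α i = 0 := by
  induction i using Nat.strong_induction_on with
  | _ i ih =>
    by_cases h1 : i ≤ 1
    · exact Hm_one _ _ h1
    · rw [Hm_step _ _ (by omega), ih (i / 2) (by omega) (by omega), hα i (by omega)]
      ring

lemma level_unit (hP : 1 < P) (α : ℕ → ℝ) (i0 : ℕ) (hα : ∀ i, i ≠ i0 → α i = 0) (h1 : |α i0| ≤ 1)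
    (hi0 : 2 ≤ i0) (n : ℕ) :
    ∑ i ∈ L (Nat.log 2 i0 + n), pw P (Hm P ε 0 α i) ≤ |ε| ^ P := by
  have hmem := mem_L_log (i := i0) (by omega)
  have hm := mem_L.1 hmem
  rw [level_const hP 0 α (Nat.log 2 i0) (fun i hi => hα i (by omega)) n]
  rw [sum_eq_single_of_mem i0 hmem]
  · rw [Hm_step _ _ hi0, Hm_unit_zero α i0 hα (i0 / 2) (by omega), mul_zero, zero_add, pw_mul]
    have h2 : pw P (α i0) ≤ 1 := Real.rpow_le_one (abs_nonneg _) h1 (by linarith)
    have h3 : 0 ≤ |ε| ^ P := Real.rpow_nonneg (abs_nonneg _) _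
    nlinarith [pw_nonneg P (α i0)]
  · intro i hi hne
    have h4 := mem_L.1 hi
    have h5 : i / 2 < i0 := by
      have : 2 ^ (Nat.log 2 i0 + 1) = 2 * 2 ^ Nat.log 2 i0 := by ring
      omega
    by_cases h6 : i ≤ 1
    · rw [Hm_one _ _ h6, pw_zero hP]
    · rw [Hm_step _ _ (by omega), Hm_unit_zero α i0 hα (i / 2) h5, hα i hne, mul_zero, mul_zero,
        add_zero, pw_zero hP]

section Lp

variable {p : ℝ≥0∞} [hp1 : Fact (1 ≤ p)]

lemma norm_eL (h1 : 1 < p) (ht : p ≠ ∞) (ε : ℝ) (n : ℕ) :
    ENNReal.ofReal (‖eL h1 ht ε n‖ ^ p.toReal) = NT p.toReal ε sg (ua n) (ub n) (2 * n + 6) := by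
  rw [norm_rpow_Lp (ne_zero_of h1) ht _ _ (eL_coe h1 ht ε n)]
  unfold ef
  rw [lint_fd (toReal_gt h1 ht)]

lemma norm_eL_le (h1 : 1 < p) (ht : p ≠ ∞) (ε : ℝ) : ∃ E : ℝ, ∀ n, ‖eL h1 ht ε n‖ ≤ E := by
  have hP := toReal_gt h1 ht
  set P := p.toReal with hPdef
  set K : ℝ≥0∞ := ENNReal.ofReal (c2 P) * (ENNReal.ofReal (c2 P) * (ENNReal.ofReal (1 / (1 - lam P))
    + ENNReal.ofReal (cB P) * 1) + ENNReal.ofReal (|ε| ^ P)) with hK
  have hKt : K ≠ ∞ := by
    apply ENNReal.mul_ne_top ENNReal.ofReal_ne_top
    apply ENNReal.add_ne_top.2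
    refine ⟨?_, ENNReal.ofReal_ne_top⟩
    apply ENNReal.mul_ne_top ENNReal.ofReal_ne_top
    apply ENNReal.add_ne_top.2
    exact ⟨ENNReal.ofReal_ne_top, ENNReal.mul_ne_top ENNReal.ofReal_ne_top ENNReal.one_ne_top⟩
  refine ⟨(K.toReal) ^ (1 / P), fun n => ?_⟩
  have h2 : NT P ε sg (ua n) (ub n) (2 * n + 6) ≤ K := by
    have h3 : ∀ q, Nq P ε sg (ua n) (ub n) (2 * n + 6) q ≤ ENNReal.ofReal (c2 P) *
        (ep P (Yv P sg (ua n) (ub n) q) +
        ENNReal.ofReal (∑ i ∈ L (2 * n + 6), pw P (Hm P ε 0 (ua n q) i))) := by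
      intro q
      unfold Nq ep Hv
      rw [← ENNReal.ofReal_add (pw_nonneg _ _) (sum_nonneg fun _ _ => pw_nonneg _ _)]
      apply ofReal_le_mul (c2_pos P).le
      have h2 := level_zero (ε := ε) hP (Yv P sg (ua n) (ub n) q) (2 * n + 6)
      rw [← h2, ← sum_add_distrib, mul_sum]
      apply sum_le_sum
      intro i _
      have h3 := Hm_add (P := P) (ε := ε) (Yv P sg (ua n) (ub n) q) 0 (fun _ => 0) (ua n q) i
      simp only [zero_add, add_zero] at h3
      rw [show (fun k => ua n q k) = ua n q from rfl] at h3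
      rw [h3]
      exact pw_add hP _ _
    have h4 : NT P ε sg (ua n) (ub n) (2 * n + 6) ≤ ENNReal.ofReal (c2 P) * (YS P sg (ua n) (ub n) +
        ∑' q, ENNReal.ofReal (∑ i ∈ L (2 * n + 6), pw P (Hm P ε 0 (ua n q) i))) := by
      unfold NT YS
      rw [← ENNReal.tsum_add, ← ENNReal.tsum_mul_left]
      exact ENNReal.tsum_le_tsum h3
    refine h4.trans ?_
    rw [hK]
    gcongr
    · exact YS_unit hP n
    · set d := Nat.unpair (n / 3) with hd
      have hsupp : ∀ q i, ua n q i ≠ 0 → q = d.1 ∧ i = 2 * (d.2 + 1) + n % 3 := by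
        intro q i h
        unfold ua at h
        have h1 : 2 ≤ i ∧ idx q i = n := by
          by_contra hcon
          exact h (if_neg hcon)
        obtain ⟨h1, h2⟩ := h1
        unfold idx at h2
        have h3 : Nat.pair q (i / 2 - 1) = n / 3 := by omega
        have h4 : d = (q, i / 2 - 1) := by rw [hd, ← h3, Nat.unpair_pair]
        rw [h4]
        refine ⟨rfl, ?_⟩
        dsimp only
        omega
      rw [tsum_eq_single d.1]
      · apply ENNReal.ofReal_le_ofReal
        set i0 := 2 * (d.2 + 1) + n % 3 with hi0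
        have hd2 : d.2 ≤ n / 3 := Nat.unpair_right_le (n / 3)
        have hlog : Nat.log 2 i0 ≤ 2 * n + 6 := by
          have := Nat.log_lt_self 2 (x := i0) (by omega)
          omega
        obtain ⟨m, hm⟩ := Nat.exists_eq_add_of_le hlog
        rw [hm]
        apply level_unit hP _ i0 _ _ (by omega)
        · intro i hi
          by_contra hcon
          exact hi (hsupp _ _ hcon).2
        · unfold ua
          split_ifs <;> simp
      · intro q hq
        have : ua n q = fun _ => 0 := by
          funext i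
          by_contra hcon
          exact hq (hsupp _ _ hcon).1
        rw [this, level_zero hP, pw_zero hP, ENNReal.ofReal_zero]
  rw [← norm_eL h1 ht ε n] at h2
  have h5 := ENNReal.toReal_mono hKt h2
  rw [ENNReal.toReal_ofReal (by positivity)] at h5
  have h6 := Real.rpow_le_rpow (by positivity) h5 (z := 1 / P) (by positivity)
  rw [← Real.rpow_mul (norm_nonneg _), mul_one_div_cancel (by linarith), Real.rpow_one] at h6
  exact h6

end Lp

end Pool.Agent.H75R3.NN
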