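import Pool.Agent.H75R3.NN8

set_option autoImplicit false
set_option linter.ambiguousOpen false
set_option linter.unusedSectionVars false

open _root_.H75R3 (L mem_L L_pos L_child L_parent L_zero sum_L_succ card_L nd nd_mem nd_half nd_meas
  vol_nd nd_zero)

namespace Pool.Agent.H75R3.NN

open Finset MeasureTheory
open scoped ENNReal

/-- Density from duality. -/
lemma dense_of_dual {X : Type*} [NormedAddCommGroup X] [NormedSpace ℝ X] (S : Submodule ℝ X)
    (h : ∀ φ : StrongDual ℝ X, (∀ x ∈ S, φ x = 0) → φ = 0) : Dense (S : Set X) := by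
  intro x
  by_contra hx
  have hconv : Convex ℝ (closure (S : Set X)) := S.convex.closure
  obtain ⟨f, u, h1, h2⟩ := geometric_hahn_banach_closed_point hconv isClosed_closure hx
  have h0 : 0 < u := by
    have := h1 0 (subset_closure S.zero_mem)
    simpa using this
  have h3 : ∀ y ∈ S, f y = 0 := by
    intro y hy
    by_contra hne
    have h4 := h1 (((u + 1) / f y) • y) (subset_closure (S.smul_mem _ hy))
    rw [map_smul, smul_eq_mul, div_mul_cancel₀ _ hne] at h4
    linarith
  have h4 := h f h3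
  rw [h4] at h2
  simp only [_root_.zero_apply] at h2
  linarith

variable {P ε : ℝ}

lemma exists_data' (y : ℕ → ℕ → ℝ) (m : ℕ) (hy : ∀ i h, m ≤ i ∨ m ≤ h → y i h = 0) :
    ∃ (α : ℕ → ℝ) (b : ℕ → ℕ → ℝ) (M : ℕ), (∀ k, M ≤ k → α k = 0) ∧
      (∀ i h, M ≤ i ∨ M ≤ h → b i h = 0) ∧ (∀ i, i < 2 → α i = 0) ∧ (∀ h, b 0 h = 0) ∧
      ∀ i h, 1 ≤ i → ym P (pr α) b i h = y i h := by
  set b : ℕ → ℕ → ℝ := fun i h => if i = 0 then 0 else
    lam P * (y (2 * i) h + y (2 * i + 1) h) - y i (h + 1) with hb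
  set a : ℕ → ℝ := fun k => y k 0 - Bm P b k 0 with ha
  set α : ℕ → ℝ := fun i => if i < 2 then 0 else if i % 2 = 0 then a (i / 2) else 0 with hα
  have hb0 : ∀ i h, m ≤ i ∨ m ≤ h → b i h = 0 := by
    intro i h hh
    rw [hb]
    dsimp only
    split_ifs
    · rfl
    · rw [hy (2 * i) h (by omega), hy (2 * i + 1) h (by omega), hy i (h + 1) (by omega)]
      ring
  have hm : m ≤ m * 2 ^ m := Nat.le_mul_of_pos_right _ (by positivity)
  have ha0 : ∀ k, m * 2 ^ m ≤ k → a k = 0 := by
    intro k hk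
    rw [ha]
    dsimp only
    rw [hy k 0 (by omega), Bm_fin_i b m hb0 m k 0 (by omega) hk]
    ring
  have hpr : ∀ k, 1 ≤ k → pr α k = a k := by
    intro k hk
    unfold pr
    rw [hα]
    dsimp only
    rw [if_neg (by omega), if_pos (by omega), if_neg (by omega), if_neg (by omega), add_zero]
    congr 1
    omega
  refine ⟨α, b, 2 * (m * 2 ^ m), ?_, ?_, ?_, ?_, ?_⟩
  · intro k hk
    rw [hα]
    dsimp only
    split_ifs
    · rfl
    · exact ha0 _ (by omega)
    · rfl
  · intro i h hh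
    exact hb0 i h (by omega)
  · intro i hi
    rw [hα]
    dsimp only
    rw [if_pos hi]
  · intro h
    rw [hb]
    simp
  · intro i h hi
    unfold ym
    induction h generalizing i with
    | zero =>
      rw [Am, hpr i hi, ha]
      ring
    | succ h ih =>
      have h1 := ih (2 * i) (by omega)
      have h2 := ih (2 * i + 1) (by omega)
      rw [Bm_even b hi] at h1
      rw [Bm_odd b hi] at h2
      rw [Am]
      have hl := lam_pos P
      have h3 : b i h = lam P * (y (2 * i) h + y (2 * i + 1) h) - y i (h + 1) := by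
        rw [hb]
        dsimp only
        rw [if_neg (by omega)]
      have h4 : lam P * ((Bm P b i (h + 1) + b i h) / (2 * lam P)) = (Bm P b i (h + 1) + b i h) / 2 := by
        field_simp
      rw [← h1, ← h2] at h3
      linear_combination (-1 : ℝ) * h3 - 2 * h4

lemma Hm_low (α : ℕ → ℝ) (i : ℕ) (hα : ∀ i' ≤ i, α i' = 0) : Hm P ε 0 α i = 0 := by
  induction i using Nat.strong_induction_on with
  | _ i ih =>
    by_cases h1 : i ≤ 1
    · exact Hm_one _ _ h1
    · rw [Hm_step _ _ (by omega), ih (i / 2) (by omega) (fun i' h => hα i' (by omega)), hα i le_rfl]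
      ring

lemma Hm_const (Y : ℝ) (l : ℕ) : ∀ i ∈ L l, Hm P ε Y (fun _ => 0) i = eta P ^ l * Y := by
  induction l with
  | zero =>
    intro i hi
    rw [L_zero, mem_singleton] at hi
    rw [hi, Hm_one _ _ le_rfl]
    ring
  | succ l ih =>
    intro i hi
    have h1 := L_pos (L_parent hi)
    rw [Hm_step _ _ (by omega), ih _ (L_parent hi)]
    ring

lemma sum_Dn (H : ℕ → ℝ) (n l : ℕ) :
    ∑ i ∈ L l, Dn P H n i = (lam P * lam P) ^ n * ∑ i ∈ L (l + n), H i := by
  induction n generalizing l with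
  | zero => simp [Dn]
  | succ n ih =>
    have h1 : ∑ i ∈ L l, Dn P H (n + 1) i = lam P * lam P * ∑ i ∈ L (l + 1), Dn P H n i := by
      rw [sum_L_succ, mul_sum]
      apply sum_congr rfl
      intro i _
      rw [Dn]
    rw [h1, ih, pow_succ]
    have : l + 1 + n = l + (n + 1) := by ring
    rw [this]
    ring

lemma fd_split (σ : ℕ × ℕ × ℕ ≃ ℕ) (α : ℕ → ℕ → ℝ) (β : ℕ → ℕ → ℕ → ℝ) (J : ℕ) (x : ℝ) :
    fd P ε σ α β J x = Yv P σ α β (Qx x) + (eta P ^ J)⁻¹ * Hm P ε 0 (α (Qx x)) (nd J x) := by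
  unfold fd Hv
  have h3 := Hm_add (P := P) (ε := ε) (Yv P σ α β (Qx x)) 0 (fun _ => 0) (α (Qx x)) (nd J x)
  simp only [zero_add, add_zero] at h3
  rw [show (fun k => α (Qx x) k) = α (Qx x) from rfl] at h3
  rw [h3, Hm_const _ J _ (nd_mem J x)]
  have h := eta_pos P
  field_simp

section Lp

variable {p : ℝ≥0∞} [hp1 : Fact (1 ≤ p)]

lemma cell_fin (J q i : ℕ) : volume {x : ℝ | Qx x = q ∧ nd J x = i} ≠ ∞ := by
  by_cases hi : i ∈ L J
  · rw [vol_cell J q hi]; exact ENNReal.ofReal_ne_top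
  · rw [vol_cell_zero J q hi]; simp

/-- indicator of a dyadic interval -/
noncomputable def DL (p : ℝ≥0∞) (q J i : ℕ) : Lp ℝ p (volume : Measure ℝ) :=
  indicatorConstLp p (cell_meas J q i) (cell_fin J q i) (1:ℝ)

lemma DL_coe (q J i : ℕ) : ∀ᵐ x, DL p q J i x = if Qx x = q ∧ nd J x = i then 1 else 0 := by
  filter_upwards [indicatorConstLp_coeFn (p := p) (hs := cell_meas J q i) (hμs := cell_fin J q i)
    (c := (1:ℝ))] with x hx
  unfold DL
  rw [hx, Set.indicator_apply]
  rfl

lemma coe_sum_Lp {ι : Type*} (s : Finset ι) (f : ι → Lp ℝ p (volume : Measure ℝ)) (F : ι → ℝ → ℝ)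
    (h : ∀ i ∈ s, ∀ᵐ x, f i x = F i x) :
    ∀ᵐ x, (∑ i ∈ s, f i : Lp ℝ p (volume : Measure ℝ)) x = ∑ i ∈ s, F i x := by
  classical
  induction s using Finset.induction_on with
  | empty =>
    simp only [sum_empty]
    exact Lp.coeFn_zero _ _ _
  | insert a s ha ih =>
    rw [sum_insert ha]
    filter_upwards [ih (fun i hi => h i (mem_insert_of_mem hi)), h a (mem_insert_self _ _),
      Lp.coeFn_add (f a) (∑ i ∈ s, f i)] with x h1 h2 h3
    rw [h3, Pi.add_apply, h1, h2, sum_insert ha]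

/-- step functions -/
lemma step_eq (g : ℕ → ℕ → ℝ) (m J : ℕ) (hg : ∀ q i, m ≤ q → g q i = 0)
    (F : Lp ℝ p (volume : Measure ℝ)) (hF : ∀ᵐ x, F x = g (Qx x) (nd J x)) :
    F = ∑ q ∈ range m, ∑ i ∈ L J, g q i • DL p q J i := by
  apply Lp.ext
  have h1 : ∀ᵐ x, (∑ q ∈ range m, ∑ i ∈ L J, g q i • DL p q J i : Lp ℝ p (volume : Measure ℝ)) x
      = ∑ q ∈ range m, ∑ i ∈ L J, g q i * (if Qx x = q ∧ nd J x = i then 1 else 0) := by
    apply coe_sum_Lp
    intro q _
    apply coe_sum_Lp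
    intro i _
    filter_upwards [Lp.coeFn_smul (g q i) (DL p q J i), DL_coe (p := p) q J i] with x h2 h3
    rw [h2, Pi.smul_apply, h3, smul_eq_mul]
  filter_upwards [hF, h1] with x h2 h3
  rw [h2, h3]
  by_cases hq : Qx x < m
  · rw [sum_eq_single_of_mem (Qx x) (mem_range.2 hq), sum_eq_single_of_mem (nd J x) (nd_mem J x)]
    · simp
    · intro i _ hi
      rw [if_neg (fun h => hi h.2.symm), mul_zero]
    · intro q _ hne
      apply sum_eq_zero
      intro i _
      rw [if_neg (fun h => hne h.1.symm), mul_zero]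
  · rw [hg _ _ (not_lt.1 hq)]
    symm
    apply sum_eq_zero
    intro q hq'
    apply sum_eq_zero
    intro i _
    rw [if_neg, mul_zero]
    rintro ⟨h, _⟩
    rw [h] at hq
    exact hq (mem_range.1 hq')

lemma DL_split (q J : ℕ) {i : ℕ} (_hi : i ∈ L J) :
    DL p q J i = DL p q (J + 1) (2 * i) + DL p q (J + 1) (2 * i + 1) := by
  apply Lp.ext
  filter_upwards [DL_coe (p := p) q J i, DL_coe (p := p) q (J + 1) (2 * i),
    DL_coe (p := p) q (J + 1) (2 * i + 1), Lp.coeFn_add (DL p q (J + 1) (2 * i))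
      (DL p q (J + 1) (2 * i + 1))] with x h1 h2 h3 h4
  rw [h4, Pi.add_apply, h1, h2, h3]
  have h5 := nd_half J x
  by_cases hq : Qx x = q
  · by_cases h6 : nd J x = i
    · have : nd (J + 1) x = 2 * i ∨ nd (J + 1) x = 2 * i + 1 := by omega
      rcases this with h7 | h7
      · rw [if_pos ⟨hq, h6⟩, if_pos ⟨hq, h7⟩, if_neg (by omega)]; ring
      · rw [if_pos ⟨hq, h6⟩, if_neg (by omega), if_pos ⟨hq, h7⟩]; ring
    · rw [if_neg (by omega), if_neg (by omega), if_neg (by omega)]; ring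
  · rw [if_neg (fun h => hq h.1), if_neg (fun h => hq h.1), if_neg (fun h => hq h.1)]; ring

variable (h1 : 1 < p) (ht : p ≠ ∞)

/-- A functional vanishing on the basis vectors vanishes on all finite data. -/
lemma phi_data (ε : ℝ) (φ : StrongDual ℝ (Lp ℝ p (volume : Measure ℝ)))
    (hφ : ∀ n, φ (eL h1 ht ε n) = 0) (α : ℕ → ℕ → ℝ) (β : ℕ → ℕ → ℕ → ℝ) (m J : ℕ)
    (hα : ∀ q i, m ≤ q ∨ m ≤ i → α q i = 0) (hβ : ∀ q i h, m ≤ q ∨ m ≤ i ∨ m ≤ h → β q i h = 0)
    (hα2 : ∀ q i, i < 2 → α q i = 0) (hβ2 : ∀ q h, β q 0 h = 0) (hJ : m ≤ J)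
    (F : Lp ℝ p (volume : Measure ℝ)) (hF : ∀ᵐ x, F x = fd p.toReal ε sg α β J x) : φ F = 0 := by
  set c : ℕ → ℝ := fun n => if n % 3 = 2 then
    β (sg.symm (n / 3)).1 ((sg.symm (n / 3)).2.1 + 1) (sg.symm (n / 3)).2.2 else
    α (Nat.unpair (n / 3)).1 (2 * ((Nat.unpair (n / 3)).2 + 1) + n % 3) with hc
  set N1 := (range m ×ˢ range m).sup (fun x => idx x.1 x.2) with hN1
  set N2 := (range m ×ˢ (range m ×ˢ range m)).sup (fun x => idb x.1 x.2.1 x.2.2) with hN2
  set N := N1 + N2 + 1 with hN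
  have hda : da c N = α := by
    funext q i
    rw [da_eq]
    by_cases hi : 2 ≤ i
    · have hval : c (idx q i) = α q i := by
        rw [hc]
        dsimp only
        unfold idx
        have e1 : (3 * Nat.pair q (i / 2 - 1) + i % 2) % 3 = i % 2 := by omega
        have e2 : (3 * Nat.pair q (i / 2 - 1) + i % 2) / 3 = Nat.pair q (i / 2 - 1) := by omega
        rw [e1, e2, if_neg (by omega), Nat.unpair_pair]
        dsimp only
        congr 1
        omega
      by_cases hN' : idx q i < N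
      · rw [if_pos ⟨hi, hN'⟩, hval]
      · rw [if_neg (fun h => hN' h.2)]
        symm
        apply hα
        by_contra hcon
        push Not at hcon
        apply hN'
        have := Finset.le_sup (f := fun x : ℕ × ℕ => idx x.1 x.2)
          (mem_product.2 ⟨mem_range.2 hcon.1, mem_range.2 hcon.2⟩ : (q, i) ∈ range m ×ˢ range m)
        dsimp only at this
        omega
    · rw [if_neg (fun h => hi h.1), hα2 q i (by omega)]
  have hdb : db c N = β := by
    funext q i h
    rw [db_eq]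
    by_cases hi : 1 ≤ i
    · have hval : c (idb q i h) = β q i h := by
        rw [hc]
        dsimp only
        unfold idb
        have e1 : (3 * sg (q, i - 1, h) + 2) % 3 = 2 := by omega
        have e2 : (3 * sg (q, i - 1, h) + 2) / 3 = sg (q, i - 1, h) := by omega
        rw [e1, e2, if_pos rfl, Equiv.symm_apply_apply]
        dsimp only
        congr 1
        omega
      by_cases hN' : idb q i h < N
      · rw [if_pos ⟨hi, hN'⟩, hval]
      · rw [if_neg (fun h => hN' h.2)]
        symm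
        apply hβ
        by_contra hcon
        push Not at hcon
        apply hN'
        have := Finset.le_sup (f := fun x : ℕ × ℕ × ℕ => idb x.1 x.2.1 x.2.2)
          (mem_product.2 ⟨mem_range.2 hcon.1, mem_product.2 ⟨mem_range.2 hcon.2.1,
            mem_range.2 hcon.2.2⟩⟩ : (q, i, h) ∈ range m ×ˢ (range m ×ˢ range m))
        dsimp only at this
        omega
    · rw [if_neg (fun h => hi h.1)]
      have : i = 0 := by omega
      rw [this, hβ2]
  have hJ' : ∀ x, fd p.toReal ε sg α β (J + (2 * N + 6)) x = fd p.toReal ε sg α β J x := by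
    intro x
    apply fd_ge
    intro q i hi
    apply hα
    right
    have := pow_big m J hJ
    omega
  have hsum := sum_coe h1 ht ε c N (J + (2 * N + 6)) (by omega)
  rw [hda, hdb] at hsum
  have hFeq : F = ∑ n ∈ range N, c n • eL h1 ht ε n := by
    apply Lp.ext
    filter_upwards [hF, hsum] with x h2 h3
    rw [h2, h3, hJ']
  rw [hFeq, map_sum]
  apply sum_eq_zero
  intro n _
  rw [map_smul, hφ, smul_zero]

end Lp

end Pool.Agent.H75R3.NN
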