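import Pool.Agent.H75R3.HaarBasis
import Pool.Agent.H75R3.Khin

set_option autoImplicit false
set_option linter.unusedSectionVars false

namespace H75R3

open Finset MeasureTheory Filter Topology
open scoped ENNReal

variable {X : Type*} [MeasurableSpace X] {μ : Measure X} [IsProbabilityMeasure μ]
  {g : X → ℝ} {p : ℝ≥0∞} [hp1 : Fact (1 ≤ p)]

/-- elementary comparison of the normalised `p`-mean and the `2`-norm -/
theorem mean_bound (P : ℝ) (hP : 1 < P) (k : ℕ) (s : Finset ℕ) (hs : s.card = 2 ^ k) (f : ℕ → ℝ)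
    (hf : ∀ m, 0 ≤ f m) :
    ((∑ m ∈ s, f m ^ P) / 2 ^ k) ^ (1 / P) ≤
      2 * ((2:ℝ) ^ (-(min (1 / P) (1 / 2)))) ^ k * Real.sqrt (∑ m ∈ s, f m ^ 2) := by
  have hP0 : 0 < P := by linarith
  set Q := ∑ m ∈ s, f m ^ 2 with hQ
  have hQ0 : 0 ≤ Q := Finset.sum_nonneg fun _ _ => by positivity
  set σ := Real.sqrt Q with hσ
  have hσ2 : σ ^ 2 = Q := Real.sq_sqrt hQ0
  have hfσ : ∀ m ∈ s, f m ≤ σ := by
    intro m hm
    apply Real.le_sqrt_of_sq_le
    exact Finset.single_le_sum (f := fun m => f m ^ 2) (fun i _ => by positivity) hm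
  have hN : (0:ℝ) < 2 ^ k := by positivity
  rcases eq_or_lt_of_le (Real.sqrt_nonneg Q) with h0 | hσ0
  · have hz : ∀ m ∈ s, f m = 0 := by
      intro m hm
      have := hfσ m hm
      rw [hσ, ← h0] at this
      exact le_antisymm this (hf m)
    have h1 : ∑ m ∈ s, f m ^ P = 0 := by
      apply Finset.sum_eq_zero
      intro m hm
      rw [hz m hm, Real.zero_rpow hP0.ne']
    rw [h1, zero_div, Real.zero_rpow (by positivity)]
    positivity
  rw [← hσ] at hσ0
  rcases le_or_gt 2 P with h2 | h2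
  · have h1 : ∑ m ∈ s, f m ^ P ≤ σ ^ P := by
      have h3 : ∀ m ∈ s, f m ^ P ≤ f m ^ 2 * σ ^ (P - 2) := by
        intro m hm
        rcases eq_or_lt_of_le (hf m) with h | h
        · rw [← h, Real.zero_rpow hP0.ne']; positivity
        · have e : f m ^ P = f m ^ 2 * f m ^ (P - 2) := by
            rw [← Real.rpow_natCast, ← Real.rpow_add h]
            congr 1; push_cast; ring
          rw [e]
          apply mul_le_mul_of_nonneg_left _ (by positivity)
          exact Real.rpow_le_rpow h.le (hfσ m hm) (by linarith)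
      refine (Finset.sum_le_sum h3).trans (le_of_eq ?_)
      rw [← Finset.sum_mul, ← hQ, ← hσ2, ← Real.rpow_natCast, ← Real.rpow_add hσ0]
      congr 1; push_cast; ring
    have h4 : ((∑ m ∈ s, f m ^ P) / 2 ^ k) ^ (1 / P) ≤ (σ ^ P / 2 ^ k) ^ (1 / P) := by
      apply Real.rpow_le_rpow
      · apply div_nonneg _ hN.le
        exact Finset.sum_nonneg fun m _ => Real.rpow_nonneg (hf m) _
      · exact div_le_div_of_nonneg_right h1 hN.le
      · positivity
    have h5 : (σ ^ P / 2 ^ k) ^ (1 / P) = ((2:ℝ) ^ (-(1 / P))) ^ k * σ := by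
      rw [Real.div_rpow (by positivity) hN.le, ← Real.rpow_mul hσ0.le, mul_one_div_cancel hP0.ne',
        Real.rpow_one, ← Real.rpow_natCast, ← Real.rpow_natCast, ← Real.rpow_mul (by norm_num),
        ← Real.rpow_mul (by norm_num), div_eq_mul_inv, ← Real.rpow_neg (by norm_num), mul_comm]
      congr 2; ring
    have hmin : min (1 / P) (1 / 2) = 1 / P := by
      apply min_eq_left
      exact one_div_le_one_div_of_le (by norm_num) h2
    rw [hmin]
    refine h4.trans (h5.le.trans ?_)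
    have h6 : 0 ≤ ((2:ℝ) ^ (-(1 / P))) ^ k * σ := by positivity
    linarith
  · set lam := σ / Real.sqrt (2 ^ k) with hlam
    have hsq : 0 < Real.sqrt (2 ^ k) := Real.sqrt_pos.mpr hN
    have hsq2 : Real.sqrt (2 ^ k) ^ 2 = 2 ^ k := Real.sq_sqrt hN.le
    have hlam0 : 0 < lam := div_pos hσ0 hsq
    have h3 : ∀ m ∈ s, f m ^ P ≤ f m ^ 2 * lam ^ (P - 2) + lam ^ P := by
      intro m hm
      rcases le_or_gt (f m) lam with h | h
      · have h5 : f m ^ P ≤ lam ^ P := Real.rpow_le_rpow (hf m) h hP0.le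
        have h6 : 0 ≤ f m ^ 2 * lam ^ (P - 2) := by positivity
        linarith
      · have hfm : 0 < f m := hlam0.trans h
        have e : f m ^ P = f m ^ 2 * f m ^ (P - 2) := by
          rw [← Real.rpow_natCast, ← Real.rpow_add hfm]
          congr 1; push_cast; ring
        have h5 : f m ^ (P - 2) ≤ lam ^ (P - 2) :=
          Real.rpow_le_rpow_of_nonpos hlam0 h.le (by linarith)
        have h6 : f m ^ 2 * f m ^ (P - 2) ≤ f m ^ 2 * lam ^ (P - 2) :=
          mul_le_mul_of_nonneg_left h5 (by positivity)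
        have h7 : 0 ≤ lam ^ P := by positivity
        rw [e]; linarith
    have h4 : (∑ m ∈ s, f m ^ P) / 2 ^ k ≤ 2 * lam ^ P := by
      rw [div_le_iff₀ hN]
      refine (Finset.sum_le_sum h3).trans (le_of_eq ?_)
      rw [Finset.sum_add_distrib, ← Finset.sum_mul, Finset.sum_const, hs, nsmul_eq_mul, ← hQ,
        ← hσ2]
      have e1 : σ ^ 2 = lam ^ 2 * 2 ^ k := by
        rw [hlam, div_pow, hsq2]; field_simp
      have e2 : lam ^ 2 * lam ^ (P - 2) = lam ^ P := by
        rw [← Real.rpow_natCast, ← Real.rpow_add hlam0]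
        congr 1; push_cast; ring
      rw [e1]
      push_cast
      calc lam ^ 2 * 2 ^ k * lam ^ (P - 2) + 2 ^ k * lam ^ P =
          (lam ^ 2 * lam ^ (P - 2)) * 2 ^ k + 2 ^ k * lam ^ P := by ring
        _ = 2 * lam ^ P * 2 ^ k := by rw [e2]; ring
    have h5 : ((∑ m ∈ s, f m ^ P) / 2 ^ k) ^ (1 / P) ≤ (2 * lam ^ P) ^ (1 / P) := by
      apply Real.rpow_le_rpow _ h4 (by positivity)
      apply div_nonneg _ hN.le
      exact Finset.sum_nonneg fun m _ => Real.rpow_nonneg (hf m) _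
    have h6 : (2 * lam ^ P) ^ (1 / P) ≤ 2 * lam := by
      rw [Real.mul_rpow (by norm_num) (by positivity), ← Real.rpow_mul hlam0.le,
        mul_one_div_cancel hP0.ne', Real.rpow_one]
      apply mul_le_mul_of_nonneg_right _ hlam0.le
      calc (2:ℝ) ^ (1 / P) ≤ 2 ^ (1:ℝ) := by
            apply Real.rpow_le_rpow_of_exponent_le (by norm_num)
            rw [div_le_one hP0]; exact hP.le
        _ = 2 := Real.rpow_one 2
    have hmin : min (1 / P) (1 / 2) = 1 / 2 := by
      apply min_eq_right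
      exact one_div_le_one_div_of_le hP0 h2.le
    rw [hmin]
    refine h5.trans (h6.trans (le_of_eq ?_))
    rw [hlam, Real.sqrt_eq_rpow, div_eq_mul_inv, ← Real.rpow_neg hN.le, ← Real.rpow_natCast,
      ← Real.rpow_natCast, ← Real.rpow_mul (by norm_num), ← Real.rpow_mul (by norm_num)]
    have e3 : (k:ℝ) * -(1 / 2) = -(1 / 2) * k := by ring
    rw [e3]
    ring

/-- norm of a layer -/
theorem layer_norm (hg : MeasurePreserving g μ (volume.restrict (Set.Ico (0:ℝ) 1))) (hpt : p ≠ ∞)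
    (k : ℕ) (a : ℕ → ℂ) :
    ‖∑ m ∈ L k, a m • eh μ p hg.measurable m‖ =
      ((∑ m ∈ L k, ‖a m‖ ^ p.toReal) / 2 ^ k) ^ (1 / p.toReal) := by
  rw [norm_Lp_eq hpt _ (fun x => a (nd k (g x)) * hr (nd k (g x)) (g x))]
  · have h1 := integral_nd hg k (fun m => ‖a m‖ ^ p.toReal)
    congr 1
    have h2 : ∫ x, ‖a (nd k (g x)) * hr (nd k (g x)) (g x)‖ ^ p.toReal ∂μ =
        ∫ x, (fun m => ‖a m‖ ^ p.toReal) (nd k (g x)) ∂μ := by
      congr 1
      funext x
      rw [norm_mul, norm_hr_nd, mul_one]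
    rw [h2, h1, smul_eq_mul]
    ring
  · filter_upwards [sum_eh_coe (μ := μ) (p := p) hg.measurable (L k) a] with x hx
    rw [hx, sum_L_hr]

/-- weak-1 bound for the Haar coefficients of a layer -/
theorem layer_weak (hg : MeasurePreserving g μ (volume.restrict (Set.Ico (0:ℝ) 1)))
    (k n : ℕ) (x : Fin n → Lp ℂ p μ) (B : ℝ)
    (hB : ∀ φ : Lp ℂ p μ →L[ℂ] ℂ, ‖φ‖ ≤ 1 → ∑ i, ‖φ (x i)‖ ≤ B) :
    ∑ i, Real.sqrt (∑ m ∈ L k, ‖ph μ p hg.measurable m (x i)‖ ^ 2) ≤ (9 / 5) * 2 ^ k * B := by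
  -- test functionals
  have htest : ∀ u : Finset ℕ, ∑ i, ‖sg (L k) u (fun m => ph μ p hg.measurable m (x i))‖ ≤
      2 ^ k * B := by
    intro u
    set h : X → ℂ := fun y => ∑ m ∈ L k, (if m ∈ u then (1:ℂ) else -1) * hr m (g y) with hh
    have hhm : Measurable h := by
      apply Finset.measurable_fun_sum
      intro m _
      exact ((hr_meas m).comp hg.measurable).const_mul _
    have hb : ∀ y, ‖h y‖ ≤ 1 := by
      intro y
      simp only [hh]
      rw [sum_L_hr, norm_mul, norm_hr_nd, mul_one]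
      split_ifs <;> simp
    have h1 := hB (psi μ p h hhm.aestronglyMeasurable hb) (psi_norm h hhm.aestronglyMeasurable hb)
    have h2 : ∀ f : Lp ℂ p μ, psi μ p h hhm.aestronglyMeasurable hb f =
        ((2:ℂ) ^ k)⁻¹ * sg (L k) u (fun m => ph μ p hg.measurable m f) := by
      intro f
      rw [psi_apply]
      unfold sg
      have h3 : ∀ y, f y * h y = ∑ m ∈ L k, (if m ∈ u then (1:ℂ) else -1) *
          (f y * hr m (g y)) := by
        intro y
        simp only [hh]
        rw [Finset.mul_sum]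
        refine Finset.sum_congr rfl fun m _ => ?_
        ring
      simp only [h3]
      rw [MeasureTheory.integral_finsetSum]
      · rw [Finset.mul_sum]
        refine Finset.sum_congr rfl fun m hm => ?_
        have hmp := L_pos hm
        have hw : wt m = 2 ^ k := by
          unfold wt
          rw [if_neg (by omega), log_L hm]
        rw [integral_const_mul, ph_apply, hw]
        push_cast
        field_simp
      · intro m _
        exact (integrable_mul_bdd f (fun y => hr m (g y))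
          ((hr_meas m).comp hg.measurable).aestronglyMeasurable
          (fun y => norm_hr_le m (g y))).const_mul _
    simp only [h2, norm_mul, norm_inv, norm_pow, Complex.norm_ofNat] at h1
    rw [← Finset.mul_sum] at h1
    rw [inv_mul_le_iff₀ (by positivity)] at h1
    exact h1
  have h1 : ∑ u ∈ (L k).powerset, ∑ i, ‖sg (L k) u (fun m => ph μ p hg.measurable m (x i))‖ ≤
      2 ^ (L k).card * (2 ^ k * B) := by
    refine (Finset.sum_le_sum (fun u _ => htest u)).trans (le_of_eq ?_)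
    rw [Finset.sum_const, Finset.card_powerset, nsmul_eq_mul]
    push_cast
    ring
  rw [Finset.sum_comm] at h1
  have h2 : ∑ i, (5 / 9) * 2 ^ (L k).card *
      Real.sqrt (∑ m ∈ L k, ‖ph μ p hg.measurable m (x i)‖ ^ 2) ≤
      ∑ i, ∑ u ∈ (L k).powerset, ‖sg (L k) u (fun m => ph μ p hg.measurable m (x i))‖ :=
    Finset.sum_le_sum fun i _ => khintchine (L k) (fun m => ph μ p hg.measurable m (x i))
  rw [← Finset.mul_sum] at h2
  have h3 : (0:ℝ) < 2 ^ (L k).card := by positivity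
  have h4 := h2.trans h1
  set W := ∑ i, Real.sqrt (∑ m ∈ L k, ‖ph μ p hg.measurable m (x i)‖ ^ 2) with hW
  have h5 : 2 ^ (L k).card * ((5 / 9) * W) ≤ 2 ^ (L k).card * (2 ^ k * B) := by
    calc 2 ^ (L k).card * ((5 / 9) * W) = 5 / 9 * 2 ^ (L k).card * W := by ring
      _ ≤ _ := h4
  have h6 := le_of_mul_le_mul_left h5 h3
  linarith

/-- operators that are small on the layers are 1-summing -/
theorem HB.one_summing {hg : MeasurePreserving g μ (volume.restrict (Set.Ico (0:ℝ) 1))} {C : ℝ}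
    (H : HB (p := p) (μ := μ) hg C) (h1p : 1 < p) (hpt : p ≠ ∞)
    {F : Type*} [NormedAddCommGroup F] [NormedSpace ℂ F]
    (T : Lp ℂ p μ →L[ℂ] F) (A : ℝ) (hA : 0 ≤ A)
    (hT : ∀ (k : ℕ) (a : ℕ → ℂ), ‖T (∑ m ∈ L k, a m • eh μ p hg.measurable m)‖ ≤
      (A * (1 / 2) ^ k) * ‖∑ m ∈ L k, a m • eh μ p hg.measurable m‖) :
    ∃ C' : ℝ, ∀ (n : ℕ) (x : Fin n → Lp ℂ p μ) (B : ℝ),
      (∀ φ : Lp ℂ p μ →L[ℂ] ℂ, ‖φ‖ ≤ 1 → ∑ i, ‖φ (x i)‖ ≤ B) →
        ∑ i, ‖T (x i)‖ ≤ C' * B := by
  set P := p.toReal with hP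
  have hP1 : 1 < P := P_gt p h1p hpt
  set ρ : ℝ := (2:ℝ) ^ (-(min (1 / P) (1 / 2))) with hρ
  have hmin : 0 < min (1 / P) (1 / 2) := lt_min (by positivity) (by norm_num)
  have hρ0 : 0 < ρ := by positivity
  have hρ1 : ρ < 1 := by
    rw [hρ]
    exact Real.rpow_lt_one_of_one_lt_of_neg (by norm_num) (by linarith)
  refine ⟨‖T (eh μ p hg.measurable 0)‖ + (18 / 5) * A / (1 - ρ), fun n x B hB => ?_⟩
  have hB0 : 0 ≤ B := by
    have := hB 0 (by simp)
    simpa using this
  have hlayer : ∀ k, ∑ i, ‖T (∑ m ∈ L k, ph μ p hg.measurable m (x i) •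
      eh μ p hg.measurable m)‖ ≤ (18 / 5) * A * B * ρ ^ k := by
    intro k
    have h1 : ∀ i, ‖T (∑ m ∈ L k, ph μ p hg.measurable m (x i) • eh μ p hg.measurable m)‖ ≤
        (A * (1 / 2) ^ k) * (2 * ρ ^ k *
          Real.sqrt (∑ m ∈ L k, ‖ph μ p hg.measurable m (x i)‖ ^ 2)) := by
      intro i
      refine (hT k _).trans ?_
      apply mul_le_mul_of_nonneg_left _ (by positivity)
      rw [layer_norm hg hpt]
      exact mean_bound P hP1 k (L k) (card_L k) (fun m => ‖ph μ p hg.measurable m (x i)‖)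
        (fun m => norm_nonneg _)
    refine (Finset.sum_le_sum (fun i _ => h1 i)).trans ?_
    rw [← Finset.mul_sum, ← Finset.mul_sum]
    have h2 := layer_weak hg k n x B hB
    have h3 : A * (1 / 2) ^ k * (2 * ρ ^ k * ∑ i, Real.sqrt (∑ m ∈ L k,
        ‖ph μ p hg.measurable m (x i)‖ ^ 2)) ≤
        A * (1 / 2) ^ k * (2 * ρ ^ k * ((9 / 5) * 2 ^ k * B)) := by
      apply mul_le_mul_of_nonneg_left _ (by positivity)
      apply mul_le_mul_of_nonneg_left h2 (by positivity)
    refine h3.trans (le_of_eq ?_)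
    have h4 : ((1:ℝ) / 2) ^ k * 2 ^ k = 1 := by
      rw [← mul_pow]; norm_num
    calc A * (1 / 2) ^ k * (2 * ρ ^ k * (9 / 5 * 2 ^ k * B)) =
        (18 / 5) * A * B * ρ ^ k * (((1:ℝ) / 2) ^ k * 2 ^ k) := by ring
      _ = _ := by rw [h4, mul_one]
  have hzero : ∑ i, ‖T (ph μ p hg.measurable 0 (x i) • eh μ p hg.measurable 0)‖ ≤
      ‖T (eh μ p hg.measurable 0)‖ * B := by
    have h1 : ‖ph μ p hg.measurable 0‖ ≤ 1 := by
      unfold ph wt
      rw [if_pos rfl]
      simp only [Complex.ofReal_one, one_smul]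
      exact psi_norm _ _ _
    have h2 := hB _ h1
    have h3 : ∀ i, ‖T (ph μ p hg.measurable 0 (x i) • eh μ p hg.measurable 0)‖ =
        ‖T (eh μ p hg.measurable 0)‖ * ‖ph μ p hg.measurable 0 (x i)‖ := by
      intro i
      rw [map_smul, norm_smul, mul_comm]
    rw [Finset.sum_congr rfl (fun i _ => h3 i), ← Finset.mul_sum]
    exact mul_le_mul_of_nonneg_left h2 (norm_nonneg _)
  have key : ∀ N, ∑ i, ‖T (Qop hg N (x i))‖ ≤ ‖T (eh μ p hg.measurable 0)‖ * B +
      (18 / 5) * A * B * ∑ k ∈ range N, ρ ^ k := by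
    intro N
    induction N with
    | zero =>
      have h1 : ∀ i, Qop hg 0 (x i) = ph μ p hg.measurable 0 (x i) • eh μ p hg.measurable 0 := by
        intro i
        rw [Qop_apply, pow_zero, Finset.sum_range_one]
      simp only [h1, Finset.range_zero, Finset.sum_empty, mul_zero, add_zero]
      exact hzero
    | succ N ih =>
      have h1 : ∀ i, ‖T (Qop hg (N + 1) (x i))‖ ≤ ‖T (Qop hg N (x i))‖ +
          ‖T (∑ m ∈ L N, ph μ p hg.measurable m (x i) • eh μ p hg.measurable m)‖ := by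
        intro i
        rw [Qop_apply, sum_range_two_pow_succ, ← Qop_apply, map_add]
        exact norm_add_le _ _
      refine (Finset.sum_le_sum (fun i _ => h1 i)).trans ?_
      rw [Finset.sum_add_distrib, Finset.sum_range_succ, mul_add]
      have := hlayer N
      linarith
  have hgeo : ∀ N, ∑ k ∈ range N, ρ ^ k ≤ 1 / (1 - ρ) := by
    intro N
    rw [geom_sum_eq hρ1.ne]
    have h1 : (ρ ^ N - 1) / (ρ - 1) = (1 - ρ ^ N) / (1 - ρ) := by
      rw [← neg_sub, ← neg_sub 1 ρ, neg_div_neg_eq]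
    rw [h1]
    apply div_le_div_of_nonneg_right _ (by linarith)
    have : 0 ≤ ρ ^ N := by positivity
    linarith
  have hlim : Tendsto (fun N => ∑ i, ‖T (Qop hg N (x i))‖) atTop (𝓝 (∑ i, ‖T (x i)‖)) := by
    apply tendsto_finsetSum
    intro i _
    apply Tendsto.norm
    exact (T.continuous.tendsto _).comp (H.Q_tendsto (x i))
  refine le_of_tendsto hlim (Eventually.of_forall fun N => (key N).trans ?_)
  have h1 : (18 / 5) * A * B * ∑ k ∈ range N, ρ ^ k ≤ (18 / 5) * A * B * (1 / (1 - ρ)) :=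
    mul_le_mul_of_nonneg_left (hgeo N) (by positivity)
  rw [add_mul]
  have h2 : (18 / 5) * A / (1 - ρ) * B = (18 / 5) * A * B * (1 / (1 - ρ)) := by ring
  rw [h2]
  linarith

end H75R3
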