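import Mathlib

namespace Pool.Agent.H75R3.PropA

open Finset

variable {𝕜 : Type*} [RCLike 𝕜]

/-- The weight `1 / √(max(n,k)+1)`. -/
noncomputable def w (k n : ℕ) : ℝ := 1 / Real.sqrt ((max n k : ℕ) + 1)

/-- The weighted sum over the indices below `N` outside `A`. -/
noncomputable def S (A : Finset ℕ) (N : ℕ) (c : ℕ → 𝕜) : 𝕜 :=
  ∑ n ∈ range N \ A, ((w A.card n : ℝ) : 𝕜) * c n

/-- The functional whose supremum is the norm. -/
noncomputable def Psi (A : Finset ℕ) (N : ℕ) (c : ℕ → 𝕜) : ℝ :=
  (∑ n ∈ A, ‖c n‖) / Real.sqrt A.card + (1/3) * ‖S A N c‖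

lemma w_nonneg (k n : ℕ) : 0 ≤ w k n := by unfold w; positivity

lemma w_le_one (k n : ℕ) : w k n ≤ 1 := by
  unfold w
  rw [div_le_one (by positivity)]
  rw [Real.one_le_sqrt]
  have : (0:ℝ) ≤ ((max n k : ℕ) : ℝ) := Nat.cast_nonneg _
  linarith

lemma w_anti_right {k n n' : ℕ} (h : n ≤ n') : w k n' ≤ w k n := by
  unfold w
  apply one_div_le_one_div_of_le (by positivity)
  apply Real.sqrt_le_sqrt
  have : (max n k : ℕ) ≤ (max n' k : ℕ) := max_le_max_right k h
  have h' : ((max n k : ℕ) : ℝ) ≤ ((max n' k : ℕ) : ℝ) := by exact_mod_cast this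
  linarith

lemma w_le_of_le (k n : ℕ) : w k n ≤ 1 / Real.sqrt (k + 1) := by
  unfold w
  apply one_div_le_one_div_of_le (by positivity)
  apply Real.sqrt_le_sqrt
  have : k ≤ (max n k : ℕ) := le_max_right _ _
  have h' : (k : ℝ) ≤ ((max n k : ℕ) : ℝ) := by exact_mod_cast this
  linarith

lemma w_sub (k n : ℕ) : w k n - w (k+1) n =
    if n < k + 1 then 1 / Real.sqrt ((k:ℝ) + 1) - 1 / Real.sqrt ((k:ℝ) + 1 + 1) else 0 := by
  unfold w
  split_ifs with h
  · have h1 : max n k = k := max_eq_right (by omega)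
    have h2 : max n (k+1) = k + 1 := max_eq_right (by omega)
    rw [h1, h2]
    push_cast
    ring
  · have h1 : max n k = n := max_eq_left (by omega)
    have h2 : max n (k+1) = n := max_eq_left (by omega)
    rw [h1, h2]
    ring

lemma d_nonneg (k : ℕ) : 0 ≤ 1 / Real.sqrt ((k:ℝ) + 1) - 1 / Real.sqrt ((k:ℝ) + 1 + 1) := by
  rw [sub_nonneg]
  apply one_div_le_one_div_of_le (by positivity)
  apply Real.sqrt_le_sqrt
  linarith

lemma d_bound (k : ℕ) : ((k:ℝ) + 1) *
    (1 / Real.sqrt ((k:ℝ) + 1) - 1 / Real.sqrt ((k:ℝ) + 1 + 1)) ≤ 1 / (2 * Real.sqrt ((k:ℝ)+1)) := by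
  set a := Real.sqrt ((k:ℝ) + 1) with ha
  set b := Real.sqrt ((k:ℝ) + 1 + 1) with hb
  have ha0 : 0 < a := by positivity
  have hb0 : 0 < b := by positivity
  have ha2 : a ^ 2 = (k:ℝ) + 1 := Real.sq_sqrt (by positivity)
  have hb2 : b ^ 2 = (k:ℝ) + 1 + 1 := Real.sq_sqrt (by positivity)
  have hab : a ≤ b := Real.sqrt_le_sqrt (by linarith)
  rw [← ha2]
  have e1 : a ^ 2 * (1 / a - 1 / b) = a * (b - a) / b := by
    field_simp
  rw [e1, div_le_div_iff₀ hb0 (by positivity)]
  -- a (b-a) * (2a) ≤ 1 * b ; (b-a)(b+a) = 1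
  have h1 : (b - a) * (b + a) = 1 := by nlinarith
  have h2 : 0 ≤ b - a := by linarith
  nlinarith [mul_nonneg h2 h2, mul_nonneg (mul_nonneg h2 h2) ha0.le, mul_nonneg (mul_nonneg h2 h2) hb0.le, mul_nonneg h2 ha0.le, mul_nonneg h2 hb0.le]

lemma sqrt_gap (k : ℕ) : 1 / (2 * Real.sqrt ((k:ℝ)+1)) ≤ Real.sqrt ((k:ℝ)+1) - Real.sqrt (k:ℝ) := by
  set a := Real.sqrt ((k:ℝ) + 1) with ha
  set b := Real.sqrt (k:ℝ) with hb
  have ha0 : 0 < a := by positivity
  have hb0 : 0 ≤ b := by positivity
  have ha2 : a ^ 2 = (k:ℝ) + 1 := Real.sq_sqrt (by positivity)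
  have hb2 : b ^ 2 = (k:ℝ) := Real.sq_sqrt (by positivity)
  have hab : b ≤ a := Real.sqrt_le_sqrt (by linarith)
  rw [div_le_iff₀ (by positivity)]
  nlinarith

/-- Adding to `A` an index at which the sequence has its maximal modulus does not decrease
`Psi`. -/
lemma psi_insert (c : ℕ → 𝕜) {M : ℝ} (hM : ∀ j, ‖c j‖ ≤ M) (A : Finset ℕ) (N n : ℕ)
    (hn : n ∉ A) (hcn : ‖c n‖ = M) : Psi A N c ≤ Psi (insert n A) N c := by
  have hM0 : 0 ≤ M := hcn ▸ norm_nonneg _
  set k := A.card with hk
  have hk1 : (insert n A).card = k + 1 := by rw [card_insert_of_notMem hn]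
  have hsqpos : 0 < Real.sqrt ((k:ℝ) + 1) := by positivity
  have hgain : (∑ j ∈ A, ‖c j‖) / Real.sqrt k + M * (1 / (2 * Real.sqrt ((k:ℝ)+1)))
      ≤ (∑ j ∈ insert n A, ‖c j‖) / Real.sqrt ((k:ℝ)+1) := by
    rw [sum_insert hn, hcn]
    set σ := ∑ j ∈ A, ‖c j‖ with hσ
    have hσ0 : 0 ≤ σ := sum_nonneg fun _ _ => norm_nonneg _
    have hσk : σ ≤ k * M := by
      have := sum_le_card_nsmul A (fun j => ‖c j‖) M (fun j _ => hM j)
      simpa [nsmul_eq_mul, hk] using this
    have hgap := sqrt_gap k
    have hgapM := mul_le_mul_of_nonneg_left hgap hM0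
    rcases Nat.eq_zero_or_pos k with h0 | hpos
    · have hσz : σ = 0 := by
        have : (k:ℝ) = 0 := by exact_mod_cast h0
        rw [this] at hσk
        linarith
      have hkz : (k:ℝ) = 0 := by exact_mod_cast h0
      rw [hσz, hkz]
      simp only [zero_div, zero_add, add_zero, Real.sqrt_one, mul_one, div_one]
      linarith
    · have hkpos : (0:ℝ) < k := by exact_mod_cast hpos
      have hbpos : 0 < Real.sqrt (k:ℝ) := Real.sqrt_pos.2 hkpos
      have hab : Real.sqrt (k:ℝ) ≤ Real.sqrt ((k:ℝ)+1) := Real.sqrt_le_sqrt (by linarith)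
      have h1 : (M + σ) / Real.sqrt ((k:ℝ)+1) - σ / Real.sqrt k
          = M / Real.sqrt ((k:ℝ)+1) - σ * (1/Real.sqrt k - 1/Real.sqrt ((k:ℝ)+1)) := by
        ring
      have h2 : 0 ≤ 1/Real.sqrt k - 1/Real.sqrt ((k:ℝ)+1) := by
        rw [sub_nonneg]
        exact one_div_le_one_div_of_le hbpos hab
      have h3 := mul_le_mul_of_nonneg_right hσk h2
      have h4 : M / Real.sqrt ((k:ℝ)+1) - k * M * (1/Real.sqrt k - 1/Real.sqrt ((k:ℝ)+1))
          = M * (Real.sqrt ((k:ℝ)+1) - Real.sqrt k) := by
        have e1 : (k:ℝ) / Real.sqrt k = Real.sqrt k := Real.div_sqrt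
        have e2 : ((k:ℝ)+1) / Real.sqrt ((k:ℝ)+1) = Real.sqrt ((k:ℝ)+1) := Real.div_sqrt
        calc M / Real.sqrt ((k:ℝ)+1) - k * M * (1/Real.sqrt k - 1/Real.sqrt ((k:ℝ)+1))
            = M * (((k:ℝ)+1) / Real.sqrt ((k:ℝ)+1) - (k:ℝ) / Real.sqrt k) := by ring
          _ = _ := by rw [e1, e2]
      linarith
  have hloss : ‖S A N c - S (insert n A) N c‖ ≤ M * ((3/2) * (1/ Real.sqrt ((k:ℝ)+1))) := by
    have hd := d_nonneg k
    have hdb := d_bound k
    -- rewrite
    have hS : S A N c - S (insert n A) N c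
        = (if n < N then ((w k n : ℝ) : 𝕜) * c n else 0)
          + ∑ j ∈ range N \ insert n A, (((w k j - w (k+1) j : ℝ)) : 𝕜) * c j := by
      unfold S
      rw [hk1, ← hk]
      have e1 : ∑ j ∈ range N \ A, ((w k j : ℝ) : 𝕜) * c j
          = (if n < N then ((w k n : ℝ) : 𝕜) * c n else 0)
            + ∑ j ∈ range N \ insert n A, ((w k j : ℝ) : 𝕜) * c j := by
        split_ifs with hnN
        · have : range N \ A = insert n (range N \ insert n A) := by
            ext j
            simp only [mem_sdiff, mem_range, mem_insert]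
            constructor
            · rintro ⟨h1, h2⟩
              by_cases hj : j = n
              · left; exact hj
              · right; exact ⟨h1, fun h => h.elim hj h2⟩
            · rintro (h | ⟨h1, h2⟩)
              · subst h; exact ⟨hnN, hn⟩
              · exact ⟨h1, fun h => h2 (Or.inr h)⟩
          rw [this, sum_insert (by simp)]
        · have : range N \ A = range N \ insert n A := by
            ext j
            simp only [mem_sdiff, mem_range, mem_insert]
            constructor
            · rintro ⟨h1, h2⟩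
              refine ⟨h1, fun h => h.elim (fun h => hnN (h ▸ h1)) h2⟩
            · rintro ⟨h1, h2⟩
              exact ⟨h1, fun h => h2 (Or.inr h)⟩
          rw [this, zero_add]
      rw [e1, add_sub_assoc, ← sum_sub_distrib]
      congr 1
      apply sum_congr rfl
      intro j _
      push_cast
      ring
    rw [hS]
    have hn1 : ‖(if n < N then ((w k n : ℝ) : 𝕜) * c n else 0)‖ ≤ M * (1 / Real.sqrt ((k:ℝ)+1)) := by
      split_ifs
      · rw [norm_mul, RCLike.norm_ofReal, abs_of_nonneg (w_nonneg _ _), hcn, mul_comm]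
        exact mul_le_mul_of_nonneg_left (w_le_of_le k n) hM0
      · rw [norm_zero]; positivity
    have hn2 : ‖∑ j ∈ range N \ insert n A, (((w k j - w (k+1) j : ℝ)) : 𝕜) * c j‖
        ≤ M * (1 / (2 * Real.sqrt ((k:ℝ)+1))) := by
      calc ‖∑ j ∈ range N \ insert n A, (((w k j - w (k+1) j : ℝ)) : 𝕜) * c j‖
          ≤ ∑ j ∈ range N \ insert n A, ‖(((w k j - w (k+1) j : ℝ)) : 𝕜) * c j‖ :=
            norm_sum_le _ _
        _ ≤ ∑ j ∈ range N \ insert n A,
            (if j < k + 1 then (1 / Real.sqrt ((k:ℝ) + 1) - 1 / Real.sqrt ((k:ℝ) + 1 + 1)) * M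
              else 0) := by
            apply sum_le_sum
            intro j _
            rw [norm_mul, RCLike.norm_ofReal, w_sub]
            split_ifs
            · rw [abs_of_nonneg hd]
              exact mul_le_mul_of_nonneg_left (hM j) hd
            · simp
        _ ≤ ∑ j ∈ range (k+1), (1 / Real.sqrt ((k:ℝ) + 1) - 1 / Real.sqrt ((k:ℝ) + 1 + 1)) * M := by
            rw [← sum_filter]
            apply sum_le_sum_of_subset_of_nonneg
            · intro j hj
              rw [mem_filter] at hj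
              exact mem_range.2 hj.2
            · intro j _ _
              exact mul_nonneg hd hM0
        _ = M * (((k:ℝ)+1) * (1 / Real.sqrt ((k:ℝ) + 1) - 1 / Real.sqrt ((k:ℝ) + 1 + 1))) := by
            rw [sum_const, card_range, nsmul_eq_mul]
            push_cast
            ring
        _ ≤ M * (1 / (2 * Real.sqrt ((k:ℝ)+1))) := mul_le_mul_of_nonneg_left hdb hM0
    calc _ ≤ _ := norm_add_le _ _
      _ ≤ M * (1 / Real.sqrt ((k:ℝ)+1)) + M * (1 / (2 * Real.sqrt ((k:ℝ)+1))) := add_le_add hn1 hn2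
      _ = M * ((3/2) * (1/ Real.sqrt ((k:ℝ)+1))) := by
        have : (1:ℝ) / (2 * Real.sqrt ((k:ℝ)+1)) = (1/2) * (1 / Real.sqrt ((k:ℝ)+1)) := by
          rw [one_div_mul_one_div]
        rw [this]; ring
  unfold Psi
  rw [hk1, ← hk]
  push_cast
  have htri : ‖S A N c‖ ≤ ‖S (insert n A) N c‖ + ‖S A N c - S (insert n A) N c‖ := by
    have := norm_add_le (S (insert n A) N c) (S A N c - S (insert n A) N c)
    simpa using this
  have e3 : (1:ℝ) / (2 * Real.sqrt ((k:ℝ)+1)) = (1/2) * (1 / Real.sqrt ((k:ℝ)+1)) := by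
    rw [one_div_mul_one_div]
  rw [e3] at hgain
  nlinarith

/-- Moving one coordinate of maximal modulus. -/
lemma psi_swap (c : ℕ → 𝕜) (hc : ∀ j, ‖c j‖ ≤ 1) {n m : ℕ} (hnm : n ≠ m) (hn : c n = 0)
    (hm : c m = 0) {a b : 𝕜} (ha : ‖a‖ = 1) (hb : ‖b‖ = 1) (A : Finset ℕ) (N : ℕ) :
    ∃ A' : Finset ℕ, Psi A N (Function.update c n a) ≤ Psi A' N (Function.update c m b) := by
  classical
  -- first replace `A` by `insert n A`
  have key : ∀ A : Finset ℕ, n ∈ A →
      ∃ A' : Finset ℕ, Psi A N (Function.update c n a) ≤ Psi A' N (Function.update c m b) := by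
    intro A hnA
    have hsum1 : ∑ j ∈ A, ‖Function.update c n a j‖ = 1 + ∑ j ∈ A.erase n, ‖c j‖ := by
      rw [← Finset.add_sum_erase A _ hnA]
      congr 1
      · simp [ha]
      · apply sum_congr rfl
        intro j hj
        rw [Function.update_of_ne (ne_of_mem_erase hj)]
    have hS1 : S A N (Function.update c n a) = S A N c := by
      unfold S
      apply sum_congr rfl
      intro j hj
      rw [mem_sdiff] at hj
      rw [Function.update_of_ne]
      rintro rfl
      exact hj.2 hnA
    by_cases hmA : m ∈ A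
    · refine ⟨A, le_of_eq ?_⟩
      have hsum2 : ∑ j ∈ A, ‖Function.update c m b j‖ = 1 + ∑ j ∈ A.erase m, ‖c j‖ := by
        rw [← Finset.add_sum_erase A _ hmA]
        congr 1
        · simp [hb]
        · apply sum_congr rfl
          intro j hj
          rw [Function.update_of_ne (ne_of_mem_erase hj)]
      have hS2 : S A N (Function.update c m b) = S A N c := by
        unfold S
        apply sum_congr rfl
        intro j hj
        rw [mem_sdiff] at hj
        rw [Function.update_of_ne]
        rintro rfl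
        exact hj.2 hmA
      have e1 : ∑ j ∈ A.erase n, ‖c j‖ = ∑ j ∈ A, ‖c j‖ := by
        rw [← Finset.add_sum_erase A _ hnA, hn]; simp
      have e2 : ∑ j ∈ A.erase m, ‖c j‖ = ∑ j ∈ A, ‖c j‖ := by
        rw [← Finset.add_sum_erase A _ hmA, hm]; simp
      unfold Psi
      rw [hsum1, hsum2, hS1, hS2, e1, e2]
    · refine ⟨insert m (A.erase n), le_of_eq ?_⟩
      have hmE : m ∉ A.erase n := fun h => hmA (mem_of_mem_erase h)
      have hcard : (insert m (A.erase n)).card = A.card := by
        rw [card_insert_of_notMem hmE, card_erase_of_mem hnA]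
        have : 0 < A.card := card_pos.2 ⟨n, hnA⟩
        omega
      have hsum2 : ∑ j ∈ insert m (A.erase n), ‖Function.update c m b j‖
          = 1 + ∑ j ∈ A.erase n, ‖c j‖ := by
        rw [sum_insert hmE]
        congr 1
        · simp [hb]
        · apply sum_congr rfl
          intro j hj
          rw [Function.update_of_ne]
          rintro rfl
          exact hmE hj
      have hS2 : S (insert m (A.erase n)) N (Function.update c m b) = S A N c := by
        unfold S
        rw [hcard]
        -- both equal the sum over `range N \ insert m A`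
        have e1 : ∑ j ∈ range N \ insert m (A.erase n),
            ((w A.card j : ℝ) : 𝕜) * Function.update c m b j
            = ∑ j ∈ range N \ insert m A, ((w A.card j : ℝ) : 𝕜) * c j := by
          symm
          apply sum_subset_zero_on_sdiff
          · intro j hj
            simp only [mem_sdiff, mem_insert, mem_erase, mem_range, not_or, not_and] at hj ⊢
            exact ⟨hj.1, hj.2.1, fun _ => hj.2.2⟩
          · intro j hj
            simp only [mem_sdiff, mem_insert, mem_erase, mem_range, not_or, not_and] at hj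
            obtain ⟨⟨h1, h2, h3⟩, h4⟩ := hj
            have hjn : j = n := by
              by_contra hne
              exact h4 h1 h2 (h3 hne)
            rw [Function.update_of_ne h2, hjn, hn, mul_zero]
          · intro j hj
            simp only [mem_sdiff, mem_insert, mem_range, not_or] at hj
            rw [Function.update_of_ne hj.2.1]
        have e2 : ∑ j ∈ range N \ A, ((w A.card j : ℝ) : 𝕜) * c j
            = ∑ j ∈ range N \ insert m A, ((w A.card j : ℝ) : 𝕜) * c j := by
          symm
          apply sum_subset_zero_on_sdiff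
          · intro j hj
            simp only [mem_sdiff, mem_insert, mem_range, not_or] at hj ⊢
            exact ⟨hj.1, hj.2.2⟩
          · intro j hj
            simp only [mem_sdiff, mem_insert, mem_range, not_or, not_and] at hj
            obtain ⟨⟨h1, h2⟩, h4⟩ := hj
            have hjm : j = m := by
              by_contra hne
              exact h4 h1 hne h2
            rw [hjm, hm, mul_zero]
          · intro j _
            rfl
        rw [e1, e2]
      unfold Psi
      rw [hsum1, hsum2, hS1, hS2, hcard]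
  by_cases hnA : n ∈ A
  · exact key A hnA
  · obtain ⟨A', hA'⟩ := key (insert n A) (mem_insert_self n A)
    refine ⟨A', le_trans ?_ hA'⟩
    apply psi_insert _ (M := 1) _ A N n hnA (by simp [ha])
    intro j
    by_cases hj : j = n
    · subst hj; simp [ha]
    · rw [Function.update_of_ne hj]; exact hc j

end Pool.Agent.H75R3.PropA
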