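import Pool.Agent.H75R3.PropA1

namespace Pool.Agent.H75R3.PropA

open Finset
open scoped BoundedContinuousFunction

universe u

/-- The index set of the norming functionals. -/
structure Idx (𝕜 : Type u) [RCLike 𝕜] : Type u where
  /-- the finite set -/
  A : Finset ℕ
  /-- the cut-off -/
  N : ℕ
  /-- the phases on `A` -/
  ε : ℕ → 𝕜
  /-- the phase of the weighted sum -/
  δ : 𝕜
  hε : ∀ n, ‖ε n‖ ≤ 1
  hδ : ‖δ‖ ≤ 1

variable (𝕜 : Type u) [RCLike 𝕜]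

instance : TopologicalSpace (Idx 𝕜) := ⊥

instance : DiscreteTopology (Idx 𝕜) := ⟨rfl⟩

variable {𝕜}

/-- The coefficients of the norming functionals. -/
noncomputable def κ (q : Idx 𝕜) (n : ℕ) : 𝕜 :=
  if n ∈ q.A then q.ε n * (((1 / Real.sqrt q.A.card : ℝ)) : 𝕜)
  else if n < q.N then q.δ * ((((1/3) * w q.A.card n : ℝ)) : 𝕜) else 0

lemma κ_norm_le (q : Idx 𝕜) (n : ℕ) : ‖κ q n‖ ≤ 1 := by
  unfold κ
  split_ifs with h1 h2
  · rw [norm_mul, RCLike.norm_ofReal, abs_of_nonneg (by positivity)]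
    have hc : (1:ℝ) ≤ q.A.card := by
      have : 0 < q.A.card := card_pos.2 ⟨n, h1⟩
      exact_mod_cast this
    have h : 1 / Real.sqrt q.A.card ≤ 1 := by
      rw [div_le_one (by positivity), Real.one_le_sqrt]
      exact hc
    have h0 : 0 ≤ 1 / Real.sqrt q.A.card := by positivity
    have := q.hε n
    nlinarith [norm_nonneg (q.ε n)]
  · rw [norm_mul, RCLike.norm_ofReal, abs_of_nonneg (mul_nonneg (by norm_num) (w_nonneg _ _))]
    have h : (1/3) * w q.A.card n ≤ 1 := by have := w_le_one q.A.card n; linarith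
    have h0 : 0 ≤ (1/3) * w q.A.card n := mul_nonneg (by norm_num) (w_nonneg _ _)
    have := q.hδ
    nlinarith [norm_nonneg q.δ]
  · simp

lemma κ_eq_zero (q : Idx 𝕜) {n : ℕ} (h : n ∉ q.A ∪ range q.N) : κ q n = 0 := by
  unfold κ
  rw [mem_union, not_or, mem_range] at h
  rw [if_neg h.1, if_neg h.2]

/-- The unit vectors as bounded functions on the index set. -/
noncomputable def E (𝕜 : Type u) [RCLike 𝕜] (n : ℕ) : Idx 𝕜 →ᵇ 𝕜 :=
  BoundedContinuousFunction.ofNormedAddCommGroupDiscrete (fun q => κ q n) 1 (fun q => κ_norm_le q n)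

@[simp] lemma E_apply (n : ℕ) (q : Idx 𝕜) : E 𝕜 n q = κ q n := rfl

/-- The index giving the `n`-th coordinate. -/
noncomputable def qn (𝕜 : Type u) [RCLike 𝕜] (n : ℕ) : Idx 𝕜 where
  A := {n}
  N := 0
  ε := fun _ => 1
  δ := 0
  hε := fun _ => by simp
  hδ := by simp

lemma κ_qn (n m : ℕ) : κ (qn 𝕜 n) m = if n = m then 1 else 0 := by
  unfold κ qn
  simp only [mem_singleton, not_lt_zero, if_false, card_singleton, Nat.cast_one,
    Real.sqrt_one, div_one, RCLike.ofReal_one, mul_one]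
  by_cases h : n = m
  · subst h; simp
  · rw [if_neg (fun h' => h h'.symm), if_neg h]

/-- The submodule. -/
noncomputable def X0 (𝕜 : Type u) [RCLike 𝕜] : Submodule 𝕜 (Idx 𝕜 →ᵇ 𝕜) :=
  (Submodule.span 𝕜 (Set.range (E 𝕜))).topologicalClosure

/-- The Banach space. -/
abbrev X (𝕜 : Type u) [RCLike 𝕜] : Type u := X0 𝕜

instance : CompleteSpace (X 𝕜) :=
  (Submodule.isClosed_topologicalClosure _).completeSpace_coe

/-- The basis. -/
noncomputable def e (𝕜 : Type u) [RCLike 𝕜] (n : ℕ) : X 𝕜 :=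
  ⟨E 𝕜 n, Submodule.le_topologicalClosure _ (Submodule.subset_span ⟨n, rfl⟩)⟩

/-- The evaluation functional. -/
noncomputable def ev (q : Idx 𝕜) : X 𝕜 →L[𝕜] 𝕜 :=
  (BoundedContinuousFunction.evalCLM 𝕜 q).comp (X0 𝕜).subtypeL

lemma ev_apply (q : Idx 𝕜) (x : X 𝕜) : ev q x = (x : Idx 𝕜 →ᵇ 𝕜) q := rfl

/-- The coordinate functionals. -/
noncomputable def f (𝕜 : Type u) [RCLike 𝕜] (n : ℕ) : X 𝕜 →L[𝕜] 𝕜 := ev (qn 𝕜 n)

lemma ev_e (q : Idx 𝕜) (n : ℕ) : ev q (e 𝕜 n) = κ q n := rfl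

lemma f_e (n m : ℕ) : f 𝕜 n (e 𝕜 m) = if n = m then 1 else 0 := by
  unfold f
  rw [ev_e, κ_qn]

lemma ev_norm_le (q : Idx 𝕜) (x : X 𝕜) : ‖ev q x‖ ≤ ‖x‖ :=
  BoundedContinuousFunction.norm_coe_le_norm (x : Idx 𝕜 →ᵇ 𝕜) q

lemma norm_le_iff {x : X 𝕜} {C : ℝ} (hC : 0 ≤ C) : ‖x‖ ≤ C ↔ ∀ q, ‖ev q x‖ ≤ C :=
  BoundedContinuousFunction.norm_le hC

lemma e_norm_le (n : ℕ) : ‖e 𝕜 n‖ ≤ 1 := by
  rw [norm_le_iff zero_le_one]
  intro q
  rw [ev_e]
  exact κ_norm_le q n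

lemma f_norm_le (n : ℕ) : ‖f 𝕜 n‖ ≤ 1 := by
  refine ContinuousLinearMap.opNorm_le_bound _ zero_le_one ?_
  intro x
  rw [one_mul]
  exact ev_norm_le _ x

lemma dense_span : Dense ((Submodule.span 𝕜 (Set.range (e 𝕜)) : Submodule 𝕜 (X 𝕜)) : Set (X 𝕜)) := by
  -- the image of the span in the ambient space is the span of the `E n`
  intro x
  rw [Metric.mem_closure_iff]
  intro r hr
  have hx : (x : Idx 𝕜 →ᵇ 𝕜) ∈ closure ((Submodule.span 𝕜 (Set.range (E 𝕜)) :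
      Submodule 𝕜 (Idx 𝕜 →ᵇ 𝕜)) : Set (Idx 𝕜 →ᵇ 𝕜)) := x.2
  rw [Metric.mem_closure_iff] at hx
  obtain ⟨y, hy, hxy⟩ := hx r hr
  have hmap : Submodule.span 𝕜 (Set.range (E 𝕜)) =
      (Submodule.span 𝕜 (Set.range (e 𝕜))).map (X0 𝕜).subtype := by
    rw [Submodule.map_span, ← Set.range_comp]
    rfl
  rw [hmap] at hy
  obtain ⟨z, hz, rfl⟩ := hy
  exact ⟨z, hz, hxy⟩

/-- The formula for the evaluations. -/
lemma ev_eq (q : Idx 𝕜) (x : X 𝕜) :
    ev q x = ∑ n ∈ q.A ∪ range q.N, κ q n * f 𝕜 n x := by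
  have hcl : ∀ x ∈ closure ((Submodule.span 𝕜 (Set.range (e 𝕜)) : Submodule 𝕜 (X 𝕜)) : Set (X 𝕜)),
      ev q x = ∑ n ∈ q.A ∪ range q.N, κ q n * f 𝕜 n x := by
    intro x hx
    have hc : IsClosed {x : X 𝕜 | ev q x = ∑ n ∈ q.A ∪ range q.N, κ q n * f 𝕜 n x} := by
      apply isClosed_eq (ev q).continuous
      exact continuous_finsetSum _ fun n _ => continuous_const.mul (f 𝕜 n).continuous
    refine closure_minimal ?_ hc hx
    intro y hy
    simp only [SetLike.mem_coe] at hy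
    refine Submodule.span_induction ?_ ?_ ?_ ?_ hy
    · rintro _ ⟨m, rfl⟩
      simp only [Set.mem_ofPred_eq, ev_e, f_e]
      simp only [mul_ite, mul_one, mul_zero]
      rw [sum_ite_eq']
      split_ifs with h
      · rfl
      · exact κ_eq_zero q h
    · simp
    · intro a b _ _ ha hb
      simp only [Set.mem_ofPred_eq, map_add, mul_add, sum_add_distrib] at *
      rw [ha, hb]
    · intro c a _ ha
      simp only [Set.mem_ofPred_eq, map_smul, smul_eq_mul] at *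
      rw [ha, mul_sum]
      apply sum_congr rfl
      intro n _
      ring
  exact hcl x (dense_span x)

lemma total (x : X 𝕜) (h : ∀ n, f 𝕜 n x = 0) : x = 0 := by
  rw [← norm_le_zero_iff, norm_le_iff le_rfl]
  intro q
  rw [ev_eq]
  simp [h]

lemma exists_phase (z : 𝕜) : ∃ c : 𝕜, ‖c‖ ≤ 1 ∧ c * z = (‖z‖ : 𝕜) := by
  obtain ⟨c, hc, h⟩ := RCLike.exists_norm_eq_mul_self z
  exact ⟨c, hc.le, h.symm⟩

lemma ev_split (q : Idx 𝕜) (x : X 𝕜) :
    ev q x = (∑ n ∈ q.A, q.ε n * f 𝕜 n x) * (((1 / Real.sqrt q.A.card : ℝ)) : 𝕜)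
      + q.δ * ((((1/3) : ℝ) : 𝕜) * S q.A q.N (fun n => f 𝕜 n x)) := by
  rw [ev_eq]
  have hdis : Disjoint q.A (range q.N \ q.A) := disjoint_sdiff
  have hun : q.A ∪ range q.N = q.A ∪ (range q.N \ q.A) := by
    rw [union_sdiff_self_eq_union]
  rw [hun, sum_union hdis]
  congr 1
  · rw [sum_mul]
    apply sum_congr rfl
    intro n hn
    unfold κ
    rw [if_pos hn]
    ring
  · unfold S
    rw [mul_sum, mul_sum]
    apply sum_congr rfl
    intro n hn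
    rw [mem_sdiff, mem_range] at hn
    unfold κ
    rw [if_neg hn.2, if_pos hn.1]
    push_cast
    ring

lemma Psi_le (A : Finset ℕ) (N : ℕ) (x : X 𝕜) : Psi A N (fun n => f 𝕜 n x) ≤ ‖x‖ := by
  choose ph hph1 hph2 using (exists_phase : ∀ z : 𝕜, ∃ c : 𝕜, ‖c‖ ≤ 1 ∧ c * z = (‖z‖ : 𝕜))
  let q : Idx 𝕜 := ⟨A, N, fun n => ph (f 𝕜 n x), ph (S A N (fun n => f 𝕜 n x)),
    fun n => hph1 _, hph1 _⟩
  have h := ev_norm_le q x
  rw [ev_split] at h
  have e1 : (∑ n ∈ q.A, q.ε n * f 𝕜 n x) * (((1 / Real.sqrt q.A.card : ℝ)) : 𝕜)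
      + q.δ * ((((1/3) : ℝ) : 𝕜) * S q.A q.N (fun n => f 𝕜 n x))
      = ((Psi A N (fun n => f 𝕜 n x) : ℝ) : 𝕜) := by
    show (∑ n ∈ A, ph (f 𝕜 n x) * f 𝕜 n x) * (((1 / Real.sqrt A.card : ℝ)) : 𝕜)
      + ph (S A N (fun n => f 𝕜 n x)) * ((((1/3) : ℝ) : 𝕜) * S A N (fun n => f 𝕜 n x)) = _
    have e2 : ph (S A N (fun n => f 𝕜 n x)) * ((((1/3) : ℝ) : 𝕜) * S A N (fun n => f 𝕜 n x))
        = (((1/3) : ℝ) : 𝕜) * (‖S A N (fun n => f 𝕜 n x)‖ : 𝕜) := by
      rw [← hph2]; ring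
    rw [e2]
    simp only [hph2]
    unfold Psi
    push_cast
    ring
  rw [e1, RCLike.norm_ofReal] at h
  exact le_trans (le_abs_self _) h

lemma norm_le_of_Psi {x : X 𝕜} {C : ℝ} (hC : 0 ≤ C)
    (h : ∀ A N, Psi A N (fun n => f 𝕜 n x) ≤ C) : ‖x‖ ≤ C := by
  rw [norm_le_iff hC]
  intro q
  refine le_trans ?_ (h q.A q.N)
  rw [ev_split]
  refine le_trans (norm_add_le _ _) ?_
  unfold Psi
  apply add_le_add
  · rw [norm_mul, RCLike.norm_ofReal, abs_of_nonneg (by positivity), mul_one_div]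
    apply div_le_div_of_nonneg_right _ (Real.sqrt_nonneg _)
    refine le_trans (norm_sum_le _ _) (sum_le_sum fun n _ => ?_)
    rw [norm_mul]
    have := q.hε n
    nlinarith [norm_nonneg (f 𝕜 n x)]
  · rw [norm_mul, norm_mul, RCLike.norm_ofReal, abs_of_nonneg (by norm_num)]
    have := q.hδ
    have h0 : 0 ≤ (1/3) * ‖S q.A q.N (fun n => f 𝕜 n x)‖ := by positivity
    nlinarith

/-- One-coordinate version of Property (A). -/
lemma swap_norm {x : X 𝕜} (hx : ∀ j, ‖f 𝕜 j x‖ ≤ 1) {n m : ℕ} (hnm : n ≠ m)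
    (hn : f 𝕜 n x = 0) (hm : f 𝕜 m x = 0) {a b : 𝕜} (ha : ‖a‖ = 1) (hb : ‖b‖ = 1) :
    ‖x + a • e 𝕜 n‖ ≤ ‖x + b • e 𝕜 m‖ := by
  apply norm_le_of_Psi (norm_nonneg _)
  intro A N
  have h1 : (fun j => f 𝕜 j (x + a • e 𝕜 n)) = Function.update (fun j => f 𝕜 j x) n a := by
    funext j
    rw [map_add, map_smul, f_e, smul_eq_mul]
    by_cases hj : j = n
    · subst hj; simp [hn]
    · rw [Function.update_of_ne hj, if_neg hj]; simp
  have h2 : (fun j => f 𝕜 j (x + b • e 𝕜 m)) = Function.update (fun j => f 𝕜 j x) m b := by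
    funext j
    rw [map_add, map_smul, f_e, smul_eq_mul]
    by_cases hj : j = m
    · subst hj; simp [hm]
    · rw [Function.update_of_ne hj, if_neg hj]; simp
  obtain ⟨A', hA'⟩ := psi_swap (fun j => f 𝕜 j x) hx hnm hn hm ha hb A N
  rw [h1]
  refine le_trans hA' ?_
  rw [← h2]
  exact Psi_le A' N _

lemma f_sum (A : Finset ℕ) (ε : ℕ → 𝕜) (j : ℕ) :
    f 𝕜 j (∑ n ∈ A, ε n • e 𝕜 n) = if j ∈ A then ε j else 0 := by
  rw [map_sum]
  simp only [map_smul, f_e, smul_eq_mul, mul_ite, mul_one, mul_zero]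
  rw [sum_ite_eq]

lemma propA_le (k : ℕ) : ∀ (x : X 𝕜) (A B : Finset ℕ) (ε η : ℕ → 𝕜),
    (∀ j, ‖f 𝕜 j x‖ ≤ 1) → A.card = k → B.card = k → Disjoint A B →
    (∀ n ∈ A, f 𝕜 n x = 0) → (∀ n ∈ B, f 𝕜 n x = 0) →
    (∀ n ∈ A, ‖ε n‖ = 1) → (∀ n ∈ B, ‖η n‖ = 1) →
    ‖x + ∑ n ∈ A, ε n • e 𝕜 n‖ ≤ ‖x + ∑ n ∈ B, η n • e 𝕜 n‖ := by
  induction k with
  | zero =>
    intro x A B ε η _ hA hB _ _ _ _ _
    rw [card_eq_zero] at hA hB
    subst hA; subst hB
    simp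
  | succ k ih =>
    intro x A B ε η hx hA hB hAB hA0 hB0 hε hη
    obtain ⟨a, A', haA', rfl, hA'⟩ := card_eq_succ.1 hA
    obtain ⟨b, B', hbB', rfl, hB'⟩ := card_eq_succ.1 hB
    have hab : a ≠ b := by
      rintro rfl
      exact (disjoint_left.1 hAB) (mem_insert_self _ _) (mem_insert_self _ _)
    have hxa : f 𝕜 a x = 0 := hA0 a (mem_insert_self _ _)
    have hxb : f 𝕜 b x = 0 := hB0 b (mem_insert_self _ _)
    have haB' : a ∉ B' := fun h => (disjoint_left.1 hAB) (mem_insert_self _ _) (mem_insert_of_mem h)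
    have hbA' : b ∉ A' := fun h => (disjoint_left.1 hAB) (mem_insert_of_mem h) (mem_insert_self _ _)
    have hεa : ‖ε a‖ = 1 := hε a (mem_insert_self _ _)
    have hηb : ‖η b‖ = 1 := hη b (mem_insert_self _ _)
    -- step 1
    have h1 := ih (x + ε a • e 𝕜 a) A' B' ε η
      (by
        intro j
        rw [map_add, map_smul, f_e, smul_eq_mul]
        by_cases hj : j = a
        · subst hj; rw [hxa]; simp [hεa]
        · rw [if_neg hj]; simpa using hx j)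
      hA' hB'
      (disjoint_of_subset_left (subset_insert _ _) (disjoint_of_subset_right (subset_insert _ _) hAB))
      (by
        intro n hn
        rw [map_add, map_smul, f_e, smul_eq_mul, hA0 n (mem_insert_of_mem hn), if_neg]
        · simp
        · rintro rfl; exact haA' hn)
      (by
        intro n hn
        rw [map_add, map_smul, f_e, smul_eq_mul, hB0 n (mem_insert_of_mem hn), if_neg]
        · simp
        · rintro rfl; exact haB' hn)
      (fun n hn => hε n (mem_insert_of_mem hn)) (fun n hn => hη n (mem_insert_of_mem hn))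
    -- step 2
    have h2 := swap_norm (x := x + ∑ n ∈ B', η n • e 𝕜 n)
      (by
        intro j
        rw [map_add, f_sum]
        split_ifs with hj
        · rw [hB0 j (mem_insert_of_mem hj), zero_add, hη j (mem_insert_of_mem hj)]
        · simpa using hx j)
      hab
      (by rw [map_add, f_sum, hxa, if_neg haB', add_zero])
      (by rw [map_add, f_sum, hxb, if_neg hbB', add_zero])
      hεa hηb
    rw [sum_insert haA', sum_insert hbB']
    calc ‖x + (ε a • e 𝕜 a + ∑ n ∈ A', ε n • e 𝕜 n)‖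
        = ‖x + ε a • e 𝕜 a + ∑ n ∈ A', ε n • e 𝕜 n‖ := by rw [add_assoc]
      _ ≤ ‖x + ε a • e 𝕜 a + ∑ n ∈ B', η n • e 𝕜 n‖ := h1
      _ = ‖x + ∑ n ∈ B', η n • e 𝕜 n + ε a • e 𝕜 a‖ := by rw [add_right_comm]
      _ ≤ ‖x + ∑ n ∈ B', η n • e 𝕜 n + η b • e 𝕜 b‖ := h2
      _ = _ := by rw [add_assoc, add_comm (η b • e 𝕜 b)]

end Pool.Agent.H75R3.PropA
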