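import Pool.Agent.H75R3.PropA2

namespace Pool.Agent.H75R3.PropA

open Finset Filter Topology

universe u

variable {𝕜 : Type u} [RCLike 𝕜]

/-- truncation of the coordinates -/
lemma psi_trunc (c : ℕ → 𝕜) (M : ℕ) (A : Finset ℕ) (N : ℕ) :
    Psi A N (fun j => if j < M then c j else 0) ≤ Psi A (min N M) c := by
  unfold Psi
  apply add_le_add
  · apply div_le_div_of_nonneg_right _ (Real.sqrt_nonneg _)
    apply sum_le_sum
    intro j _
    dsimp only
    split_ifs
    · exact le_rfl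
    · rw [norm_zero]; exact norm_nonneg _
  · have : S A N (fun j => if j < M then c j else 0) = S A (min N M) c := by
      unfold S
      symm
      apply sum_subset_zero_on_sdiff
      · intro j hj
        rw [Finset.mem_sdiff, mem_range, lt_min_iff] at hj
        rw [Finset.mem_sdiff, mem_range]
        exact ⟨hj.1.1, hj.2⟩
      · intro j hj
        simp only [Finset.mem_sdiff, mem_range, lt_min_iff, not_and, not_not] at hj
        dsimp only
        rw [if_neg, mul_zero]
        intro hlt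
        exact hj.1.2 (hj.2 ⟨hj.1.1, hlt⟩)
      · intro j hj
        rw [Finset.mem_sdiff, mem_range, lt_min_iff] at hj
        dsimp only
        rw [if_pos hj.1.2]
    rw [this]

/-- The partial sum projection over a finite set. -/
noncomputable def proj (F : Finset ℕ) : X 𝕜 →L[𝕜] X 𝕜 :=
  ∑ n ∈ F, (f 𝕜 n).smulRight (e 𝕜 n)

lemma proj_apply (F : Finset ℕ) (x : X 𝕜) : proj F x = ∑ n ∈ F, f 𝕜 n x • e 𝕜 n := by
  unfold proj
  rw [_root_.sum_apply]
  rfl

lemma f_proj (F : Finset ℕ) (x : X 𝕜) (j : ℕ) : f 𝕜 j (proj F x) = if j ∈ F then f 𝕜 j x else 0 := by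
  rw [proj_apply, f_sum F (fun n => f 𝕜 n x) j]

lemma proj_range_norm_le (M : ℕ) (x : X 𝕜) : ‖proj (range M) x‖ ≤ ‖x‖ := by
  apply norm_le_of_Psi (norm_nonneg _)
  intro A N
  have h : (fun n => f 𝕜 n (proj (range M) x)) = fun j => if j < M then f 𝕜 j x else 0 := by
    funext j
    rw [f_proj]
    simp only [mem_range]
  rw [h]
  exact (psi_trunc (fun j => f 𝕜 j x) M A N).trans (Psi_le _ _ _)

lemma proj_span {y : X 𝕜} (hy : y ∈ Submodule.span 𝕜 (Set.range (e 𝕜))) :
    ∀ᶠ M in atTop, proj (range M) y = y := by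
  refine Submodule.span_induction ?_ ?_ ?_ ?_ hy
  · rintro _ ⟨m, rfl⟩
    filter_upwards [eventually_gt_atTop m] with M hM
    rw [proj_apply]
    simp only [f_e, ite_smul, one_smul, zero_smul]
    rw [sum_ite_eq', if_pos (mem_range.2 hM)]
  · filter_upwards with M
    rw [map_zero]
  · intro a b _ _ ha hb
    filter_upwards [ha, hb] with M ha hb
    rw [map_add, ha, hb]
  · intro c a _ ha
    filter_upwards [ha] with M ha
    rw [map_smul, ha]

/-- The sequence is a Schauder basis. -/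
lemma schauder (x : X 𝕜) : Tendsto (fun M => ∑ n ∈ range M, f 𝕜 n x • e 𝕜 n) atTop (𝓝 x) := by
  rw [Metric.tendsto_atTop]
  intro r hr
  obtain ⟨y, hy, hxy⟩ := Metric.mem_closure_iff.1 (dense_span x) (r/2) (by positivity)
  obtain ⟨M0, hM0⟩ := eventually_atTop.1 (proj_span hy)
  refine ⟨M0, fun M hM => ?_⟩
  rw [← proj_apply]
  have h1 : proj (range M) x - x = proj (range M) (x - y) - (x - y) := by
    rw [map_sub, hM0 M hM]; abel
  rw [dist_eq_norm, h1]
  rw [dist_eq_norm] at hxy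
  calc ‖proj (range M) (x - y) - (x - y)‖ ≤ ‖proj (range M) (x - y)‖ + ‖x - y‖ := norm_sub_le _ _
    _ ≤ ‖x - y‖ + ‖x - y‖ := by
      have := proj_range_norm_le M (x - y)
      linarith
    _ < r := by linarith

lemma sum_inv_sqrt_le (A : Finset ℕ) :
    ∑ n ∈ A, 1 / Real.sqrt ((n:ℝ) + 1) ≤ 2 * Real.sqrt A.card := by
  induction A using Finset.induction_on_max with
  | empty => simp
  | insert m A hm ih =>
    have hmA : m ∉ A := fun h => lt_irrefl _ (hm m h)
    rw [sum_insert hmA, card_insert_of_notMem hmA]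
    have hcard : A.card ≤ m := by
      have : A ⊆ range m := fun j hj => mem_range.2 (hm j hj)
      simpa using card_le_card this
    have h1 : 1 / Real.sqrt ((m:ℝ) + 1) ≤ 1 / Real.sqrt ((A.card:ℝ) + 1) := by
      apply one_div_le_one_div_of_le (by positivity)
      apply Real.sqrt_le_sqrt
      have : (A.card:ℝ) ≤ m := by exact_mod_cast hcard
      linarith
    have h2 := sqrt_gap A.card
    have h3 : (1:ℝ) / (2 * Real.sqrt ((A.card:ℝ)+1)) = (1/2) * (1 / Real.sqrt ((A.card:ℝ)+1)) := by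
      rw [one_div_mul_one_div]
    rw [h3] at h2
    push_cast
    linarith

lemma alt_sum (N : ℕ) : ∀ u : ℕ → ℝ, (∀ n, 0 ≤ u n) → Antitone u →
    0 ≤ ∑ n ∈ range N, (-1:ℝ)^n * u n ∧ ∑ n ∈ range N, (-1:ℝ)^n * u n ≤ u 0 := by
  induction N with
  | zero => intro u hu _; simpa using hu 0
  | succ N ih =>
    intro u hu hanti
    have := ih (fun n => u (n+1)) (fun n => hu _) (fun a b hab => hanti (by omega))
    rw [sum_range_succ']
    have h1 : ∑ n ∈ range N, (-1:ℝ)^(n+1) * u (n+1) = - ∑ n ∈ range N, (-1:ℝ)^n * u (n+1) := by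
      rw [← sum_neg_distrib]
      apply sum_congr rfl
      intro n _
      ring
    rw [h1]
    have h10 : u 1 ≤ u 0 := hanti (by omega)
    simp only [pow_zero, one_mul]
    simp only [zero_add] at this
    constructor <;> linarith [this.1, this.2]

/-- the coefficients of the test vectors -/
noncomputable def cf (n : ℕ) : ℝ := (-1)^n * (1 / Real.sqrt ((n:ℝ) + 1))

lemma abs_cf (n : ℕ) : |cf n| = 1 / Real.sqrt ((n:ℝ) + 1) := by
  unfold cf
  rw [abs_mul, abs_pow, abs_neg, abs_one, one_pow, one_mul, abs_of_nonneg (by positivity)]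

/-- test vectors -/
noncomputable def tv (𝕜 : Type u) [RCLike 𝕜] (L : ℕ) : X 𝕜 := ∑ n ∈ range L, ((cf n : ℝ) : 𝕜) • e 𝕜 n

lemma f_tv (L j : ℕ) : f 𝕜 j (tv 𝕜 L) = if j < L then ((cf j : ℝ) : 𝕜) else 0 := by
  unfold tv
  rw [f_sum (range L) (fun n => ((cf n : ℝ) : 𝕜)) j]
  simp only [mem_range]

lemma tv_norm_le (L : ℕ) : ‖tv 𝕜 L‖ ≤ 3 := by
  apply norm_le_of_Psi (by norm_num)
  intro A N
  have h : (fun n => f 𝕜 n (tv 𝕜 L)) = fun j => if j < L then ((cf j : ℝ) : 𝕜) else 0 := by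
    funext j
    exact f_tv L j
  rw [h]
  refine (psi_trunc (fun j => ((cf j : ℝ) : 𝕜)) L A N).trans ?_
  set N' := min N L
  set k := A.card with hk
  unfold Psi
  have hA := sum_inv_sqrt_le A
  rw [← hk] at hA ⊢
  have h1 : (∑ n ∈ A, ‖((cf n : ℝ) : 𝕜)‖) / Real.sqrt k ≤ 2 := by
    have e1 : ∑ n ∈ A, ‖((cf n : ℝ) : 𝕜)‖ = ∑ n ∈ A, 1 / Real.sqrt ((n:ℝ) + 1) := by
      apply sum_congr rfl
      intro n _
      rw [RCLike.norm_ofReal, abs_cf]
    rw [e1]
    exact div_le_of_le_mul₀ (Real.sqrt_nonneg _) (by norm_num) hA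
  have h2 : ‖S A N' (fun j => ((cf j : ℝ) : 𝕜))‖ ≤ 3 := by
    have e2 : S A N' (fun j => ((cf j : ℝ) : 𝕜)) = ((∑ n ∈ range N' \ A, w k n * cf n : ℝ) : 𝕜) := by
      unfold S
      push_cast
      rfl
    rw [e2, RCLike.norm_ofReal]
    set v : ℕ → ℝ := fun n => w k n * (1 / Real.sqrt ((n:ℝ) + 1)) with hv
    have hv0 : ∀ n, 0 ≤ v n := fun n => mul_nonneg (w_nonneg _ _) (by positivity)
    have hvanti : Antitone v := by
      intro a b hab
      apply mul_le_mul (w_anti_right hab) _ (by positivity) (w_nonneg _ _)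
      apply one_div_le_one_div_of_le (by positivity)
      apply Real.sqrt_le_sqrt
      have : (a:ℝ) ≤ b := by exact_mod_cast hab
      linarith
    have e3 : ∑ n ∈ range N' \ A, w k n * cf n
        = ∑ n ∈ range N', (-1:ℝ)^n * v n - ∑ n ∈ range N' ∩ A, (-1:ℝ)^n * v n := by
      rw [eq_sub_iff_add_eq]
      have : ∑ n ∈ range N' \ A, w k n * cf n = ∑ n ∈ range N' \ A, (-1:ℝ)^n * v n := by
        apply sum_congr rfl
        intro n _
        rw [hv]
        unfold cf
        ring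
      rw [this, ← sum_union]
      · rw [sdiff_union_inter]
      · rw [disjoint_left]
        intro j hj hj'
        rw [Finset.mem_sdiff] at hj
        rw [mem_inter] at hj'
        exact hj.2 hj'.2
    have h3 := alt_sum N' v hv0 hvanti
    have h4 : |∑ n ∈ range N' ∩ A, (-1:ℝ)^n * v n| ≤ 2 := by
      calc |∑ n ∈ range N' ∩ A, (-1:ℝ)^n * v n| ≤ ∑ n ∈ range N' ∩ A, |(-1:ℝ)^n * v n| :=
            abs_sum_le_sum_abs _ _
        _ = ∑ n ∈ range N' ∩ A, v n := by
            apply sum_congr rfl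
            intro n _
            rw [abs_mul, abs_pow, abs_neg, abs_one, one_pow, one_mul, abs_of_nonneg (hv0 n)]
        _ ≤ ∑ n ∈ A, v n := sum_le_sum_of_subset_of_nonneg inter_subset_right
            (fun n _ _ => hv0 n)
        _ ≤ ∑ n ∈ A, (1 / Real.sqrt ((k:ℝ)+1)) * (1 / Real.sqrt ((n:ℝ) + 1)) := by
            apply sum_le_sum
            intro n _
            exact mul_le_mul_of_nonneg_right (w_le_of_le k n) (by positivity)
        _ = (1 / Real.sqrt ((k:ℝ)+1)) * ∑ n ∈ A, (1 / Real.sqrt ((n:ℝ) + 1)) := by rw [mul_sum]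
        _ ≤ (1 / Real.sqrt ((k:ℝ)+1)) * (2 * Real.sqrt k) :=
            mul_le_mul_of_nonneg_left hA (by positivity)
        _ ≤ 2 := by
            rw [one_div_mul_eq_div, div_le_iff₀ (by positivity)]
            have : Real.sqrt k ≤ Real.sqrt ((k:ℝ)+1) := Real.sqrt_le_sqrt (by linarith)
            linarith
    have h5 : v 0 ≤ 1 := by
      rw [hv]
      have := w_le_one k 0
      simpa using this
    rw [e3]
    calc |∑ n ∈ range N', (-1:ℝ)^n * v n - ∑ n ∈ range N' ∩ A, (-1:ℝ)^n * v n|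
        ≤ |∑ n ∈ range N', (-1:ℝ)^n * v n| + |∑ n ∈ range N' ∩ A, (-1:ℝ)^n * v n| := abs_sub _ _
      _ ≤ 1 + 2 := by
        apply add_le_add _ h4
        rw [abs_of_nonneg h3.1]
        exact h3.2.trans h5
      _ = 3 := by norm_num
  linarith

lemma even_lower (L : ℕ) :
    (1/6) * ∑ i ∈ range L, 1 / ((i:ℝ) + 1) ≤
      ‖proj ((range L).image (fun i => 2 * i)) (tv 𝕜 (2 * L))‖ := by
  refine le_trans ?_ (Psi_le ∅ (2 * L) _)
  unfold Psi
  simp only [sum_empty, zero_div, zero_add]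
  unfold S
  simp only [sdiff_empty, card_empty, f_proj, f_tv]
  have hinj : Set.InjOn (fun i : ℕ => 2 * i) (range L : Set ℕ) := by
    intro a _ b _ h
    simp only at h
    omega
  have e1 : ∑ n ∈ range (2 * L), ((w 0 n : ℝ) : 𝕜) *
      (if n ∈ (range L).image (fun i => 2 * i) then (if n < 2 * L then ((cf n : ℝ) : 𝕜) else 0) else 0)
      = ((∑ i ∈ range L, 1 / ((2:ℝ) * i + 1) : ℝ) : 𝕜) := by
    have hsub : (range L).image (fun i => 2 * i) ⊆ range (2 * L) := by
      intro j hj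
      rw [mem_image] at hj
      obtain ⟨i, hi, rfl⟩ := hj
      rw [mem_range] at hi ⊢
      omega
    rw [← sum_subset hsub]
    · rw [sum_image hinj]
      push_cast
      apply sum_congr rfl
      intro i hi
      rw [if_pos (mem_image_of_mem _ hi), if_pos (by rw [mem_range] at hi; omega)]
      have : w 0 (2 * i) * cf (2 * i) = 1 / ((2:ℝ) * i + 1) := by
        unfold w cf
        have hmax : max (2 * i) 0 = 2 * i := max_eq_left (Nat.zero_le _)
        rw [hmax, pow_mul]
        push_cast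
        norm_num
        rw [← mul_inv, Real.mul_self_sqrt (by positivity)]
      rw [← RCLike.ofReal_mul, this]
      push_cast
      rfl
    · intro j _ hj
      rw [if_neg hj, mul_zero]
  rw [e1, RCLike.norm_ofReal]
  have h0 : 0 ≤ ∑ i ∈ range L, 1 / ((2:ℝ) * i + 1) := sum_nonneg fun i _ => by positivity
  rw [abs_of_nonneg h0]
  have h2 : (1/2) * ∑ i ∈ range L, 1 / ((i:ℝ) + 1) ≤ ∑ i ∈ range L, 1 / ((2:ℝ) * i + 1) := by
    rw [mul_sum]
    apply sum_le_sum
    intro i _
    rw [one_div_mul_one_div]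
    apply one_div_le_one_div_of_le (by positivity)
    linarith
  linarith

lemma bounded_of_summable {g : ℕ → X 𝕜} (hg : Summable g) : ∃ C, ∀ F : Finset ℕ, ‖∑ n ∈ F, g n‖ ≤ C := by
  obtain ⟨s, hs⟩ := summable_iff_vanishing_norm.1 hg 1 one_pos
  refine ⟨∑ n ∈ s, ‖g n‖ + 1, fun F => ?_⟩
  have h1 : ∑ n ∈ F, g n = ∑ n ∈ F ∩ s, g n + ∑ n ∈ F \ s, g n := by
    rw [← sum_inter_add_sum_sdiff F s]
  rw [h1]
  refine (norm_add_le _ _).trans (add_le_add ?_ (hs _ sdiff_disjoint).le)
  exact (norm_sum_le _ _).trans (sum_le_sum_of_subset_of_nonneg inter_subset_right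
    (fun _ _ _ => norm_nonneg _))

lemma not_unconditional : ¬ ∀ x : X 𝕜, HasSum (fun n => f 𝕜 n x • e 𝕜 n) x := by
  intro h
  obtain ⟨C, hC⟩ := banach_steinhaus (g := fun F : Finset ℕ => (proj F : X 𝕜 →L[𝕜] X 𝕜)) (by
    intro x
    obtain ⟨C, hC⟩ := bounded_of_summable (h x).summable
    refine ⟨C, fun F => ?_⟩
    rw [proj_apply]
    exact hC F)
  have hbound : ∀ L : ℕ, ∑ i ∈ range L, 1 / ((i:ℝ) + 1) ≤ 6 * (C * 3) := by
    intro L
    have h1 := even_lower (𝕜 := 𝕜) L
    have h2 : ‖proj ((range L).image (fun i => 2 * i)) (tv 𝕜 (2 * L))‖ ≤ C * 3 := by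
      refine ((proj (𝕜 := 𝕜) ((range L).image (fun i => 2 * i))).le_opNorm _).trans ?_
      have hC0 : 0 ≤ C := (norm_nonneg _).trans (hC ∅)
      exact mul_le_mul (hC _) (tv_norm_le _) (norm_nonneg _) hC0
    linarith
  have hdiv := Real.tendsto_sum_range_one_div_nat_succ_atTop
  obtain ⟨L, hL⟩ := (hdiv.eventually_gt_atTop (6 * (C * 3))).exists
  exact absurd (hbound L) (not_le.2 hL)

end Pool.Agent.H75R3.PropA
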