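import Pool.Agent.H75R3.CompactHaar

set_option autoImplicit false
set_option linter.unusedSectionVars false

namespace H75R3

open Finset MeasureTheory Filter Topology
open scoped ENNReal

variable {X : Type*} [MeasurableSpace X] {μ : Measure X} [IsProbabilityMeasure μ]
  {g : X → ℝ} {p : ℝ≥0∞} [hp1 : Fact (1 ≤ p)]

theorem HB.shift_sum {hg : MeasurePreserving g μ (volume.restrict (Set.Ico (0:ℝ) 1))} {C : ℝ}
    (H : HB (p := p) (μ := μ) hg C) (h1 : 1 < p) (hpt : p ≠ ∞) (h2 : p ≠ 2)
    (M : Lp ℂ p μ →L[ℂ] Lp ℂ p μ) (z : X → ℂ)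
    (hM : ∀ f : Lp ℂ p μ, ∀ᵐ x ∂μ, (M f) x = z x * f x)
    (hz : ∀ k, ∀ᵐ x ∂μ, ‖z x - (le0 (nd k (g x)) : ℂ)‖ ≤ (1 / 2) ^ k) :
    ∃ K : Lp ℂ p μ →L[ℂ] Lp ℂ p μ, IsCompactOperator K ∧
      ∃ S : (Lp ℂ p μ × Lp ℂ p μ) ≃L[ℂ] Lp ℂ p μ,
        (M + K).comp S.toContinuousLinearMap = S.toContinuousLinearMap.comp (M.prodMap M) := by
  obtain ⟨A0, hA0⟩ := H.exists_A h1 hpt h2 0 (by norm_num)
  obtain ⟨A1, hA1⟩ := H.exists_A h1 hpt h2 1 (by norm_num)
  obtain ⟨B0, hB0⟩ := H.exists_B h1 hpt h2 0 (by norm_num)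
  obtain ⟨B1, hB1⟩ := H.exists_B h1 hpt h2 1 (by norm_num)
  obtain ⟨D, hD, _⟩ := H.exists_diag (fun m => (le0 m : ℂ)) 1 zero_le_one (fun m => by
    rw [Complex.norm_real]; exact le0_bound m)
  have ext := fun (T T' : Lp ℂ p μ →L[ℂ] Lp ℂ p μ) h =>
    ext_basis (eh μ p hg.measurable) (ph μ p hg.measurable) H.expand T T' h
  have e00 : B0.comp A0 = ContinuousLinearMap.id ℂ _ := by
    apply ext
    intro m
    rw [ContinuousLinearMap.comp_apply, hA0, hB0, if_pos (by omega)]
    rw [show (2 * m + 0) / 2 = m by omega]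
    rfl
  have e01 : B0.comp A1 = 0 := by
    apply ext
    intro m
    rw [ContinuousLinearMap.comp_apply, hA1, hB0, if_neg (by omega)]
    rfl
  have e10 : B1.comp A0 = 0 := by
    apply ext
    intro m
    rw [ContinuousLinearMap.comp_apply, hA0, hB1, if_neg (by omega)]
    rfl
  have e11 : B1.comp A1 = ContinuousLinearMap.id ℂ _ := by
    apply ext
    intro m
    rw [ContinuousLinearMap.comp_apply, hA1, hB1, if_pos (by omega)]
    rw [show (2 * m + 1) / 2 = m by omega]
    rfl
  have eid : A0.comp B0 + A1.comp B1 = ContinuousLinearMap.id ℂ _ := by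
    apply ext
    intro m
    rw [_root_.add_apply, ContinuousLinearMap.comp_apply, ContinuousLinearMap.comp_apply, hB0, hB1]
    rcases Nat.mod_two_eq_zero_or_one m with h | h
    · rw [if_pos h, if_neg (by omega), map_zero, add_zero, hA0,
        show 2 * (m / 2) + 0 = m by omega]
      rfl
    · rw [if_neg (by omega), if_pos h, map_zero, zero_add, hA1,
        show 2 * (m / 2) + 1 = m by omega]
      rfl
  have f00 : ∀ x, B0 (A0 x) = x := fun x => congrArg (fun T => T x) e00
  have f01 : ∀ x, B0 (A1 x) = 0 := fun x => congrArg (fun T => T x) e01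
  have f10 : ∀ x, B1 (A0 x) = 0 := fun x => congrArg (fun T => T x) e10
  have f11 : ∀ x, B1 (A1 x) = x := fun x => congrArg (fun T => T x) e11
  have fid : ∀ x, A0 (B0 x) + A1 (B1 x) = x := fun x => congrArg (fun T => T x) eid
  let S : (Lp ℂ p μ × Lp ℂ p μ) ≃L[ℂ] Lp ℂ p μ :=
    ContinuousLinearEquiv.equivOfInverse (A0.coprod A1) (B0.prod B1)
      (by
        rintro ⟨x, y⟩
        simp [f00, f01, f10, f11])
      (by
        intro x
        simp [fid])
  have hSapp : ∀ x y, S (x, y) = A0 x + A1 y := fun x y => rfl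
  set T1 := M - D with hT1
  have hT1c : IsCompactOperator T1 := by
    apply H.compact T1 1 zero_le_one
    intro k a
    rw [one_mul]
    exact layer_small hg M D z (fun m => (le0 m : ℂ)) k ((1 / 2) ^ k) hM hD (hz k) a
  set T2 := A0.comp (D.comp B0) + A1.comp (D.comp B1) - D with hT2
  have hT2e : ∀ m, T2 (eh μ p hg.measurable m) =
      ((le0 (m / 2) - le0 m : ℝ) : ℂ) • eh μ p hg.measurable m := by
    intro m
    rw [hT2, _root_.sub_apply, _root_.add_apply, ContinuousLinearMap.comp_apply,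
      ContinuousLinearMap.comp_apply, ContinuousLinearMap.comp_apply,
      ContinuousLinearMap.comp_apply, hB0, hB1, hD]
    push_cast
    rw [sub_smul]
    congr 1
    rcases Nat.mod_two_eq_zero_or_one m with h | h
    · rw [if_pos h, if_neg (by omega), map_zero, map_zero, add_zero, hD, map_smul, hA0,
        show 2 * (m / 2) + 0 = m by omega]
    · rw [if_neg (by omega), if_pos h, map_zero, map_zero, zero_add, hD, map_smul, hA1,
        show 2 * (m / 2) + 1 = m by omega]
  have hT2c : IsCompactOperator T2 := by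
    apply H.compact T2 C H.pos.le
    intro k a
    have h3 : T2 (∑ m ∈ L k, a m • eh μ p hg.measurable m) =
        ∑ m ∈ L k, a m • (((le0 (m / 2) - le0 m : ℝ) : ℂ) • eh μ p hg.measurable m) := by
      rw [map_sum]
      refine Finset.sum_congr rfl fun m _ => ?_
      rw [map_smul, hT2e]
    rw [h3]
    apply H.mult (L k) a _ ((1 / 2) ^ k) (by positivity)
    intro m hm
    rw [Complex.norm_real]
    exact le0_half hm
  refine ⟨A0.comp (M.comp B0) + A1.comp (M.comp B1) - M, ?_, S, ?_⟩
  · have e : A0.comp (M.comp B0) + A1.comp (M.comp B1) - M =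
        (A0.comp (T1.comp B0) + A1.comp (T1.comp B1) - T1) + T2 := by
      ext1 x
      simp only [hT1, hT2, _root_.sub_apply, _root_.add_apply, ContinuousLinearMap.comp_apply,
        map_sub]
      abel
    rw [e]
    apply IsCompactOperator.add _ hT2c
    apply IsCompactOperator.sub _ hT1c
    apply IsCompactOperator.add
    · exact (hT1c.comp_clm B0).clm_comp A0
    · exact (hT1c.comp_clm B1).clm_comp A1
  · apply ContinuousLinearMap.ext
    rintro ⟨x, y⟩
    rw [ContinuousLinearMap.comp_apply, ContinuousLinearMap.comp_apply]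
    show (M + (A0.comp (M.comp B0) + A1.comp (M.comp B1) - M)) (S (x, y)) = S (M x, M y)
    rw [hSapp, hSapp]
    simp only [_root_.add_apply, _root_.sub_apply, ContinuousLinearMap.comp_apply, map_add, f00,
      f01, f10, f11, map_zero, add_zero, zero_add]
    abel

end H75R3
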