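import Mathlib

set_option autoImplicit false

namespace H75R3

open Finset

/-- The trace of a bounded operator of small rank. -/
theorem norm_trace_le {V : Type*} [NormedAddCommGroup V] [InnerProductSpace ℂ V]
    [FiniteDimensional ℂ V] (A : V →ₗ[ℂ] V) (L : ℝ) (hA : ∀ v, ‖A v‖ ≤ L * ‖v‖) :
    ‖LinearMap.trace ℂ V A‖ ≤ Module.finrank ℂ (LinearMap.range A) * L := by
  classical
  set W := LinearMap.range A with hW
  have hfac : A = W.subtype ∘ₗ ((W.orthogonalProjectionOnto : V →ₗ[ℂ] W) ∘ₗ A) := by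
    ext v
    have hmem : A v ∈ W := LinearMap.mem_range_self A v
    have h := Submodule.orthogonalProjectionOnto_mem_subspace_eq_self (K := W) ⟨A v, hmem⟩
    simp only [LinearMap.comp_apply, Submodule.subtype_apply]
    have h2 := congrArg (Subtype.val) h
    exact h2.symm
  have h1 : LinearMap.trace ℂ V A = LinearMap.trace ℂ W
      (((W.orthogonalProjectionOnto : V →ₗ[ℂ] W) ∘ₗ A) ∘ₗ W.subtype) := by
    conv_lhs => rw [hfac]
    exact LinearMap.trace_comp_comm' _ _
  rw [h1, LinearMap.trace_eq_sum_inner _ (stdOrthonormalBasis ℂ W)]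
  refine (norm_sum_le _ _).trans ?_
  have h2 : ∀ i ∈ (Finset.univ : Finset (Fin (Module.finrank ℂ W))),
      ‖inner ℂ ((stdOrthonormalBasis ℂ W) i)
        ((((W.orthogonalProjectionOnto : V →ₗ[ℂ] W) ∘ₗ A) ∘ₗ W.subtype)
          ((stdOrthonormalBasis ℂ W) i))‖ ≤ L := by
    intro i _
    refine (norm_inner_le_norm _ _).trans ?_
    rw [(stdOrthonormalBasis ℂ W).norm_eq_one, one_mul]
    have h3 := W.norm_orthogonalProjectionOnto_apply_le
      (A (W.subtype ((stdOrthonormalBasis ℂ W) i)))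
    refine le_trans h3 ?_
    refine (hA _).trans (le_of_eq ?_)
    rw [Submodule.subtype_apply, Submodule.norm_coe, (stdOrthonormalBasis ℂ W).norm_eq_one, mul_one]
  refine (Finset.sum_le_sum h2).trans ?_
  simp

/-- Discrete Parseval identity on the roots of unity. -/
theorem parseval_roots (N n : ℕ) (hN : n < N) (ζ : ℂ) (hζ : IsPrimitiveRoot ζ N)
    (c : Fin (n + 1) → ℂ) :
    ∑ r ∈ range N, ‖∑ j : Fin (n + 1), c j * ζ ^ (r * (j : ℕ))‖ ^ 2 = N * ∑ j, ‖c j‖ ^ 2 := by
  have hN0 : N ≠ 0 := by omega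
  have hnorm : ‖ζ‖ = 1 := hζ.norm'_eq_one hN0
  have hcc : (starRingEnd ℂ) ζ * ζ = 1 := by
    rw [mul_comm, Complex.mul_conj, Complex.normSq_eq_norm_sq, hnorm]; simp
  have hCC : ((∑ r ∈ range N, ‖∑ j : Fin (n + 1), c j * ζ ^ (r * (j : ℕ))‖ ^ 2 : ℝ) : ℂ) =
      ((N * ∑ j, ‖c j‖ ^ 2 : ℝ) : ℂ) := by
    push_cast
    have e1 : ∀ z : ℂ, ((‖z‖ : ℂ)) ^ 2 = z * (starRingEnd ℂ) z := by
      intro z
      rw [Complex.mul_conj, Complex.normSq_eq_norm_sq]; push_cast; rfl
    simp_rw [e1, map_sum, Finset.sum_mul_sum]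
    rw [Finset.sum_comm]
    rw [Finset.mul_sum]
    refine Finset.sum_congr rfl fun j _ => ?_
    rw [Finset.sum_comm, Finset.sum_eq_single j]
    · have : ∀ r ∈ range N, c j * ζ ^ (r * (j : ℕ)) *
          (starRingEnd ℂ) (c j * ζ ^ (r * (j : ℕ))) = c j * (starRingEnd ℂ) (c j) := by
        intro r _
        rw [map_mul, map_pow]
        calc c j * ζ ^ (r * (j : ℕ)) * ((starRingEnd ℂ) (c j) * (starRingEnd ℂ) ζ ^ (r * (j : ℕ)))
            = c j * (starRingEnd ℂ) (c j) * ((starRingEnd ℂ) ζ * ζ) ^ (r * (j : ℕ)) := by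
              rw [mul_pow]; ring
          _ = _ := by rw [hcc]; simp
      rw [Finset.sum_congr rfl this, Finset.sum_const, Finset.card_range, nsmul_eq_mul]
    · intro k _ hkj
      set x : ℂ := ζ ^ (j : ℕ) * (starRingEnd ℂ) ζ ^ (k : ℕ) with hx
      have e2 : ∀ r ∈ range N, c j * ζ ^ (r * (j : ℕ)) *
          (starRingEnd ℂ) (c k * ζ ^ (r * (k : ℕ))) = c j * (starRingEnd ℂ) (c k) * x ^ r := by
        intro r _
        rw [map_mul, map_pow, hx, mul_pow, ← pow_mul, ← pow_mul, mul_comm (j : ℕ) r,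
          mul_comm (k : ℕ) r]
        ring
      rw [Finset.sum_congr rfl e2, ← Finset.mul_sum]
      have hxN : x ^ N = 1 := by
        rw [hx, mul_pow, ← pow_mul, ← pow_mul, mul_comm (j : ℕ) N, mul_comm (k : ℕ) N,
          pow_mul, pow_mul, hζ.pow_eq_one, ← map_pow, hζ.pow_eq_one]
        simp
      have hx1 : x ≠ 1 := by
        intro h
        have h3 : ζ ^ (j : ℕ) = ζ ^ (k : ℕ) := by
          calc ζ ^ (j : ℕ) = ζ ^ (j : ℕ) * ((starRingEnd ℂ) ζ * ζ) ^ (k : ℕ) := by rw [hcc]; simp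
            _ = x * ζ ^ (k : ℕ) := by rw [hx, mul_pow]; ring
            _ = ζ ^ (k : ℕ) := by rw [h, one_mul]
        have hj2 := j.2
        have hk2 := k.2
        have := hζ.pow_inj (by omega) (by omega) h3
        exact hkj (Fin.ext this.symm)
      have h4 : (∑ r ∈ range N, x ^ r) * (x - 1) = 0 := by
        rw [geom_sum_mul, hxN, sub_self]
      have h5 : ∑ r ∈ range N, x ^ r = 0 := by
        rcases mul_eq_zero.mp h4 with h | h
        · exact h
        · exact absurd (sub_eq_zero.mp h) hx1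
      rw [h5, mul_zero]
    · intro h; exact absurd (Finset.mem_univ _) h
  exact_mod_cast hCC

end H75R3
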