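import Pool.Agent.H75R3.Burk2

set_option autoImplicit false

namespace H75R3

open Finset MeasureTheory Filter Topology

theorem sum_pos_le {s : Finset ℕ} {f : ℕ → ℝ} (h : ∀ j, 0 ≤ f j) {j : ℕ} (hj : j ∈ s) :
    f j ≤ 1 + ∑ i ∈ s, f i := by
  have := Finset.single_le_sum (fun i _ => h i) hj
  linarith

/-- Burkholder type inequality for families of points obeying all the supergradient tests. -/
theorem subord (p : ℝ) (hp : 1 < p) (hp2 : p ≠ 2) : ∃ C : ℝ, 0 < C ∧
    ∀ (s : Finset ℕ) (x y : ℕ → ℝ),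
    (∀ β : ℝ → ℝ → ℝ, SGP β → ∑ j ∈ s, β (x j) (y j) ≤ 0) →
      ∑ j ∈ s, |y j| ^ p ≤ C * ∑ j ∈ s, |x j| ^ p := by
  have finish : ∀ κ : ℝ, 0 < κ → ∀ (s : Finset ℕ) (x y : ℕ → ℝ),
      ∑ j ∈ s, (|y j| - κ * |x j|) * (|x j| + |y j|) ^ (p - 1) ≤ 0 →
      ∑ j ∈ s, |y j| ^ p ≤ (2 * (κ * (1 + 2 * κ) ^ (p - 1) + (1 / 2) * (2 * κ) ^ p)) *
        ∑ j ∈ s, |x j| ^ p := by
    intro κ hκ s x y h
    have h1 := Finset.sum_le_sum (fun j (_ : j ∈ s) => final_lower p κ hp hκ (x j) (y j))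
    rw [Finset.sum_sub_distrib, ← Finset.mul_sum, ← Finset.mul_sum] at h1
    linarith
  rcases lt_or_gt_of_ne hp2 with hlt | hgt
  · -- 1 < p < 2
    have hκ : 0 < 1 / (p - 1) := by
      apply div_pos one_pos; linarith
    refine ⟨_, ?_, fun s x y h => finish (1 / (p - 1)) hκ s x y ?_⟩
    · positivity
    set D := ∑ j ∈ s, ((y j) ^ 2 - (x j) ^ 2) with hD
    set c := 2 / (p * (2 - p)) with hc
    have hc0 : 0 < c := by
      rw [hc]; apply div_pos two_pos; apply mul_pos (by linarith); linarith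
    have key : ∀ T : ℝ, 1 + ∑ j ∈ s, (|x j| + |y j|) ≤ T →
        c * ∑ j ∈ s, (|y j| - (1 / (p - 1)) * |x j|) * (|x j| + |y j|) ^ (p - 1) -
          D * (T ^ (p - 2) / (2 - p)) ≤ 0 := by
      intro T hT
      have hsum0 : 0 ≤ ∑ j ∈ s, (|x j| + |y j|) :=
        Finset.sum_nonneg fun j _ => by positivity
      have hT0 : 0 < T := by linarith
      have hTj : ∀ j ∈ s, |x j| + |y j| ≤ T := fun j hj =>
        (sum_pos_le (f := fun i => |x i| + |y i|) (fun i => by positivity) hj).trans hT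
      have hI : ∫ t in (0:ℝ)..T, ∑ j ∈ s, t ^ (p - 3) * ct1 t (x j) (y j) ≤ 0 := by
        rw [intervalIntegral.integral_of_le hT0.le]
        apply setIntegral_nonpos measurableSet_Ioc
        intro t ht
        rw [← Finset.mul_sum]
        apply mul_nonpos_of_nonneg_of_nonpos (Real.rpow_nonneg ht.1.le _)
        exact h _ (ct1_sgp t ht.1)
      rw [intervalIntegral.integral_finsetSum
        (fun j hj => (ct1_int p hp hlt (x j) (y j) T hT0 (hTj j hj)).1)] at hI
      rw [Finset.sum_congr rfl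
        (fun j hj => (ct1_int p hp hlt (x j) (y j) T hT0 (hTj j hj)).2)] at hI
      rw [Finset.sum_sub_distrib, ← Finset.mul_sum, ← Finset.sum_mul] at hI
      exact hI
    have hlim : Tendsto (fun T : ℝ =>
        c * ∑ j ∈ s, (|y j| - (1 / (p - 1)) * |x j|) * (|x j| + |y j|) ^ (p - 1) -
          D * (T ^ (p - 2) / (2 - p))) atTop (𝓝 (c * ∑ j ∈ s, (|y j| - (1 / (p - 1)) * |x j|) *
            (|x j| + |y j|) ^ (p - 1) - D * (0 / (2 - p)))) := by
      apply Tendsto.sub tendsto_const_nhds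
      apply Tendsto.mul tendsto_const_nhds
      apply Tendsto.div_const
      have h1 := tendsto_rpow_neg_atTop (show (0:ℝ) < 2 - p by linarith)
      have e : (fun x : ℝ => x ^ (-(2 - p))) = fun x : ℝ => x ^ (p - 2) := by
        funext x; congr 1; ring
      rwa [e] at h1
    rw [zero_div, mul_zero, sub_zero] at hlim
    have h2 := le_of_tendsto hlim (eventually_atTop.mpr ⟨_, key⟩)
    by_contra hcon
    rw [not_le] at hcon
    have := mul_pos hc0 hcon
    linarith
  · -- p > 2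
    have hκ : 0 < p - 1 := by linarith
    refine ⟨_, ?_, fun s x y h => finish (p - 1) hκ s x y ?_⟩
    · positivity
    set T := 1 + ∑ j ∈ s, (|x j| + |y j|) with hT
    have hsum0 : 0 ≤ ∑ j ∈ s, (|x j| + |y j|) :=
      Finset.sum_nonneg fun j _ => by positivity
    have hT0 : 0 < T := by linarith
    have hTj : ∀ j ∈ s, |x j| + |y j| ≤ T := fun j hj =>
      (sum_pos_le (f := fun i => |x i| + |y i|) (fun i => by positivity) hj)
    have hI : ∫ t in (0:ℝ)..T, ∑ j ∈ s, t ^ (p - 3) * bt1 t (x j) (y j) ≤ 0 := by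
      rw [intervalIntegral.integral_of_le hT0.le]
      apply setIntegral_nonpos measurableSet_Ioc
      intro t ht
      rw [← Finset.mul_sum]
      apply mul_nonpos_of_nonneg_of_nonpos (Real.rpow_nonneg ht.1.le _)
      exact h _ (bt1_sgp t ht.1)
    rw [intervalIntegral.integral_finsetSum
      (fun j hj => (bt1_int p hgt (x j) (y j) T hT0 (hTj j hj)).1)] at hI
    rw [Finset.sum_congr rfl
      (fun j hj => (bt1_int p hgt (x j) (y j) T hT0 (hTj j hj)).2)] at hI
    rw [← Finset.mul_sum] at hI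
    have hc0 : 0 < 2 / (p * (p - 1) * (p - 2)) := by
      apply div_pos two_pos
      apply mul_pos (mul_pos (by linarith) (by linarith)); linarith
    by_contra hcon
    rw [not_le] at hcon
    have := mul_pos hc0 hcon
    linarith

/-! ### dyadic trees -/

/-- The martingale on the dyadic tree with Haar coefficients `a`; the root is node `1`. -/
def tree {K : Type*} [AddCommGroup K] (a : ℕ → K) : ℕ → K
  | 0 => 0
  | 1 => a 0
  | (n + 2) => if n % 2 = 0 then tree a (n / 2 + 1) + a (n / 2 + 1)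
      else tree a (n / 2 + 1) - a (n / 2 + 1)

variable {K : Type*} [AddCommGroup K]

theorem tree_one (a : ℕ → K) : tree a 1 = a 0 := by rw [tree]

theorem tree_even (a : ℕ → K) (m : ℕ) (hm : 1 ≤ m) : tree a (2 * m) = tree a m + a m := by
  obtain ⟨k, rfl⟩ : ∃ k, m = k + 1 := ⟨m - 1, by omega⟩
  have e : 2 * (k + 1) = 2 * k + 2 := by ring
  rw [e, tree, if_pos (by omega)]
  have : 2 * k / 2 + 1 = k + 1 := by omega
  rw [this]

theorem tree_odd (a : ℕ → K) (m : ℕ) (hm : 1 ≤ m) : tree a (2 * m + 1) = tree a m - a m := by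
  obtain ⟨k, rfl⟩ : ∃ k, m = k + 1 := ⟨m - 1, by omega⟩
  have e : 2 * (k + 1) + 1 = (2 * k + 1) + 2 := by ring
  rw [e, tree, if_neg (by omega)]
  have : (2 * k + 1) / 2 + 1 = k + 1 := by omega
  rw [this]

/-- nodes of depth `n` -/
def L (n : ℕ) : Finset ℕ := Finset.Ico (2 ^ n) (2 ^ (n + 1))

theorem mem_L {n j : ℕ} : j ∈ L n ↔ 2 ^ n ≤ j ∧ j < 2 ^ (n + 1) := Finset.mem_Ico

theorem L_pos {n j : ℕ} (h : j ∈ L n) : 1 ≤ j := by
  have := (mem_L.mp h).1
  have h2 : 1 ≤ 2 ^ n := Nat.one_le_two_pow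
  omega

theorem L_child {n j : ℕ} (h : j ∈ L n) : 2 * j ∈ L (n + 1) ∧ 2 * j + 1 ∈ L (n + 1) := by
  obtain ⟨h1, h2⟩ := mem_L.mp h
  rw [mem_L, mem_L]
  have e1 : 2 ^ (n + 1) = 2 * 2 ^ n := by ring
  have e2 : 2 ^ (n + 1 + 1) = 2 * 2 ^ (n + 1) := by ring
  omega

theorem L_parent {n j : ℕ} (h : j ∈ L (n + 1)) : j / 2 ∈ L n := by
  obtain ⟨h1, h2⟩ := mem_L.mp h
  rw [mem_L]
  have e1 : 2 ^ (n + 1) = 2 * 2 ^ n := by ring
  have e2 : 2 ^ (n + 1 + 1) = 2 * 2 ^ (n + 1) := by ring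
  omega

theorem L_zero : L 0 = {1} := by
  ext j
  rw [mem_L, Finset.mem_singleton]
  omega

theorem sum_range_two_mul {A : Type*} [AddCommMonoid A] (h : ℕ → A) (N : ℕ) :
    ∑ i ∈ range (2 * N), h i = ∑ i ∈ range N, (h (2 * i) + h (2 * i + 1)) := by
  induction N with
  | zero => simp
  | succ N ih =>
    have : 2 * (N + 1) = 2 * N + 1 + 1 := by ring
    rw [this, Finset.sum_range_succ, Finset.sum_range_succ, ih, Finset.sum_range_succ, add_assoc]

theorem sum_L_succ {A : Type*} [AddCommMonoid A] (g : ℕ → A) (n : ℕ) :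
    ∑ j ∈ L (n + 1), g j = ∑ j ∈ L n, (g (2 * j) + g (2 * j + 1)) := by
  unfold L
  rw [Finset.sum_Ico_eq_sum_range, Finset.sum_Ico_eq_sum_range]
  have e1 : 2 ^ (n + 1 + 1) - 2 ^ (n + 1) = 2 * 2 ^ n := by
    have : 2 ^ (n + 1 + 1) = 2 * 2 ^ (n + 1) := by ring
    have : 2 ^ (n + 1) = 2 * 2 ^ n := by ring
    omega
  have e2 : 2 ^ (n + 1) - 2 ^ n = 2 ^ n := by
    have : 2 ^ (n + 1) = 2 * 2 ^ n := by ring
    omega
  rw [e1, e2, sum_range_two_mul]
  refine Finset.sum_congr rfl fun i _ => ?_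
  have e3 : 2 ^ (n + 1) + 2 * i = 2 * (2 ^ n + i) := by ring
  have e4 : 2 ^ (n + 1) + (2 * i + 1) = 2 * (2 ^ n + i) + 1 := by ring
  rw [e3, e4]

theorem card_L (n : ℕ) : (L n).card = 2 ^ n := by
  unfold L
  rw [Nat.card_Ico]
  have : 2 ^ (n + 1) = 2 * 2 ^ n := by ring
  omega

theorem tree_map {K' : Type*} [AddCommGroup K'] (φ : K →+ K') (a : ℕ → K) (n : ℕ) :
    ∀ j ∈ L n, φ (tree a j) = tree (fun m => φ (a m)) j := by
  induction n with
  | zero =>
    intro j hj
    rw [L_zero, Finset.mem_singleton] at hj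
    subst hj
    rw [tree_one, tree_one]
  | succ n ih =>
    intro j hj
    have hp := L_parent hj
    have h1 := ih _ hp
    have h2 := L_pos hp
    rcases Nat.mod_two_eq_zero_or_one j with h | h
    · have e : j = 2 * (j / 2) := by omega
      rw [e, tree_even _ _ h2, tree_even _ _ h2, map_add, h1]
    · have e : j = 2 * (j / 2) + 1 := by omega
      rw [e, tree_odd _ _ h2, tree_odd _ _ h2, map_sub, h1]

theorem tree_congr (a b : ℕ → K) (n : ℕ) (h : ∀ m, m < 2 ^ n → a m = b m) :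
    ∀ j ∈ L n, tree a j = tree b j := by
  induction n with
  | zero =>
    intro j hj
    rw [L_zero, Finset.mem_singleton] at hj
    subst hj
    rw [tree_one, tree_one, h 0 (by norm_num)]
  | succ n ih =>
    intro j hj
    have hp := L_parent hj
    have e0 : 2 ^ (n + 1) = 2 * 2 ^ n := by ring
    have h1 := ih (fun m hm => h m (by omega)) _ hp
    have h2 := L_pos hp
    have h3 := (mem_L.mp hp).2
    rcases Nat.mod_two_eq_zero_or_one j with hj2 | hj2
    · have e : j = 2 * (j / 2) := by omega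
      rw [e, tree_even _ _ h2, tree_even _ _ h2, h1, h _ h3]
    · have e : j = 2 * (j / 2) + 1 := by omega
      rw [e, tree_odd _ _ h2, tree_odd _ _ h2, h1, h _ h3]

theorem tree_add (a b : ℕ → K) (n : ℕ) :
    ∀ j ∈ L n, tree (fun m => a m + b m) j = tree a j + tree b j := by
  induction n with
  | zero =>
    intro j hj
    rw [L_zero, Finset.mem_singleton] at hj
    subst hj
    rw [tree_one, tree_one, tree_one]
  | succ n ih =>
    intro j hj
    have hp := L_parent hj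
    have h1 := ih _ hp
    have h2 := L_pos hp
    rcases Nat.mod_two_eq_zero_or_one j with h | h
    · have e : j = 2 * (j / 2) := by omega
      rw [e, tree_even _ _ h2, tree_even _ _ h2, tree_even _ _ h2, h1]
      abel
    · have e : j = 2 * (j / 2) + 1 := by omega
      rw [e, tree_odd _ _ h2, tree_odd _ _ h2, tree_odd _ _ h2, h1]
      abel

end H75R3
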