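import Pool.Agent.H75R3.TreeIneq

set_option autoImplicit false

namespace H75R3

open Finset MeasureTheory Filter Topology

/-- bilinear pairing at level `n` -/
noncomputable def PR (n : ℕ) (a b : ℕ → ℂ) : ℂ := (∑ j ∈ L n, tree a j * tree b j) / 2 ^ n

theorem PR_zero (a b : ℕ → ℂ) : PR 0 a b = a 0 * b 0 := by
  unfold PR
  rw [L_zero, Finset.sum_singleton, tree_one, tree_one, pow_zero, div_one]

theorem PR_succ (n : ℕ) (a b : ℕ → ℂ) :
    PR (n + 1) a b = PR n a b + (∑ m ∈ L n, a m * b m) / 2 ^ n := by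
  unfold PR
  rw [sum_L_succ]
  have h1 : ∑ j ∈ L n, (tree a (2 * j) * tree b (2 * j) +
      tree a (2 * j + 1) * tree b (2 * j + 1)) =
      2 * (∑ j ∈ L n, tree a j * tree b j + ∑ m ∈ L n, a m * b m) := by
    rw [← Finset.sum_add_distrib, Finset.mul_sum]
    refine Finset.sum_congr rfl fun j hj => ?_
    rw [tree_even _ _ (L_pos hj), tree_even _ _ (L_pos hj), tree_odd _ _ (L_pos hj),
      tree_odd _ _ (L_pos hj)]
    ring
  rw [h1, pow_succ]
  field_simp

/-- removing one binary digit -/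
def Uop {K : Type*} (r : ℕ) (b : ℕ → K) : ℕ → K := fun m => b (2 * m + r)

/-- weight correction -/
noncomputable def kap (c : ℕ → ℂ) : ℕ → ℂ := fun m => if m = 0 then c 0 else 2 * c m

theorem PR_adj (r : ℕ) (hr : r < 2) (b c : ℕ → ℂ) (n : ℕ) :
    PR n (Uop r b) c = PR (n + 1) b (Vop r (kap c)) := by
  induction n with
  | zero =>
    rw [PR_succ, PR_zero, PR_zero, L_zero, Finset.sum_singleton]
    interval_cases r
    · simp [Uop, Vop, kap]
    · simp [Uop, Vop, kap]
  | succ n ih =>
    rw [PR_succ, PR_succ (n + 1), ih]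
    congr 1
    rw [sum_L_succ, pow_succ]
    have h1 : ∑ m ∈ L n, (b (2 * m) * Vop r (kap c) (2 * m) +
        b (2 * m + 1) * Vop r (kap c) (2 * m + 1)) = 2 * ∑ m ∈ L n, Uop r b m * c m := by
      rw [Finset.mul_sum]
      refine Finset.sum_congr rfl fun m hm => ?_
      have hm1 := L_pos hm
      have e1 : 2 * m % 2 = 0 := by omega
      have e2 : 2 * m / 2 = m := by omega
      have e3 : (2 * m + 1) % 2 = 1 := by omega
      have e4 : (2 * m + 1) / 2 = m := by omega
      have hk : kap c m = 2 * c m := by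
        unfold kap
        rw [if_neg (by omega)]
      unfold Vop Uop
      rw [e1, e2, e3, e4, hk]
      interval_cases r
      · simp only [if_true, one_ne_zero, if_false, add_zero, mul_zero]; ring
      · simp only [if_true, zero_ne_one, if_false, zero_add, mul_zero]; ring
    rw [h1]
    field_simp

theorem exists_tree (n : ℕ) : ∀ g : ℕ → ℂ, ∃ c : ℕ → ℂ, (∀ m, 2 ^ n ≤ m → c m = 0) ∧
    ∀ j ∈ L n, tree c j = g j := by
  induction n with
  | zero =>
    intro g
    refine ⟨fun m => if m = 0 then g 1 else 0, ?_, ?_⟩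
    · intro m hm
      have h1 : 2 ^ 0 = 1 := rfl
      show (if m = 0 then g 1 else 0) = 0
      rw [if_neg (by omega)]
    · intro j hj
      rw [L_zero, Finset.mem_singleton] at hj
      subst hj
      rw [tree_one, if_pos rfl]
  | succ n ih =>
    intro g
    obtain ⟨c', hc', ht⟩ := ih (fun j => (g (2 * j) + g (2 * j + 1)) / 2)
    have e0 : 2 ^ (n + 1) = 2 * 2 ^ n := by ring
    set c : ℕ → ℂ := fun m => if m < 2 ^ n then c' m else
      if m < 2 ^ (n + 1) then (g (2 * m) - g (2 * m + 1)) / 2 else 0 with hc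
    have hcc : ∀ j ∈ L n, tree c j = tree c' j := by
      apply tree_congr
      intro m hm
      simp only [hc]
      rw [if_pos hm]
    refine ⟨c, ?_, ?_⟩
    · intro m hm
      simp only [hc]
      rw [if_neg (by omega), if_neg (by omega)]
    · intro j hj
      have hp := L_parent hj
      have h2 := L_pos hp
      have h3 := mem_L.mp hp
      have hcj : c (j / 2) = (g (2 * (j / 2)) - g (2 * (j / 2) + 1)) / 2 := by
        simp only [hc]
        rw [if_neg (by omega), if_pos (by omega)]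
      rcases Nat.mod_two_eq_zero_or_one j with h | h
      · have e : j = 2 * (j / 2) := by omega
        rw [e, tree_even _ _ h2, hcc _ hp, ht _ hp, hcj]
        ring
      · have e : j = 2 * (j / 2) + 1 := by omega
        rw [e, tree_odd _ _ h2, hcc _ hp, ht _ hp, hcj]
        ring

theorem PR_holder (p q : ℝ) (hpq : p.HolderConjugate q) (n : ℕ) (a b : ℕ → ℂ) :
    ‖PR n a b‖ ≤ (NP p n a) ^ (1 / p) * (NP q n b) ^ (1 / q) := by
  have h2n : (0:ℝ) < 2 ^ n := by positivity
  unfold PR NP
  have h1 : ‖∑ j ∈ L n, tree a j * tree b j‖ ≤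
      (∑ j ∈ L n, ‖tree a j‖ ^ p) ^ (1 / p) * (∑ j ∈ L n, ‖tree b j‖ ^ q) ^ (1 / q) := by
    refine (norm_sum_le _ _).trans ?_
    have := Real.inner_le_Lp_mul_Lq (L n) (fun j => ‖tree a j‖) (fun j => ‖tree b j‖) hpq
    simp only [abs_norm] at this
    refine le_trans (le_of_eq ?_) this
    exact Finset.sum_congr rfl fun j _ => norm_mul _ _
  have hsum : 1 / p + 1 / q = 1 := by
    have := hpq.inv_add_inv_eq_one
    rw [one_div, one_div]; exact this
  rw [norm_div, norm_pow, Complex.norm_ofNat]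
  rw [Real.div_rpow (by positivity) h2n.le, Real.div_rpow (by positivity) h2n.le,
    div_mul_div_comm, ← Real.rpow_add h2n, hsum, Real.rpow_one]
  exact div_le_div_of_nonneg_right h1 h2n.le

/-- Boundedness of the digit-removing operators, by duality. -/
theorem theoremU (p : ℝ) (hp : 1 < p) (hp2 : p ≠ 2) : ∃ C : ℝ, 0 < C ∧ ∀ (n : ℕ) (b : ℕ → ℂ)
    (r : ℕ), r < 2 → NP p n (Uop r b) ≤ C * NP p (n + 1) b := by
  have hpq := Real.HolderConjugate.conjExponent hp
  set q := Real.conjExponent p with hq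
  have hq1 : 1 < q := hpq.symm.lt
  have hp0 : 0 < p := by linarith
  have hq0 : 0 < q := by linarith
  have hq2 : q ≠ 2 := by
    intro h
    apply hp2
    have h1 := hpq.inv_add_inv_eq_one
    rw [h] at h1
    have h2 : p⁻¹ = 2⁻¹ := by linarith
    exact inv_injective h2
  obtain ⟨CA, hCA, hA⟩ := theoremA q hq1 hq2
  obtain ⟨CV, hCV, hV⟩ := theoremV q hq1 hq2
  set C' := CV * (2 ^ q * CA) with hC'
  have hC'0 : 0 < C' := by positivity
  refine ⟨(C' ^ (1 / q)) ^ p, by positivity, fun n b r hr => ?_⟩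
  set N := NP p n (Uop r b) with hN
  have hN0 : 0 ≤ N := NP_nonneg _ _ _
  set H : ℕ → ℂ := tree (Uop r b) with hH
  obtain ⟨c, hc, ht⟩ := exists_tree n (fun j => (‖H j‖ ^ (p - 2) : ℝ) * (starRingEnd ℂ) (H j))
  have hnorm : ∀ j, ‖((‖H j‖ ^ (p - 2) : ℝ) : ℂ) * (starRingEnd ℂ) (H j)‖ = ‖H j‖ ^ (p - 1) := by
    intro j
    rw [norm_mul, Complex.norm_real, RCLike.norm_conj, Real.norm_of_nonneg (by positivity)]
    rcases eq_or_ne (H j) 0 with h0 | h0
    · rw [h0, norm_zero, mul_zero, Real.zero_rpow (by linarith)]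
    · have hpos : 0 < ‖H j‖ := norm_pos_iff.mpr h0
      nth_rewrite 2 [← Real.rpow_one ‖H j‖]
      rw [← Real.rpow_add hpos]
      congr 1; ring
  have hNc : NP q n c = N := by
    rw [hN]
    unfold NP
    congr 1
    refine Finset.sum_congr rfl fun j hj => ?_
    rw [ht j hj, hnorm, ← Real.rpow_mul (norm_nonneg _)]
    congr 1
    have := hpq.sub_one_mul_conj
    exact this
  have hPR : PR n (Uop r b) c = (N : ℂ) := by
    rw [hN]
    unfold PR NP
    push_cast
    congr 1
    refine Finset.sum_congr rfl fun j hj => ?_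
    rw [ht j hj]
    have h3 : tree (Uop r b) j = H j := rfl
    rw [h3]
    have h4 : H j * (((‖H j‖ ^ (p - 2) : ℝ) : ℂ) * (starRingEnd ℂ) (H j)) =
        ((‖H j‖ ^ (p - 2) * (‖H j‖ ^ 2) : ℝ) : ℂ) := by
      push_cast
      rw [← Complex.mul_conj']
      ring
    rw [h4]
    norm_cast
    rcases eq_or_ne (H j) 0 with h0 | h0
    · rw [h0, norm_zero, Real.zero_rpow (by linarith : p ≠ 0)]
      norm_num
    · have hpos : 0 < ‖H j‖ := norm_pos_iff.mpr h0
      rw [← Real.rpow_natCast, ← Real.rpow_add hpos]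
      congr 1; push_cast; ring
  have hkap : NP q n (kap c) ≤ 2 ^ q * CA * N := by
    have e : kap c = fun m => (2:ℂ) * (((if m = 0 then (1/2 : ℝ) else 1 : ℝ) : ℂ) * c m) := by
      funext m
      unfold kap
      split_ifs with h
      · rw [h]; push_cast; ring
      · push_cast; ring
    have e2 : NP q n (kap c) =
        2 ^ q * NP q n (fun m => ((if m = 0 then (1/2 : ℝ) else 1 : ℝ) : ℂ) * c m) := by
      rw [e]
      unfold NP
      rw [← mul_div_assoc, Finset.mul_sum]
      congr 1
      refine Finset.sum_congr rfl fun j hj => ?_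
      have h5 := tree_map (AddMonoidHom.mulLeft (2:ℂ))
        (fun m => ((if m = 0 then (1/2 : ℝ) else 1 : ℝ) : ℂ) * c m) n j hj
      simp only [AddMonoidHom.coe_mulLeft] at h5
      rw [← h5, norm_mul, Complex.norm_ofNat, Real.mul_rpow (by norm_num) (norm_nonneg _)]
    rw [e2, mul_assoc]
    apply mul_le_mul_of_nonneg_left _ (by positivity)
    rw [← hNc]
    apply hA n c
    intro m
    split_ifs
    · rw [abs_of_nonneg (by norm_num)]; norm_num
    · simp
  have hkapsup : ∀ m, 2 ^ n ≤ m → kap c m = 0 := by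
    intro m hm
    unfold kap
    have h1 : 1 ≤ 2 ^ n := Nat.one_le_two_pow
    rw [if_neg (by omega), hc m hm, mul_zero]
  have hVk : NP q (n + 1) (Vop r (kap c)) ≤ C' * N := by
    refine (hV n (kap c) r hr hkapsup).trans ?_
    rw [hC', mul_assoc]
    exact mul_le_mul_of_nonneg_left hkap hCV.le
  have hmain : N ≤ (NP p (n + 1) b) ^ (1 / p) * (C' * N) ^ (1 / q) := by
    have h1 := PR_holder p q hpq (n + 1) b (Vop r (kap c))
    rw [← PR_adj r hr, hPR, Complex.norm_real, Real.norm_of_nonneg hN0] at h1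
    refine h1.trans ?_
    apply mul_le_mul_of_nonneg_left _ (Real.rpow_nonneg (NP_nonneg _ _ _) _)
    exact Real.rpow_le_rpow (NP_nonneg _ _ _) hVk (by positivity)
  rcases eq_or_lt_of_le hN0 with h0 | h0
  · rw [← h0]
    have := NP_nonneg p (n + 1) b
    positivity
  · have hsum : 1 / p + 1 / q = 1 := by
      have := hpq.inv_add_inv_eq_one
      rw [one_div, one_div]; exact this
    have h1 : N ^ (1 / p) ≤ C' ^ (1 / q) * (NP p (n + 1) b) ^ (1 / p) := by
      have h2 : N ^ (1 / p) * N ^ (1 / q) ≤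
          (C' ^ (1 / q) * (NP p (n + 1) b) ^ (1 / p)) * N ^ (1 / q) := by
        rw [← Real.rpow_add h0, hsum, Real.rpow_one]
        refine hmain.trans (le_of_eq ?_)
        rw [Real.mul_rpow hC'0.le hN0]
        ring
      exact le_of_mul_le_mul_right h2 (by positivity)
    have h2 := Real.rpow_le_rpow (by positivity) h1 hp0.le
    rw [← Real.rpow_mul hN0, one_div_mul_cancel (by linarith), Real.rpow_one,
      Real.mul_rpow (by positivity) (Real.rpow_nonneg (NP_nonneg _ _ _) _),
      ← Real.rpow_mul (NP_nonneg _ _ _), one_div_mul_cancel (by linarith), Real.rpow_one] at h2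
    exact h2

end H75R3
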