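import Pool.Agent.H75R3.Tree

set_option autoImplicit false

namespace H75R3

open Finset MeasureTheory Filter Topology

theorem two_step (β : ℝ → ℝ → ℝ) (h : SGP β) (x y a b : ℝ) (hab : |b| ≤ |a|) :
    β (x + a) (y + b) + β (x - a) (y - b) ≤ 2 * β x y := by
  obtain ⟨φ, ψ, hs⟩ := h.2 x y
  have h1 := hs a b hab
  have h2 := hs (-a) (-b) (by rw [abs_neg, abs_neg]; exact hab)
  rw [← sub_eq_add_neg, ← sub_eq_add_neg] at h2
  linarith

theorem four_step (β : ℝ → ℝ → ℝ) (h : SGP β) (x y a : ℝ) :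
    β (x + a) (y + a) + β (x + a) (y - a) + 2 * β (x - a) y ≤ 4 * β x y := by
  obtain ⟨φ, ψ, hs⟩ := h.2 x y
  have h1 := hs a a le_rfl
  have h2 := hs a (-a) (by rw [abs_neg])
  have h3 := hs (-a) 0 (by rw [abs_zero]; exact abs_nonneg _)
  rw [← sub_eq_add_neg] at h2
  rw [← sub_eq_add_neg, add_zero] at h3
  linarith

theorem transform_test (β : ℝ → ℝ → ℝ) (h : SGP β) (a θ : ℕ → ℝ) (hθ : ∀ m, |θ m| ≤ 1) (n : ℕ) :
    ∑ j ∈ L n, β (tree a j) (tree (fun m => θ m * a m) j) ≤ 0 := by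
  have hle : ∀ m, |θ m * a m| ≤ |a m| := by
    intro m
    rw [abs_mul]
    calc |θ m| * |a m| ≤ 1 * |a m| := mul_le_mul_of_nonneg_right (hθ m) (abs_nonneg _)
      _ = |a m| := one_mul _
  induction n with
  | zero =>
    rw [L_zero, Finset.sum_singleton, tree_one, tree_one]
    exact h.1 _ _ (hle 0)
  | succ n ih =>
    rw [sum_L_succ]
    have h1 : ∀ j ∈ L n, β (tree a (2 * j)) (tree (fun m => θ m * a m) (2 * j)) +
        β (tree a (2 * j + 1)) (tree (fun m => θ m * a m) (2 * j + 1)) ≤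
        2 * β (tree a j) (tree (fun m => θ m * a m) j) := by
      intro j hj
      have hj1 := L_pos hj
      rw [tree_even _ _ hj1, tree_even _ _ hj1, tree_odd _ _ hj1, tree_odd _ _ hj1]
      exact two_step β h _ _ _ _ (hle j)
    refine (Finset.sum_le_sum h1).trans ?_
    rw [← Finset.mul_sum]
    linarith

/-- the interleaving operators on coefficient sequences -/
def Vop {K : Type*} [Zero K] (r : ℕ) (a : ℕ → K) : ℕ → K :=
  fun m => if m % 2 = r then a (m / 2) else 0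

theorem V_test (β : ℝ → ℝ → ℝ) (h : SGP β) (a : ℕ → ℝ) (r ρ : ℕ) (hr : r < 2) (hρ : ρ < 2)
    (ha0 : ρ = 0 → a 0 = 0) (hsup : ∀ n, n % 2 ≠ ρ → ∀ m ∈ L n, a m = 0) (k : ℕ) :
    ∑ j ∈ L (ρ + 2 * k), β (tree a j) (tree (Vop r a) j) ≤ 0 := by
  induction k with
  | zero =>
    rw [mul_zero, add_zero]
    have hV0 : Vop r a 0 = if 0 = r then a 0 else 0 := by simp [Vop]
    have hV1 : Vop r a 1 = if 1 = r then a 0 else 0 := by simp [Vop]
    interval_cases ρ
    · rw [L_zero, Finset.sum_singleton, tree_one, tree_one, hV0, ha0 rfl]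
      split_ifs <;> exact h.1 _ _ le_rfl
    · rw [sum_L_succ, L_zero, Finset.sum_singleton]
      have ha1 : a 1 = 0 := hsup 0 (by norm_num) 1 (by rw [L_zero]; simp)
      rw [tree_even _ _ le_rfl, tree_even _ _ le_rfl, tree_odd _ _ le_rfl, tree_odd _ _ le_rfl,
        tree_one, tree_one, ha1, hV0, hV1]
      interval_cases r
      · simp only [if_true, add_zero, sub_zero, one_ne_zero, if_false]
        have := h.1 (a 0) (a 0) le_rfl
        linarith
      · simp only [if_true, add_zero, sub_zero, zero_ne_one, if_false, zero_add, zero_sub]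
        have h1 := h.1 (a 0) (a 0) le_rfl
        have h2 := h.1 (a 0) (- a 0) (by rw [abs_neg])
        linarith
  | succ k ih =>
    have e : ρ + 2 * (k + 1) = (ρ + 2 * k) + 1 + 1 := by ring
    rw [e, sum_L_succ, sum_L_succ]
    set n := ρ + 2 * k with hn
    have h1 : ∀ j ∈ L n, (β (tree a (2 * (2 * j))) (tree (Vop r a) (2 * (2 * j))) +
        β (tree a (2 * (2 * j) + 1)) (tree (Vop r a) (2 * (2 * j) + 1))) +
        (β (tree a (2 * (2 * j + 1))) (tree (Vop r a) (2 * (2 * j + 1))) +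
        β (tree a (2 * (2 * j + 1) + 1)) (tree (Vop r a) (2 * (2 * j + 1) + 1))) ≤
        4 * β (tree a j) (tree (Vop r a) j) := by
      intro j hj
      have hj1 := L_pos hj
      have hc := L_child hj
      have hp2 : (n + 1) % 2 ≠ ρ := by omega
      have ha2 : a (2 * j) = 0 := hsup _ hp2 _ hc.1
      have ha3 : a (2 * j + 1) = 0 := hsup _ hp2 _ hc.2
      have hVj : Vop r a j = 0 := by
        unfold Vop
        split_ifs with hjr
        · rcases Nat.eq_zero_or_pos n with h0 | h0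
          · have hj' : j = 1 := by
              rw [h0, L_zero] at hj; simpa using hj
            rw [hj']
            exact ha0 (by omega)
          · obtain ⟨n', hn'⟩ : ∃ n', n = n' + 1 := ⟨n - 1, by omega⟩
            have hjj : j ∈ L (n' + 1) := by rw [← hn']; exact hj
            exact hsup n' (by omega) _ (L_parent hjj)
        · rfl
      have hV2 : Vop r a (2 * j) = if 0 = r then a j else 0 := by
        unfold Vop
        have e1 : 2 * j % 2 = 0 := by omega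
        have e2 : 2 * j / 2 = j := by omega
        rw [e1, e2]
      have hV3 : Vop r a (2 * j + 1) = if 1 = r then a j else 0 := by
        unfold Vop
        have e1 : (2 * j + 1) % 2 = 1 := by omega
        have e2 : (2 * j + 1) / 2 = j := by omega
        rw [e1, e2]
      rw [tree_even a (2 * j) (by omega), tree_even (Vop r a) (2 * j) (by omega),
        tree_odd a (2 * j) (by omega), tree_odd (Vop r a) (2 * j) (by omega),
        tree_even a (2 * j + 1) (by omega), tree_even (Vop r a) (2 * j + 1) (by omega),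
        tree_odd a (2 * j + 1) (by omega), tree_odd (Vop r a) (2 * j + 1) (by omega),
        tree_even a j hj1, tree_even (Vop r a) j hj1, tree_odd a j hj1, tree_odd (Vop r a) j hj1,
        ha2, ha3, hVj, hV2, hV3]
      interval_cases r
      · simp only [if_true, add_zero, sub_zero, one_ne_zero, if_false]
        have := four_step β h (tree a j) (tree (Vop 0 a) j) (a j)
        linarith
      · simp only [if_true, add_zero, sub_zero, zero_ne_one, if_false]
        have h4 := four_step β h (tree a j) (tree (Vop 1 a) j) (-(a j))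
        rw [sub_neg_eq_add, sub_neg_eq_add, ← sub_eq_add_neg, ← sub_eq_add_neg] at h4
        linarith
    refine (Finset.sum_le_sum h1).trans ?_
    rw [← Finset.mul_sum]
    linarith

/-! ### complex versions -/

theorem norm_rpow_le (p : ℝ) (hp : 0 < p) (z : ℂ) :
    ‖z‖ ^ p ≤ 2 ^ p * (|z.re| ^ p + |z.im| ^ p) := by
  have h1 : ‖z‖ ≤ 2 * max (|z.re|) (|z.im|) := by
    have := Complex.norm_le_abs_re_add_abs_im z
    have h2 := le_max_left (|z.re|) (|z.im|)
    have h3 := le_max_right (|z.re|) (|z.im|)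
    linarith
  have h2 : 0 ≤ max (|z.re|) (|z.im|) := le_max_of_le_left (abs_nonneg _)
  calc ‖z‖ ^ p ≤ (2 * max (|z.re|) (|z.im|)) ^ p := Real.rpow_le_rpow (norm_nonneg _) h1 hp.le
    _ = 2 ^ p * (max (|z.re|) (|z.im|)) ^ p := Real.mul_rpow (by norm_num) h2
    _ ≤ 2 ^ p * (|z.re| ^ p + |z.im| ^ p) := by
        apply mul_le_mul_of_nonneg_left _ (by positivity)
        have h3 : 0 ≤ |z.re| ^ p := by positivity
        have h4 : 0 ≤ |z.im| ^ p := by positivity
        rcases max_choice (|z.re|) (|z.im|) with h | h <;> rw [h] <;> linarith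

theorem complex_of_real (p : ℝ) (hp : 0 < p) (s s' : Finset ℕ) (F G : ℕ → ℂ) (C : ℝ) (hC : 0 ≤ C)
    (hre : ∑ j ∈ s, |(G j).re| ^ p ≤ C * ∑ j ∈ s', |(F j).re| ^ p)
    (him : ∑ j ∈ s, |(G j).im| ^ p ≤ C * ∑ j ∈ s', |(F j).im| ^ p) :
    ∑ j ∈ s, ‖G j‖ ^ p ≤ (2 ^ p * 2 * C) * ∑ j ∈ s', ‖F j‖ ^ p := by
  have h1 : ∑ j ∈ s, ‖G j‖ ^ p ≤ 2 ^ p * (∑ j ∈ s, |(G j).re| ^ p + ∑ j ∈ s, |(G j).im| ^ p) := by
    rw [← Finset.sum_add_distrib, Finset.mul_sum]
    exact Finset.sum_le_sum fun j _ => norm_rpow_le p hp (G j)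
  have h2 : ∑ j ∈ s', |(F j).re| ^ p ≤ ∑ j ∈ s', ‖F j‖ ^ p :=
    Finset.sum_le_sum fun j _ => Real.rpow_le_rpow (abs_nonneg _) (Complex.abs_re_le_norm _) hp.le
  have h3 : ∑ j ∈ s', |(F j).im| ^ p ≤ ∑ j ∈ s', ‖F j‖ ^ p :=
    Finset.sum_le_sum fun j _ => Real.rpow_le_rpow (abs_nonneg _) (Complex.abs_im_le_norm _) hp.le
  refine h1.trans ?_
  have h4 := mul_le_mul_of_nonneg_left h2 hC
  have h5 := mul_le_mul_of_nonneg_left h3 hC
  have h6 : (0:ℝ) < 2 ^ p := by positivity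
  calc 2 ^ p * (∑ j ∈ s, |(G j).re| ^ p + ∑ j ∈ s, |(G j).im| ^ p)
      ≤ 2 ^ p * (C * ∑ j ∈ s', ‖F j‖ ^ p + C * ∑ j ∈ s', ‖F j‖ ^ p) := by
        apply mul_le_mul_of_nonneg_left _ h6.le
        linarith
    _ = _ := by ring

theorem tree_re (a : ℕ → ℂ) (n : ℕ) : ∀ j ∈ L n, (tree a j).re = tree (fun m => (a m).re) j :=
  tree_map Complex.reAddGroupHom a n

theorem tree_im (a : ℕ → ℂ) (n : ℕ) : ∀ j ∈ L n, (tree a j).im = tree (fun m => (a m).im) j :=
  tree_map Complex.imAddGroupHom a n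

/-- normalized p-th power norm at level `n` -/
noncomputable def NP (p : ℝ) (n : ℕ) (a : ℕ → ℂ) : ℝ := (∑ j ∈ L n, ‖tree a j‖ ^ p) / 2 ^ n

theorem NP_nonneg (p : ℝ) (n : ℕ) (a : ℕ → ℂ) : 0 ≤ NP p n a := by
  unfold NP; positivity

theorem NP_congr (p : ℝ) (n : ℕ) (a b : ℕ → ℂ) (h : ∀ m, m < 2 ^ n → a m = b m) :
    NP p n a = NP p n b := by
  unfold NP
  congr 1
  exact Finset.sum_congr rfl fun j hj => by rw [tree_congr a b n h j hj]

theorem NP_ext (p : ℝ) (n : ℕ) (a : ℕ → ℂ) (h : ∀ m ∈ L n, a m = 0) :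
    NP p (n + 1) a = NP p n a := by
  unfold NP
  rw [sum_L_succ]
  have h1 : ∑ j ∈ L n, (‖tree a (2 * j)‖ ^ p + ‖tree a (2 * j + 1)‖ ^ p) =
      2 * ∑ j ∈ L n, ‖tree a j‖ ^ p := by
    rw [Finset.mul_sum]
    refine Finset.sum_congr rfl fun j hj => ?_
    rw [tree_even _ _ (L_pos hj), tree_odd _ _ (L_pos hj), h j hj, add_zero, sub_zero]
    ring
  rw [h1, pow_succ]
  field_simp

/-- Unconditionality of the Haar system, real bounded multipliers. -/
theorem theoremA (p : ℝ) (hp : 1 < p) (hp2 : p ≠ 2) : ∃ C : ℝ, 0 < C ∧ ∀ (n : ℕ) (a : ℕ → ℂ)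
    (θ : ℕ → ℝ), (∀ m, |θ m| ≤ 1) → NP p n (fun m => (θ m : ℂ) * a m) ≤ C * NP p n a := by
  obtain ⟨C, hC, h⟩ := subord p hp hp2
  refine ⟨2 ^ p * 2 * C, by positivity, fun n a θ hθ => ?_⟩
  unfold NP
  rw [← mul_div_assoc]
  apply div_le_div_of_nonneg_right _ (by positivity)
  apply complex_of_real p (by linarith) _ _ _ _ C hC.le
  · have e1 : ∑ j ∈ L n, |(tree (fun m => (θ m : ℂ) * a m) j).re| ^ p =
        ∑ j ∈ L n, |tree (fun m => θ m * (a m).re) j| ^ p := by
      refine Finset.sum_congr rfl fun j hj => ?_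
      rw [tree_re _ n j hj]
      simp only [Complex.re_ofReal_mul]
    have e2 : ∑ j ∈ L n, |(tree a j).re| ^ p = ∑ j ∈ L n, |tree (fun m => (a m).re) j| ^ p := by
      refine Finset.sum_congr rfl fun j hj => ?_
      rw [tree_re _ n j hj]
    rw [e1, e2]
    exact h _ _ _ (fun β hβ => transform_test β hβ (fun m => (a m).re) θ hθ n)
  · have e1 : ∑ j ∈ L n, |(tree (fun m => (θ m : ℂ) * a m) j).im| ^ p =
        ∑ j ∈ L n, |tree (fun m => θ m * (a m).im) j| ^ p := by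
      refine Finset.sum_congr rfl fun j hj => ?_
      rw [tree_im _ n j hj]
      simp only [Complex.im_ofReal_mul]
    have e2 : ∑ j ∈ L n, |(tree a j).im| ^ p = ∑ j ∈ L n, |tree (fun m => (a m).im) j| ^ p := by
      refine Finset.sum_congr rfl fun j hj => ?_
      rw [tree_im _ n j hj]
    rw [e1, e2]
    exact h _ _ _ (fun β hβ => transform_test β hβ (fun m => (a m).im) θ hθ n)

theorem V_parity (p : ℝ) (hp : 1 < p) (hp2 : p ≠ 2) : ∃ C : ℝ, 0 < C ∧ ∀ (a : ℕ → ℂ) (r ρ k : ℕ),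
    r < 2 → ρ < 2 → (ρ = 0 → a 0 = 0) → (∀ n, n % 2 ≠ ρ → ∀ m ∈ L n, a m = 0) →
      NP p (ρ + 2 * k) (Vop r a) ≤ C * NP p (ρ + 2 * k) a := by
  obtain ⟨C, hC, h⟩ := subord p hp hp2
  refine ⟨2 ^ p * 2 * C, by positivity, fun a r ρ k hr hρ ha0 hsup => ?_⟩
  unfold NP
  rw [← mul_div_assoc]
  apply div_le_div_of_nonneg_right _ (by positivity)
  apply complex_of_real p (by linarith) _ _ _ _ C hC.le
  · have e1 : ∑ j ∈ L (ρ + 2 * k), |(tree (Vop r a) j).re| ^ p =
        ∑ j ∈ L (ρ + 2 * k), |tree (Vop r (fun m => (a m).re)) j| ^ p := by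
      refine Finset.sum_congr rfl fun j hj => ?_
      rw [tree_re _ _ j hj]
      congr 3
      funext m
      simp only [Vop]
      split_ifs <;> simp
    have e2 : ∑ j ∈ L (ρ + 2 * k), |(tree a j).re| ^ p =
        ∑ j ∈ L (ρ + 2 * k), |tree (fun m => (a m).re) j| ^ p := by
      refine Finset.sum_congr rfl fun j hj => ?_
      rw [tree_re _ _ j hj]
    rw [e1, e2]
    exact h _ _ _ (fun β hβ => V_test β hβ (fun m => (a m).re) r ρ hr hρ
      (fun h0 => by simp only [ha0 h0, Complex.zero_re])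
      (fun n hn m hm => by simp only [hsup n hn m hm, Complex.zero_re]) k)
  · have e1 : ∑ j ∈ L (ρ + 2 * k), |(tree (Vop r a) j).im| ^ p =
        ∑ j ∈ L (ρ + 2 * k), |tree (Vop r (fun m => (a m).im)) j| ^ p := by
      refine Finset.sum_congr rfl fun j hj => ?_
      rw [tree_im _ _ j hj]
      congr 3
      funext m
      simp only [Vop]
      split_ifs <;> simp
    have e2 : ∑ j ∈ L (ρ + 2 * k), |(tree a j).im| ^ p =
        ∑ j ∈ L (ρ + 2 * k), |tree (fun m => (a m).im) j| ^ p := by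
      refine Finset.sum_congr rfl fun j hj => ?_
      rw [tree_im _ _ j hj]
    rw [e1, e2]
    exact h _ _ _ (fun β hβ => V_test β hβ (fun m => (a m).im) r ρ hr hρ
      (fun h0 => by simp only [ha0 h0, Complex.zero_im])
      (fun n hn m hm => by simp only [hsup n hn m hm, Complex.zero_im]) k)

theorem norm_add_rpow_le (p : ℝ) (hp : 0 < p) (z w : ℂ) :
    ‖z + w‖ ^ p ≤ 2 ^ p * (‖z‖ ^ p + ‖w‖ ^ p) := by
  have h1 : ‖z + w‖ ≤ 2 * max ‖z‖ ‖w‖ := by
    have := norm_add_le z w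
    have h2 := le_max_left ‖z‖ ‖w‖
    have h3 := le_max_right ‖z‖ ‖w‖
    linarith
  have h2 : 0 ≤ max ‖z‖ ‖w‖ := le_max_of_le_left (norm_nonneg _)
  calc ‖z + w‖ ^ p ≤ (2 * max ‖z‖ ‖w‖) ^ p := Real.rpow_le_rpow (norm_nonneg _) h1 hp.le
    _ = 2 ^ p * (max ‖z‖ ‖w‖) ^ p := Real.mul_rpow (by norm_num) h2
    _ ≤ 2 ^ p * (‖z‖ ^ p + ‖w‖ ^ p) := by
        apply mul_le_mul_of_nonneg_left _ (by positivity)
        have h3 : 0 ≤ ‖z‖ ^ p := by positivity
        have h4 : 0 ≤ ‖w‖ ^ p := by positivity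
        rcases max_choice ‖z‖ ‖w‖ with h | h <;> rw [h] <;> linarith

theorem NP_add_le (p : ℝ) (hp : 0 < p) (n : ℕ) (a b : ℕ → ℂ) :
    NP p n (fun m => a m + b m) ≤ 2 ^ p * (NP p n a + NP p n b) := by
  unfold NP
  rw [← add_div, ← mul_div_assoc]
  apply div_le_div_of_nonneg_right _ (by positivity)
  rw [← Finset.sum_add_distrib, Finset.mul_sum]
  refine Finset.sum_le_sum fun j hj => ?_
  rw [tree_add a b n j hj]
  exact norm_add_rpow_le p hp _ _

theorem log_L {n m : ℕ} (h : m ∈ L n) : Nat.log 2 m = n := by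
  obtain ⟨h1, h2⟩ := mem_L.mp h
  exact Nat.log_eq_of_pow_le_of_lt_pow h1 h2

theorem NP_ext_many (p : ℝ) (n : ℕ) (a : ℕ → ℂ) (h : ∀ m, 2 ^ n ≤ m → a m = 0) (k : ℕ) :
    NP p (n + k) a = NP p n a := by
  induction k with
  | zero => rfl
  | succ k ih =>
    rw [← add_assoc, NP_ext, ih]
    intro m hm
    apply h
    refine le_trans ?_ (mem_L.mp hm).1
    exact Nat.pow_le_pow_right (by norm_num) (by omega)

theorem theta_sum (x : ℕ) :
    ((if (x ≠ 0 ∧ Nat.log 2 x % 2 = 0) ∨ (x = 0 ∧ 0 = 1) then (1:ℝ) else 0 : ℝ) : ℂ) +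
    ((if (x ≠ 0 ∧ Nat.log 2 x % 2 = 1) ∨ (x = 0 ∧ 1 = 1) then (1:ℝ) else 0 : ℝ) : ℂ) = 1 := by
  by_cases h0 : x = 0
  · simp [h0]
  · rcases Nat.mod_two_eq_zero_or_one (Nat.log 2 x) with hl | hl
    · simp [h0, hl]
    · simp [h0, hl]

/-- Boundedness of the interleaving operators. -/
theorem theoremV (p : ℝ) (hp : 1 < p) (hp2 : p ≠ 2) : ∃ C : ℝ, 0 < C ∧ ∀ (n : ℕ) (a : ℕ → ℂ)
    (r : ℕ), r < 2 → (∀ m, 2 ^ n ≤ m → a m = 0) → NP p (n + 1) (Vop r a) ≤ C * NP p n a := by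
  obtain ⟨CA, hCA, hA⟩ := theoremA p hp hp2
  obtain ⟨CV, hCV, hV⟩ := V_parity p hp hp2
  refine ⟨2 ^ p * (CV * CA + CV * CA), by positivity, fun n a r hr hsup => ?_⟩
  -- the two parity parts
  set θ : ℕ → ℕ → ℝ := fun ρ m =>
    if (m ≠ 0 ∧ Nat.log 2 m % 2 = ρ) ∨ (m = 0 ∧ ρ = 1) then 1 else 0 with hθ
  have hθ1 : ∀ ρ m, |θ ρ m| ≤ 1 := by
    intro ρ m
    simp only [hθ]
    split_ifs <;> simp
  have hpart : ∀ ρ, ρ < 2 → NP p (n + 1) (Vop r (fun m => (θ ρ m : ℂ) * a m)) ≤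
      (CV * CA) * NP p n a := by
    intro ρ hρ
    set b : ℕ → ℂ := fun m => (θ ρ m : ℂ) * a m with hb
    have hbsup : ∀ m, 2 ^ n ≤ m → b m = 0 := by
      intro m hm
      simp only [hb]
      rw [hsup m hm, mul_zero]
    have hb0 : ρ = 0 → b 0 = 0 := by
      intro h0
      simp [hb, hθ, h0]
    have hbpar : ∀ l, l % 2 ≠ ρ → ∀ m ∈ L l, b m = 0 := by
      intro l hl m hm
      have hm1 := L_pos hm
      have : θ ρ m = 0 := by
        simp only [hθ]
        rw [if_neg]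
        rw [log_L hm]
        push Not
        constructor
        · intro _; exact hl
        · intro h; omega
      simp only [hb]
      rw [this]
      simp
    have hVsup : ∀ m, 2 ^ (n + 1) ≤ m → Vop r b m = 0 := by
      intro m hm
      simp only [Vop]
      split_ifs
      · apply hbsup
        have : 2 ^ (n + 1) = 2 * 2 ^ n := by ring
        omega
      · rfl
    obtain ⟨k, i, hk⟩ : ∃ k i, ρ + 2 * k = n + 1 + i := by
      refine ⟨n + 1, (ρ + 2 * (n + 1)) - (n + 1), by omega⟩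
    have h1 := hV b r ρ k hr hρ hb0 hbpar
    rw [hk] at h1
    rw [NP_ext_many p (n + 1) (Vop r b) hVsup i] at h1
    have h2 : NP p (n + 1 + i) b = NP p n b := by
      rw [add_assoc]
      exact NP_ext_many p n b hbsup (1 + i)
    rw [h2] at h1
    refine h1.trans ?_
    rw [mul_assoc]
    exact mul_le_mul_of_nonneg_left (hA n a (θ ρ) (hθ1 ρ)) hCV.le
  have hsum : (Vop r a) = fun m => Vop r (fun m => (θ 0 m : ℂ) * a m) m +
      Vop r (fun m => (θ 1 m : ℂ) * a m) m := by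
    funext m
    simp only [Vop]
    split_ifs with h
    · have h01 : (θ 0 (m / 2) : ℂ) + (θ 1 (m / 2) : ℂ) = 1 := by
        exact theta_sum (m / 2)
      rw [← add_mul, h01, one_mul]
    · simp
  rw [hsum]
  refine (NP_add_le p (by linarith) (n + 1) _ _).trans ?_
  rw [mul_assoc, add_mul]
  apply mul_le_mul_of_nonneg_left _ (by positivity)
  exact add_le_add (hpart 0 (by norm_num)) (hpart 1 (by norm_num))

end H75R3
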